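import Pool.Agent.Lib.MP_97567f_al.U.SpecB

/-!
# MP_97567f_al, module Rf: the automorphisms fixing the three surfaces
-/

set_option autoImplicit false

namespace Pool.Agent.Lib.MP_97567f_al.U.TB

/-- The variables as units. -/
private noncomputable def Rf_u (i : Fin 3) : R3ˣ := ![r0_unit.unit, r1_unit.unit, r2_unit.unit] i

private theorem Rf_uval (i : Fin 3) : (Rf_u i : R3) = rr i := by
  fin_cases i <;> rfl

private theorem Rf_two {e : ℤ} {k : ℤ} (h : (2 : ℂ) ^ e = 2 ^ k) : e = k := by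
  have h1 := congrArg (fun z : ℂ => ‖z‖) h
  simp only [norm_zpow, Complex.norm_ofNat] at h1
  exact zpow_right_injective₀ (by norm_num : (0 : ℝ) < 2) (by norm_num) h1

private theorem Rf_mono {c : ℂ} {e1 e2 : ℤ}
    (h : algebraMap ℂ R2 c * ((qq_unit.unit ^ e1 * ll_unit.unit ^ e2 : R2ˣ) : R2) = 1) :
    c = 1 ∧ e1 = 0 ∧ e2 = 0 := by
  have key : ∀ a b : ℂ, a ≠ 0 → b ≠ 0 → c * (a ^ e1 * b ^ e2) = 1 := by
    intro a b ha hb
    obtain ⟨φ, h1, h2⟩ := R2_lift (S := ℂ) (IsUnit.mk0 a ha) (IsUnit.mk0 b hb)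
    have h3 := congrArg φ h
    rw [map_mul, map_one, AlgHom.commutes] at h3
    have h4 : φ ((qq_unit.unit ^ e1 * ll_unit.unit ^ e2 : R2ˣ) : R2) = a ^ e1 * b ^ e2 := by
      have h5 : ((Units.map (φ : R2 →* ℂ) (qq_unit.unit ^ e1 * ll_unit.unit ^ e2) : ℂˣ) : ℂ) =
          φ ((qq_unit.unit ^ e1 * ll_unit.unit ^ e2 : R2ˣ) : R2) := rfl
      rw [← h5, map_mul, map_zpow, map_zpow, Units.val_mul, Units.val_zpow_eq_zpow_val,
        Units.val_zpow_eq_zpow_val]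
      change (φ qq) ^ e1 * (φ ll) ^ e2 = _
      rw [h1, h2]
    rw [h4] at h3
    exact h3
  have h0 := key 1 1 one_ne_zero one_ne_zero
  rw [one_zpow, one_zpow, mul_one, mul_one] at h0
  have h1 := key 2 1 two_ne_zero one_ne_zero
  have h2 := key 1 2 one_ne_zero two_ne_zero
  rw [h0, one_zpow, mul_one, one_mul] at h1
  rw [h0, one_zpow, one_mul, one_mul] at h2
  refine ⟨h0, Rf_two (k := 0) ?_, Rf_two (k := 0) ?_⟩
  · rw [h1, zpow_zero]
  · rw [h2, zpow_zero]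

private theorem Rf_c1 {G : Type} [CommGroup G] (a b c : G) : a * b * c = b * (c * a) := by
  rw [mul_assoc, mul_comm a, mul_assoc]

/-- Value of a monomial under the map of `SRs`. -/
private theorem Rf_val (π : R3 →ₐ[ℂ] K2) (i : Fin 3) (h0 : π (rr i) = 1)
    (h1 : π (rr (i + 1)) = algebraMap R2 K2 qq) (h2 : π (rr (i + 2)) = algebraMap R2 K2 ll)
    (c : ℂ) (e : Fin 3 → ℤ)
    (h : π (algebraMap ℂ R3 c * ((∏ j, Rf_u j ^ e j : R3ˣ) : R3)) = 1) :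
    c = 1 ∧ e (i + 1) = 0 ∧ e (i + 2) = 0 := by
  have hp : (∏ j, Rf_u j ^ e j) = Rf_u i ^ e i * (Rf_u (i + 1) ^ e (i + 1) *
      Rf_u (i + 2) ^ e (i + 2)) := by
    rw [Fin.prod_univ_three]
    fin_cases i
    · exact mul_assoc _ _ _
    · change Rf_u 0 ^ e 0 * Rf_u 1 ^ e 1 * Rf_u 2 ^ e 2 = Rf_u 1 ^ e 1 * (Rf_u 2 ^ e 2 *
        Rf_u 0 ^ e 0)
      exact Rf_c1 _ _ _
    · change Rf_u 0 ^ e 0 * Rf_u 1 ^ e 1 * Rf_u 2 ^ e 2 = Rf_u 2 ^ e 2 * (Rf_u 0 ^ e 0 *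
        Rf_u 1 ^ e 1)
      exact mul_comm _ _
  have a0 : Units.map (π : R3 →* K2) (Rf_u i) = 1 := by
    apply Units.ext
    change π (Rf_u i : R3) = 1
    rw [Rf_uval, h0]
  have a1 : Units.map (π : R3 →* K2) (Rf_u (i + 1)) =
      Units.map (algebraMap R2 K2 : R2 →* K2) qq_unit.unit := by
    apply Units.ext
    change π (Rf_u (i + 1) : R3) = algebraMap R2 K2 qq
    rw [Rf_uval, h1]
  have a2 : Units.map (π : R3 →* K2) (Rf_u (i + 2)) =
      Units.map (algebraMap R2 K2 : R2 →* K2) ll_unit.unit := by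
    apply Units.ext
    change π (Rf_u (i + 2) : R3) = algebraMap R2 K2 ll
    rw [Rf_uval, h2]
  have a3 : Units.map (π : R3 →* K2) (∏ j, Rf_u j ^ e j) =
      Units.map (algebraMap R2 K2 : R2 →* K2)
        (qq_unit.unit ^ e (i + 1) * ll_unit.unit ^ e (i + 2)) := by
    rw [hp, map_mul, map_mul, map_zpow, map_zpow, map_zpow, a0, a1, a2, one_zpow, one_mul,
      map_mul, map_zpow, map_zpow]
  have a4 : π ((∏ j, Rf_u j ^ e j : R3ˣ) : R3) = algebraMap R2 K2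
      ((qq_unit.unit ^ e (i + 1) * ll_unit.unit ^ e (i + 2) : R2ˣ) : R2) :=
    congrArg (fun u : K2ˣ => (u : K2)) a3
  rw [map_mul, AlgHom.commutes, a4, IsScalarTower.algebraMap_apply ℂ R2 K2, ← map_mul] at h
  have h5 : algebraMap ℂ R2 c *
      ((qq_unit.unit ^ e (i + 1) * ll_unit.unit ^ e (i + 2) : R2ˣ) : R2) = 1 :=
    IsFractionRing.injective R2 K2 (by rw [h, map_one])
  exact Rf_mono h5

/-- The images of the variables. -/
private theorem Rf_img (h1 : SRu) (h2 : SRs) {θ : R3 ≃ₐ[ℂ] R3} {i : Fin 3}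
    (hθ : Ideal.span {θ (rr i - 1)} = Ideal.span {rr i - 1}) :
    ∃ a : ℤ, θ (rr i) = ((Rf_u i ^ a : R3ˣ) : R3) := by
  have hu : IsUnit (θ (rr i)) := by
    rw [← Rf_uval]
    exact (Rf_u i).isUnit.map θ
  obtain ⟨c, i0, i1, i2, hc, h3⟩ := h1 _ hu
  obtain ⟨π, -, -, p0, p1, p2⟩ := h2 i
  have h4 : θ (rr i) = algebraMap ℂ R3 c *
      ((∏ j, Rf_u j ^ (![i0, i1, i2] : Fin 3 → ℤ) j : R3ˣ) : R3) := by
    rw [h3, Fin.prod_univ_three]
    rfl
  have h5 : π (θ (rr i)) = 1 := by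
    have h6 : θ (rr i - 1) ∈ Ideal.span {rr i - 1} := by
      rw [← hθ]
      exact Ideal.mem_span_singleton_self _
    obtain ⟨y, hy⟩ := Ideal.mem_span_singleton.1 h6
    have h7 := congrArg π hy
    rw [map_sub θ, map_one θ, map_sub π, map_one π, map_mul, map_sub π, map_one π, p0, sub_self,
      zero_mul, sub_eq_zero] at h7
    exact h7
  rw [h4] at h5
  obtain ⟨hc1, e1, e2⟩ := Rf_val π i p0 p1 p2 c _ h5
  refine ⟨(![i0, i1, i2] : Fin 3 → ℤ) i, ?_⟩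
  rw [h4, hc1, map_one, one_mul]
  congr 1
  refine Finset.prod_eq_single_of_mem i (Finset.mem_univ i) ?_
  intro j _ hj
  have hj' : j = i + 1 ∨ j = i + 2 := by
    have h7 : ∀ i j : Fin 3, j ≠ i → j = i + 1 ∨ j = i + 2 := by decide
    exact h7 i j hj
  rcases hj' with rfl | rfl
  · rw [e1, zpow_zero]
  · rw [e2, zpow_zero]

private theorem Rf_two' (i : Fin 3) {a : ℤ} (h : Rf_u i ^ a = Rf_u i) : a = 1 := by
  obtain ⟨φ, h0, h1, h2⟩ := R3_lift (S := ℂ) (IsUnit.mk0 (2 : ℂ) two_ne_zero)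
    (IsUnit.mk0 (2 : ℂ) two_ne_zero) (IsUnit.mk0 (2 : ℂ) two_ne_zero)
  have h3 : φ (Rf_u i : R3) = 2 := by
    rw [Rf_uval]
    fin_cases i
    · exact h0
    · exact h1
    · exact h2
  have h4 := congrArg (fun u : R3ˣ => ((Units.map (φ : R3 →* ℂ) u : ℂˣ) : ℂ)) h
  simp only [map_zpow, Units.val_zpow_eq_zpow_val] at h4
  have h5 : ((Units.map (φ : R3 →* ℂ) (Rf_u i) : ℂˣ) : ℂ) = 2 := h3
  rw [h5] at h4
  exact Rf_two (k := 1) (by rw [h4, zpow_one])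

theorem pRf (h1 : SRu) (h2 : SRs) : SRf := by
  have hinv : ∀ θ ∈ {θ : R3 ≃ₐ[ℂ] R3 | ∀ i : Fin 3,
      Ideal.span {θ (rr i - 1)} = Ideal.span {rr i - 1}},
      θ.symm ∈ {θ : R3 ≃ₐ[ℂ] R3 | ∀ i : Fin 3,
        Ideal.span {θ (rr i - 1)} = Ideal.span {rr i - 1}} := by
    intro θ hθ i
    have h3 := Ideal.span_singleton_eq_span_singleton.1 (hθ i)
    have h4 := h3.map θ.symm
    rw [AlgEquiv.symm_apply_apply] at h4
    exact Ideal.span_singleton_eq_span_singleton.2 h4.symm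
  have himg : ∀ θ ∈ {θ : R3 ≃ₐ[ℂ] R3 | ∀ i : Fin 3,
      Ideal.span {θ (rr i - 1)} = Ideal.span {rr i - 1}}, ∀ i,
      θ (rr i) = ((Rf_u i : R3ˣ) : R3) ∨ θ (rr i) = (((Rf_u i)⁻¹ : R3ˣ) : R3) := by
    intro θ hθ i
    obtain ⟨a, ha⟩ := Rf_img h1 h2 (hθ i)
    obtain ⟨b, hb⟩ := Rf_img h1 h2 (hinv θ hθ i)
    have h3 : Units.map (θ : R3 →* R3) (Rf_u i) = Rf_u i ^ a := by
      apply Units.ext
      change θ (Rf_u i : R3) = _
      rw [Rf_uval, ha]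
    have h4 : Rf_u i = Rf_u i ^ (a * b) := by
      rw [zpow_mul, ← h3, ← map_zpow]
      apply Units.ext
      change (Rf_u i : R3) = θ ((Rf_u i ^ b : R3ˣ) : R3)
      rw [← hb, AlgEquiv.apply_symm_apply, Rf_uval]
    have h5 : a * b = 1 := Rf_two' i h4.symm
    rcases Int.eq_one_or_neg_one_of_mul_eq_one h5 with h | h
    · left
      rw [ha, h, zpow_one]
    · right
      rw [ha, h, zpow_neg_one]
  refine Set.Finite.of_finite_image (f := fun θ : R3 ≃ₐ[ℂ] R3 => fun i : Fin 3 => θ (rr i)) ?_ ?_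
  · refine Set.Finite.subset (Set.Finite.pi' fun i : Fin 3 =>
      Set.toFinite ({((Rf_u i : R3ˣ) : R3), (((Rf_u i)⁻¹ : R3ˣ) : R3)} : Set R3)) ?_
    rintro _ ⟨θ, hθ, rfl⟩ i
    rcases himg θ hθ i with h | h
    · exact Or.inl h
    · exact Or.inr h
  · intro θ _ η _ h
    have h3 : (θ : R3 →ₐ[ℂ] R3) = (η : R3 →ₐ[ℂ] R3) :=
      R3_ext (congrFun h 0) (congrFun h 1) (congrFun h 2)
    exact AlgEquiv.ext fun x => congrArg (fun f : R3 →ₐ[ℂ] R3 => f x) h3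

end Pool.Agent.Lib.MP_97567f_al.U.TB
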