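import Pool.Agent.Lib.MP_97567f_al.U.SpecB

/-!
# MP_97567f_al, type `B`, module Rs: the surfaces `r i = 1`
-/

set_option autoImplicit false

namespace Pool.Agent.Lib.MP_97567f_al.U.TB

open Polynomial

private theorem Rs_gen (x y z : R3) (hy : IsUnit y) (hz : IsUnit z) (hx1 : x - 1 ≠ 0)
    (hext : ∀ (S : Type) [CommRing S] [Algebra ℂ S] (φ ψ : R3 →ₐ[ℂ] S), φ x = ψ x → φ y = ψ y →
      φ z = ψ z → φ = ψ)
    (π : R3 →ₐ[ℂ] R2) (h0 : π x = 1) (h1 : π y = qq) (h2 : π z = ll) :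
    ∃ π : R3 →ₐ[ℂ] K2, (∀ w, π w = 0 → w ∈ Ideal.span {x - 1}) ∧
      Prime (x - 1) ∧ π x = 1 ∧ π y = algebraMap R2 K2 qq ∧ π z = algebraMap R2 K2 ll := by
  have hinj : Function.Injective (algebraMap R2 K2) := IsFractionRing.injective R2 K2
  obtain ⟨σ, hσ1, hσ2⟩ := R2_lift (S := R3) hy hz
  have e0 : ((IsScalarTower.toAlgHom ℂ R2 K2).comp π) x = 1 := by
    change algebraMap R2 K2 (π x) = 1
    rw [h0, map_one]
  have e1 : ((IsScalarTower.toAlgHom ℂ R2 K2).comp π) y = algebraMap R2 K2 qq := by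
    change algebraMap R2 K2 (π y) = _
    rw [h1]
  have e2 : ((IsScalarTower.toAlgHom ℂ R2 K2).comp π) z = algebraMap R2 K2 ll := by
    change algebraMap R2 K2 (π z) = _
    rw [h2]
  have key : ∀ w, ((IsScalarTower.toAlgHom ℂ R2 K2).comp π) w = 0 → w ∈ Ideal.span {x - 1} := by
    intro w hw
    have h3 : π w = 0 := by
      change algebraMap R2 K2 (π w) = 0 at hw
      exact hinj (by rw [hw, map_zero])
    have h4 : Ideal.Quotient.mkₐ ℂ (Ideal.span {x - 1}) =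
        ((Ideal.Quotient.mkₐ ℂ (Ideal.span {x - 1})).comp σ).comp π := by
      apply hext
      · have h5 : Ideal.Quotient.mkₐ ℂ (Ideal.span {x - 1}) (x - 1) = 0 :=
          Ideal.Quotient.eq_zero_iff_mem.2 (Ideal.mem_span_singleton_self _)
        rw [map_sub, map_one, sub_eq_zero] at h5
        rw [AlgHom.comp_apply, h0, map_one, h5]
      · rw [AlgHom.comp_apply, h1, AlgHom.comp_apply, hσ1]
      · rw [AlgHom.comp_apply, h2, AlgHom.comp_apply, hσ2]
    rw [← Ideal.Quotient.eq_zero_iff_mem]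
    change Ideal.Quotient.mkₐ ℂ (Ideal.span {x - 1}) w = 0
    rw [h4, AlgHom.comp_apply, h3, map_zero]
  refine ⟨_, key, ?_, e0, e1, e2⟩
  rw [← Ideal.span_singleton_prime hx1]
  have h6 : Ideal.span {x - 1} =
      RingHom.ker (((IsScalarTower.toAlgHom ℂ R2 K2).comp π : R3 →ₐ[ℂ] K2) : R3 →+* K2) := by
    refine le_antisymm ?_ fun w hw => key w hw
    rw [Ideal.span_singleton_le_iff_mem, RingHom.mem_ker]
    change ((IsScalarTower.toAlgHom ℂ R2 K2).comp π) (x - 1) = 0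
    rw [map_sub, e0, map_one, sub_self]
  rw [h6]
  exact RingHom.ker_isPrime _

private theorem Rs_ne (i : Fin 3) : rr i - 1 ≠ 0 := by
  intro h
  obtain ⟨φ, h0, h1, h2⟩ := R3_lift (S := ℂ) (IsUnit.mk0 2 two_ne_zero)
    (IsUnit.mk0 2 two_ne_zero) (IsUnit.mk0 2 two_ne_zero)
  have h3 := congrArg φ h
  have h4 : φ (rr i) = 2 := by
    fin_cases i
    · exact h0
    · exact h1
    · exact h2
  rw [map_sub, h4, map_one, map_zero] at h3
  norm_num at h3

theorem pRs : SRs := by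
  have hq : IsUnit qq := qq_unit
  have hl : IsUnit ll := ll_unit
  intro i
  fin_cases i
  · obtain ⟨π, h0, h1, h2⟩ := R3_lift (S := R2) isUnit_one hq hl
    exact Rs_gen r0 r1 r2 r1_unit r2_unit (Rs_ne 0) (fun S _ _ φ ψ a b c => R3_ext a b c) π
      h0 h1 h2
  · obtain ⟨π, h0, h1, h2⟩ := R3_lift (S := R2) hl isUnit_one hq
    exact Rs_gen r1 r2 r0 r2_unit r0_unit (Rs_ne 1) (fun S _ _ φ ψ a b c => R3_ext c a b) π
      h1 h2 h0
  · obtain ⟨π, h0, h1, h2⟩ := R3_lift (S := R2) hq hl isUnit_one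
    exact Rs_gen r2 r0 r1 r0_unit r1_unit (Rs_ne 2) (fun S _ _ φ ψ a b c => R3_ext b c a) π
      h2 h0 h1

end Pool.Agent.Lib.MP_97567f_al.U.TB
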