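import Pool.Agent.Lib.MP_97567f_al.U.SpecB

/-!
# MP_97567f_al, module U/TB/Ru: the units of `R3`
-/

set_option autoImplicit false

namespace Pool.Agent.Lib.MP_97567f_al.U.TB

open MvPolynomial

/-- Divisors of the powers of the product of the three variables. -/
private theorem Ru_div (n : ℕ) (f : P3) (h : f ∣ (X 0 * X 1 * X 2 : P3) ^ n) :
    ∃ (c : ℂ) (i j k : ℕ), c ≠ 0 ∧ f = C c * (X 0 ^ i * X 1 ^ j * X 2 ^ k) := by
  rw [mul_pow, mul_pow] at h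
  obtain ⟨ab, d, hab, hd, rfl⟩ := exists_dvd_and_dvd_of_dvd_mul h
  obtain ⟨a, b, ha, hb, rfl⟩ := exists_dvd_and_dvd_of_dvd_mul hab
  obtain ⟨i, -, hi⟩ := (dvd_prime_pow (X_prime (i := 0) (R := ℂ)) n).1 ha
  obtain ⟨j, -, hj⟩ := (dvd_prime_pow (X_prime (i := 1) (R := ℂ)) n).1 hb
  obtain ⟨k, -, hk⟩ := (dvd_prime_pow (X_prime (i := 2) (R := ℂ)) n).1 hd
  obtain ⟨w, hw⟩ := ((hi.mul_mul hj).mul_mul hk).symm
  obtain ⟨c, hc, hcw⟩ := isUnit_iff_eq_C_of_isReduced.1 w.isUnit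
  refine ⟨c, i, j, k, hc.ne_zero, ?_⟩
  rw [← hw, hcw, mul_comm]

private theorem Ru_alg (c : ℂ) : algebraMap P3 R3 (C c) = algebraMap ℂ R3 c := by
  rw [← MvPolynomial.algebraMap_eq, ← IsScalarTower.algebraMap_apply]

private theorem Ru_cancel {G : Type*} [CommGroup G] (a b c a' b' c' : G) :
    a * a'⁻¹ * (b * b'⁻¹) * (c * c'⁻¹) * (a' * b' * c') = a * b * c := by
  have h : a * a'⁻¹ * (b * b'⁻¹) * (c * c'⁻¹) * (a' * b' * c') =
      (a * b * c) * ((a'⁻¹ * a') * (b'⁻¹ * b') * (c'⁻¹ * c')) := by ac_rfl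
  rw [h, inv_mul_cancel, inv_mul_cancel, inv_mul_cancel, mul_one, mul_one, mul_one]

theorem pRu : SRu := by
  intro u hu
  obtain ⟨v, huv⟩ := hu.exists_right_inv
  obtain ⟨n, f, hf⟩ := IsLocalization.Away.surj (X 0 * X 1 * X 2 : P3) u
  obtain ⟨m, g, hg⟩ := IsLocalization.Away.surj (X 0 * X 1 * X 2 : P3) v
  have hfg : f * g = (X 0 * X 1 * X 2 : P3) ^ (n + m) := by
    apply algebraMap3_injective
    rw [map_mul, ← hf, ← hg, map_pow]
    calc u * algebraMap P3 R3 (X 0 * X 1 * X 2) ^ n *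
          (v * algebraMap P3 R3 (X 0 * X 1 * X 2) ^ m)
        = (u * v) * algebraMap P3 R3 (X 0 * X 1 * X 2) ^ (n + m) := by ring
      _ = _ := by rw [huv, one_mul]
  obtain ⟨c, i, j, k, hc, hfc⟩ := Ru_div (n + m) f ⟨g, hfg.symm⟩
  refine ⟨c, (i : ℤ) - n, (j : ℤ) - n, (k : ℤ) - n, hc, ?_⟩
  have h0 : ((r0_unit.unit : R3ˣ) : R3) = r0 := r0_unit.unit_spec
  have h1 : ((r1_unit.unit : R3ˣ) : R3) = r1 := r1_unit.unit_spec
  have h2 : ((r2_unit.unit : R3ˣ) : R3) = r2 := r2_unit.unit_spec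
  have hX : algebraMap P3 R3 (X 0 * X 1 * X 2) = r0 * r1 * r2 := by
    rw [map_mul, map_mul]; rfl
  have hun : IsUnit ((r0 * r1 * r2) ^ n) := r012_unit.pow n
  apply hun.mul_right_cancel
  rw [hX] at hf
  rw [hf, hfc, map_mul, Ru_alg, map_mul, map_mul, map_pow, map_pow, map_pow]
  change algebraMap ℂ R3 c * (r0 ^ i * r1 ^ j * r2 ^ k) = _
  have key : ((r0_unit.unit ^ ((i : ℤ) - n) * r1_unit.unit ^ ((j : ℤ) - n) *
      r2_unit.unit ^ ((k : ℤ) - n) : R3ˣ) : R3) * (r0 * r1 * r2) ^ n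
      = r0 ^ i * r1 ^ j * r2 ^ k := by
    have e : (r0_unit.unit ^ ((i : ℤ) - n) * r1_unit.unit ^ ((j : ℤ) - n) *
        r2_unit.unit ^ ((k : ℤ) - n)) * (r0_unit.unit * r1_unit.unit * r2_unit.unit) ^ n
        = r0_unit.unit ^ i * r1_unit.unit ^ j * r2_unit.unit ^ k := by
      rw [mul_pow, mul_pow, zpow_sub, zpow_sub, zpow_sub, zpow_natCast, zpow_natCast,
        zpow_natCast, zpow_natCast, zpow_natCast, zpow_natCast]
      exact Ru_cancel _ _ _ _ _ _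
    have e' := congrArg (fun x : R3ˣ => (x : R3)) e
    simpa only [Units.val_mul, Units.val_pow_eq_pow_val, h0, h1, h2] using e'
  exact (congrArg (fun z => algebraMap ℂ R3 c * z) key.symm).trans (mul_assoc _ _ _).symm

end Pool.Agent.Lib.MP_97567f_al.U.TB
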