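import Pool.Agent.Lib.MP_97567f_al.U.SpecB

/-!
# MP_97567f_al: type B: the ring of Laurent polynomials embeds in the common field
-/

set_option autoImplicit false

namespace Pool.Agent.Lib.MP_97567f_al.U.TB

open MvPolynomial

theorem pRk : SRk := by
  let ψ : P3 →+* KK := (algebraMap (MvPolynomial ℕ ℂ) KK).comp
    (rename (R := ℂ) (Fin.val : Fin 3 → ℕ)).toRingHom
  have hψ : Function.Injective ψ := by
    refine (IsFractionRing.injective (MvPolynomial ℕ ℂ) KK).comp ?_
    exact rename_injective _ Fin.val_injective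
  have h2 : ∀ y : Submonoid.powers (X 0 * X 1 * X 2 : P3), IsUnit (ψ y) := by
    rintro ⟨_, k, rfl⟩
    refine isUnit_iff_ne_zero.2 fun h => ?_
    have h3 : (X 0 * X 1 * X 2 : P3) ^ k = 0 := hψ (by rw [map_zero]; exact h)
    exact pow_ne_zero k X012_ne h3
  refine ⟨IsLocalization.lift (M := Submonoid.powers (X 0 * X 1 * X 2 : P3)) h2, ?_⟩
  rw [injective_iff_map_eq_zero]
  intro z hz
  obtain ⟨a, m, rfl⟩ := IsLocalization.exists_mk'_eq (Submonoid.powers (X 0 * X 1 * X 2 : P3)) z
  have h3 : ψ a = 0 := by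
    have h4 := (IsLocalization.lift_mk'_spec (M := Submonoid.powers (X 0 * X 1 * X 2 : P3))
      (S := R3) (g := ψ) (hg := h2) a 0 m).1 hz
    rw [h4, mul_zero]
  have h5 : a = 0 := hψ (by rw [map_zero]; exact h3)
  rw [h5, IsLocalization.mk'_zero]

end Pool.Agent.Lib.MP_97567f_al.U.TB
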