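import Pool.Agent.Lib.MP_97567f_al.U.SpecB

/-!
# MP_97567f_al, type B: type `A` is faithful
-/

set_option autoImplicit false

namespace Pool.Agent.Lib.MP_97567f_al.U.TB

private theorem Af_K2inj : Function.Injective (algebraMap R2 K2) :=
  IsFractionRing.injective R2 K2

private theorem Af_q0 : algebraMap R2 K2 qq ≠ 0 := by
  intro h
  obtain ⟨φ, h1, -⟩ := R2_lift (S := ℂ) (a := 2) (b := 1) (by norm_num) (by norm_num)
  have h2 : qq = 0 := Af_K2inj (by rw [h, map_zero])
  rw [h2, map_zero] at h1
  norm_num at h1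

private theorem Af_l0 : algebraMap R2 K2 ll ≠ 0 := by
  intro h
  obtain ⟨φ, -, h1⟩ := R2_lift (S := ℂ) (a := 1) (b := 2) (by norm_num) (by norm_num)
  have h2 : ll = 0 := Af_K2inj (by rw [h, map_zero])
  rw [h2, map_zero] at h1
  norm_num at h1

private theorem Af_adj {n : ℕ} (s t : Fin n) :
    adj (CoxeterMatrix.A n) s t ↔ (s : ℕ) + 1 = t ∨ (t : ℕ) + 1 = s := by
  change (if s = t then 1 else (if (t : ℕ) + 1 = s ∨ (s : ℕ) + 1 = t then 3 else 2)) = 3 ↔ _
  by_cases h : s = t
  · subst h
    rw [if_pos rfl]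
    omega
  · rw [if_neg h]
    split_ifs with h1
    · exact ⟨fun _ => Or.symm h1, fun _ => rfl⟩
    · constructor
      · intro h2
        norm_num at h2
      · intro h2
        exact absurd (Or.symm h2) h1

private theorem Af_conn {n : ℕ} (hn : 1 ≤ n) : Conn (CoxeterMatrix.A n) Finset.univ := by
  have h0 : ∀ (k : ℕ) (hk : k < n), Relation.ReflTransGen (adj (CoxeterMatrix.A n))
      (⟨0, by omega⟩ : Fin n) ⟨k, hk⟩ ∧ Relation.ReflTransGen (adj (CoxeterMatrix.A n))
      ⟨k, hk⟩ (⟨0, by omega⟩ : Fin n) := by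
    intro k
    induction k with
    | zero => exact fun _ => ⟨Relation.ReflTransGen.refl, Relation.ReflTransGen.refl⟩
    | succ k ih =>
      intro hk
      obtain ⟨h1, h2⟩ := ih (by omega)
      refine ⟨h1.tail ?_, Relation.ReflTransGen.head ?_ h2⟩
      · exact (Af_adj _ _).2 (Or.inl rfl)
      · exact (Af_adj _ _).2 (Or.inr rfl)
  intro i _ j _
  exact (h0 i i.2).2.trans (h0 j j.2).1

private theorem Af_lin {A ι F : Type} [Group A] [Fintype ι] [DecidableEq ι] [Field F]
    (r : A →* GL ι F) :
    ∃ g : A →* ((ι → F) ≃ₗ[F] (ι → F)), ∀ x w, g x w = (r x).1.mulVec w := by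
  let φ : A →* Module.End F (ι → F) :=
    { toFun := fun x => (r x).1.mulVecLin
      map_one' := by
        ext w i
        simp
      map_mul' := by
        intro x y
        refine LinearMap.ext fun w => ?_
        simp only [map_mul, Units.val_mul, Matrix.mulVecLin_apply,
          Module.End.mul_apply, ← Matrix.mulVec_mulVec] }
  refine ⟨(LinearMap.GeneralLinearGroup.generalLinearEquiv F (ι → F)).toMonoidHom.comp
    φ.toHomUnits, fun x w => ?_⟩
  rfl

private theorem Af_m1 {F V : Type} [Field F] [AddCommGroup V] [Module F V] (Q L : F) (a b : V) :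
    Q • (b - (Q * (1 - Q) * L) • a) + (1 - Q) • ((Q ^ 2 * L) • a) = Q • b := by
  module

private theorem Af_m2 {F V : Type} [Field F] [AddCommGroup V] [Module F V] (Q L : F)
    (a b c : V) : Q • (b - (Q * (1 - Q) * L) • a) + (1 - Q) • c =
      (1 - Q) • c + Q • b - ((1 - Q) * (Q ^ 2 * L)) • a := by
  module

private theorem Af_wj {R : Type} [CommRing R] (j : ℕ) : wj (0 : R) j = 1 := by
  unfold wj
  split_ifs
  · ring
  · rfl

/-- Here `h12` is the statement `SLKr` (not in the docstring of `SAf`). -/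
theorem pAf (h1 : SAsl) (h2 : SRF1) (h3 : SRF2) (h4 : SRF3) (h5 : SFHex) (h6 : SUniv)
    (h7 : SIrr) (h8 : SFai) (h9 : SBa) (h10 : SBr) (h12 : SLKr) : SAf := by
  intro n hn
  set M := CoxeterMatrix.A n with hM
  have hSL : SL M := h1 n
  have hRF1 := h2 n M hSL
  have hRF2 := h3 n M hSL hRF1
  have hRF : RF M := ⟨hRF1, hRF2, h4 n M hSL hRF1 hRF2⟩
  have hFH : FH M (fh M) := h5 n M hRF
  have hSat : Sat M Finset.univ := fun _ _ _ _ => Finset.mem_univ _
  have hConn : Conn M Finset.univ := Af_conn hn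
  have hne : (Finset.univ : Finset (Fin n)).Nonempty := ⟨⟨0, by omega⟩, Finset.mem_univ _⟩
  set Q : K2 := algebraMap R2 K2 qq with hQ
  set Λ : K2 := algebraMap R2 K2 ll with hΛ
  set L : K2 := Λ * (Q ^ 2)⁻¹ with hL
  have hQ0 : Q ≠ 0 := Af_q0
  have hΛ0 : Λ ≠ 0 := Af_l0
  have hL0 : L ≠ 0 := mul_ne_zero hΛ0 (inv_ne_zero (pow_ne_zero 2 hQ0))
  have hQL : Q ^ 2 * L = Λ := by
    rw [hL, mul_comm, mul_assoc, inv_mul_cancel₀ (pow_ne_zero 2 hQ0), mul_one]
  have hgen := (h10.2 K2 n Q L (isUnit_iff_ne_zero.2 hQ0) (isUnit_iff_ne_zero.2 hL0)).1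
  obtain ⟨g, hg⟩ := Af_lin (Arep n Q L)
  have hgs : ∀ (s : Fin n) (w : Pr n → K2), g (gn M s) w = (sm n Q 0 L s).mulVec w := by
    intro s w
    have e1 : gn M s = ag n s := by
      unfold ag
      rw [dif_pos s.2]
    rw [hg, e1, hgen s s.2]
  have hsm := (h9 K2 n Q 0 L).1
  obtain ⟨Θ, hΘ1, hΘ2⟩ := h6 n M hSL hRF hFH Finset.univ hSat K2 (Pr n → K2) Q Λ g
    (fun s => yv n s (s + 1)) hQ0 hΛ0 (by
      intro s _
      have hs := s.2
      rw [hgs, hsm s s (s + 1) (by omega) (by omega)]
      unfold simg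
      rw [if_pos ⟨rfl, rfl⟩, hQL]) (by
      intro s _ t hst hadj
      have hs := s.2
      have hst' : (s : ℕ) ≠ t := fun h => hst (Fin.ext h)
      rw [hM, Af_adj] at hadj
      push Not at hadj
      rw [hgs, hsm t s (s + 1) (by omega) (by omega)]
      unfold simg
      rw [if_neg (by omega), if_neg (by omega), if_neg (by omega), if_neg (by omega),
        if_neg (by omega), if_neg (by omega)]) (by
      intro s _ t _ hadj
      have hs := s.2
      have ht := t.2
      rw [hM, Af_adj] at hadj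
      simp only [hgs]
      rcases hadj with hadj | hadj
      · rw [← hadj]
        have a1 : (sm n Q 0 L ((s : ℕ) + 1)).mulVec (yv n s (s + 1)) =
            Q • yv n s (s + 2) + (1 - Q) • yv n s (s + 1) := by
          rw [hsm (s + 1) s (s + 1) (by omega) (by omega)]
          unfold simg
          rw [if_neg (by omega), if_neg (by omega), if_neg (by omega), if_pos rfl]
        have a2 : (sm n Q 0 L s).mulVec (yv n s (s + 2)) =
            yv n (s + 1) (s + 2) - (Q * (1 - Q) * L) • yv n s (s + 1) := by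
          rw [hsm s s (s + 2) (by omega) (by omega)]
          unfold simg
          rw [if_neg (by omega), if_neg (by omega), if_pos rfl]
        have a3 : (sm n Q 0 L s).mulVec (yv n s (s + 1)) = (Q ^ 2 * L) • yv n s (s + 1) := by
          rw [hsm s s (s + 1) (by omega) (by omega)]
          unfold simg
          rw [if_pos ⟨rfl, rfl⟩]
        have a4 : (sm n Q 0 L s).mulVec (yv n (s + 1) (s + 2)) =
            Q • yv n s (s + 2) + (1 - Q) • yv n (s + 1) (s + 2) := by
          rw [hsm s (s + 1) (s + 2) (by omega) (by omega)]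
          unfold simg
          rw [if_neg (by omega), if_pos rfl]
        have e2 : (s : ℕ) + 1 + 1 = s + 2 := rfl
        rw [e2, a1, a4, Matrix.mulVec_add, Matrix.mulVec_smul, Matrix.mulVec_smul, a2, a3,
          Matrix.mulVec_add, Matrix.mulVec_smul, Matrix.mulVec_smul, a2, a4]
        constructor
        · exact Af_m1 _ _ _ _
        · rw [← hQL]
          exact Af_m2 _ _ _ _ _
      · rw [← hadj]
        have a1 : (sm n Q 0 L t).mulVec (yv n (t + 1) (t + 2)) =
            Q • yv n t (t + 2) + (1 - Q) • yv n (t + 1) (t + 2) := by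
          rw [hsm t (t + 1) (t + 2) (by omega) (by omega)]
          unfold simg
          rw [if_neg (by omega), if_pos rfl]
        have a2 : (sm n Q 0 L ((t : ℕ) + 1)).mulVec (yv n t (t + 2)) =
            yv n t (t + 1) - (Q * (1 - Q) * L) • yv n (t + 1) (t + 2) := by
          rw [hsm (t + 1) t (t + 2) (by omega) (by omega)]
          unfold simg
          rw [if_neg (by omega), if_neg (by omega), if_neg (by omega), if_neg (by omega),
            if_pos rfl, Af_wj, mul_one]
        have a3 : (sm n Q 0 L ((t : ℕ) + 1)).mulVec (yv n (t + 1) (t + 2)) =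
            (Q ^ 2 * L) • yv n (t + 1) (t + 2) := by
          rw [hsm (t + 1) (t + 1) (t + 2) (by omega) (by omega)]
          unfold simg
          rw [if_pos ⟨rfl, rfl⟩]
        have a4 : (sm n Q 0 L ((t : ℕ) + 1)).mulVec (yv n t (t + 1)) =
            Q • yv n t (t + 2) + (1 - Q) • yv n t (t + 1) := by
          rw [hsm (t + 1) t (t + 1) (by omega) (by omega)]
          unfold simg
          rw [if_neg (by omega), if_neg (by omega), if_neg (by omega), if_pos rfl]
        have e2 : (t : ℕ) + 1 + 1 = t + 2 := rfl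
        rw [e2, a1, a4, Matrix.mulVec_add, Matrix.mulVec_smul, Matrix.mulVec_smul, a2, a3,
          Matrix.mulVec_add, Matrix.mulVec_smul, Matrix.mulVec_smul, a2, a4]
        constructor
        · exact Af_m1 _ _ _ _
        · rw [← hQL]
          exact Af_m2 _ _ _ _ _)
  -- the intertwining relation
  obtain ⟨k1, k2⟩ := h12 n M hSL hRF hFH Finset.univ hSat
  have hLg := k1 K2 Q Λ (isUnit_iff_ne_zero.2 hQ0) (isUnit_iff_ne_zero.2 hΛ0)
  have hLm : ∀ x, (LKr M Finset.univ Q Λ x).1 =
      (LKr M Finset.univ qq ll x).1.map (algebraMap R2 K2) :=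
    k2 R2 K2 (algebraMap R2 K2) qq ll (isUnit_of_mul_isUnit_left qqll_unit)
      (isUnit_of_mul_isUnit_right qqll_unit)
  have hint : ∀ (x : Art M) (y : PR M Finset.univ → K2),
      Θ ((LKr M Finset.univ Q Λ x).1.mulVec y) = g x (Θ y) := by
    let S : Subgroup (Art M) :=
      { carrier := {x | ∀ y, Θ ((LKr M Finset.univ Q Λ x).1.mulVec y) = g x (Θ y)}
        mul_mem' := by
          intro a b ha hb y
          rw [map_mul, Units.val_mul, ← Matrix.mulVec_mulVec, ha, hb, map_mul]
          rfl
        one_mem' := by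
          intro y
          rw [map_one, Units.val_one, Matrix.one_mulVec, map_one]
          rfl
        inv_mem' := by
          intro a ha y
          have b1 := ha ((LKr M Finset.univ Q Λ a⁻¹).1.mulVec y)
          rw [Matrix.mulVec_mulVec, ← Units.val_mul, ← map_mul, mul_inv_cancel, map_one,
            Units.val_one, Matrix.one_mulVec] at b1
          rw [b1]
          have b2 : g a⁻¹ (g a (Θ ((LKr M Finset.univ Q Λ a⁻¹).1.mulVec y))) =
              (g a⁻¹ * g a) (Θ ((LKr M Finset.univ Q Λ a⁻¹).1.mulVec y)) := rfl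
          rw [b2, ← map_mul, inv_mul_cancel, map_one]
          rfl }
    have hS : S = ⊤ := by
      rw [eq_top_iff, ← PresentedGroup.closure_range_of, Subgroup.closure_le]
      rintro _ ⟨s, rfl⟩
      intro y
      have b1 : (LKr M Finset.univ Q Λ (PresentedGroup.of s)).1 = lk M Finset.univ Q Λ s := hLg s
      rw [b1]
      exact hΘ2 s y
    intro x
    have hx : x ∈ S := by
      rw [hS]
      trivial
    exact hx
  -- injectivity
  have hspan := h7 n M hSL hRF hFH Finset.univ hSat hConn hne
  have hker : ∀ y, Θ y = 0 → ∀ Y : Matrix (PR M Finset.univ) (PR M Finset.univ) K2,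
      Θ (Y.mulVec y) = 0 := by
    intro y hy Y
    have hY : Y ∈ Submodule.span K2 (Set.range fun x : Art M =>
        (LKr M Finset.univ qq ll x).1.map (algebraMap R2 K2)) := by
      rw [hspan]
      trivial
    induction hY using Submodule.span_induction with
    | mem x hx =>
      obtain ⟨x', rfl⟩ := hx
      change Θ (((LKr M Finset.univ qq ll x').1.map (algebraMap R2 K2)).mulVec y) = 0
      rw [← hLm, hint, hy, map_zero]
    | zero => rw [Matrix.zero_mulVec, map_zero]
    | add a b _ _ ha hb => rw [Matrix.add_mulVec, map_add, ha, hb, add_zero]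
    | smul c a _ ha => rw [Matrix.smul_mulVec, map_smul, ha, smul_zero]
  have hinj : ∀ y, Θ y = 0 → y = 0 := by
    intro y hy
    by_contra hy0
    obtain ⟨b, hb⟩ := Function.ne_iff.1 hy0
    rw [Pi.zero_apply] at hb
    have hs0 := hΘ1 ⟨0, by omega⟩ (Finset.mem_univ _)
    have b1 : (Matrix.vecMulVec (xv M Finset.univ (e (⟨0, by omega⟩ : Fin n)))
        (Pi.single b ((y b)⁻¹))).mulVec y = xv M Finset.univ (e (⟨0, by omega⟩ : Fin n)) := by
      rw [Matrix.vecMulVec_mulVec, single_dotProduct, inv_mul_cancel₀ hb]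
      funext i
      simp
    have b2 := hker y hy (Matrix.vecMulVec (xv M Finset.univ (e (⟨0, by omega⟩ : Fin n)))
        (Pi.single b ((y b)⁻¹)))
    rw [b1, hs0] at b2
    have b3 := congrFun b2 (⟨(⟨0, by omega⟩, ⟨1, by omega⟩), by
      rw [Fin.lt_def]
      exact Nat.zero_lt_one⟩ : Pr n)
    have b4 : (yv n 0 (0 + 1) : Pr n → K2) (⟨(⟨0, by omega⟩, ⟨1, by omega⟩), by
      rw [Fin.lt_def]
      exact Nat.zero_lt_one⟩ : Pr n) = 1 := if_pos ⟨rfl, rfl⟩
    exact one_ne_zero (b4.symm.trans b3)
  rw [injective_iff_map_eq_one]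
  intro x hx
  have c1 : ∀ y, (LKr M Finset.univ Q Λ x).1.mulVec y = y := by
    intro y
    rw [← sub_eq_zero]
    apply hinj
    rw [map_sub, hint, hg, hx, Units.val_one, Matrix.one_mulVec, sub_self]
  have c2 : (LKr M Finset.univ Q Λ x).1 = 1 := by
    apply Matrix.toLin'.injective
    refine LinearMap.ext fun y => ?_
    rw [Matrix.toLin'_apply, Matrix.toLin'_apply, c1, Matrix.one_mulVec]
  have c3 : LKr M Finset.univ qq ll x = 1 := by
    apply Units.ext
    rw [hLm] at c2
    ext i j
    apply Af_K2inj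
    have c4 := congrFun (congrFun c2 i) j
    rw [Matrix.map_apply] at c4
    rw [c4, Units.val_one]
    by_cases hij : i = j
    · subst hij
      rw [Matrix.one_apply_eq, Matrix.one_apply_eq, map_one]
    · rw [Matrix.one_apply_ne hij, Matrix.one_apply_ne hij, map_zero]
  exact (injective_iff_map_eq_one _).1 (h8 n M hSL hRF hFH) x c3

end Pool.Agent.Lib.MP_97567f_al.U.TB
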