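import Pool.Agent.Lib.MP_97567f_al.U.SpecB

/-!
# MP_97567f_al, module U/TB/Ag: the presentation of type `A`
-/

set_option autoImplicit false

namespace Pool.Agent.Lib.MP_97567f_al.U.TB

private theorem Ag_alt2 {G : Type} [Monoid G] (a b : G) : alt a b 2 = a * b := by
  simp [alt, List.range_succ]

private theorem Ag_alt3 {G : Type} [Monoid G] (a b : G) : alt a b 3 = a * b * a := by
  simp [alt, List.range_succ, mul_assoc]

private theorem Ag_M3 {n : ℕ} {i j : Fin n} (h : i.1 + 1 = j.1) :
    (CoxeterMatrix.A n).M i j = 3 := by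
  have hij : i ≠ j := by
    intro h'
    rw [h'] at h
    omega
  simp only [CoxeterMatrix.A, Matrix.of_apply]
  rw [if_neg hij, if_pos (Or.inr h)]

private theorem Ag_M3' {n : ℕ} {i j : Fin n} (h : j.1 + 1 = i.1) :
    (CoxeterMatrix.A n).M i j = 3 := by
  have hij : i ≠ j := by
    intro h'
    rw [h'] at h
    omega
  simp only [CoxeterMatrix.A, Matrix.of_apply]
  rw [if_neg hij, if_pos (Or.inl h)]

private theorem Ag_M2 {n : ℕ} {i j : Fin n} (hij : i ≠ j) (h : ¬ (j.1 + 1 = i.1 ∨ i.1 + 1 = j.1)) :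
    (CoxeterMatrix.A n).M i j = 2 := by
  simp only [CoxeterMatrix.A, Matrix.of_apply]
  rw [if_neg hij, if_neg h]

theorem pAg (h1 : SArt) : SAg := by
  intro n
  obtain ⟨hrel, hlift, hext, hcl, -⟩ := h1 n (CoxeterMatrix.A n)
  refine ⟨?_, ?_, ?_, ?_, ?_⟩
  · intro i hi
    have h := hrel ⟨i, by omega⟩ ⟨i + 1, hi⟩
    rw [Ag_M3 (show (⟨i, by omega⟩ : Fin n).1 + 1 = (⟨i + 1, hi⟩ : Fin n).1 from rfl),
      Ag_alt3, Ag_alt3] at h
    unfold ag
    rw [dif_pos (show i < n by omega), dif_pos hi]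
    exact h
  · intro i j hij
    unfold ag
    by_cases hj : j < n
    · rw [dif_pos hj, dif_pos (show i < n by omega)]
      have h := hrel ⟨i, by omega⟩ ⟨j, hj⟩
      have h2 : (CoxeterMatrix.A n).M ⟨i, by omega⟩ ⟨j, hj⟩ = 2 := by
        apply Ag_M2
        · intro h'
          have := congrArg Fin.val h'
          simp only at this
          omega
        · simp only
          omega
      rw [h2, Ag_alt2, Ag_alt2] at h
      exact h
    · rw [dif_neg hj, mul_one, one_mul]
  · intro G _ f hb hc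
    obtain ⟨φ, hφ⟩ := hlift G (fun i => f i.1) (by
      intro i j
      by_cases hij : i = j
      · rw [hij]
      · have hv : i.1 ≠ j.1 := fun h' => hij (Fin.ext h')
        by_cases h3 : i.1 + 1 = j.1
        · rw [Ag_M3 h3, Ag_alt3, Ag_alt3, ← h3]
          exact hb i.1 (by have := j.2; omega)
        · by_cases h4 : j.1 + 1 = i.1
          · rw [Ag_M3' h4, Ag_alt3, Ag_alt3, ← h4]
            exact (hb j.1 (by have := i.2; omega)).symm
          · rw [Ag_M2 hij (by omega), Ag_alt2, Ag_alt2]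
            rcases Nat.lt_or_ge i.1 j.1 with h5 | h5
            · exact hc i.1 j.1 (by omega) j.2
            · exact (hc j.1 i.1 (by omega) i.2).symm)
    refine ⟨φ, fun i hi => ?_⟩
    unfold ag
    rw [dif_pos hi]
    exact hφ ⟨i, hi⟩
  · intro G _ φ ψ h
    apply hext
    intro i
    have h2 := h i.1 i.2
    unfold ag at h2
    rw [dif_pos i.2] at h2
    exact h2
  · rw [← hcl]
    congr 1
    ext x
    constructor
    · rintro ⟨i, hi, rfl⟩
      unfold ag
      rw [dif_pos hi]
      exact ⟨_, rfl⟩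
    · rintro ⟨i, rfl⟩
      refine ⟨i.1, i.2, ?_⟩
      unfold ag
      rw [dif_pos i.2]

end Pool.Agent.Lib.MP_97567f_al.U.TB
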