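import Pool.Agent.Lib.MP_97567f_al.U.SpecB

/-!
# MP_97567f_al: type `A` is positive definite
-/

set_option autoImplicit false

namespace Pool.Agent.Lib.MP_97567f_al.U.TB

/-- The sequence `0, x 0, x 1, ..., x (n - 1), 0, 0, ...`. -/
private def Asl_X {n : ℕ} (x : Fin n → ℤ) : ℕ → ℤ
  | 0 => 0
  | k + 1 => if h : k < n then x ⟨k, h⟩ else 0

private theorem Asl_tel (X : ℕ → ℤ) (h0 : X 0 = 0) (n : ℕ) :
    ∑ s ∈ Finset.range n, X (s + 1) * (2 * X (s + 1) - (X s + X (s + 2))) =
      ∑ k ∈ Finset.range n, (X (k + 1) - X k) ^ 2 + X n * (X n - X (n + 1)) := by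
  induction n with
  | zero => simp [h0]
  | succ n ih => rw [Finset.sum_range_succ, Finset.sum_range_succ, ih]; ring

private theorem Asl_adj {n : ℕ} (j s : Fin n) :
    adj (CoxeterMatrix.A n) j s ↔ (s : ℕ) + 1 = j ∨ (j : ℕ) + 1 = s := by
  unfold adj CoxeterMatrix.A
  simp only [Matrix.of_apply]
  by_cases h : j = s
  · subst h; simp
  · rw [if_neg h]
    constructor
    · intro hh
      by_contra hc
      rw [if_neg hc] at hh
      omega
    · intro hh
      rw [if_pos hh]

private theorem Asl_nb {n : ℕ} (x : Fin n → ℤ) (s : Fin n) :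
    (∑ j, if adj (CoxeterMatrix.A n) j s then x j else 0) =
      Asl_X x (s : ℕ) + Asl_X x ((s : ℕ) + 2) := by
  have h1 : ∀ j : Fin n, (if adj (CoxeterMatrix.A n) j s then x j else 0) =
      (if (j : ℕ) + 1 = s then x j else 0) + (if (j : ℕ) = s + 1 then x j else 0) := by
    intro j
    by_cases ha : (j : ℕ) + 1 = s
    · have hb : ¬ (j : ℕ) = s + 1 := by omega
      have hc : adj (CoxeterMatrix.A n) j s := (Asl_adj j s).2 (Or.inr ha)
      rw [if_pos hc, if_pos ha, if_neg hb, add_zero]
    · by_cases hb : (j : ℕ) = s + 1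
      · have hc : adj (CoxeterMatrix.A n) j s := (Asl_adj j s).2 (Or.inl hb.symm)
        rw [if_pos hc, if_neg ha, if_pos hb, zero_add]
      · have hc : ¬ adj (CoxeterMatrix.A n) j s := by
          rw [Asl_adj]; omega
        rw [if_neg hc, if_neg ha, if_neg hb, add_zero]
  rw [Finset.sum_congr rfl (fun j _ => h1 j), Finset.sum_add_distrib]
  congr 1
  · cases hs : (s : ℕ) with
    | zero =>
      refine (Finset.sum_eq_zero fun j _ => ?_).trans (by simp [Asl_X])
      rw [if_neg (by omega)]
    | succ m =>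
      have hm : m < n := by have := s.2; omega
      rw [Finset.sum_eq_single (⟨m, hm⟩ : Fin n)]
      · simp [Asl_X, hm]
      · intro b _ hb
        rw [if_neg]
        intro hc
        exact hb (Fin.ext (by simp; omega))
      · intro h; exact absurd (Finset.mem_univ _) h
  · by_cases hm : (s : ℕ) + 1 < n
    · rw [Finset.sum_eq_single (⟨(s : ℕ) + 1, hm⟩ : Fin n)]
      · simp [Asl_X, hm]
      · intro b _ hb
        rw [if_neg]
        intro hc
        exact hb (Fin.ext (by simp; omega))
      · intro h; exact absurd (Finset.mem_univ _) h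
    · refine (Finset.sum_eq_zero fun j _ => ?_).trans (by simp [Asl_X, hm])
      rw [if_neg]
      have := j.2
      omega

private theorem Asl_bf {n : ℕ} (x : Fin n → ℤ) :
    bf (CoxeterMatrix.A n) x x =
      ∑ k ∈ Finset.range n, (Asl_X x (k + 1) - Asl_X x k) ^ 2 + Asl_X x n ^ 2 := by
  have h1 : bf (CoxeterMatrix.A n) x x = ∑ s ∈ Finset.range n,
      Asl_X x (s + 1) * (2 * Asl_X x (s + 1) - (Asl_X x s + Asl_X x (s + 2))) := by
    unfold bf pr
    rw [Finset.sum_range]
    refine Finset.sum_congr rfl fun s _ => ?_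
    rw [Asl_nb]
    have h2 : x s = Asl_X x ((s : ℕ) + 1) := by simp [Asl_X]
    rw [h2]
  rw [h1, Asl_tel (Asl_X x) rfl]
  have h3 : Asl_X x (n + 1) = 0 := by simp [Asl_X]
  rw [h3]
  ring

/-- Type `A` is positive definite. -/
theorem pAsl : SAsl := by
  intro n
  refine ⟨?_, ?_⟩
  · intro i j hij
    unfold CoxeterMatrix.A
    simp only [Matrix.of_apply]
    rw [if_neg hij]
    split_ifs
    · right; rfl
    · left; rfl
  · intro x hx
    rw [Asl_bf]
    have hnn : 0 ≤ ∑ k ∈ Finset.range n, (Asl_X x (k + 1) - Asl_X x k) ^ 2 :=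
      Finset.sum_nonneg fun k _ => sq_nonneg _
    rcases lt_or_eq_of_le (add_nonneg hnn (sq_nonneg (Asl_X x n))) with h | h
    · exact h
    · exfalso
      apply hx
      have h0 : ∑ k ∈ Finset.range n, (Asl_X x (k + 1) - Asl_X x k) ^ 2 = 0 := by
        have := sq_nonneg (Asl_X x n); omega
      rw [Finset.sum_eq_zero_iff_of_nonneg (fun k _ => sq_nonneg _)] at h0
      have h2 : ∀ k, k ≤ n → Asl_X x k = 0 := by
        intro k
        induction k with
        | zero => intro _; rfl
        | succ k ih =>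
          intro hk
          have h3 := h0 k (Finset.mem_range.2 (by omega))
          have h4 : Asl_X x (k + 1) - Asl_X x k = 0 := by
            exact pow_eq_zero_iff (two_ne_zero) |>.1 h3
          have h5 := ih (by omega)
          omega
      funext s
      have h6 := h2 ((s : ℕ) + 1) s.2
      have h7 : x s = Asl_X x ((s : ℕ) + 1) := by simp [Asl_X]
      rw [h7, h6]; rfl

end Pool.Agent.Lib.MP_97567f_al.U.TB
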