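import Pool.Agent.Lib.MP_97567f_al.U.SpecB

/-!
# MP_97567f_al, type `B`: the basis
-/

set_option autoImplicit false

namespace Pool.Agent.Lib.MP_97567f_al.U.TB

open Matrix

theorem Ba_single {R : Type} [CommRing R] (n : ℕ) (b : Pr n) :
    (Pi.single b 1 : Pr n → R) = yv n b.1.1 b.1.2 := by
  funext g
  rw [Pi.single_apply]
  unfold yv
  refine if_congr ?_ rfl rfl
  constructor
  · rintro rfl
    exact ⟨rfl, rfl⟩
  · rintro ⟨h1, h2⟩
    exact Subtype.ext (Prod.ext (Fin.ext h1) (Fin.ext h2))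

theorem Ba_exists {n j k : ℕ} (h : j < k) (hk : k ≤ n) :
    ∃ b : Pr n, (b.1.1 : ℕ) = j ∧ (b.1.2 : ℕ) = k :=
  ⟨⟨(⟨j, by omega⟩, ⟨k, by omega⟩), h⟩, rfl, rfl⟩

theorem Ba_mulVec {R : Type} [CommRing R] (n : ℕ) (A : Matrix (Pr n) (Pr n) R) (b : Pr n) :
    A.mulVec (yv n b.1.1 b.1.2) = fun g => A g b := by
  rw [← Ba_single, Matrix.mulVec_single_one]
  rfl

theorem pBa : SBa := by
  intro R _ n q P L
  refine ⟨?_, ?_, ?_, Ba_single n, ?_⟩
  · intro i j k hjk hk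
    obtain ⟨b, rfl, rfl⟩ := Ba_exists hjk hk
    rw [Ba_mulVec]
    rfl
  · intro j k hjk hk
    obtain ⟨b, rfl, rfl⟩ := Ba_exists hjk hk
    rw [Ba_mulVec]
    rfl
  · intro A B h
    ext g b
    have h1 := h b.1.1 b.1.2 b.2 (Nat.lt_succ_iff.1 b.1.2.2)
    rw [Ba_mulVec, Ba_mulVec] at h1
    exact congrFun h1 g
  · intro x
    funext g
    rw [Finset.sum_apply, Finset.sum_eq_single g]
    · rw [← Ba_single]
      simp
    · intro b _ hb
      rw [← Ba_single]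
      simp [Ne.symm hb]
    · intro h
      exact absurd (Finset.mem_univ g) h

end Pool.Agent.Lib.MP_97567f_al.U.TB
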