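import Pool.Agent.Lib.MP_97567f_al.U.SpecB

/-!
# MP_97567f_al: type `B`: the relations of the `sm`
-/

set_option autoImplicit false

namespace Pool.Agent.Lib.MP_97567f_al.U.TB

section act

variable {R : Type} [CommRing R] (h : SBa) (n : ℕ) (q P L : R) (i : ℕ) (hi : i < n)

include h hi

private theorem Bb_c1 : (sm n q P L i).mulVec (yv n i (i + 1)) = (q ^ 2 * L) • yv n i (i + 1) := by
  rw [(h R n q P L).1 i i (i + 1) (by omega) (by omega)]
  simp [simg]

private theorem Bb_c2 (k : ℕ) (hk : i + 1 < k) (hk' : k ≤ n) :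
    (sm n q P L i).mulVec (yv n (i + 1) k) = q • yv n i k + (1 - q) • yv n (i + 1) k := by
  rw [(h R n q P L).1 i (i + 1) k (by omega) (by omega)]
  unfold simg
  rw [if_neg (by omega), if_pos rfl]

private theorem Bb_c3 (k : ℕ) (hk : i + 1 < k) (hk' : k ≤ n) :
    (sm n q P L i).mulVec (yv n i k) =
      yv n (i + 1) k - (q * (1 - q) * L) • yv n i (i + 1) := by
  rw [(h R n q P L).1 i i k (by omega) (by omega)]
  unfold simg
  rw [if_neg (by omega), if_neg (by omega), if_pos rfl]

private theorem Bb_c4 (j : ℕ) (hj : j < i) :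
    (sm n q P L i).mulVec (yv n j i) = q • yv n j (i + 1) + (1 - q) • yv n j i := by
  rw [(h R n q P L).1 i j i (by omega) (by omega)]
  unfold simg
  rw [if_neg (by omega), if_neg (by omega), if_neg (by omega), if_pos rfl]

private theorem Bb_c5 (j : ℕ) (hj : j < i) :
    (sm n q P L i).mulVec (yv n j (i + 1)) =
      yv n j i - (q * (1 - q) * L * wj P j) • yv n i (i + 1) := by
  rw [(h R n q P L).1 i j (i + 1) (by omega) (by omega)]
  unfold simg
  rw [if_neg (by omega), if_neg (by omega), if_neg (by omega), if_neg (by omega), if_pos rfl]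

private theorem Bb_c6 (j k : ℕ) (hj : j < i) (hk : i + 1 < k) (hk' : k ≤ n) :
    (sm n q P L i).mulVec (yv n j k) =
      yv n j k + ((1 - q) ^ 2 * L * wj P j) • yv n i (i + 1) := by
  rw [(h R n q P L).1 i j k (by omega) (by omega)]
  unfold simg
  rw [if_neg (by omega), if_neg (by omega), if_neg (by omega), if_neg (by omega),
    if_neg (by omega), if_pos ⟨hj, hk⟩]

private theorem Bb_c7 (j k : ℕ) (hjk : j < k) (hk : k < i ∨ i + 1 < j) (hk' : k ≤ n) :
    (sm n q P L i).mulVec (yv n j k) = yv n j k := by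
  rw [(h R n q P L).1 i j k (by omega) (by omega)]
  unfold simg
  rw [if_neg (by omega), if_neg (by omega), if_neg (by omega), if_neg (by omega),
    if_neg (by omega), if_neg (by omega)]

end act

private theorem Bb_w {R : Type} [CommRing R] (P : R) (i : ℕ) (h : 1 ≤ i ∨ P = 0) :
    wj P i = 1 := by
  unfold wj
  rcases h with h | h
  · rw [if_neg (by omega)]
  · rw [h]
    simp

private theorem Bb_braid (h : SBa) {R : Type} [CommRing R] (n : ℕ) (q P L : R) (i : ℕ)
    (h1 : 1 ≤ i ∨ P = 0) (hi : i + 1 < n) :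
    sm n q P L i * sm n q P L (i + 1) * sm n q P L i =
      sm n q P L (i + 1) * sm n q P L i * sm n q P L (i + 1) := by
  have hw : wj P i = 1 := Bb_w P i h1
  have hw1 : wj P (i + 1) = 1 := Bb_w P (i + 1) (Or.inl (by omega))
  refine (h R n q P L).2.2.1 _ _ fun j k hjk hk => ?_
  simp only [← Matrix.mulVec_mulVec]
  have a1 := Bb_c1 h n q P L i (by omega)
  have b1 := Bb_c1 h n q P L (i + 1) hi
  have a2 := Bb_c2 h n q P L i (by omega)
  have b2 := Bb_c2 h n q P L (i + 1) hi
  have a3 := Bb_c3 h n q P L i (by omega)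
  have b3 := Bb_c3 h n q P L (i + 1) hi
  have a4 := Bb_c4 h n q P L i (by omega)
  have b4 := Bb_c4 h n q P L (i + 1) hi
  have a5 := Bb_c5 h n q P L i (by omega)
  have b5 := Bb_c5 h n q P L (i + 1) hi
  have a6 := Bb_c6 h n q P L i (by omega)
  have b6 := Bb_c6 h n q P L (i + 1) hi
  have a7 := Bb_c7 h n q P L i (by omega)
  have b7 := Bb_c7 h n q P L (i + 1) hi
  rw [show i + 1 + 1 = i + 2 from rfl] at *
  set S := sm n q P L i with hS
  set U := sm n q P L (i + 1) with hU
  have a2' := a2 (i + 2) (by omega) (by omega)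
  have a3' := a3 (i + 2) (by omega) (by omega)
  have b4' := b4 i (by omega)
  have b5' := b5 i (by omega)
  rw [hw, mul_one] at b5'
  rcases Nat.lt_trichotomy j i with hj | hj | hj
  · rcases (by omega : k < i ∨ k = i ∨ k = i + 1 ∨ k = i + 2 ∨ i + 2 < k) with
      hk1 | hk1 | hk1 | hk1 | hk1
    · have e1 := a7 j k hjk (Or.inl hk1) hk
      have e2 := b7 j k hjk (Or.inl (by omega)) hk
      simp only [e1, e2]
    · subst hk1
      have e1 := a4 j hj
      have e2 := b4 j (by omega)
      have e3 := b7 j k hjk (Or.inl (by omega)) hk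
      have e4 := a6 j (k + 2) hj (by omega) (by omega)
      have e5 := a5 j hj
      simp only [e1, e2, e3, e4, e5, Matrix.mulVec_add, Matrix.mulVec_sub, Matrix.mulVec_smul]
      module
    · subst hk1
      have e1 := a4 j hj
      have e2 := b4 j (by omega)
      have e3 := b7 j i hj (Or.inl (by omega)) (by omega)
      have e4 := a6 j (i + 2) hj (by omega) (by omega)
      have e5 := a5 j hj
      have e6 := b5 j (by omega)
      simp only [e1, e2, e3, e4, e5, e6, a1, b4', a3', Matrix.mulVec_add, Matrix.mulVec_sub,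
        Matrix.mulVec_smul]
      module
    · subst hk1
      have e1 := a4 j hj
      have e3 := b7 j i hj (Or.inl (by omega)) (by omega)
      have e4 := a6 j (i + 2) hj (by omega) (by omega)
      have e5 := a5 j hj
      have e6 := b5 j (by omega)
      simp only [e1, e3, e4, e5, e6, a1, b1, b4', b5', a3', a2', Matrix.mulVec_add,
        Matrix.mulVec_sub, Matrix.mulVec_smul]
      module
    · have e4 := a6 j k hj (by omega) (by omega)
      have e5 := b6 j k (by omega) (by omega) (by omega)
      simp only [e4, e5, a1, b1, b4', b5', a3', a2', Matrix.mulVec_add,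
        Matrix.mulVec_sub, Matrix.mulVec_smul]
      module
  · subst hj
    rcases (by omega : k = j + 1 ∨ k = j + 2 ∨ j + 2 < k) with hk1 | hk1 | hk1
    · subst hk1
      simp only [a1, b1, b4', b5', a3', a2', Matrix.mulVec_add,
        Matrix.mulVec_sub, Matrix.mulVec_smul]
      module
    · subst hk1
      simp only [a1, b1, b4', b5', a3', a2', Matrix.mulVec_add,
        Matrix.mulVec_sub, Matrix.mulVec_smul]
      module
    · have e1 := a3 k (by omega) hk
      have e2 := b3 k (by omega) hk
      have e3 := a7 (j + 2) k (by omega) (Or.inr (by omega)) hk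
      have e4 := b6 j k (by omega) (by omega) hk
      rw [hw, mul_one] at e4
      simp only [e1, e2, e3, e4, a1, b1, b4', b5', a3', a2', Matrix.mulVec_add,
        Matrix.mulVec_sub, Matrix.mulVec_smul]
      module
  · rcases (by omega : j = i + 1 ∨ j = i + 2 ∨ i + 2 < j) with hj1 | hj1 | hj1
    · subst hj1
      rcases (by omega : k = i + 2 ∨ i + 2 < k) with hk1 | hk1
      · subst hk1
        simp only [a1, b1, b4', b5', a3', a2', Matrix.mulVec_add,
          Matrix.mulVec_sub, Matrix.mulVec_smul]
        module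
      · have e1 := a3 k (by omega) hk
        have e2 := b3 k (by omega) hk
        have e3 := a7 (i + 2) k (by omega) (Or.inr (by omega)) hk
        have e4 := b6 i k (by omega) (by omega) hk
        have e5 := a2 k (by omega) hk
        have e6 := b2 k (by omega) hk
        rw [hw, mul_one] at e4
        simp only [e1, e2, e3, e4, e5, e6, a1, b1, b4', b5', a3', a2', Matrix.mulVec_add,
          Matrix.mulVec_sub, Matrix.mulVec_smul]
        module
    · subst hj1
      have e1 := a3 k (by omega) hk
      have e2 := b3 k (by omega) hk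
      have e3 := a7 (i + 2) k (by omega) (Or.inr (by omega)) hk
      have e4 := b6 i k (by omega) (by omega) hk
      have e5 := a2 k (by omega) hk
      have e6 := b2 k (by omega) hk
      rw [hw, mul_one] at e4
      simp only [e1, e2, e3, e4, e5, e6, a1, b1, b4', b5', a3', a2', Matrix.mulVec_add,
        Matrix.mulVec_sub, Matrix.mulVec_smul]
      module
    · have e1 := a7 j k hjk (Or.inr (by omega)) hk
      have e2 := b7 j k hjk (Or.inr (by omega)) hk
      simp only [e1, e2]

private theorem Bb_comm (h : SBa) {R : Type} [CommRing R] (n : ℕ) (q P L : R) (i m : ℕ)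
    (h1 : 1 ≤ i ∨ P = 0) (him : i + 2 ≤ m) (hm : m < n) :
    sm n q P L i * sm n q P L m = sm n q P L m * sm n q P L i := by
  refine (h R n q P L).2.2.1 _ _ fun j k hjk hk => ?_
  simp only [← Matrix.mulVec_mulVec]
  have a1 := Bb_c1 h n q P L i (by omega)
  have b1 := Bb_c1 h n q P L m hm
  have a2 := Bb_c2 h n q P L i (by omega)
  have b2 := Bb_c2 h n q P L m hm
  have a3 := Bb_c3 h n q P L i (by omega)
  have b3 := Bb_c3 h n q P L m hm
  have a4 := Bb_c4 h n q P L i (by omega)
  have b4 := Bb_c4 h n q P L m hm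
  have a5 := Bb_c5 h n q P L i (by omega)
  have b5 := Bb_c5 h n q P L m hm
  have a6 := Bb_c6 h n q P L i (by omega)
  have b6 := Bb_c6 h n q P L m hm
  have a7 := Bb_c7 h n q P L i (by omega)
  have b7 := Bb_c7 h n q P L m hm
  have c1 := b7 i (i + 1) (by omega) (Or.inl (by omega)) (by omega)
  have c2 := a7 m (m + 1) (by omega) (Or.inr (by omega)) (by omega)
  have w1 : wj P (i + 1) = 1 := Bb_w P (i + 1) (Or.inl (by omega))
  have w0 : wj P i = 1 := Bb_w P i h1
  rcases (by omega : j < i ∨ j = i ∨ j = i + 1 ∨ (i + 1 < j ∧ j < m) ∨ j = m ∨ j = m + 1 ∨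
    m + 1 < j) with hj | hj | hj | hj | hj | hj | hj <;>
  rcases (by omega : k < i ∨ k = i ∨ k = i + 1 ∨ (i + 1 < k ∧ k < m) ∨ k = m ∨ k = m + 1 ∨
    m + 1 < k) with hk1 | hk1 | hk1 | hk1 | hk1 | hk1 | hk1 <;>
  first
  | omega
  | (try subst hj
     try subst hk1
     simp (disch := omega) only [a1, a2, a3, a4, a5, a6, a7, b1, b2, b3, b4, b5, b6, b7, c1, c2,
       w0, w1, Matrix.mulVec_add, Matrix.mulVec_sub, Matrix.mulVec_smul]
     try module)

theorem pBb (h : SBa) : SBb := fun _ _ n q P L i h1 =>
  ⟨fun hi => Bb_braid h n q P L i h1 hi, fun j hij hj => Bb_comm h n q P L i j h1 hij hj⟩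

end Pool.Agent.Lib.MP_97567f_al.U.TB
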