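import Pool.Agent.Lib.MP_97567f_al.U.SpecB

/-!
# MP_97567f_al, type `B`: the relations of `tm`
-/

set_option autoImplicit false
set_option linter.unusedSimpArgs false

namespace Pool.Agent.Lib.MP_97567f_al.U.TB

open Matrix

theorem pBc (h1 : SBa) : SBc := by
  intro R _ n q P L
  obtain ⟨hs, ht, hext, -, -⟩ := h1 R n q P L
  refine ⟨?_, ?_⟩
  · intro hn
    apply hext
    intro j k hjk hk
    simp only [← Matrix.mulVec_mulVec]
    by_cases c1 : j = 0
    · subst c1
      by_cases d1 : k = 1
      · subst d1
        simp (disch := omega) only [hs, ht, simg, timg, wj, if_pos, if_neg, if_true, and_self,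
          Matrix.mulVec_smul, Matrix.mulVec_add, Matrix.mulVec_sub, Nat.reduceAdd]
        module
      by_cases d2 : k = 2
      · subst d2
        simp (disch := omega) only [hs, ht, simg, timg, wj, if_pos, if_neg, if_true, and_self,
          Matrix.mulVec_smul, Matrix.mulVec_add, Matrix.mulVec_sub, Nat.reduceAdd]
        module
      · simp (disch := omega) only [hs, ht, simg, timg, wj, if_pos, if_neg, if_true, and_self,
          Matrix.mulVec_smul, Matrix.mulVec_add, Matrix.mulVec_sub, Nat.reduceAdd]
        module
    by_cases c2 : j = 1
    · subst c2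
      by_cases d2 : k = 2
      · subst d2
        simp (disch := omega) only [hs, ht, simg, timg, wj, if_pos, if_neg, if_true, and_self,
          Matrix.mulVec_smul, Matrix.mulVec_add, Matrix.mulVec_sub, Nat.reduceAdd]
        module
      · simp (disch := omega) only [hs, ht, simg, timg, wj, if_pos, if_neg, if_true, and_self,
          Matrix.mulVec_smul, Matrix.mulVec_add, Matrix.mulVec_sub, Nat.reduceAdd]
        module
    by_cases c3 : j = 2
    · subst c3
      simp (disch := omega) only [hs, ht, simg, timg, wj, if_pos, if_neg, if_true, and_self,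
          Matrix.mulVec_smul, Matrix.mulVec_add, Matrix.mulVec_sub, Nat.reduceAdd]
      module
    · simp (disch := omega) only [hs, ht, simg, timg, wj, if_pos, if_neg, if_true, and_self,
          Matrix.mulVec_smul, Matrix.mulVec_add, Matrix.mulVec_sub, Nat.reduceAdd]
  · intro i hi hin
    apply hext
    intro j k hjk hk
    simp only [← Matrix.mulVec_mulVec]
    by_cases c1 : j = 0
    · subst c1
      by_cases d1 : k = 1
      · subst d1
        simp (disch := omega) only [hs, ht, simg, timg, wj, if_pos, if_neg, if_true, and_self,
          Matrix.mulVec_smul, Matrix.mulVec_add, Matrix.mulVec_sub, Nat.reduceAdd]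
      by_cases d2 : k = i
      · subst d2
        simp (disch := omega) only [hs, ht, simg, timg, wj, if_pos, if_neg, if_true, and_self,
          Matrix.mulVec_smul, Matrix.mulVec_add, Matrix.mulVec_sub, Nat.reduceAdd]
        module
      by_cases d3 : k = i + 1
      · subst d3
        simp (disch := omega) only [hs, ht, simg, timg, wj, if_pos, if_neg, if_true, and_self,
          Matrix.mulVec_smul, Matrix.mulVec_add, Matrix.mulVec_sub, Nat.reduceAdd]
        module
      by_cases d4 : i + 1 < k
      · simp (disch := omega) only [hs, ht, simg, timg, wj, if_pos, if_neg, if_true, and_self,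
          Matrix.mulVec_smul, Matrix.mulVec_add, Matrix.mulVec_sub, Nat.reduceAdd]
        module
      · simp (disch := omega) only [hs, ht, simg, timg, wj, if_pos, if_neg, if_true, and_self,
          Matrix.mulVec_smul, Matrix.mulVec_add, Matrix.mulVec_sub, Nat.reduceAdd]
    by_cases c2 : j = 1
    · subst c2
      by_cases d2 : k = i
      · subst d2
        simp (disch := omega) only [hs, ht, simg, timg, wj, if_pos, if_neg, if_true, and_self,
          Matrix.mulVec_smul, Matrix.mulVec_add, Matrix.mulVec_sub, Nat.reduceAdd]
        module
      by_cases d3 : k = i + 1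
      · subst d3
        simp (disch := omega) only [hs, ht, simg, timg, wj, if_pos, if_neg, if_true, and_self,
          Matrix.mulVec_smul, Matrix.mulVec_add, Matrix.mulVec_sub, Nat.reduceAdd]
        module
      by_cases d4 : i + 1 < k
      · simp (disch := omega) only [hs, ht, simg, timg, wj, if_pos, if_neg, if_true, and_self,
          Matrix.mulVec_smul, Matrix.mulVec_add, Matrix.mulVec_sub, Nat.reduceAdd]
        module
      · simp (disch := omega) only [hs, ht, simg, timg, wj, if_pos, if_neg, if_true, and_self,
          Matrix.mulVec_smul, Matrix.mulVec_add, Matrix.mulVec_sub, Nat.reduceAdd]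
    have c3 : 2 ≤ j := by omega
    by_cases e1 : j = i ∧ k = i + 1
    · obtain ⟨rfl, rfl⟩ := e1
      simp (disch := omega) only [hs, ht, simg, timg, if_pos, if_neg, if_true, and_self,
        Matrix.mulVec_smul, Matrix.mulVec_add, Matrix.mulVec_sub]
    by_cases e2 : j = i + 1
    · subst e2
      simp (disch := omega) only [hs, ht, simg, timg, if_pos, if_neg, if_true, and_self,
        Matrix.mulVec_smul, Matrix.mulVec_add, Matrix.mulVec_sub]
    by_cases e3 : j = i
    · subst e3
      simp (disch := omega) only [hs, ht, simg, timg, if_pos, if_neg, if_true, and_self,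
        Matrix.mulVec_smul, Matrix.mulVec_add, Matrix.mulVec_sub]
    by_cases e4 : k = i
    · subst e4
      simp (disch := omega) only [hs, ht, simg, timg, if_pos, if_neg, if_true, and_self,
        Matrix.mulVec_smul, Matrix.mulVec_add, Matrix.mulVec_sub]
    by_cases e5 : k = i + 1
    · subst e5
      simp (disch := omega) only [hs, ht, simg, timg, if_pos, if_neg, if_true, and_self,
        Matrix.mulVec_smul, Matrix.mulVec_add, Matrix.mulVec_sub]
    by_cases e6 : j < i ∧ i + 1 < k
    · simp (disch := omega) only [hs, ht, simg, timg, if_pos, if_neg, if_true, and_self,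
        Matrix.mulVec_smul, Matrix.mulVec_add, Matrix.mulVec_sub]
    · simp (disch := omega) only [hs, ht, simg, timg, if_pos, if_neg, if_true, and_self,
        Matrix.mulVec_smul, Matrix.mulVec_add, Matrix.mulVec_sub]

end Pool.Agent.Lib.MP_97567f_al.U.TB
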