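import Pool.Agent.Lib.MP_97567f_al.U.SpecB

/-!
# MP_97567f_al: restriction of type `A` (`SBd`)
-/

set_option autoImplicit false

namespace Pool.Agent.Lib.MP_97567f_al.U.TB

section Bd

variable {R : Type} [CommRing R]

/-- The diagonal matrix. -/
private def Bd_D (n : ℕ) (q : R) : Matrix (Pr n) (Pr n) R :=
  Matrix.diagonal (fun b : Pr n => if (b.1.1 : ℕ) = 0 then 1 - q else 1)

private theorem Bd_Dy (n : ℕ) (q : R) (j k : ℕ) :
    (Bd_D n q).mulVec (yv n j k) = (wj q j) • (yv n j k : Pr n → R) := by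
  funext g
  rw [Bd_D, Matrix.mulVec_diagonal, Pi.smul_apply, smul_eq_mul]
  unfold yv wj
  by_cases h : (g.1.1 : ℕ) = j ∧ (g.1.2 : ℕ) = k
  · rw [if_pos h, h.1]
  · rw [if_neg h, mul_zero, mul_zero]

private theorem Bd_w0 (j : ℕ) : wj (0 : R) j = 1 := by
  unfold wj
  split_ifs
  · exact sub_zero _
  · rfl

private theorem Bd_wp (q : R) (j : ℕ) (h : j ≠ 0) : wj q j = 1 := by
  unfold wj
  rw [if_neg h]

private theorem Bd_s (h1 : SBa) (n : ℕ) (q L : R) (i : ℕ) (hi : 1 ≤ i) :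
    Bd_D n q * sm n q q L i = sm n q 0 L i * Bd_D n q := by
  obtain ⟨hs, -, hx, -, -⟩ := h1 R n q q L
  obtain ⟨hs0, -, -, -, -⟩ := h1 R n q 0 L
  apply hx
  intro j k hjk hk
  rw [← Matrix.mulVec_mulVec, ← Matrix.mulVec_mulVec, hs i j k hjk hk, Bd_Dy,
    Matrix.mulVec_smul, hs0 i j k hjk hk]
  have hi0 : wj q i = 1 := Bd_wp q i (by omega)
  have hi1 : wj q (i + 1) = 1 := Bd_wp q (i + 1) (by omega)
  unfold simg
  by_cases c1 : j = i ∧ k = i + 1
  · rw [if_pos c1, if_pos c1, Matrix.mulVec_smul, Bd_Dy, c1.1, hi0, one_smul, one_smul]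
  rw [if_neg c1, if_neg c1]
  by_cases c2 : j = i + 1
  · rw [if_pos c2, if_pos c2, Matrix.mulVec_add, Matrix.mulVec_smul, Matrix.mulVec_smul, Bd_Dy,
      Bd_Dy, c2, hi0, hi1, one_smul, one_smul, one_smul]
  rw [if_neg c2, if_neg c2]
  by_cases c3 : j = i
  · rw [if_pos c3, if_pos c3, Matrix.mulVec_sub, Matrix.mulVec_smul, Bd_Dy,
      Bd_Dy, c3, hi0, hi1, one_smul, one_smul, one_smul]
  rw [if_neg c3, if_neg c3]
  by_cases c4 : k = i
  · rw [if_pos c4, if_pos c4, Matrix.mulVec_add, Matrix.mulVec_smul, Matrix.mulVec_smul, Bd_Dy,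
      Bd_Dy, smul_add, smul_smul, smul_smul, smul_smul, smul_smul, mul_comm q, mul_comm (1 - q)]
  rw [if_neg c4, if_neg c4]
  by_cases c5 : k = i + 1
  · rw [if_pos c5, if_pos c5, Matrix.mulVec_sub, Matrix.mulVec_smul, Bd_Dy,
      Bd_Dy, hi0, one_smul, smul_sub, smul_smul, Bd_w0, mul_one, mul_comm (wj q j)]
  rw [if_neg c5, if_neg c5]
  by_cases c6 : j < i ∧ i + 1 < k
  · rw [if_pos c6, if_pos c6, Matrix.mulVec_add, Matrix.mulVec_smul, Bd_Dy,
      Bd_Dy, hi0, one_smul, smul_add, smul_smul, Bd_w0, mul_one, mul_comm (wj q j)]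
  rw [if_neg c6, if_neg c6, Bd_Dy]

private theorem Bd_t (h1 : SBa) (n : ℕ) (q L : R) :
    Bd_D n q * tm n q q L = sm n q 0 L 0 * sm n q 0 L 0 * Bd_D n q := by
  obtain ⟨-, ht, hx, -, -⟩ := h1 R n q q L
  obtain ⟨hs0, -, -, -, -⟩ := h1 R n q 0 L
  apply hx
  intro j k hjk hk
  rw [← Matrix.mulVec_mulVec, ← Matrix.mulVec_mulVec, ← Matrix.mulVec_mulVec, ht j k hjk hk, Bd_Dy,
    Matrix.mulVec_smul, Matrix.mulVec_smul]
  have hw0 : wj q 0 = 1 - q := by unfold wj; rw [if_pos rfl]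
  have hw1 : wj q 1 = 1 := Bd_wp q 1 one_ne_zero
  have e01 : (sm n q 0 L 0).mulVec (yv n 0 1) = (q ^ 2 * L) • (yv n 0 1 : Pr n → R) := by
    rw [hs0 0 0 1 one_pos (by omega)]
    unfold simg
    rw [if_pos ⟨rfl, rfl⟩]
  have e0 : 1 < k → (sm n q 0 L 0).mulVec (yv n 0 k) =
      (yv n 1 k : Pr n → R) - (q * (1 - q) * L) • yv n 0 1 := by
    intro hk1
    rw [hs0 0 0 k (by omega) hk]
    unfold simg
    rw [if_neg (by omega), if_neg (by omega), if_pos rfl]
  have e1 : 1 < k → (sm n q 0 L 0).mulVec (yv n 1 k) =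
      q • (yv n 0 k : Pr n → R) + (1 - q) • yv n 1 k := by
    intro hk1
    rw [hs0 0 1 k (by omega) hk]
    unfold simg
    rw [if_neg (by omega), if_pos rfl]
  unfold timg
  by_cases c1 : j = 0 ∧ k = 1
  · rw [if_pos c1, c1.1, c1.2, e01, Matrix.mulVec_smul, Matrix.mulVec_smul, e01, Bd_Dy]
    simp only [smul_smul, hw0]
    congr 1
    ring
  rw [if_neg c1]
  by_cases c2 : j = 0
  · have hk1 : 1 < k := by omega
    rw [if_pos c2, c2, e0 hk1]
    simp only [Matrix.mulVec_sub, Matrix.mulVec_add, Matrix.mulVec_smul, e1 hk1, e01, Bd_Dy, hw0,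
      hw1]
    funext g
    simp only [Pi.add_apply, Pi.sub_apply, Pi.smul_apply, smul_eq_mul]
    ring
  rw [if_neg c2]
  by_cases c3 : j = 1
  · have hk1 : 1 < k := by omega
    rw [if_pos c3, c3, e1 hk1]
    simp only [Matrix.mulVec_sub, Matrix.mulVec_add, Matrix.mulVec_smul, e0 hk1, e1 hk1, Bd_Dy, hw0,
      hw1]
    funext g
    simp only [Pi.add_apply, Pi.sub_apply, Pi.smul_apply, smul_eq_mul]
    ring
  rw [if_neg c3]
  have e2 : (sm n q 0 L 0).mulVec (yv n j k) = (yv n j k : Pr n → R) := by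
    rw [hs0 0 j k hjk hk]
    unfold simg
    rw [if_neg (by omega), if_neg (by omega), if_neg (by omega), if_neg (by omega),
      if_neg (by omega), if_neg (by omega)]
  rw [e2, e2, Bd_Dy]

end Bd

/-- **Restriction of type `A`.** -/
theorem pBd (h1 : SBa) (h2 : SBr) (h3 : SBg) : SBd := by
  intro R _ n q L hq hL φ hφ0 hφ x
  obtain ⟨hB, -⟩ := h2.1 R n q q L hq hq hL
  obtain ⟨hA, -⟩ := h2.2 R n q L hq hL
  have hcl := (h3 n).2.2.2.2.2
  have key : ∀ x, Bd_D n q * (Brep n q q L x).1 = (Arep n q L (φ x)).1 * Bd_D n q := by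
    intro x
    have hx : x ∈ Subgroup.closure {x | ∃ i, i < n ∧ x = bg n i} := by
      rw [hcl]; exact Subgroup.mem_top x
    induction hx using Subgroup.closure_induction with
    | mem y hy =>
      obtain ⟨i, hi, rfl⟩ := hy
      rw [hB i hi]
      by_cases hi0 : i = 0
      · subst hi0
        rw [hφ0, map_pow, pow_two, Units.val_mul, hA 0 hi]
        unfold bm
        rw [if_pos rfl]
        exact Bd_t h1 n q L
      · rw [hφ i (by omega), hA i hi]
        unfold bm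
        rw [if_neg hi0]
        exact Bd_s h1 n q L i (by omega)
    | one => rw [map_one, map_one, map_one, Units.val_one, mul_one, one_mul]
    | mul y z _ _ hy hz =>
      rw [map_mul, map_mul, map_mul, Units.val_mul, Units.val_mul, ← mul_assoc, hy, mul_assoc, hz,
        mul_assoc]
    | inv y _ hy =>
      have e1 : (Arep n q L (φ y⁻¹)).1 * (Arep n q L (φ y)).1 = 1 := by
        rw [← Units.val_mul, ← map_mul, ← map_mul, inv_mul_cancel, map_one, map_one, Units.val_one]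
      have e2 : (Brep n q q L y).1 * (Brep n q q L y⁻¹).1 = 1 := by
        rw [← Units.val_mul, ← map_mul, mul_inv_cancel, map_one, Units.val_one]
      calc Bd_D n q * (Brep n q q L y⁻¹).1
          = (Arep n q L (φ y⁻¹)).1 * ((Arep n q L (φ y)).1 * Bd_D n q) *
              (Brep n q q L y⁻¹).1 := by rw [← mul_assoc _ _ (Bd_D n q), e1, one_mul]
        _ = (Arep n q L (φ y⁻¹)).1 * Bd_D n q *
              ((Brep n q q L y).1 * (Brep n q q L y⁻¹).1) := by
            rw [← hy]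
            simp only [mul_assoc]
        _ = (Arep n q L (φ y⁻¹)).1 * Bd_D n q := by rw [e2, mul_one]
  exact key x

end Pool.Agent.Lib.MP_97567f_al.U.TB
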