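import Pool.Agent.Lib.MP_97567f_al.U.SpecB

/-!
# MP_97567f_al, module U/TB/Be: reducible parameters
-/

set_option autoImplicit false

namespace Pool.Agent.Lib.MP_97567f_al.U.TB

private theorem Be_yv {R : Type} [CommRing R] {n : ℕ} (g : Pr n) (hg : (g.1.1 : ℕ) ≠ 0) (k : ℕ) :
    (yv n 0 k : Pr n → R) g = 0 := by
  unfold yv
  rw [if_neg (fun h => hg h.1)]


theorem pBe : SBe := by
  intro R _ n q P L hqp i hi g b hb hg
  unfold bm
  by_cases h0 : i = 0
  · rw [if_pos h0]
    change timg n q P L b.1.1 b.1.2 g = 0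
    rw [hb]
    unfold timg
    by_cases h1 : (0 : ℕ) = 0 ∧ (b.1.2 : ℕ) = 1
    · rw [if_pos h1, Pi.smul_apply, Be_yv g hg, smul_zero]
    · rw [if_neg h1, if_pos rfl, hqp]
      simp only [Pi.add_apply, Pi.sub_apply, Pi.smul_apply, Be_yv g hg, smul_zero, zero_smul]
      simp
  · rw [if_neg h0]
    change simg n q P L i b.1.1 b.1.2 g = 0
    rw [hb]
    unfold simg
    have hw : wj P 0 = 1 - P := if_pos rfl
    rw [if_neg (fun h => h0 h.1.symm), if_neg (by omega), if_neg (fun h => h0 h.symm), hw]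
    by_cases h1 : (b.1.2 : ℕ) = i
    · rw [if_pos h1]
      simp only [Pi.add_apply, Pi.smul_apply, Be_yv g hg, smul_zero, add_zero]
    · rw [if_neg h1]
      by_cases h2 : (b.1.2 : ℕ) = i + 1
      · rw [if_pos h2]
        have e : q * (1 - q) * L * (1 - P) = 0 := by linear_combination (q * L) * hqp
        rw [e, zero_smul, sub_zero, Be_yv g hg]
      · rw [if_neg h2]
        by_cases h3 : 0 < i ∧ i + 1 < (b.1.2 : ℕ)
        · rw [if_pos h3]
          have e : (1 - q) ^ 2 * L * (1 - P) = 0 := by linear_combination ((1 - q) * L) * hqp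
          rw [e, zero_smul, add_zero, Be_yv g hg]
        · rw [if_neg h3, Be_yv g hg]

end Pool.Agent.Lib.MP_97567f_al.U.TB
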