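import Pool.Agent.Lib.MP_97567f_al.U.SpecB

/-!
# MP_97567f_al: type `B`: eigenvalues
-/

set_option autoImplicit false

namespace Pool.Agent.Lib.MP_97567f_al.U.TB

open Polynomial

private theorem Beig_Ln (n : ℕ) : r0 ^ n * r1 * Ln n = r2 := by
  have h : (r0_unit.unit ^ n * r1_unit.unit : R3ˣ) * (r0_unit.unit ^ n * r1_unit.unit)⁻¹ = 1 :=
    mul_inv_cancel _
  have h2 := congrArg (Units.val) h
  rw [Units.val_mul, Units.val_mul, Units.val_pow_eq_pow_val, Units.val_one, IsUnit.unit_spec,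
    IsUnit.unit_spec] at h2
  unfold Ln
  calc r0 ^ n * r1 * (r2 * ((r0_unit.unit ^ n * r1_unit.unit)⁻¹ : R3ˣ)) =
      r2 * (r0 ^ n * r1 * ((r0_unit.unit ^ n * r1_unit.unit)⁻¹ : R3ˣ)) := by ring
    _ = r2 := by rw [h2, mul_one]

private theorem Beig_LnU (n : ℕ) : IsUnit (Ln n) := by
  unfold Ln
  exact r2_unit.mul (Units.isUnit _)

/-- A homomorphism to the complex numbers with given values. -/
private theorem Beig_ev (n : ℕ) (a b c : ℂ) (ha : a ≠ 0) (hb : b ≠ 0) (hc : c ≠ 0) :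
    ∃ φ : R3 →ₐ[ℂ] ℂ, φ r0 = a ∧ φ r1 = b ∧ φ (Ln n) = c := by
  have h0 : a ^ n * b * c ≠ 0 := mul_ne_zero (mul_ne_zero (pow_ne_zero _ ha) hb) hc
  obtain ⟨φ, h1, h2, h3⟩ := R3_lift (S := ℂ) ha.isUnit hb.isUnit h0.isUnit
  refine ⟨φ, h1, h2, ?_⟩
  have h4 := congrArg φ (Beig_Ln n)
  rw [map_mul, map_mul, map_pow, h1, h2, h3] at h4
  exact mul_left_cancel₀ (mul_ne_zero (pow_ne_zero _ ha) hb) h4

theorem pBeig (h1 : SBh) (h2 : SBr) (h3 : SBg) (h4 : SRg) : SBeig := by
  intro n hn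
  obtain ⟨hs, ht⟩ := h1 n (by omega)
  have hrep := (h2.1 R3 n r0 r1 (Ln n) r0_unit r1_unit (Beig_LnU n)).1
  have hcl := (h3 n).2.2.2.2.2
  have hbs : ∀ i, 1 ≤ i → i < n → (B3 n (bg n i)).1 = sm n r0 r1 (Ln n) i := by
    intro i hi hin
    have h := hrep i hin
    rw [bm, if_neg (by omega)] at h
    exact h
  have hbt : (B3 n (bg n 0)).1 = tm n r0 r1 (Ln n) := by
    have h := hrep 0 (by omega)
    rw [bm, if_pos rfl] at h
    exact h
  obtain ⟨φ, f0, f1, f2⟩ := Beig_ev n 2 3 5 (by norm_num) (by norm_num) (by norm_num)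
  have hN1 : n - 1 ≠ n * (n - 1) / 2 := by
    intro h
    have h5 : 3 * (n - 1) ≤ n * (n - 1) := Nat.mul_le_mul_right _ hn
    omega
  have hN2 : 1 ≠ n * (n - 1) / 2 := by
    intro h
    have h5 : 3 * (n - 1) ≤ n * (n - 1) := Nat.mul_le_mul_right _ hn
    omega
  have hN3 : 0 < n * (n - 1) / 2 := by
    have h5 : 3 * (n - 1) ≤ n * (n - 1) := Nat.mul_le_mul_right _ hn
    omega
  have hm : Function.Injective ![1, n * (n - 1) / 2, n - 1] := by
    intro i j hij
    fin_cases i <;> fin_cases j <;> simp at hij ⊢ <;> omega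
  refine ⟨{x | ∃ i, i < n ∧ x = bg n i}, hcl, ?_, ?_⟩
  · rintro _ ⟨i, hi, rfl⟩
    by_cases h0 : i = 0
    · subst h0
      refine ⟨3, ![r0 ^ 2 * r1 ^ 2 * (Ln n) ^ 2, 1, r0 * r1],
        ![1, n * (n - 1) / 2, n - 1], ?_, ?_, hm, ?_, ⟨1, rfl⟩, ?_⟩
      · intro j
        fin_cases j
        · exact ((r0_unit.pow 2).mul (r1_unit.pow 2)).mul ((Beig_LnU n).pow 2)
        · exact isUnit_one
        · exact r0_unit.mul r1_unit
      · have e1 : r0 ^ 2 * r1 ^ 2 * (Ln n) ^ 2 ≠ 1 := by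
          intro h
          have h5 := congrArg φ h
          rw [map_mul, map_mul, map_pow, map_pow, map_pow, f0, f1, f2, map_one] at h5
          norm_num at h5
        have e2 : r0 ^ 2 * r1 ^ 2 * (Ln n) ^ 2 ≠ r0 * r1 := by
          intro h
          have h5 := congrArg φ h
          rw [map_mul, map_mul, map_pow, map_pow, map_pow, map_mul, f0, f1, f2] at h5
          norm_num at h5
        have e3 : (1 : R3) ≠ r0 * r1 := by
          intro h
          have h5 := congrArg φ h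
          rw [map_one, map_mul, f0, f1] at h5
          norm_num at h5
        intro a b hab
        fin_cases a <;> fin_cases b
        · rfl
        · exact absurd hab e1
        · exact absurd hab e2
        · exact absurd hab.symm e1
        · rfl
        · exact absurd hab e3
        · exact absurd hab.symm e2
        · exact absurd hab.symm e3
        · rfl
      · intro j
        fin_cases j
        · exact Nat.one_pos
        · exact hN3
        · exact Nat.sub_pos_of_lt (by omega)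
      · rw [hbt, ht, Fin.prod_univ_three]
        simp
    · have hi1 : 1 ≤ i := by omega
      refine ⟨3, ![r0 ^ 2 * Ln n, 1, -r0], ![1, n * (n - 1) / 2, n - 1], ?_, ?_, hm, ?_,
        ⟨1, rfl⟩, ?_⟩
      · intro j
        fin_cases j
        · exact (r0_unit.pow 2).mul (Beig_LnU n)
        · exact isUnit_one
        · exact r0_unit.neg
      · have e1 : r0 ^ 2 * Ln n ≠ 1 := by
          intro h
          have h5 := congrArg φ h
          rw [map_mul, map_pow, f0, f2, map_one] at h5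
          norm_num at h5
        have e2 : r0 ^ 2 * Ln n ≠ -r0 := by
          intro h
          have h5 := congrArg φ h
          rw [map_mul, map_pow, map_neg, f0, f2] at h5
          norm_num at h5
        have e3 : (1 : R3) ≠ -r0 := by
          intro h
          have h5 := congrArg φ h
          rw [map_one, map_neg, f0] at h5
          norm_num at h5
        intro a b hab
        fin_cases a <;> fin_cases b
        · rfl
        · exact absurd hab e1
        · exact absurd hab e2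
        · exact absurd hab.symm e1
        · rfl
        · exact absurd hab e3
        · exact absurd hab.symm e2
        · exact absurd hab.symm e3
        · rfl
      · intro j
        fin_cases j
        · exact Nat.one_pos
        · exact hN3
        · exact Nat.sub_pos_of_lt (by omega)
      · rw [hbs i hi1 hi, hs i hi1 hi, Fin.prod_univ_three]
        simp
  · -- generation
    have hmem : ∀ v w : R3, v * w = 1 → (∃ s ∈ {x | ∃ i, i < n ∧ x = bg n i},
        (B3 n s).1.charpoly.IsRoot v ∨ (B3 n s).1.charpoly.IsRoot w) →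
        v ∈ Algebra.adjoin ℂ {v : R3 | ∃ w, v * w = 1 ∧ ∃ s ∈ {x | ∃ i, i < n ∧ x = bg n i},
          (B3 n s).1.charpoly.IsRoot v ∨ (B3 n s).1.charpoly.IsRoot w} :=
      fun v w h h' => Algebra.subset_adjoin ⟨w, h, h'⟩
    set A := Algebra.adjoin ℂ {v : R3 | ∃ w, v * w = 1 ∧ ∃ s ∈ {x | ∃ i, i < n ∧ x = bg n i},
      (B3 n s).1.charpoly.IsRoot v ∨ (B3 n s).1.charpoly.IsRoot w} with hA
    have hroot : ∀ v : R3, IsUnit v → (∃ s ∈ {x | ∃ i, i < n ∧ x = bg n i},
        (B3 n s).1.charpoly.IsRoot v) → v ∈ A ∧ ∃ w ∈ A, v * w = 1 := by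
      rintro v hv ⟨s, hs1, hs2⟩
      obtain ⟨w, hw⟩ := hv.exists_right_inv
      exact ⟨hmem v w hw ⟨s, hs1, Or.inl hs2⟩, w,
        hmem w v (by rw [mul_comm]; exact hw) ⟨s, hs1, Or.inr hs2⟩, hw⟩
    have hn1 : n - 1 ≠ 0 := by omega
    -- `- r0`
    have a0 : -r0 ∈ A ∧ ∃ w ∈ A, -r0 * w = 1 := by
      refine hroot _ r0_unit.neg ⟨bg n 1, ⟨1, by omega, rfl⟩, ?_⟩
      rw [hbs 1 le_rfl (by omega), hs 1 le_rfl (by omega), IsRoot.def]
      simp [hn1]
    have a1 : r0 ^ 2 * Ln n ∈ A ∧ ∃ w ∈ A, r0 ^ 2 * Ln n * w = 1 := by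
      refine hroot _ ((r0_unit.pow 2).mul (Beig_LnU n)) ⟨bg n 1, ⟨1, by omega, rfl⟩, ?_⟩
      rw [hbs 1 le_rfl (by omega), hs 1 le_rfl (by omega), IsRoot.def]
      simp
    have a2 : r0 * r1 ∈ A ∧ ∃ w ∈ A, r0 * r1 * w = 1 := by
      refine hroot _ (r0_unit.mul r1_unit) ⟨bg n 0, ⟨0, by omega, rfl⟩, ?_⟩
      rw [hbt, ht, IsRoot.def]
      simp [hn1]
    obtain ⟨a0m, w0, w0m, hw0⟩ := a0
    obtain ⟨a1m, w1, w1m, hw1⟩ := a1
    obtain ⟨a2m, w2, w2m, hw2⟩ := a2
    have b0 : r0 ∈ A := by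
      have := A.neg_mem a0m
      rwa [neg_neg] at this
    have b0w : r0 * (-w0) = 1 := by
      rw [mul_neg, ← neg_mul]
      exact hw0
    have b0m : -w0 ∈ A := A.neg_mem w0m
    have b1 : r1 ∈ A := by
      have h5 : r1 = (r0 * r1) * (-w0) := by
        calc r1 = r1 * (r0 * (-w0)) := by rw [b0w, mul_one]
          _ = (r0 * r1) * (-w0) := by ring
      rw [h5]
      exact A.mul_mem a2m b0m
    have b1w : r1 * (r0 * w2) = 1 := by
      rw [← hw2]
      ring
    have b1m : r0 * w2 ∈ A := A.mul_mem b0 w2m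
    have bL : Ln n ∈ A := by
      have h5 : Ln n = (r0 ^ 2 * Ln n) * (-w0) ^ 2 := by
        calc Ln n = Ln n * (r0 * (-w0)) ^ 2 := by rw [b0w, one_pow, mul_one]
          _ = (r0 ^ 2 * Ln n) * (-w0) ^ 2 := by ring
      rw [h5]
      exact A.mul_mem a1m (A.pow_mem b0m 2)
    have bLw : Ln n * (r0 ^ 2 * w1) = 1 := by
      rw [← hw1]
      ring
    have bLm : r0 ^ 2 * w1 ∈ A := A.mul_mem (A.pow_mem b0 2) w1m
    refine h4 A fun i => ?_
    fin_cases i
    · exact ⟨b0, -w0, b0m, b0w⟩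
    · exact ⟨b1, r0 * w2, b1m, b1w⟩
    · refine ⟨?_, (-w0) ^ n * (r0 * w2) * (r0 ^ 2 * w1),
        A.mul_mem (A.mul_mem (A.pow_mem b0m n) b1m) bLm, ?_⟩
      · change r2 ∈ A
        rw [← Beig_Ln n]
        exact A.mul_mem (A.mul_mem (A.pow_mem b0 n) b1) bL
      · change r2 * _ = 1
        rw [← Beig_Ln n]
        calc r0 ^ n * r1 * Ln n * ((-w0) ^ n * (r0 * w2) * (r0 ^ 2 * w1)) =
            (r0 * (-w0)) ^ n * (r1 * (r0 * w2)) * (Ln n * (r0 ^ 2 * w1)) := by
              rw [mul_pow]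
              ring
          _ = 1 := by rw [b0w, b1w, bLw, one_pow, mul_one, mul_one]

end Pool.Agent.Lib.MP_97567f_al.U.TB
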