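import Pool.Agent.Lib.MP_97567f_al.U.SpecB

/-!
# MP_97567f_al, type B: faithfulness
-/

set_option autoImplicit false

namespace Pool.Agent.Lib.MP_97567f_al.U.TB

private theorem Bf_K2inj : Function.Injective (algebraMap R2 K2) :=
  IsFractionRing.injective R2 K2

private theorem Bf_q0 : algebraMap R2 K2 qq ≠ 0 := by
  intro h
  obtain ⟨φ, h1, -⟩ := R2_lift (S := ℂ) (a := 2) (b := 1) (by norm_num) (by norm_num)
  have h2 : qq = 0 := Bf_K2inj (by rw [h, map_zero])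
  rw [h2, map_zero] at h1
  norm_num at h1

private theorem Bf_l0 : algebraMap R2 K2 ll ≠ 0 := by
  intro h
  obtain ⟨φ, -, h1⟩ := R2_lift (S := ℂ) (a := 1) (b := 2) (by norm_num) (by norm_num)
  have h2 : ll = 0 := Bf_K2inj (by rw [h, map_zero])
  rw [h2, map_zero] at h1
  norm_num at h1

private theorem Bf_q1 : algebraMap R2 K2 qq ≠ 1 := by
  intro h
  obtain ⟨φ, h1, -⟩ := R2_lift (S := ℂ) (a := 2) (b := 1) (by norm_num) (by norm_num)
  have h2 : qq = 1 := Bf_K2inj (by rw [h, map_one])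
  rw [h2, map_one] at h1
  norm_num at h1

private theorem Bf_Ln (n : ℕ) : Ln n * (r0 ^ n * r1) = r2 := by
  have h1 : (r0 ^ n * r1 : R3) = ((r0_unit.unit ^ n * r1_unit.unit : R3ˣ) : R3) := by
    rw [Units.val_mul, Units.val_pow_eq_pow_val, IsUnit.unit_spec, IsUnit.unit_spec]
  unfold Ln
  rw [h1, mul_assoc, Units.inv_mul, mul_one]

private theorem Bf_Lnu (n : ℕ) : IsUnit (Ln n) := by
  unfold Ln
  exact r2_unit.mul (Units.isUnit _)

theorem pBf (h1 : SPhi) (h2 : SAf) (h3 : SBd) (h4 : SBr) : SBf := by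
  intro n hn
  rw [injective_iff_map_eq_one]
  intro x hx
  set Q : K2 := algebraMap R2 K2 qq with hQ
  set L : K2 := algebraMap R2 K2 ll * (Q ^ 2)⁻¹ with hL
  have hQ0 : Q ≠ 0 := Bf_q0
  have hQ1 : Q ≠ 1 := Bf_q1
  have hL0 : L ≠ 0 := mul_ne_zero Bf_l0 (inv_ne_zero (pow_ne_zero 2 hQ0))
  obtain ⟨π, e0, e1, e2⟩ := R3_lift (S := K2) (a := Q) (b := Q) (c := Q ^ (n + 1) * L)
    (isUnit_iff_ne_zero.2 hQ0) (isUnit_iff_ne_zero.2 hQ0)
    (isUnit_iff_ne_zero.2 (mul_ne_zero (pow_ne_zero _ hQ0) hL0))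
  have e3 : π (Ln n) = L := by
    have h5 := congrArg π (Bf_Ln n)
    rw [map_mul, map_mul, map_pow, e0, e1, e2, ← pow_succ, mul_comm] at h5
    exact mul_left_cancel₀ (pow_ne_zero _ hQ0) h5
  have h5 : (Brep n Q Q L x).1 = 1 := by
    have h6 := (h4.1 R3 n r0 r1 (Ln n) r0_unit r1_unit (Bf_Lnu n)).2 K2 (π : R3 →+* K2) x
    have h7 : (π : R3 →+* K2) r0 = Q := e0
    have h8 : (π : R3 →+* K2) r1 = Q := e1
    have h9 : (π : R3 →+* K2) (Ln n) = L := e3
    rw [h7, h8, h9] at h6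
    rw [← h6]
    have h10 : (Brep n r0 r1 (Ln n) x) = 1 := hx
    rw [h10, Units.val_one]
    exact Matrix.map_one _ (map_zero _) (map_one _)
  obtain ⟨φ, hφ, hφ0, hφi⟩ := h1 n
  have h6 := h3 K2 n Q L (isUnit_iff_ne_zero.2 hQ0) (isUnit_iff_ne_zero.2 hL0) φ hφ0 hφi x
  rw [h5, mul_one] at h6
  set D : Matrix (Pr n) (Pr n) K2 :=
    Matrix.diagonal (fun b : Pr n => if (b.1.1 : ℕ) = 0 then 1 - Q else 1) with hD
  have h7 : D * Matrix.diagonal (fun b : Pr n => (if (b.1.1 : ℕ) = 0 then 1 - Q else 1)⁻¹) = 1 := by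
    rw [hD, Matrix.diagonal_mul_diagonal, ← Matrix.diagonal_one]
    congr 1
    funext b
    apply mul_inv_cancel₀
    split_ifs
    · exact sub_ne_zero.2 (Ne.symm hQ1)
    · exact one_ne_zero
  have h8 : (Arep n Q L (φ x)).1 = 1 := by
    have h9 := congrArg
      (· * Matrix.diagonal (fun b : Pr n => (if (b.1.1 : ℕ) = 0 then 1 - Q else 1)⁻¹)) h6
    simp only [mul_assoc, h7, mul_one] at h9
    exact h9.symm
  have h9 : Arep n Q L (φ x) = 1 := Units.ext h8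
  have h10 : φ x = 1 := (injective_iff_map_eq_one _).1 (h2 n hn) _ h9
  exact (injective_iff_map_eq_one φ).1 hφ x h10

end Pool.Agent.Lib.MP_97567f_al.U.TB
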