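import Pool.Agent.Lib.MP_97567f_al.U.SpecB

/-!
# MP_97567f_al: type `B`: the parameters
-/

set_option autoImplicit false

namespace Pool.Agent.Lib.MP_97567f_al.U.TB

theorem pBfin (h1 : SBj) (h2 : SBi) (h3 : SJst) (h4 : SJnz) (h5 : SRs) (h6 : SRf) : SBfin := by
  intro n hn
  refine ⟨3, fun _ => J2 (B3 n), fun i => rr i - 1, fun i => ⟨?_, ?_, ?_, ?_⟩, h6⟩
  · exact (h3 (Art (BM n)) R3 (Pr n) (B3 n)).2
  · exact (h4 (Art (BM n)) R3 (Pr n) (B3 n) (h2 n hn)).2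
  · obtain ⟨_, _, h, _⟩ := h5 i
    exact h
  · exact h1 n hn i

end Pool.Agent.Lib.MP_97567f_al.U.TB
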