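import Pool.Agent.Lib.MP_97567f_al.U.SpecB

/-!
# MP_97567f_al, module U/TB/Bg: the presentation of type `B`
-/

set_option autoImplicit false

namespace Pool.Agent.Lib.MP_97567f_al.U.TB

private theorem Bg_alt2 {G : Type} [Monoid G] (a b : G) : alt a b 2 = a * b := by
  simp [alt, List.range_succ]

private theorem Bg_alt3 {G : Type} [Monoid G] (a b : G) : alt a b 3 = a * b * a := by
  simp [alt, List.range_succ, mul_assoc]

private theorem Bg_alt4 {G : Type} [Monoid G] (a b : G) : alt a b 4 = a * b * a * b := by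
  simp [alt, List.range_succ, mul_assoc]

private theorem Bg_M4 {n : ℕ} {i j : Fin n} (h : i.1 = 0 ∧ j.1 = 1) : (BM n).M i j = 4 := by
  have hij : i ≠ j := by
    intro h'
    rw [h'] at h
    omega
  simp only [BM, Matrix.of_apply]
  rw [if_neg hij, if_pos (Or.inl h)]

private theorem Bg_M4' {n : ℕ} {i j : Fin n} (h : j.1 = 0 ∧ i.1 = 1) : (BM n).M i j = 4 := by
  have hij : i ≠ j := by
    intro h'
    rw [h'] at h
    omega
  simp only [BM, Matrix.of_apply]
  rw [if_neg hij, if_pos (Or.inr h)]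

private theorem Bg_M3 {n : ℕ} {i j : Fin n} (h0 : 1 ≤ i.1) (h : i.1 + 1 = j.1) :
    (BM n).M i j = 3 := by
  have hij : i ≠ j := by
    intro h'
    rw [h'] at h
    omega
  simp only [BM, Matrix.of_apply]
  rw [if_neg hij, if_neg (by omega), if_pos (Or.inl h)]

private theorem Bg_M3' {n : ℕ} {i j : Fin n} (h0 : 1 ≤ j.1) (h : j.1 + 1 = i.1) :
    (BM n).M i j = 3 := by
  have hij : i ≠ j := by
    intro h'
    rw [h'] at h
    omega
  simp only [BM, Matrix.of_apply]
  rw [if_neg hij, if_neg (by omega), if_pos (Or.inr h)]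

private theorem Bg_M2 {n : ℕ} {i j : Fin n} (hij : i ≠ j) (h : ¬ (j.1 + 1 = i.1 ∨ i.1 + 1 = j.1)) :
    (BM n).M i j = 2 := by
  simp only [BM, Matrix.of_apply]
  rw [if_neg hij, if_neg (by omega), if_neg (by omega)]

theorem pBg (h1 : SArt) : SBg := by
  intro n
  obtain ⟨hrel, hlift, hext, hcl, -⟩ := h1 n (BM n)
  refine ⟨?_, ?_, ?_, ?_, ?_, ?_⟩
  · intro hn
    have h := hrel ⟨0, by omega⟩ ⟨1, by omega⟩
    rw [Bg_M4 ⟨rfl, rfl⟩, Bg_alt4, Bg_alt4] at h
    unfold bg
    rw [dif_pos (show 0 < n by omega), dif_pos (show 1 < n by omega)]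
    exact h
  · intro i h0 hi
    have h := hrel ⟨i, by omega⟩ ⟨i + 1, hi⟩
    rw [Bg_M3 (show 1 ≤ (⟨i, by omega⟩ : Fin n).1 from h0)
      (show (⟨i, by omega⟩ : Fin n).1 + 1 = (⟨i + 1, hi⟩ : Fin n).1 from rfl),
      Bg_alt3, Bg_alt3] at h
    unfold bg
    rw [dif_pos (show i < n by omega), dif_pos hi]
    exact h
  · intro i j hij
    unfold bg
    by_cases hj : j < n
    · rw [dif_pos hj, dif_pos (show i < n by omega)]
      have h := hrel ⟨i, by omega⟩ ⟨j, hj⟩
      have h2 : (BM n).M ⟨i, by omega⟩ ⟨j, hj⟩ = 2 := by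
        apply Bg_M2
        · intro h'
          have := congrArg Fin.val h'
          simp only at this
          omega
        · simp only
          omega
      rw [h2, Bg_alt2, Bg_alt2] at h
      exact h
    · rw [dif_neg hj, mul_one, one_mul]
  · intro G _ f ha hb hc
    obtain ⟨φ, hφ⟩ := hlift G (fun i => f i.1) (by
      intro i j
      by_cases hij : i = j
      · rw [hij]
      · have hv : i.1 ≠ j.1 := fun h' => hij (Fin.ext h')
        have hi2 := i.2
        have hj2 := j.2
        by_cases h3 : i.1 + 1 = j.1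
        · by_cases h0 : i.1 = 0
          · have h01 : j.1 = 1 := by omega
            rw [Bg_M4 ⟨h0, h01⟩, Bg_alt4, Bg_alt4, h0, h01]
            exact ha (by omega)
          · rw [Bg_M3 (by omega) h3, Bg_alt3, Bg_alt3, ← h3]
            exact hb i.1 (by omega) (by omega)
        · by_cases h4 : j.1 + 1 = i.1
          · by_cases h0 : j.1 = 0
            · have h01 : i.1 = 1 := by omega
              rw [Bg_M4' ⟨h0, h01⟩, Bg_alt4, Bg_alt4, h0, h01]
              exact (ha (by omega)).symm
            · rw [Bg_M3' (by omega) h4, Bg_alt3, Bg_alt3, ← h4]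
              exact (hb j.1 (by omega) (by omega)).symm
          · rw [Bg_M2 hij (by omega), Bg_alt2, Bg_alt2]
            rcases Nat.lt_or_ge i.1 j.1 with h5 | h5
            · exact hc i.1 j.1 (by omega) j.2
            · exact (hc j.1 i.1 (by omega) i.2).symm)
    refine ⟨φ, fun i hi => ?_⟩
    unfold bg
    rw [dif_pos hi]
    exact hφ ⟨i, hi⟩
  · intro G _ φ ψ h
    apply hext
    intro i
    have h2 := h i.1 i.2
    unfold bg at h2
    rw [dif_pos i.2] at h2
    exact h2
  · rw [← hcl]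
    congr 1
    ext x
    constructor
    · rintro ⟨i, hi, rfl⟩
      unfold bg
      rw [dif_pos hi]
      exact ⟨_, rfl⟩
    · rintro ⟨i, rfl⟩
      refine ⟨i.1, i.2, ?_⟩
      unfold bg
      rw [dif_pos i.2]

end Pool.Agent.Lib.MP_97567f_al.U.TB
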