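import Pool.Agent.Lib.MP_97567f_al.U.SpecB

/-!
# MP_97567f_al: type `B`
-/

set_option autoImplicit false

namespace Pool.Agent.Lib.MP_97567f_al.U.TB

private theorem Bgood_ren (n : ℕ) (hn : 3 ≤ n) : Ren (CoxeterMatrix.B n) (BM n) := by
  refine ⟨Fin.revPerm, fun i j => ?_⟩
  have h1 : (Fin.rev i : Fin n) = Fin.rev j ↔ i = j := Fin.rev_inj
  simp only [CoxeterMatrix.B, BM, Matrix.of_apply, Fin.revPerm_apply, h1, Fin.val_rev]
  have hi := i.2
  have hj := j.2
  by_cases h : i = j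
  · simp [h]
  · have hne : i.1 ≠ j.1 := fun h' => h (Fin.ext h')
    rw [if_neg h, if_neg h]
    have e1 : ((n - (i.1 + 1) = n - 1 ∧ n - (j.1 + 1) = n - 2) ∨
        (n - (j.1 + 1) = n - 1 ∧ n - (i.1 + 1) = n - 2)) ↔
        ((i.1 = 0 ∧ j.1 = 1) ∨ (j.1 = 0 ∧ i.1 = 1)) := by omega
    have e2 : (n - (j.1 + 1) + 1 = n - (i.1 + 1) ∨ n - (i.1 + 1) + 1 = n - (j.1 + 1)) ↔
        (i.1 + 1 = j.1 ∨ j.1 + 1 = i.1) := by omega
    simp only [e1, e2]

theorem pBgood (hRen : SRen) (hMach : SMach) (hRT : SRT) (hAbO : SAbO) (hAbI : SAbI)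
    (hBrig : SBrig) (hBn : SBn) (hBi : SBi) (hBeig : SBeig) (hBfin : SBfin) (hBf : SBf)
    (hBo : SBo) (hBr : SBr) (hBg : SBg) (hRk : SRk) : SBgood := by
  intro n hn
  refine hRen.2 n n (CoxeterMatrix.B n) (BM n) (Bgood_ren n hn) ?_
  have hRF : RFam (B3 n) :=
    ⟨hBn n (by omega), hBi n (by omega), hBrig n hn, hBeig n hn, hBfin n (by omega)⟩
  have hinj := hBf n (by omega)
  haveI : Nonempty (Pr n) := ⟨⟨(⟨0, by omega⟩, ⟨1, by omega⟩), by
    simp [Fin.lt_def]⟩⟩
  have hT := hRT (Art (BM n)) R3 (Pr n) (B3 n) hRF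
  refine hMach (Art (BM n)) R3 (Pr n) (B3 n) hT hRk ?_ ?_
  · rintro z ⟨a, ha⟩ b
    apply hinj
    apply Units.ext
    have h1 : mK (B3 n) (z * b) = mK (B3 n) (b * z) := by
      have hm : ∀ x y, mK (B3 n) (x * y) = mK (B3 n) x * mK (B3 n) y := by
        intro x y
        unfold mK
        rw [map_mul, Units.val_mul, Matrix.map_mul]
      rw [hm, hm, ha, smul_mul_assoc, one_mul, mul_smul_comm, mul_one]
    refine Matrix.map_injective (IsFractionRing.injective R3 (FractionRing R3)) h1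
  · intro z hz hφ
    refine hAbO (Art (BM n)) R3 (Pr n) (B3 n) hinj (hBi n (by omega)) ?_ z hz
      (hAbI n (BM n) z hφ)
    obtain ⟨φ, h0, h1, h2⟩ := R3_lift (S := ℂ) (a := 1) (b := 1) (c := 1) isUnit_one isUnit_one
      isUnit_one
    have hLu : IsUnit (Ln n) := r2_unit.mul (Units.isUnit _)
    have hLs : r0 ^ n * r1 * Ln n = r2 := by
      unfold Ln
      have h : r0 ^ n * r1 = ((r0_unit.unit ^ n * r1_unit.unit : R3ˣ) : R3) := by
        simp
      rw [h, mul_left_comm, Units.mul_inv, mul_one]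
    have hL : φ (Ln n) = 1 := by
      have h := congrArg φ hLs
      rw [map_mul, map_mul, map_pow, h0, h1, h2] at h
      simpa using h
    refine ⟨φ, fun b : Pr n => if (b.1.1 : ℕ) = 0 then (1 : ℂ) ^ (b.1.2 : ℕ)
      else (1 - 1) * (1 : ℂ) ^ ((b.1.2 : ℕ) - (b.1.1 : ℕ)), ?_, ?_⟩
    · intro h
      have h3 := congrFun h (⟨(⟨0, by omega⟩, ⟨1, by omega⟩), by
        simp [Fin.lt_def]⟩ : Pr n)
      simp at h3
    · intro x
      have e1 : (B3 n x).1.map φ = (Brep n (1 : ℂ) 1 1 x).1 := by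
        have := (hBr.1 R3 n r0 r1 (Ln n) r0_unit r1_unit hLu).2 ℂ φ.toRingHom x
        change (B3 n x).1.map φ = (Brep n (φ r0) (φ r1) (φ (Ln n)) x).1 at this
        rw [this, h0, h1, hL]
      rw [e1]
      have hx : x ∈ Subgroup.closure {x | ∃ i, i < n ∧ x = bg n i} := by
        rw [(hBg n).2.2.2.2.2]
        trivial
      induction hx using Subgroup.closure_induction with
      | mem x hx =>
        obtain ⟨i, hi, rfl⟩ := hx
        rw [(hBr.1 ℂ n 1 1 1 isUnit_one isUnit_one isUnit_one).1 i hi]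
        exact hBo ℂ n 1 1 1 (by norm_num) i hi
      | one => simp
      | mul x y _ _ hx hy =>
        have e2 : ∀ y, (B3 n y).1.map φ = (Brep n (1 : ℂ) 1 1 y).1 := by
          intro y
          have := (hBr.1 R3 n r0 r1 (Ln n) r0_unit r1_unit hLu).2 ℂ φ.toRingHom y
          change (B3 n y).1.map φ = (Brep n (φ r0) (φ r1) (φ (Ln n)) y).1 at this
          rw [this, h0, h1, hL]
        rw [map_mul, Units.val_mul, ← Matrix.mulVec_mulVec, hy (e2 y), hx (e2 x)]
      | inv x _ hx =>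
        have e2 : ∀ y, (B3 n y).1.map φ = (Brep n (1 : ℂ) 1 1 y).1 := by
          intro y
          have := (hBr.1 R3 n r0 r1 (Ln n) r0_unit r1_unit hLu).2 ℂ φ.toRingHom y
          change (B3 n y).1.map φ = (Brep n (φ r0) (φ r1) (φ (Ln n)) y).1 at this
          rw [this, h0, h1, hL]
        have h5 := congrArg ((Brep n (1 : ℂ) 1 1 x⁻¹).1.mulVec) (hx (e2 x))
        rw [Matrix.mulVec_mulVec, ← Units.val_mul, ← map_mul, inv_mul_cancel, map_one,
          Units.val_one, Matrix.one_mulVec] at h5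
        exact h5.symm

end Pool.Agent.Lib.MP_97567f_al.U.TB
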