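import Pool.Agent.Lib.MP_97567f_al.U.SpecB

/-!
# MP_97567f_al: type `B`, module `Bh` (the characteristic polynomials)
-/

set_option autoImplicit false

namespace Pool.Agent.Lib.MP_97567f_al.U.TB

open Polynomial

section sums

variable {R : Type} [CommRing R]

private theorem Bh_sum (n : ℕ) (f : ℕ → ℕ → R) :
    ∑ b : Pr n, f b.1.1 b.1.2 = ∑ j ∈ Finset.range (n + 1), ∑ k ∈ Finset.range (n + 1),
      if j < k then f j k else 0 := by
  have e1 : ∑ b : Pr n, f b.1.1 b.1.2 =
      ∑ p ∈ (Finset.univ : Finset (Fin (n + 1) × Fin (n + 1))).filter (fun p => p.1 < p.2),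
        f p.1 p.2 :=
    (Finset.sum_subtype (p := fun p : Fin (n + 1) × Fin (n + 1) => p.1 < p.2) _
      (fun p => by simp) (fun p => f p.1 p.2)).symm
  rw [e1, Finset.sum_filter, ← Finset.univ_product_univ, Finset.sum_product]
  have e2 : ∀ j : Fin (n + 1), (∑ k : Fin (n + 1), if j < k then f j k else 0) =
      ∑ k ∈ Finset.range (n + 1), if (j : ℕ) < k then f j k else 0 := by
    intro j
    exact Fin.sum_univ_eq_sum_range (fun k => if (j : ℕ) < k then f j k else 0) (n + 1)
  simp only [e2]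
  exact Fin.sum_univ_eq_sum_range
    (fun j => ∑ k ∈ Finset.range (n + 1), if j < k then f j k else 0) (n + 1)

/-- The pairs with a given first component. -/
private theorem Bh_row (n j0 : ℕ) (h : j0 ≤ n) :
    ∑ b : Pr n, (if (b.1.1 : ℕ) = j0 then (1 : R) else 0) = (n : R) - j0 := by
  rw [Bh_sum n fun j _ => if j = j0 then (1 : R) else 0, Finset.sum_eq_single j0]
  · simp only [if_true]
    rw [Finset.sum_boole]
    have : (Finset.range (n + 1)).filter (fun k => j0 < k) = Finset.Ioc j0 n := by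
      ext k
      simp only [Finset.mem_filter, Finset.mem_range, Finset.mem_Ioc]
      omega
    rw [this, Nat.card_Ioc, Nat.cast_sub h]
  · intro j _ hj
    refine Finset.sum_eq_zero fun k _ => ?_
    rw [if_neg hj, ite_self]
  · intro h'
    exact absurd (Finset.mem_range.2 (by omega)) h'

/-- The pairs with a given second component. -/
private theorem Bh_col (n k0 : ℕ) (h : k0 ≤ n) :
    ∑ b : Pr n, (if (b.1.2 : ℕ) = k0 then (1 : R) else 0) = k0 := by
  rw [Bh_sum n fun _ k => if k = k0 then (1 : R) else 0, Finset.sum_comm,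
    Finset.sum_eq_single k0]
  · simp only [if_true]
    rw [Finset.sum_boole]
    have : (Finset.range (n + 1)).filter (fun j => j < k0) = Finset.range k0 := by
      ext j
      simp only [Finset.mem_filter, Finset.mem_range]
      omega
    rw [this, Finset.card_range]
  · intro k _ hk
    refine Finset.sum_eq_zero fun j _ => ?_
    rw [if_neg hk, ite_self]
  · intro h'
    exact absurd (Finset.mem_range.2 (by omega)) h'

/-- One pair. -/
private theorem Bh_one (n j0 k0 : ℕ) (h : j0 < k0) (h' : k0 ≤ n) :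
    ∑ b : Pr n, (if (b.1.1 : ℕ) = j0 ∧ (b.1.2 : ℕ) = k0 then (1 : R) else 0) = 1 := by
  rw [Bh_sum n fun j k => if j = j0 ∧ k = k0 then (1 : R) else 0, Finset.sum_eq_single j0]
  · rw [Finset.sum_eq_single k0]
    · simp [h]
    · intro k _ hk
      rw [if_neg (c := j0 = j0 ∧ k = k0) (by omega), ite_self]
    · intro h''
      exact absurd (Finset.mem_range.2 (by omega)) h''
  · intro j _ hj
    refine Finset.sum_eq_zero fun k _ => ?_
    rw [if_neg (c := j = j0 ∧ k = k0) (by omega), ite_self]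
  · intro h''
    exact absurd (Finset.mem_range.2 (by omega)) h''

/-- The number of pairs. -/
private theorem Bh_card (n : ℕ) : Fintype.card (Pr n) = n * (n - 1) / 2 + n := by
  have e : ((Fintype.card (Pr n) : ℕ) : ℤ) = ∑ j ∈ Finset.range (n + 1), ((n : ℤ) - j) := by
    have e1 : ((Fintype.card (Pr n) : ℕ) : ℤ) = ∑ b : Pr n, (fun _ _ : ℕ => (1 : ℤ)) b.1.1 b.1.2 := by
      simp
    rw [e1, Bh_sum n fun _ _ => (1 : ℤ)]
    refine Finset.sum_congr rfl fun j hj => ?_
    have hj := Finset.mem_range.1 hj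
    rw [Finset.sum_boole]
    have : (Finset.range (n + 1)).filter (fun k => j < k) = Finset.Ioc j n := by
      ext k
      simp only [Finset.mem_filter, Finset.mem_range, Finset.mem_Ioc]
      omega
    rw [this, Nat.card_Ioc, Nat.cast_sub (by omega)]
  have e2 : ∑ j ∈ Finset.range (n + 1), ((n : ℤ) - j) = ∑ j ∈ Finset.range (n + 1), (j : ℤ) := by
    rw [← Finset.sum_range_reflect]
    refine Finset.sum_congr rfl fun j hj => ?_
    have hj := Finset.mem_range.1 hj
    rw [show n + 1 - 1 - j = n - j by omega, Nat.cast_sub (by omega)]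
    ring
  rw [e2] at e
  have e3 : Fintype.card (Pr n) = ∑ j ∈ Finset.range (n + 1), j := by
    apply Nat.cast_injective (R := ℤ)
    rw [Nat.cast_sum]
    exact e
  rw [e3, Finset.sum_range_succ, Finset.sum_range_id]

end sums

section ev

variable (n : ℕ)

private theorem Bh_hom (x z : ℂ) (hx : x ≠ 0) (hz : z ≠ 0) :
    ∃ φ : R3 →+* ℂ, φ r0 = x ∧ φ r1 = 1 ∧ φ (Ln n) = z := by
  obtain ⟨φ, h0, h1, h2⟩ := R3_lift (S := ℂ) (a := x) (b := 1) (c := z * x ^ n)
    (isUnit_iff_ne_zero.2 hx) isUnit_one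
    (isUnit_iff_ne_zero.2 (mul_ne_zero hz (pow_ne_zero n hx)))
  refine ⟨φ, h0, h1, ?_⟩
  have e : Ln n * (r0 ^ n * r1) = r2 := by
    have e1 : ((r0_unit.unit ^ n * r1_unit.unit : R3ˣ) : R3) = r0 ^ n * r1 := by
      simp
    rw [Ln, ← e1, mul_assoc, Units.inv_mul, mul_one]
  have e2 := congrArg φ e
  rw [map_mul, map_mul, map_pow, h0, h1, h2, mul_one] at e2
  exact mul_right_cancel₀ (pow_ne_zero n hx) e2

end ev

section mat

variable {ι R : Type} [Fintype ι] [DecidableEq ι] [CommRing R]

private theorem Bh_cub (G : Matrix ι ι R) (x y z : R) (v f : ι → R)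
    (h : (G - y • 1) * (G - z • 1) = Matrix.vecMulVec v f) (hv : G.mulVec v = x • v) :
    (G - x • 1) * (G - y • 1) * (G - z • 1) = 0 := by
  rw [mul_assoc, h, Matrix.mul_vecMulVec, Matrix.sub_mulVec, Matrix.smul_mulVec,
    Matrix.one_mulVec, hv, sub_self, Matrix.zero_vecMulVec]

end mat

private theorem Bh_ts (n i : ℕ) (hi : 1 ≤ i) (hin : i < n) :
    (sm n r0 r1 (Ln n) i).trace =
      (r0 ^ 2 * Ln n) + ((n * (n - 1) / 2 : ℕ) : R3) - ((n - 1 : ℕ) : R3) * r0 := by
  have e : ∀ b : Pr n, sm n r0 r1 (Ln n) i b b =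
      1 + (r0 ^ 2 * Ln n + 1) * (if (b.1.1 : ℕ) = i ∧ (b.1.2 : ℕ) = i + 1 then (1 : R3) else 0) -
      r0 * (if (b.1.1 : ℕ) = i + 1 then (1 : R3) else 0) -
      r0 * (if (b.1.2 : ℕ) = i then (1 : R3) else 0) -
      (if (b.1.1 : ℕ) = i then (1 : R3) else 0) -
      (if (b.1.2 : ℕ) = i + 1 then (1 : R3) else 0) := by
    intro b
    have hb : (b.1.1 : ℕ) < b.1.2 := b.2
    rw [sm, Matrix.of_apply]
    generalize hj : (b.1.1 : ℕ) = j at hb
    generalize hk : (b.1.2 : ℕ) = k at hb
    unfold simg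
    split_ifs <;> first
      | omega
      | (simp only [Pi.smul_apply, Pi.add_apply, Pi.sub_apply, smul_eq_mul, yv, hj, hk, true_and,
           and_true, if_true]
         (try split_ifs) <;> first | omega | ring)
  rw [Matrix.trace]
  simp only [Matrix.diag_apply, e]
  rw [Finset.sum_sub_distrib, Finset.sum_sub_distrib, Finset.sum_sub_distrib,
    Finset.sum_sub_distrib, Finset.sum_add_distrib, ← Finset.mul_sum, ← Finset.mul_sum,
    ← Finset.mul_sum, Bh_one n i (i + 1) (by omega) (by omega), Bh_row n (i + 1) (by omega),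
    Bh_col n i (by omega), Bh_row n i (by omega), Bh_col n (i + 1) (by omega),
    Finset.sum_const, Finset.card_univ, Bh_card, nsmul_eq_mul, Nat.cast_add,
    Nat.cast_sub (show 1 ≤ n by omega)]
  push_cast
  ring

private theorem Bh_tt (n : ℕ) (hn : 2 ≤ n) :
    (tm n r0 r1 (Ln n)).trace = (r0 ^ 2 * r1 ^ 2 * (Ln n) ^ 2) +
      ((n * (n - 1) / 2 : ℕ) : R3) + ((n - 1 : ℕ) : R3) * (r0 * r1) := by
  have e : ∀ b : Pr n, tm n r0 r1 (Ln n) b b =
      1 + (r0 ^ 2 * r1 ^ 2 * (Ln n) ^ 2 - r0) *
        (if (b.1.1 : ℕ) = 0 ∧ (b.1.2 : ℕ) = 1 then (1 : R3) else 0) +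
      (r0 - 1) * (if (b.1.1 : ℕ) = 0 then (1 : R3) else 0) +
      (r0 * r1 - r0) * (if (b.1.1 : ℕ) = 1 then (1 : R3) else 0) := by
    intro b
    have hb : (b.1.1 : ℕ) < b.1.2 := b.2
    rw [tm, Matrix.of_apply]
    generalize hj : (b.1.1 : ℕ) = j at hb
    generalize hk : (b.1.2 : ℕ) = k at hb
    unfold timg
    split_ifs <;> first
      | omega
      | (simp only [Pi.smul_apply, Pi.add_apply, Pi.sub_apply, smul_eq_mul, yv, hj, hk, true_and,
           and_true, if_true]
         (try split_ifs) <;> first | omega | ring)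
  rw [Matrix.trace]
  simp only [Matrix.diag_apply, e]
  rw [Finset.sum_add_distrib, Finset.sum_add_distrib, Finset.sum_add_distrib,
    ← Finset.mul_sum, ← Finset.mul_sum,
    ← Finset.mul_sum, Bh_one n 0 1 (by omega) (by omega), Bh_row n 0 (by omega),
    Bh_row n 1 (by omega),
    Finset.sum_const, Finset.card_univ, Bh_card, nsmul_eq_mul, Nat.cast_add,
    Nat.cast_sub (show 1 ≤ n by omega)]
  push_cast
  ring

theorem pBh (h1 : SCh) (h2 : SBq) (h3 : SBa) : SBh := by
  intro n hn
  obtain ⟨hS, hT, -⟩ := h3 R3 n r0 r1 (Ln n)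
  obtain ⟨hs, ht⟩ := h2 R3 n r0 r1 (Ln n)
  have hc := Bh_card n
  constructor
  · intro i hi hin
    obtain ⟨φ, p0, p1, p2⟩ := Bh_hom n 1 1 one_ne_zero one_ne_zero
    obtain ⟨ψ, q0, q1, q2⟩ := Bh_hom n 1 2 one_ne_zero two_ne_zero
    obtain ⟨χ, s0, s1, s2⟩ := Bh_hom n 2 (4⁻¹) two_ne_zero (by norm_num)
    obtain ⟨a, b, c, habc, hchar, htr⟩ := h1 R3 (Pr n) (sm n r0 r1 (Ln n) i) (r0 ^ 2 * Ln n) 1 (-r0)
      (by
        intro h
        have := congrArg ψ h
        simp only [map_mul, map_pow, map_one, q0, q2] at this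
        norm_num at this)
      (by
        intro h
        have := congrArg φ h
        simp only [map_neg, map_one, p0] at this
        norm_num at this)
      (by
        intro h
        have := congrArg φ h
        simp only [map_mul, map_pow, map_neg, p0, p2] at this
        norm_num at this)
      (Bh_cub _ _ _ _ (yv n i (i + 1)) (fun b => Fs r0 r1 (Ln n) i b.1.1 b.1.2)
        (by
          rw [← hs i hin (Or.inl hi), one_smul, neg_smul, sub_neg_eq_add])
        (by
          rw [hS i i (i + 1) (by omega) (by omega), simg, if_pos ⟨rfl, rfl⟩]))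
    rw [Bh_ts n i hi hin] at htr
    have e1 := congrArg φ htr
    have e2 := congrArg ψ htr
    have e3 := congrArg χ htr
    simp only [map_add, map_sub, map_mul, map_neg, map_pow, map_one, map_natCast, p0, p2, q0, q2,
      s0, s2] at e1 e2 e3
    have f1 : (a : ℂ) = 1 := by linear_combination e1 - e2
    have f2 : (c : ℂ) = ((n - 1 : ℕ) : ℂ) := by linear_combination e3 - e1
    have f3 : (b : ℂ) = ((n * (n - 1) / 2 : ℕ) : ℂ) := by linear_combination -e1 + f2 - f1
    have g1 : a = 1 := by exact_mod_cast f1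
    have g2 : c = n - 1 := by exact_mod_cast f2
    have g3 : b = n * (n - 1) / 2 := by exact_mod_cast f3
    rw [hchar, g1, g2, g3, pow_one]
  · obtain ⟨φ, p0, p1, p2⟩ := Bh_hom n 1 1 one_ne_zero one_ne_zero
    obtain ⟨ψ, q0, q1, q2⟩ := Bh_hom n 1 2 one_ne_zero two_ne_zero
    obtain ⟨χ, s0, s1, s2⟩ := Bh_hom n 2 (2⁻¹) two_ne_zero (by norm_num)
    obtain ⟨a, b, c, habc, hchar, htr⟩ := h1 R3 (Pr n) (tm n r0 r1 (Ln n))
      (r0 ^ 2 * r1 ^ 2 * (Ln n) ^ 2) 1 (r0 * r1)
      (by
        intro h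
        have := congrArg ψ h
        simp only [map_mul, map_pow, map_one, q0, q1, q2] at this
        norm_num at this)
      (by
        intro h
        have := congrArg χ h
        simp only [map_mul, map_one, s0, s1] at this
        norm_num at this)
      (by
        intro h
        have := congrArg ψ h
        simp only [map_mul, map_pow, q0, q1, q2] at this
        norm_num at this)
      (Bh_cub _ _ _ _ (yv n 0 1) (fun b => Ft r0 r1 (Ln n) b.1.1 b.1.2)
        (by
          rw [← ht (by omega), one_smul])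
        (by
          rw [hT 0 1 (by omega) (by omega), timg, if_pos ⟨rfl, rfl⟩]))
    rw [Bh_tt n hn] at htr
    have e1 := congrArg φ htr
    have e2 := congrArg ψ htr
    have e3 := congrArg χ htr
    simp only [map_add, map_mul, map_pow, map_one, map_natCast, p0, p1, p2, q0, q1, q2,
      s0, s1, s2] at e1 e2 e3
    have f1 : (a : ℂ) = 1 := by linear_combination (e1 - e2) / 3
    have f2 : (c : ℂ) = ((n - 1 : ℕ) : ℂ) := by linear_combination e1 - e3
    have f3 : (b : ℂ) = ((n * (n - 1) / 2 : ℕ) : ℂ) := by linear_combination -e1 - f2 - f1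
    have g1 : a = 1 := by exact_mod_cast f1
    have g2 : c = n - 1 := by exact_mod_cast f2
    have g3 : b = n * (n - 1) / 2 := by exact_mod_cast f3
    rw [hchar, g1, g2, g3, pow_one]

end Pool.Agent.Lib.MP_97567f_al.U.TB
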