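import Pool.Agent.Lib.MP_97567f_al.U.SpecB

/-!
# MP_97567f_al, type B: absolute irreducibility
-/

set_option autoImplicit false

namespace Pool.Agent.Lib.MP_97567f_al.U.TB

open Polynomial

section abs

variable {ι : Type} [Fintype ι] [DecidableEq ι] {K G : Type} [Field K] [Group G]

/-- Matrices of rank one in the span, and enough vectors and functionals. -/
private theorem Bi_abs (ρ : G → Matrix ι ι K) (hmul : ∀ x y, ρ (x * y) = ρ x * ρ y)
    (u w : ι → ι → K) (h1 : ∀ b, Matrix.vecMulVec (u b) (w b) ∈ Submodule.span K (Set.range ρ))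
    (h2 : ∀ b, Submodule.span K {y | ∃ x, y = (ρ x).mulVec (u b)} = ⊤)
    (h : ι → G) (h3 : (Matrix.of fun b c => (Matrix.vecMul (w b) (ρ (h b))) c).det ≠ 0) :
    Submodule.span K (Set.range ρ) = ⊤ := by
  let A := Submodule.span K (Set.range ρ)
  have hl : ∀ x, ∀ a ∈ A, ρ x * a ∈ A := by
    intro x a ha
    have h4 : A ≤ A.comap (LinearMap.mulLeft K (ρ x)) := by
      refine Submodule.span_le.2 ?_
      rintro _ ⟨y, rfl⟩
      refine Submodule.subset_span ⟨x * y, ?_⟩
      rw [hmul]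
      rfl
    exact h4 ha
  have hr : ∀ x, ∀ a ∈ A, a * ρ x ∈ A := by
    intro x a ha
    have h4 : A ≤ A.comap (LinearMap.mulRight K (ρ x)) := by
      refine Submodule.span_le.2 ?_
      rintro _ ⟨y, rfl⟩
      refine Submodule.subset_span ⟨y * x, ?_⟩
      rw [hmul]
      rfl
    exact h4 ha
  have e1 : ∀ (b : ι) (u' : ι → K), Matrix.vecMulVec u' (w b) ∈ A := by
    intro b u'
    have h4 : u' ∈ Submodule.span K {y | ∃ x, y = (ρ x).mulVec (u b)} := by
      rw [h2 b]
      trivial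
    induction h4 using Submodule.span_induction with
    | mem y hy =>
      obtain ⟨x, rfl⟩ := hy
      rw [← Matrix.mul_vecMulVec]
      exact hl x _ (h1 b)
    | zero =>
      rw [Matrix.zero_vecMulVec]
      exact A.zero_mem
    | add x y _ _ hx hy =>
      rw [Matrix.add_vecMulVec]
      exact A.add_mem hx hy
    | smul a x _ hx =>
      rw [Matrix.smul_vecMulVec]
      exact A.smul_mem a hx
  have e2 : ∀ (b : ι) (u' : ι → K) (x : G),
      Matrix.vecMulVec u' (Matrix.vecMul (w b) (ρ x)) ∈ A := by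
    intro b u' x
    rw [← Matrix.vecMulVec_mul]
    exact hr x _ (e1 b u')
  have e3 : ∀ u' w' : ι → K, Matrix.vecMulVec u' w' ∈ A := by
    intro u' w'
    let Q : Matrix ι ι K := Matrix.of fun b c => (Matrix.vecMul (w b) (ρ (h b))) c
    have h4 : w' = Matrix.vecMul (Matrix.vecMul w' Q⁻¹) Q := by
      rw [Matrix.vecMul_vecMul, Matrix.nonsing_inv_mul Q (isUnit_iff_ne_zero.2 h3),
        Matrix.vecMul_one]
    rw [h4, Matrix.vecMul_eq_sum]
    have h5 : Matrix.vecMulVec u' (∑ i, Matrix.vecMul w' Q⁻¹ i • Q i) =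
        ∑ i, Matrix.vecMul w' Q⁻¹ i • Matrix.vecMulVec u' (Q i) := by
      ext a b
      simp only [Matrix.vecMulVec_apply, Finset.sum_apply, Pi.smul_apply, Matrix.sum_apply,
        Matrix.smul_apply, smul_eq_mul, Finset.mul_sum]
      refine Finset.sum_congr rfl fun i _ => ?_
      ring
    rw [h5]
    exact Submodule.sum_mem _ fun i _ => A.smul_mem _ (e2 i u' (h i))
  rw [eq_top_iff]
  intro N _
  have h4 : N = ∑ i, Matrix.vecMulVec (Pi.single i 1) (N i) := by
    ext a b
    rw [Matrix.sum_apply, Finset.sum_eq_single a]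
    · rw [Matrix.vecMulVec_apply, Pi.single_eq_same, one_mul]
    · intro i _ hi
      rw [Matrix.vecMulVec_apply, Pi.single_eq_of_ne (Ne.symm hi), zero_mul]
    · intro ha
      exact absurd (Finset.mem_univ _) ha
  rw [h4]
  exact Submodule.sum_mem _ fun i _ => e3 _ _

end abs

private theorem Bi_xx : xx ^ 2 - 1 ≠ 0 := by
  intro h
  have h1 : algebraMap ℂ[X] K1 (X ^ 2 - 1) = 0 := by
    rw [map_sub, map_pow, map_one]
    exact h
  have h2 : (X ^ 2 - 1 : ℂ[X]) = 0 := by
    apply IsFractionRing.injective ℂ[X] K1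
    rw [h1, map_zero]
  have h3 := congrArg (Polynomial.eval 0) h2
  norm_num at h3

private theorem Bi_xx0 : xx ≠ 0 := by
  intro h
  have h2 : (X : ℂ[X]) = 0 := by
    apply IsFractionRing.injective ℂ[X] K1
    rw [map_zero]
    exact h
  exact X_ne_zero h2

private theorem Bi_Ln (n : ℕ) : Ln n * (r0 ^ n * r1) = r2 := by
  have h1 : (r0 ^ n * r1 : R3) = ((r0_unit.unit ^ n * r1_unit.unit : R3ˣ) : R3) := by
    rw [Units.val_mul, Units.val_pow_eq_pow_val, IsUnit.unit_spec, IsUnit.unit_spec]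
  unfold Ln
  rw [h1, mul_assoc, Units.inv_mul, mul_one]

private theorem Bi_Lnu (n : ℕ) : IsUnit (Ln n) := by
  unfold Ln
  exact r2_unit.mul (Units.isUnit _)

/-- All parameters with values in a field. -/
private theorem Bi_lift {S : Type} [Field S] [Algebra ℂ S] (n : ℕ) {a b c : S} (ha : a ≠ 0)
    (hb : b ≠ 0) (hc : c ≠ 0) : ∃ φ : R3 →ₐ[ℂ] S, φ r0 = a ∧ φ r1 = b ∧ φ (Ln n) = c := by
  have h0 : a ^ n * b ≠ 0 := mul_ne_zero (pow_ne_zero _ ha) hb
  obtain ⟨π, e0, e1, e2⟩ := R3_lift (S := S) (a := a) (b := b) (c := c * (a ^ n * b))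
    (isUnit_iff_ne_zero.2 ha) (isUnit_iff_ne_zero.2 hb)
    (isUnit_iff_ne_zero.2 (mul_ne_zero hc h0))
  refine ⟨π, e0, e1, ?_⟩
  have h5 := congrArg π (Bi_Ln n)
  rw [map_mul, map_mul, map_pow, e0, e1, e2] at h5
  exact mul_right_cancel₀ h0 h5

/-- The weights. -/
private def Bi_w {R : Type} [CommRing R] (n : ℕ) (q P L : R) (b : Pr n) : Pr n → R :=
  if (b.1.1 : ℕ) = 0 then fun c => Ft q P L c.1.1 c.1.2 else fun c => Fs q P L 1 c.1.1 c.1.2

private theorem Bi_map {R S : Type} [CommRing R] [CommRing S] (φ : R →+* S) (n : ℕ)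
    (q P L : R) (b : Pr n) : φ ∘ Bi_w n q P L b = Bi_w n (φ q) (φ P) (φ L) b := by
  funext c
  unfold Bi_w
  by_cases hb : (b.1.1 : ℕ) = 0
  · simp only [Function.comp_apply, if_pos hb]
    unfold Ft
    split_ifs <;> simp
  · simp only [Function.comp_apply, if_neg hb]
    unfold Fs wj
    split_ifs <;> simp

private theorem Bi_yv {R : Type} [CommRing R] {n : ℕ} (b : Pr n) :
    (yv n b.1.1 b.1.2 : Pr n → R) = Pi.single b 1 := by
  funext g
  by_cases h : g = b
  · subst h
    rw [Pi.single_eq_same]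
    exact if_pos ⟨rfl, rfl⟩
  · rw [Pi.single_eq_of_ne h]
    refine if_neg fun h' => h (Subtype.ext (Prod.ext (Fin.ext h'.1) (Fin.ext h'.2)))

private theorem Bi_dot {R : Type} [CommRing R] {n : ℕ} (w : Pr n → R) (b : Pr n) :
    w ⬝ᵥ (yv n b.1.1 b.1.2 : Pr n → R) = w b := by
  rw [Bi_yv, dotProduct_single, mul_one]

theorem pBi (h1 : SBq) (h2 : SBr) (h3 : SBy) (h4 : SBm) : SBi := by
  intro n hn
  -- the generic point
  have hinj : Function.Injective (algebraMap R3 (FractionRing R3)) :=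
    IsFractionRing.injective R3 (FractionRing R3)
  set q : FractionRing R3 := algebraMap R3 (FractionRing R3) r0 with hq
  set P : FractionRing R3 := algebraMap R3 (FractionRing R3) r1 with hP
  set L : FractionRing R3 := algebraMap R3 (FractionRing R3) (Ln n) with hL
  obtain ⟨φ, f0, f1, f2⟩ := Bi_lift (S := ℂ) n (a := 2) (b := 2) (c := 3) (by norm_num)
    (by norm_num) (by norm_num)
  have hne : ∀ r : R3, φ r ≠ 0 → algebraMap R3 (FractionRing R3) r ≠ 0 := by
    intro r hr h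
    rw [(map_eq_zero_iff _ hinj).1 h, map_zero] at hr
    exact hr rfl
  have q0 : q ≠ 0 := hne _ (by rw [f0]; norm_num)
  have P0 : P ≠ 0 := hne _ (by rw [f1]; norm_num)
  have L0 : L ≠ 0 := hne _ (by rw [f2]; norm_num)
  have q1 : q ≠ 1 := by
    intro h
    refine hne (r0 - 1) ?_ ?_
    · rw [map_sub, map_one, f0]
      norm_num
    · rw [map_sub, map_one, ← hq, h, sub_self]
  have P1 : P ≠ 1 := by
    intro h
    refine hne (r1 - 1) ?_ ?_
    · rw [map_sub, map_one, f1]
      norm_num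
    · rw [map_sub, map_one, ← hP, h, sub_self]
  have PL : P * L ≠ 1 := by
    intro h
    refine hne (r1 * Ln n - 1) ?_ ?_
    · rw [map_sub, map_mul, map_one, f1, f2]
      norm_num
    · rw [map_sub, map_mul, map_one, ← hP, ← hL, h, sub_self]
  have qPL : q * P * L ≠ -1 := by
    intro h
    refine hne (r0 * r1 * Ln n + 1) ?_ ?_
    · rw [map_add, map_mul, map_mul, map_one, f0, f1, f2]
      norm_num
    · rw [map_add, map_mul, map_mul, map_one, ← hq, ← hP, ← hL, h]
      norm_num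
  obtain ⟨hc1, hc2⟩ := h3 n hn (FractionRing R3) q P L q0 P0 L0 q1 P1
  -- the matrices
  have hr3 := (h2.1 R3 n r0 r1 (Ln n) r0_unit r1_unit (Bi_Lnu n)).2
  have hmK : ∀ x, mK (B3 n) x = (Brep n q P L x).1 := fun x => hr3 (FractionRing R3) _ x
  have hgen := (h2.1 (FractionRing R3) n q P L (isUnit_iff_ne_zero.2 q0)
    (isUnit_iff_ne_zero.2 P0) (isUnit_iff_ne_zero.2 L0)).1
  have hrange : (fun x => mK (B3 n) x) = fun x => (Brep n q P L x).1 := funext hmK
  rw [hrange]
  -- the group elements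
  have hxx0 := Bi_xx0
  obtain ⟨H, m1, m2, m3⟩ := h4 n K1 xx hxx0
  have hch : ∀ b : Pr n, ∃ x ∈ H, ∃ c : K1, c ≠ 0 ∧ (Brep n 1 1 xx x).1.mulVec
      (yv n b.1.1 b.1.2) = c • if (b.1.1 : ℕ) = 0 then yv n 0 1 else yv n 1 2 := by
    intro b
    by_cases hb : (b.1.1 : ℕ) = 0
    · rw [if_pos hb]
      exact m2 b hb
    · rw [if_neg hb]
      exact m3 b hb
  choose h hH c' hc' hv using hch
  have hmulA : ∀ x y : Art (BM n), (Brep n q P L (x * y)).1 =
      (Brep n q P L x).1 * (Brep n q P L y).1 := by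
    intro x y
    rw [map_mul, Units.val_mul]
  refine Bi_abs (fun x => (Brep n q P L x).1) hmulA
    (fun b => if (b.1.1 : ℕ) = 0 then yv n 0 1 else yv n 1 2) (Bi_w n q P L) ?_ ?_ h ?_
  · -- rank one
    intro b
    have hmem : ∀ x, (Brep n q P L x).1 ∈
        Submodule.span (FractionRing R3) (Set.range fun x => (Brep n q P L x).1) :=
      fun x => Submodule.subset_span ⟨x, rfl⟩
    have hone : (1 : Matrix (Pr n) (Pr n) (FractionRing R3)) ∈
        Submodule.span (FractionRing R3) (Set.range fun x => (Brep n q P L x).1) := by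
      have h5 := hmem 1
      rwa [map_one, Units.val_one] at h5
    by_cases hb : (b.1.1 : ℕ) = 0
    · have h5 := (h1 (FractionRing R3) n q P L).2 (by omega)
      have h6 : (Brep n q P L (bg n 0)).1 = tm n q P L := by
        rw [hgen 0 (by omega)]
        exact if_pos rfl
      simp only [if_pos hb]
      have h7 : Bi_w n q P L b = fun b => Ft q P L b.1.1 b.1.2 := if_pos hb
      rw [h7, ← h5, ← h6]
      have h8 : ((Brep n q P L (bg n 0)).1 - 1) * ((Brep n q P L (bg n 0)).1 -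
          (q * P) • (1 : Matrix (Pr n) (Pr n) (FractionRing R3))) =
          (Brep n q P L (bg n 0 * bg n 0)).1 - (q * P) • (Brep n q P L (bg n 0)).1 -
          ((Brep n q P L (bg n 0)).1 - (q * P) • (1 : Matrix (Pr n) (Pr n) _)) := by
        rw [hmulA, sub_mul, mul_sub, one_mul, mul_smul_comm, mul_one]
      rw [h8]
      exact Submodule.sub_mem _ (Submodule.sub_mem _ (hmem _) (Submodule.smul_mem _ _ (hmem _)))
        (Submodule.sub_mem _ (hmem _) (Submodule.smul_mem _ _ hone))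
    · have h5 := (h1 (FractionRing R3) n q P L).1 1 (by omega) (Or.inl le_rfl)
      have h6 : (Brep n q P L (bg n 1)).1 = sm n q P L 1 := by
        rw [hgen 1 (by omega)]
        exact if_neg one_ne_zero
      simp only [if_neg hb]
      have h7 : Bi_w n q P L b = fun b => Fs q P L 1 b.1.1 b.1.2 := if_neg hb
      have h9 : (yv n 1 2 : Pr n → FractionRing R3) = yv n 1 (1 + 1) := rfl
      rw [h7, h9, ← h5, ← h6]
      have h8 : ((Brep n q P L (bg n 1)).1 - 1) * ((Brep n q P L (bg n 1)).1 +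
          q • (1 : Matrix (Pr n) (Pr n) (FractionRing R3))) =
          (Brep n q P L (bg n 1 * bg n 1)).1 + q • (Brep n q P L (bg n 1)).1 -
          ((Brep n q P L (bg n 1)).1 + q • (1 : Matrix (Pr n) (Pr n) _)) := by
        rw [hmulA, sub_mul, mul_add, one_mul, mul_smul_comm, mul_one]
      rw [h8]
      exact Submodule.sub_mem _ (Submodule.add_mem _ (hmem _) (Submodule.smul_mem _ _ (hmem _)))
        (Submodule.add_mem _ (hmem _) (Submodule.smul_mem _ _ hone))
  · -- cyclic vectors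
    intro b
    by_cases hb : (b.1.1 : ℕ) = 0
    · simp only [if_pos hb]
      exact hc1
    · simp only [if_neg hb]
      exact hc2 PL qPL
  · -- the determinant
    let Q0 : Matrix (Pr n) (Pr n) R3 :=
      Matrix.of fun b c => (Matrix.vecMul (Bi_w n r0 r1 (Ln n) b) (B3 n (h b)).1) c
    have hmapQ : ∀ (S : Type) [CommRing S] (φ : R3 →+* S),
        Q0.map φ = Matrix.of fun b c => (Matrix.vecMul (Bi_w n (φ r0) (φ r1) (φ (Ln n)) b)
          (Brep n (φ r0) (φ r1) (φ (Ln n)) (h b)).1) c := by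
      intro S _ φ
      ext b c
      rw [Matrix.map_apply]
      change φ ((Matrix.vecMul (Bi_w n r0 r1 (Ln n) b) (B3 n (h b)).1) c) = _
      rw [RingHom.map_vecMul, Bi_map]
      have h5 : (B3 n (h b)).1.map φ = (Brep n (φ r0) (φ r1) (φ (Ln n)) (h b)).1 := hr3 S φ (h b)
      rw [h5]
      rfl
    have h5 := hmapQ (FractionRing R3) (algebraMap R3 (FractionRing R3))
    rw [← hq, ← hP, ← hL] at h5
    rw [← h5]
    have h6 : (Q0.map (algebraMap R3 (FractionRing R3))).det =
        algebraMap R3 (FractionRing R3) Q0.det := by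
      rw [RingHom.map_det]
      rfl
    rw [h6, Ne, map_eq_zero_iff _ hinj]
    intro hdet
    obtain ⟨π, g0, g1, g2⟩ := Bi_lift (S := K1) n (a := 1) (b := 1) (c := xx) one_ne_zero
      one_ne_zero hxx0
    have h7 := hmapQ K1 (π : R3 →+* K1)
    have g0' : (π : R3 →+* K1) r0 = 1 := g0
    have g1' : (π : R3 →+* K1) r1 = 1 := g1
    have g2' : (π : R3 →+* K1) (Ln n) = xx := g2
    rw [g0', g1', g2'] at h7
    have h8 : (Q0.map (π : R3 →+* K1)).det = 0 := by
      have h9 : (Q0.map (π : R3 →+* K1)).det = (π : R3 →+* K1) Q0.det := by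
        rw [RingHom.map_det]
        rfl
      rw [h9, hdet, map_zero]
    set Q1 := Q0.map (π : R3 →+* K1) with hQ1
    obtain ⟨x, hx0, hx⟩ := Matrix.exists_mulVec_eq_zero_iff.2 h8
    apply hx0
    -- the entries
    have hent : ∀ b : Pr n, ∃ (σ : Equiv.Perm (Pr n)) (cc : Pr n → K1), (∀ c, cc c ≠ 0) ∧
        (∀ c, ((σ c).1.1 : ℕ) = 0 ↔ (c.1.1 : ℕ) = 0) ∧
        (cc b • (yv n (σ b).1.1 (σ b).1.2 : Pr n → K1) =
          c' b • if (b.1.1 : ℕ) = 0 then yv n 0 1 else yv n 1 2) ∧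
        ∀ c, Q1 b c = cc c * Bi_w n 1 1 xx b (σ c) := by
      intro b
      obtain ⟨σ, cc, hσ⟩ := m1 (h b) (hH b)
      refine ⟨σ, cc, fun c => (hσ c).1, fun c => (hσ c).2.1, ?_, ?_⟩
      · rw [← (hσ b).2.2]
        exact hv b
      · intro c
        rw [h7]
        change (Matrix.vecMul (Bi_w n 1 1 xx b) (Brep n 1 1 xx (h b)).1) c = _
        have h10 : (Matrix.vecMul (Bi_w n 1 1 xx b) (Brep n 1 1 xx (h b)).1) c =
            Matrix.vecMul (Bi_w n 1 1 xx b) (Brep n 1 1 xx (h b)).1 ⬝ᵥ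
              (yv n c.1.1 c.1.2 : Pr n → K1) := (Bi_dot _ c).symm
        rw [h10, ← Matrix.dotProduct_mulVec, (hσ c).2.2, dotProduct_smul, Bi_dot, smul_eq_mul]
    have hpos : ∀ (b : Pr n) (a : K1) (j k : ℕ), a ≠ 0 → ∀ d : K1,
        a • (yv n b.1.1 b.1.2 : Pr n → K1) = d • yv n j k → (b.1.1 : ℕ) = j ∧ (b.1.2 : ℕ) = k := by
      intro b a j k ha d he
      have h10 := congrFun he b
      rw [Pi.smul_apply, Pi.smul_apply, Bi_yv, Pi.single_eq_same, smul_eq_mul, mul_one] at h10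
      by_contra hcon
      have h11 : (yv n j k : Pr n → K1) b = 0 := if_neg hcon
      rw [h11, smul_zero] at h10
      exact ha h10
    have hw0 : ∀ b c : Pr n, (b.1.1 : ℕ) = 0 → (c.1.1 : ℕ) = 0 →
        Bi_w n (1 : K1) 1 xx b c = if (c.1.2 : ℕ) = 1 then (xx ^ 2 - 1) * (xx ^ 2 - 1) else 0 := by
      intro b c hb hc
      have h10 : Bi_w n (1 : K1) 1 xx b = fun c => Ft 1 1 xx c.1.1 c.1.2 := if_pos hb
      rw [h10]
      change Ft (1 : K1) 1 xx c.1.1 c.1.2 = _
      unfold Ft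
      by_cases h11 : (c.1.2 : ℕ) = 1
      · rw [if_pos ⟨hc, h11⟩, if_pos h11]
        ring
      · rw [if_neg (fun h => h11 h.2), if_pos hc, if_neg h11]
        ring
    have hw1 : ∀ b c : Pr n, (b.1.1 : ℕ) ≠ 0 → Bi_w n (1 : K1) 1 xx b c =
        if (c.1.1 : ℕ) = 1 ∧ (c.1.2 : ℕ) = 2 then xx ^ 2 - 1 else 0 := by
      intro b c hb
      have h10 : Bi_w n (1 : K1) 1 xx b = fun c => Fs 1 1 xx 1 c.1.1 c.1.2 := if_neg hb
      rw [h10]
      change Fs (1 : K1) 1 xx 1 c.1.1 c.1.2 = _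
      unfold Fs
      simp only [one_add_one_eq_two]
      by_cases h11 : (c.1.1 : ℕ) = 1 ∧ (c.1.2 : ℕ) = 2
      · rw [if_pos h11, if_pos h11]
        ring
      · rw [if_neg h11, if_neg h11]
        split_ifs <;> ring
    have hx1 : ∀ b : Pr n, (b.1.1 : ℕ) ≠ 0 → x b = 0 := by
      intro b hb
      obtain ⟨σ, cc, hcc, -, hb1, hb2⟩ := hent b
      rw [if_neg hb] at hb1
      obtain ⟨e1, e2⟩ := hpos (σ b) (cc b) 1 2 (hcc b) _ hb1
      have h10 := congrFun hx b
      have h11 : Matrix.mulVec Q1 x b = ∑ c, Q1 b c * x c := rfl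
      rw [h11, Finset.sum_eq_single b, hb2, hw1 b (σ b) hb, if_pos ⟨e1, e2⟩, Pi.zero_apply] at h10
      · exact (mul_eq_zero.1 h10).resolve_left (mul_ne_zero (hcc b) Bi_xx)
      · intro c _ hcb
        rw [hb2, hw1 b (σ c) hb, if_neg, mul_zero, zero_mul]
        rintro ⟨e3, e4⟩
        apply hcb
        apply σ.injective
        exact Subtype.ext (Prod.ext (Fin.ext (e3.trans e1.symm)) (Fin.ext (e4.trans e2.symm)))
      · intro hcon
        exact absurd (Finset.mem_univ _) hcon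
    funext b
    by_cases hb : (b.1.1 : ℕ) = 0
    · obtain ⟨σ, cc, hcc, hσ, hb1, hb2⟩ := hent b
      rw [if_pos hb] at hb1
      obtain ⟨e1, e2⟩ := hpos (σ b) (cc b) 0 1 (hcc b) _ hb1
      have h10 := congrFun hx b
      have h11 : Matrix.mulVec Q1 x b = ∑ c, Q1 b c * x c := rfl
      rw [h11, Finset.sum_eq_single b, hb2, hw0 b (σ b) hb e1, if_pos e2, Pi.zero_apply] at h10
      · exact (mul_eq_zero.1 h10).resolve_left (mul_ne_zero (hcc b) (mul_ne_zero Bi_xx Bi_xx))
      · intro c _ hcb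
        by_cases hc0 : (c.1.1 : ℕ) = 0
        · have e3 : ((σ c).1.1 : ℕ) = 0 := (hσ c).2 hc0
          rw [hb2, hw0 b (σ c) hb e3, if_neg, mul_zero, zero_mul]
          intro e4
          apply hcb
          apply σ.injective
          exact Subtype.ext (Prod.ext (Fin.ext (e3.trans e1.symm)) (Fin.ext (e4.trans e2.symm)))
        · rw [hx1 c hc0, mul_zero]
      · intro hcon
        exact absurd (Finset.mem_univ _) hcon
    · exact hx1 b hb

end Pool.Agent.Lib.MP_97567f_al.U.TB
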