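import Pool.Agent.Lib.MP_97567f_al.U.SpecB

/-!
# MP_97567f_al: type `B`: the ideal `J2`
-/

set_option autoImplicit false

namespace Pool.Agent.Lib.MP_97567f_al.U.TB

section general

variable {A : Type} [Group A] {K : Type} [Field K] {ι : Type} [Fintype ι] [DecidableEq ι]

/-- A subspace stable under generators is stable. -/
private theorem Bj_stab (ρ : A →* GL ι K) (W : Submodule K (ι → K)) (S : Set A)
    (hS : Subgroup.closure S = ⊤) (h : ∀ s ∈ S, ∀ v ∈ W, (ρ s).1.mulVec v ∈ W) (x : A) :
    ∀ v ∈ W, (ρ x).1.mulVec v ∈ W := by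
  let P : Subgroup A :=
    { carrier := {x | ∀ v ∈ W, (ρ x).1.mulVec v ∈ W}
      one_mem' := by
        intro v hv
        rw [map_one, Units.val_one, Matrix.one_mulVec]
        exact hv
      mul_mem' := by
        intro a b ha hb v hv
        rw [map_mul, Units.val_mul, ← Matrix.mulVec_mulVec]
        exact ha _ (hb v hv)
      inv_mem' := by
        intro a ha v hv
        have hinj : Function.Injective (Matrix.mulVecLin (ρ a).1) := by
          intro u w huw
          have h1 : (ρ a).1.mulVec u = (ρ a).1.mulVec w := huw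
          have h2 := congrArg (fun y => ((ρ a)⁻¹).1.mulVec y) h1
          simp only [Matrix.mulVec_mulVec] at h2
          rwa [← Units.val_mul, inv_mul_cancel, Units.val_one, Matrix.one_mulVec,
            Matrix.one_mulVec] at h2
        have hle : W.map (Matrix.mulVecLin (ρ a).1) ≤ W := by
          rintro _ ⟨u, hu, rfl⟩
          exact ha u hu
        have heq : W.map (Matrix.mulVecLin (ρ a).1) = W := by
          refine Submodule.eq_of_le_of_finrank_eq hle ?_
          exact (Submodule.equivMapOfInjective _ hinj W).finrank_eq.symm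
        have hv' : v ∈ W.map (Matrix.mulVecLin (ρ a).1) := by rw [heq]; exact hv
        obtain ⟨u, hu, hu'⟩ := hv'
        have h3 : (ρ a⁻¹).1.mulVec v = u := by
          rw [← hu', Matrix.mulVecLin_apply, Matrix.mulVec_mulVec, ← Units.val_mul, ← map_mul,
            inv_mul_cancel, map_one, Units.val_one, Matrix.one_mulVec]
        rw [h3]
        exact hu }
  have hx : x ∈ P := by
    have h1 : Subgroup.closure S ≤ P := (Subgroup.closure_le P).2 h
    exact h1 (by rw [hS]; trivial)
  exact hx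

omit [Group A] in
/-- If a proper subspace is stable then the matrices do not span. -/
private theorem Bj_span (X : A → Matrix ι ι K) (W : Submodule K (ι → K)) (h0 : W ≠ ⊥) (h1 : W ≠ ⊤)
    (h : ∀ x, ∀ v ∈ W, (X x).mulVec v ∈ W) : Submodule.span K (Set.range X) ≠ ⊤ := by
  intro htop
  apply h1
  obtain ⟨w, hw, hw0⟩ := (Submodule.ne_bot_iff W).1 h0
  obtain ⟨b, hb⟩ := Function.ne_iff.1 hw0
  have hb' : w b ≠ 0 := hb
  rw [eq_top_iff]
  intro v _
  have key : ∀ Y : Matrix ι ι K, Y ∈ Submodule.span K (Set.range X) → Y.mulVec w ∈ W := by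
    intro Y hY
    induction hY using Submodule.span_induction with
    | mem y hy =>
      obtain ⟨x, rfl⟩ := hy
      exact h x w hw
    | zero => rw [Matrix.zero_mulVec]; exact W.zero_mem
    | add y z _ _ hy hz => rw [Matrix.add_mulVec]; exact W.add_mem hy hz
    | smul c y _ hy => rw [Matrix.smul_mulVec]; exact W.smul_mem c hy
  have h2 := key (Matrix.vecMulVec v (Pi.single b (w b)⁻¹)) (by rw [htop]; trivial)
  have h3 : (Matrix.vecMulVec v (Pi.single b (w b)⁻¹)).mulVec w = v := by
    ext i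
    rw [Matrix.mulVec, dotProduct, Finset.sum_eq_single b]
    · rw [Matrix.vecMulVec_apply, Pi.single_eq_same, mul_assoc, inv_mul_cancel₀ hb', mul_one]
    · intro c _ hc
      rw [Matrix.vecMulVec_apply, Pi.single_eq_of_ne hc, mul_zero, zero_mul]
    · intro hh
      exact absurd (Finset.mem_univ _) hh
  rwa [h3] at h2

end general

theorem pBj (h1 : SJle) (h2 : SBr) (h3 : SBo) (h4 : SBe) (h5 : SRs) (h6 : SBg) : SBj := by
  intro n hn i
  obtain ⟨π, hker, -, hπ1, -, -⟩ := h5 i
  refine (h1 (Art (BM n)) R3 (Pr n) (B3 n) K2 (π : R3 →+* K2) (rr i - 1) hker).2.1 ?_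
  have uL : IsUnit (Ln n) := r2_unit.mul (Units.isUnit _)
  have u0 : IsUnit (π r0) := r0_unit.map π
  have u1 : IsUnit (π r1) := r1_unit.map π
  have uL' : IsUnit (π (Ln n)) := uL.map π
  obtain ⟨hb1, hb2⟩ := h2.1 R3 n r0 r1 (Ln n) r0_unit r1_unit uL
  have hmap : ∀ x, (B3 n x).1.map (π : R3 →+* K2) =
      (Brep n (π r0) (π r1) (π (Ln n)) x).1 := fun x => hb2 K2 (π : R3 →+* K2) x
  obtain ⟨hc1, -⟩ := h2.1 K2 n (π r0) (π r1) (π (Ln n)) u0 u1 uL'
  have hgen := (h6 n).2.2.2.2.2
  let b01 : Pr n := ⟨(⟨0, by omega⟩, ⟨1, by omega⟩), by simp [Fin.lt_def]⟩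
  let b12 : Pr n := ⟨(⟨1, by omega⟩, ⟨2, by omega⟩), by simp [Fin.lt_def]⟩
  have hne : b12 ≠ b01 := by
    intro h
    have h7 := congrArg (fun b : Pr n => (b.1.1 : ℕ)) h
    simp [b01, b12] at h7
  simp only [hmap]
  have main : ∀ W : Submodule K2 (Pr n → K2), W ≠ ⊥ → W ≠ ⊤ →
      (∀ i, i < n → ∀ v ∈ W, (bm n (π r0) (π r1) (π (Ln n)) i).mulVec v ∈ W) →
      Submodule.span K2 (Set.range fun x => (Brep n (π r0) (π r1) (π (Ln n)) x).1) ≠ ⊤ := by
    intro W hW0 hW1 hW
    refine Bj_span (fun x => (Brep n (π r0) (π r1) (π (Ln n)) x).1) W hW0 hW1 fun x => ?_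
    refine Bj_stab (Brep n (π r0) (π r1) (π (Ln n))) W _ hgen ?_ x
    rintro _ ⟨k, hk, rfl⟩ v hv
    rw [hc1 k hk]
    exact hW k hk v hv
  by_cases hi2 : i = 2
  · -- the invariant vector
    subst hi2
    have hr2 : π r2 = 1 := hπ1
    have hrel : (π r0) ^ n * π r1 * π (Ln n) = 1 := by
      rw [← hr2, ← map_pow, ← map_mul, ← map_mul]
      congr 1
      unfold Ln
      have h7 : ((r0_unit.unit ^ n * r1_unit.unit : R3ˣ) : R3) = r0 ^ n * r1 := rfl
      rw [← h7]
      calc ((r0_unit.unit ^ n * r1_unit.unit : R3ˣ) : R3) *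
            (r2 * (((r0_unit.unit ^ n * r1_unit.unit)⁻¹ : R3ˣ) : R3)) =
          r2 * (((r0_unit.unit ^ n * r1_unit.unit : R3ˣ) : R3) *
            (((r0_unit.unit ^ n * r1_unit.unit)⁻¹ : R3ˣ) : R3)) := by ring
        _ = r2 := by rw [Units.mul_inv, mul_one]
    have hw := h3 K2 n (π r0) (π r1) (π (Ln n)) hrel
    set w : Pr n → K2 := fun b : Pr n => if (b.1.1 : ℕ) = 0 then (π r0) ^ (b.1.2 : ℕ)
      else (1 - π r0) * (π r0) ^ ((b.1.2 : ℕ) - (b.1.1 : ℕ)) with hwdef
    have hw01 : w b01 ≠ 0 := by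
      have : w b01 = (π r0) ^ 1 := by
        simp [hwdef, b01]
      rw [this, pow_one]
      exact u0.ne_zero
    refine main (Submodule.span K2 {w}) ?_ ?_ ?_
    · intro h
      rw [Submodule.span_singleton_eq_bot] at h
      exact hw01 (by rw [h]; rfl)
    · intro h
      have h7 : (Pi.single b12 1 : Pr n → K2) ∈ Submodule.span K2 {w} := by rw [h]; trivial
      obtain ⟨c, hc⟩ := Submodule.mem_span_singleton.1 h7
      have h8 := congrFun hc b01
      rw [Pi.smul_apply, smul_eq_mul, Pi.single_eq_of_ne hne.symm] at h8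
      have h9 : c = 0 := (mul_eq_zero.1 h8).resolve_right hw01
      have h10 := congrFun hc b12
      rw [h9, zero_smul, Pi.single_eq_same] at h10
      exact zero_ne_one h10
    · intro k hk v hv
      obtain ⟨c, rfl⟩ := Submodule.mem_span_singleton.1 hv
      rw [Matrix.mulVec_smul, hw k hk]
      exact Submodule.smul_mem _ c (Submodule.mem_span_singleton_self w)
  · have hqp : (1 - π r0) * (1 - π r1) = 0 := by
      have h7 : i = 0 ∨ i = 1 := by
        fin_cases i
        · exact Or.inl rfl
        · exact Or.inr rfl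
        · exact absurd rfl hi2
      rcases h7 with rfl | rfl
      · have h8 : π r0 = 1 := hπ1
        rw [h8, sub_self, zero_mul]
      · have h8 : π r1 = 1 := hπ1
        rw [h8, sub_self, mul_zero]
    have hent := h4 K2 n (π r0) (π r1) (π (Ln n)) hqp
    let W : Submodule K2 (Pr n → K2) :=
      { carrier := {v | ∀ g : Pr n, (g.1.1 : ℕ) ≠ 0 → v g = 0}
        add_mem' := by
          intro a b ha hb g hg
          rw [Pi.add_apply, ha g hg, hb g hg, add_zero]
        zero_mem' := fun g _ => rfl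
        smul_mem' := by
          intro c a ha g hg
          rw [Pi.smul_apply, ha g hg, smul_zero] }
    refine main W ?_ ?_ ?_
    · intro h
      have h7 : (Pi.single b01 1 : Pr n → K2) ∈ W := by
        intro g hg
        refine Pi.single_eq_of_ne ?_ _
        intro hh
        apply hg
        rw [hh]
      rw [h, Submodule.mem_bot] at h7
      have h8 := congrFun h7 b01
      rw [Pi.single_eq_same] at h8
      exact one_ne_zero h8
    · intro h
      have h7 : (Pi.single b12 1 : Pr n → K2) ∈ W := by rw [h]; trivial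
      have h8 := h7 b12 (by simp [b12])
      rw [Pi.single_eq_same] at h8
      exact one_ne_zero h8
    · intro k hk v hv g hg
      rw [Matrix.mulVec, dotProduct]
      refine Finset.sum_eq_zero fun b _ => ?_
      by_cases hb : (b.1.1 : ℕ) = 0
      · rw [hent k hk g b hb hg, zero_mul]
      · rw [hv b hb, mul_zero]

end Pool.Agent.Lib.MP_97567f_al.U.TB
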