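import Pool.Agent.Lib.MP_97567f_al.U.SpecB

/-!
# MP_97567f_al, type `B`: the monomial action at `q = P = 1`
-/

set_option autoImplicit false
set_option linter.unusedSimpArgs false

namespace Pool.Agent.Lib.MP_97567f_al.U.TB

open Matrix

theorem Bm_exists {n j k : ℕ} (h : j < k) (hk : k ≤ n) :
    ∃ b : Pr n, (b.1.1 : ℕ) = j ∧ (b.1.2 : ℕ) = k :=
  ⟨⟨(⟨j, by omega⟩, ⟨k, by omega⟩), h⟩, rfl, rfl⟩

theorem Bm_inj (h1 : SBa) {K : Type} [Field K] {n : ℕ} {a b : Pr n} {c d : K} (hc : c ≠ 0)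
    (h : c • (yv n a.1.1 a.1.2 : Pr n → K) = d • yv n b.1.1 b.1.2) : a = b := by
  obtain ⟨-, -, -, hs, -⟩ := h1 K n 0 0 0
  by_contra hab
  rw [← hs, ← hs] at h
  have h2 := congrFun h a
  simp only [Pi.smul_apply, Pi.single_eq_same, Pi.single_eq_of_ne hab, smul_eq_mul, mul_one,
    mul_zero] at h2
  exact hc h2

/-- The property of the elements of `H`. -/
def Bm_Q {K : Type} [Field K] (n : ℕ) (M : GL (Pr n) K) : Prop :=
  ∀ b : Pr n, ∃ (b' : Pr n) (c : K), c ≠ 0 ∧ ((b'.1.1 : ℕ) = 0 ↔ (b.1.1 : ℕ) = 0) ∧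
    M.1.mulVec (yv n b.1.1 b.1.2) = c • yv n b'.1.1 b'.1.2

theorem Bm_perm (h1 : SBa) {K : Type} [Field K] {n : ℕ} (M : GL (Pr n) K) (h : Bm_Q n M) :
    ∃ (σ : Equiv.Perm (Pr n)) (c : Pr n → K), ∀ b : Pr n, c b ≠ 0 ∧
      (((σ b).1.1 : ℕ) = 0 ↔ (b.1.1 : ℕ) = 0) ∧
      M.1.mulVec (yv n b.1.1 b.1.2) = c b • yv n (σ b).1.1 (σ b).1.2 := by
  choose f c hc hf hM using h
  have hinj : Function.Injective f := by
    intro a b hab
    refine Bm_inj h1 (c := c b) (d := c a) (hc b) ?_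
    have h2 : M.1.mulVec (c b • yv n a.1.1 a.1.2) = M.1.mulVec (c a • yv n b.1.1 b.1.2) := by
      rw [Matrix.mulVec_smul, Matrix.mulVec_smul, hM, hM, hab, smul_smul, smul_smul, mul_comm]
    have h3 := congrArg (fun v => (M⁻¹).1.mulVec v) h2
    simp only [Matrix.mulVec_mulVec] at h3
    have h4 : (M⁻¹).1 * M.1 = 1 := M.inv_mul
    rw [h4, Matrix.one_mulVec, Matrix.one_mulVec] at h3
    exact h3
  exact ⟨Equiv.ofBijective f (Finite.injective_iff_bijective.1 hinj), c, fun b =>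
    ⟨hc b, hf b, hM b⟩⟩

theorem Bm_one {K : Type} [Field K] (n : ℕ) : Bm_Q n (1 : GL (Pr n) K) := by
  intro b
  refine ⟨b, 1, one_ne_zero, Iff.rfl, ?_⟩
  rw [Units.val_one, Matrix.one_mulVec, one_smul]

theorem Bm_mul {K : Type} [Field K] {n : ℕ} {M N : GL (Pr n) K} (hM : Bm_Q n M)
    (hN : Bm_Q n N) : Bm_Q n (M * N) := by
  intro b
  obtain ⟨b1, c1, hc1, hb1, h1⟩ := hN b
  obtain ⟨b2, c2, hc2, hb2, h2⟩ := hM b1
  refine ⟨b2, c1 * c2, mul_ne_zero hc1 hc2, hb2.trans hb1, ?_⟩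
  rw [Units.val_mul, ← Matrix.mulVec_mulVec, h1, Matrix.mulVec_smul, h2, smul_smul]

theorem Bm_inv (h1 : SBa) {K : Type} [Field K] {n : ℕ} {M : GL (Pr n) K} (hM : Bm_Q n M) :
    Bm_Q n M⁻¹ := by
  obtain ⟨σ, c, h⟩ := Bm_perm h1 M hM
  intro b
  obtain ⟨h2, h3, h4⟩ := h (σ.symm b)
  rw [Equiv.apply_symm_apply] at h3 h4
  refine ⟨σ.symm b, (c (σ.symm b))⁻¹, inv_ne_zero h2, h3.symm, ?_⟩
  have h5 := congrArg (fun v => (M⁻¹).1.mulVec v) h4
  simp only [Matrix.mulVec_mulVec, Matrix.mulVec_smul] at h5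
  have h6 : (M⁻¹).1 * M.1 = 1 := M.inv_mul
  rw [h6, Matrix.one_mulVec] at h5
  rw [h5, smul_smul, inv_mul_cancel₀ h2, one_smul]

/-- The generators. -/
theorem Bm_gen (h1 : SBa) {K : Type} [Field K] (n : ℕ) (L : K) (hL : L ≠ 0) (i j k : ℕ)
    (hi : 1 ≤ i) (hin : i < n) (hjk : j < k) (hk : k ≤ n) :
    ∃ (j' k' : ℕ) (c : K), j' < k' ∧ k' ≤ n ∧ c ≠ 0 ∧ (j' = 0 ↔ j = 0) ∧
      (sm n 1 1 L i).mulVec (yv n j k) = c • yv n j' k' := by
  obtain ⟨hs, -, -, -, -⟩ := h1 K n 1 1 L
  by_cases c1 : j = i ∧ k = i + 1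
  · obtain ⟨rfl, rfl⟩ := c1
    refine ⟨j, j + 1, L, hjk, hk, hL, Iff.rfl, ?_⟩
    simp (disch := omega) only [hs, simg, if_pos, if_neg, if_true, and_self]
    module
  by_cases c2 : j = i + 1
  · subst c2
    refine ⟨i, k, 1, by omega, hk, one_ne_zero, by omega, ?_⟩
    simp (disch := omega) only [hs, simg, if_pos, if_neg, if_true, and_self]
    module
  by_cases c3 : j = i
  · subst c3
    refine ⟨j + 1, k, 1, by omega, hk, one_ne_zero, by omega, ?_⟩
    simp (disch := omega) only [hs, simg, if_pos, if_neg, if_true, and_self]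
    module
  by_cases c4 : k = i
  · subst c4
    refine ⟨j, k + 1, 1, by omega, hin, one_ne_zero, Iff.rfl, ?_⟩
    simp (disch := omega) only [hs, simg, if_pos, if_neg, if_true, and_self]
    module
  by_cases c5 : k = i + 1
  · subst c5
    refine ⟨j, i, 1, by omega, by omega, one_ne_zero, Iff.rfl, ?_⟩
    simp (disch := omega) only [hs, simg, if_pos, if_neg, if_true, and_self]
    module
  refine ⟨j, k, 1, hjk, hk, one_ne_zero, Iff.rfl, ?_⟩
  by_cases c6 : j < i ∧ i + 1 < k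
  · simp (disch := omega) only [hs, simg, if_pos, if_neg, if_true, and_self]
    module
  · simp (disch := omega) only [hs, simg, if_pos, if_neg, if_true, and_self]
    module

theorem pBm (h1 : SBa) (h2 : SBr) : SBm := by
  intro n K _ L hL
  obtain ⟨hgen, -⟩ := h2.1 K n 1 1 L isUnit_one isUnit_one (isUnit_iff_ne_zero.2 hL)
  obtain ⟨hs, -, -, -, -⟩ := h1 K n 1 1 L
  have hbs : ∀ i, 1 ≤ i → i < n → (Brep n 1 1 L (bg n i)).1 = sm n 1 1 L i := by
    intro i hi hin
    rw [hgen i hin, bm, if_neg (by omega)]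
  let H : Subgroup (Art (BM n)) := Subgroup.closure {x | ∃ i, 1 ≤ i ∧ i < n ∧ x = bg n i}
  have hmem : ∀ i, 1 ≤ i → i < n → bg n i ∈ H := fun i hi hin =>
    Subgroup.subset_closure ⟨i, hi, hin, rfl⟩
  refine ⟨H, ?_, ?_, ?_⟩
  · intro x hx
    refine Bm_perm h1 (Brep n 1 1 L x) ?_
    induction hx using Subgroup.closure_induction with
    | mem x hx =>
      obtain ⟨i, hi, hin, rfl⟩ := hx
      intro b
      obtain ⟨j', k', c, hjk, hk, hc, h0, h⟩ := Bm_gen h1 n L hL i b.1.1 b.1.2 hi hin b.2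
        (Nat.lt_succ_iff.1 b.1.2.2)
      obtain ⟨b', rfl, rfl⟩ := Bm_exists hjk hk
      exact ⟨b', c, hc, h0, by rw [hbs i hi hin, h]⟩
    | one =>
      rw [map_one]
      exact Bm_one n
    | mul x y _ _ hx hy =>
      rw [map_mul]
      exact Bm_mul hx hy
    | inv x _ hx =>
      rw [map_inv]
      exact Bm_inv h1 hx
  · have key : ∀ k, 1 ≤ k → k ≤ n → ∃ x ∈ H, ∃ c : K, c ≠ 0 ∧
        (Brep n 1 1 L x).1.mulVec (yv n 0 k) = c • yv n 0 1 := by
      intro k hk
      induction k, hk using Nat.le_induction with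
      | base =>
        intro _
        refine ⟨1, H.one_mem, 1, one_ne_zero, ?_⟩
        rw [map_one, Units.val_one, Matrix.one_mulVec, one_smul]
      | succ k hk ih =>
        intro hkn
        obtain ⟨x, hx, c, hc, h⟩ := ih (by omega)
        refine ⟨x * bg n k, H.mul_mem hx (hmem k hk (by omega)), c, hc, ?_⟩
        rw [map_mul, Units.val_mul, ← Matrix.mulVec_mulVec, hbs k hk (by omega), ← h]
        have h3 : (sm n 1 1 L k).mulVec (yv n 0 (k + 1)) = yv n 0 k := by
          simp (disch := omega) only [hs, simg, if_pos, if_neg, if_true, and_self]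
          module
        rw [h3]
    intro b hb
    rw [hb]
    exact key _ (by have := b.2; omega) (Nat.lt_succ_iff.1 b.1.2.2)
  · have key : ∀ m j k, j + k = m → 1 ≤ j → j < k → k ≤ n → ∃ x ∈ H, ∃ c : K, c ≠ 0 ∧
        (Brep n 1 1 L x).1.mulVec (yv n j k) = c • yv n 1 2 := by
      intro m
      induction m with
      | zero => intro j k h3 h4; omega
      | succ m ih =>
        intro j k hm hj hjk hk
        by_cases c1 : j + 1 < k
        · obtain ⟨x, hx, c, hc, h⟩ := ih j (k - 1) (by omega) hj (by omega) (by omega)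
          refine ⟨x * bg n (k - 1), H.mul_mem hx (hmem (k - 1) (by omega) (by omega)), c, hc, ?_⟩
          rw [map_mul, Units.val_mul, ← Matrix.mulVec_mulVec, hbs (k - 1) (by omega) (by omega),
            ← h]
          have h3 : (sm n 1 1 L (k - 1)).mulVec (yv n j k) = yv n j (k - 1) := by
            simp (disch := omega) only [hs, simg, if_pos, if_neg, if_true, and_self]
            module
          rw [h3]
        · have hk' : k = j + 1 := by omega
          subst hk'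
          by_cases c2 : j = 1
          · subst c2
            refine ⟨1, H.one_mem, 1, one_ne_zero, ?_⟩
            rw [map_one, Units.val_one, Matrix.one_mulVec, one_smul]
          · obtain ⟨x, hx, c, hc, h⟩ := ih (j - 1) (j + 1) (by omega) (by omega) (by omega) hk
            refine ⟨x * bg n (j - 1), H.mul_mem hx (hmem (j - 1) (by omega) (by omega)), c, hc,
              ?_⟩
            rw [map_mul, Units.val_mul, ← Matrix.mulVec_mulVec,
              hbs (j - 1) (by omega) (by omega), ← h]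
            have h3 : (sm n 1 1 L (j - 1)).mulVec (yv n j (j + 1)) = yv n (j - 1) (j + 1) := by
              simp (disch := omega) only [hs, simg, if_pos, if_neg, if_true, and_self]
              module
            rw [h3]
    intro b hb
    exact key _ _ _ rfl (by omega) b.2 (Nat.lt_succ_iff.1 b.1.2.2)

end Pool.Agent.Lib.MP_97567f_al.U.TB
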