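import Pool.Agent.Lib.MP_97567f_al.U.SpecB

/-!
# MP_97567f_al, type `B`: the entries generate the ring
-/

set_option autoImplicit false

namespace Pool.Agent.Lib.MP_97567f_al.U.TB

open Polynomial

private lemma Bn_ent (h2 : SBa) {R : Type} [CommRing R] (n : ℕ) (M : Matrix (Pr n) (Pr n) R)
    (g b : Pr n) : M.mulVec (yv n b.1.1 b.1.2) g = M g b := by
  rw [← (h2 R n 0 0 0).2.2.2.1 b, Matrix.mulVec_single_one]
  rfl

/-- The pair `(j, k)`. -/
def Bn_p (n j k : ℕ) (hj : j < k) (hk : k ≤ n) : Pr n :=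
  ⟨(⟨j, by omega⟩, ⟨k, by omega⟩), by simpa using hj⟩

private lemma Bn_ent2 (h2 : SBa) {R : Type} [CommRing R] (n j k : ℕ) (hj : j < k) (hk : k ≤ n)
    (M : Matrix (Pr n) (Pr n) R) (g : Pr n) : M.mulVec (yv n j k) g = M g (Bn_p n j k hj hk) :=
  Bn_ent h2 n M g (Bn_p n j k hj hk)

private lemma Bn_yv {R : Type} [CommRing R] (n j k a b : ℕ) (hj : j < k) (hk : k ≤ n) :
    (yv n a b : Pr n → R) (Bn_p n j k hj hk) = if j = a ∧ k = b then 1 else 0 := rfl

private lemma Bn_inv {n : ℕ} {R : Type} [CommRing R] (ρ : Art (BM n) →* GL (Pr n) R)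
    (x : Art (BM n)) (y : Pr n → R) : (ρ x⁻¹).1.mulVec ((ρ x).1.mulVec y) = y := by
  rw [Matrix.mulVec_mulVec, ← Units.val_mul, ← map_mul, inv_mul_cancel, map_one, Units.val_one,
    Matrix.one_mulVec]

/-- The entries generate the ring. -/
theorem pBn (h1 : SBr) (h2 : SBa) (h3 : SRg) : SBn := by
  intro n hn
  have hq : IsUnit r0 := r0_unit
  have hP : IsUnit r1 := r1_unit
  have hLn : IsUnit (Ln n) := by
    unfold Ln
    exact r2_unit.mul (Units.isUnit _)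
  have hr2 : r2 = r0 ^ n * r1 * Ln n := by
    have e1 : r0 ^ n * r1 = ((r0_unit.unit ^ n * r1_unit.unit : R3ˣ) : R3) := by
      rw [Units.val_mul, Units.val_pow_eq_pow_val, IsUnit.unit_spec, IsUnit.unit_spec]
    rw [e1, Ln, mul_comm r2, ← mul_assoc, Units.mul_inv, one_mul]
  set A : Subalgebra ℂ R3 := Algebra.adjoin ℂ (Set.range fun p : Art (BM n) × Pr n × Pr n =>
    (B3 n p.1).1 p.2.1 p.2.2) with hA
  have hmem : ∀ (x : Art (BM n)) (g b : Pr n), (B3 n x).1 g b ∈ A := fun x g b =>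
    Algebra.subset_adjoin ⟨(x, g, b), rfl⟩
  have hgen := (h1.1 R3 n r0 r1 (Ln n) hq hP hLn).1
  have hs : (B3 n (bg n 1)).1 = sm n r0 r1 (Ln n) 1 := by
    have := hgen 1 (by omega)
    rw [bm, if_neg one_ne_zero] at this
    exact this
  have ht : (B3 n (bg n 0)).1 = tm n r0 r1 (Ln n) := by
    have := hgen 0 (by omega)
    rw [bm, if_pos rfl] at this
    exact this
  obtain ⟨ba, bt, -, -, -⟩ := h2 R3 n r0 r1 (Ln n)
  -- the images
  have s01 : (sm n r0 r1 (Ln n) 1).mulVec (yv n 0 1) = r0 • yv n 0 2 + (1 - r0) • yv n 0 1 := by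
    rw [ba 1 0 1 (by omega) (by omega)]
    simp [simg]
  have s02 : (sm n r0 r1 (Ln n) 1).mulVec (yv n 0 2) =
      yv n 0 1 - (r0 * (1 - r0) * Ln n * (1 - r1)) • yv n 1 2 := by
    rw [ba 1 0 2 (by omega) (by omega)]
    simp [simg, wj]
  have s12 : (sm n r0 r1 (Ln n) 1).mulVec (yv n 1 2) = (r0 ^ 2 * Ln n) • yv n 1 2 := by
    rw [ba 1 1 2 (by omega) (by omega)]
    simp [simg]
  have t01 : (tm n r0 r1 (Ln n)).mulVec (yv n 0 1) = (r0 ^ 2 * r1 ^ 2 * Ln n ^ 2) • yv n 0 1 := by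
    rw [bt 0 1 (by omega) (by omega)]
    simp [timg]
  have t02 : (tm n r0 r1 (Ln n)).mulVec (yv n 0 2) = r0 • yv n 0 2 +
      ((1 - r0) * (1 - r1)) • yv n 1 2 - ((1 - r0) * r0 * r1 ^ 2 * Ln n ^ 2) • yv n 0 1 := by
    rw [bt 0 2 (by omega) (by omega)]
    simp [timg]
  have t12 : (tm n r0 r1 (Ln n)).mulVec (yv n 1 2) = (1 - r0 + r0 * r1) • yv n 1 2 +
      r0 • yv n 0 2 - (r0 * r1 * Ln n) • yv n 0 1 := by
    rw [bt 1 2 (by omega) (by omega)]
    simp [timg]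
  -- positions
  set p01 : Pr n := Bn_p n 0 1 (by omega) (by omega) with hp01
  set p02 : Pr n := Bn_p n 0 2 (by omega) (by omega) with hp02
  set p12 : Pr n := Bn_p n 1 2 (by omega) (by omega) with hp12
  have y1 : ∀ (a b : ℕ), (yv n a b : Pr n → R3) p01 = if 0 = a ∧ 1 = b then 1 else 0 :=
    fun a b => Bn_yv n 0 1 a b _ _
  have y3 : ∀ (a b : ℕ), (yv n a b : Pr n → R3) p12 = if 1 = a ∧ 2 = b then 1 else 0 :=
    fun a b => Bn_yv n 1 2 a b _ _
  have y2 : ∀ (a b : ℕ), (yv n a b : Pr n → R3) p02 = if 0 = a ∧ 2 = b then 1 else 0 :=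
    fun a b => Bn_yv n 0 2 a b _ _
  have m1 : ∀ (M : Matrix (Pr n) (Pr n) R3) (g : Pr n), M.mulVec (yv n 0 1) g = M g p01 :=
    fun M g => Bn_ent2 h2 n 0 1 _ _ M g
  have m2 : ∀ (M : Matrix (Pr n) (Pr n) R3) (g : Pr n), M.mulVec (yv n 0 2) g = M g p02 :=
    fun M g => Bn_ent2 h2 n 0 2 _ _ M g
  have m3 : ∀ (M : Matrix (Pr n) (Pr n) R3) (g : Pr n), M.mulVec (yv n 1 2) g = M g p12 :=
    fun M g => Bn_ent2 h2 n 1 2 _ _ M g
  -- entries of the generators
  have hqA : r0 ∈ A := by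
    have h := hmem (bg n 1) p02 p01
    have e := m1 (sm n r0 r1 (Ln n) 1) p02
    rw [s01] at e
    rw [hs, ← e] at h
    simpa [y2] using h
  have hlA : r0 ^ 2 * Ln n ∈ A := by
    have h := hmem (bg n 1) p12 p12
    have e := m3 (sm n r0 r1 (Ln n) 1) p12
    rw [s12] at e
    rw [hs, ← e] at h
    simpa [y3] using h
  have hpA : 1 - r0 + r0 * r1 ∈ A := by
    have h := hmem (bg n 0) p12 p12
    have e := m3 (tm n r0 r1 (Ln n)) p12
    rw [t12] at e
    rw [ht, ← e] at h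
    simpa [y3] using h
  -- entries of the inverses
  set N : Matrix (Pr n) (Pr n) R3 := (B3 n (bg n 1)⁻¹).1 with hN
  set T : Matrix (Pr n) (Pr n) R3 := (B3 n (bg n 0)⁻¹).1 with hT
  have i1 : ∀ y, N.mulVec ((sm n r0 r1 (Ln n) 1).mulVec y) = y := by
    intro y
    rw [← hs]
    exact Bn_inv (B3 n) (bg n 1) y
  have i2 : ∀ y, T.mulVec ((tm n r0 r1 (Ln n)).mulVec y) = y := by
    intro y
    rw [← ht]
    exact Bn_inv (B3 n) (bg n 0) y
  have n12 : ∀ g, (r0 ^ 2 * Ln n) * N g p12 = yv n 1 2 g := by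
    intro g
    have h := congrFun (i1 (yv n 1 2)) g
    rw [s12, Matrix.mulVec_smul, Pi.smul_apply, m3, smul_eq_mul] at h
    exact h
  have n02 : ∀ g, N g p01 - (r0 * (1 - r0) * Ln n * (1 - r1)) * N g p12 = yv n 0 2 g := by
    intro g
    have h := congrFun (i1 (yv n 0 2)) g
    rw [s02, Matrix.mulVec_sub, Matrix.mulVec_smul, Pi.sub_apply, Pi.smul_apply, m3, m1,
      smul_eq_mul] at h
    exact h
  have n01 : ∀ g, r0 * N g p02 + (1 - r0) * N g p01 = yv n 0 1 g := by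
    intro g
    have h := congrFun (i1 (yv n 0 1)) g
    rw [s01, Matrix.mulVec_add, Matrix.mulVec_smul, Matrix.mulVec_smul, Pi.add_apply,
      Pi.smul_apply, Pi.smul_apply, m2, m1, smul_eq_mul, smul_eq_mul] at h
    exact h
  have hu : IsUnit (r0 ^ 2 * Ln n) := (hq.pow 2).mul hLn
  have z1 : N p01 p12 = 0 := by
    have h := n12 p01
    rw [y1, if_neg (by omega)] at h
    exact hu.mul_right_eq_zero.1 h
  have z2 : N p01 p01 = 0 := by
    have h := n02 p01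
    rw [y1, if_neg (by omega), z1, mul_zero, sub_zero] at h
    exact h
  have hqi : r0 * N p01 p02 = 1 := by
    have h := n01 p01
    rw [y1, if_pos ⟨rfl, rfl⟩, z2, mul_zero, add_zero] at h
    exact h
  have hli : (r0 ^ 2 * Ln n) * N p12 p12 = 1 := by
    have h := n12 p12
    rw [y3, if_pos ⟨rfl, rfl⟩] at h
    exact h
  have hT1 : T p12 p01 = 0 := by
    have h := congrFun (i2 (yv n 0 1)) p12
    rw [t01, Matrix.mulVec_smul, Pi.smul_apply, m1, smul_eq_mul, y3, if_neg (by omega)] at h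
    exact (((hq.pow 2).mul (hP.pow 2)).mul (hLn.pow 2)).mul_right_eq_zero.1 h
  have hT2 : r0 * T p12 p02 + ((1 - r0) * (1 - r1)) * T p12 p12 = 0 := by
    have h := congrFun (i2 (yv n 0 2)) p12
    rw [t02, Matrix.mulVec_sub, Matrix.mulVec_add, Matrix.mulVec_smul, Matrix.mulVec_smul,
      Matrix.mulVec_smul, Pi.sub_apply, Pi.add_apply, Pi.smul_apply, Pi.smul_apply, Pi.smul_apply,
      m1, m2, m3, smul_eq_mul, smul_eq_mul, smul_eq_mul, hT1, mul_zero, sub_zero, y3,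
      if_neg (by omega)] at h
    exact h
  have hT3 : (1 - r0 + r0 * r1) * T p12 p12 + r0 * T p12 p02 = 1 := by
    have h := congrFun (i2 (yv n 1 2)) p12
    rw [t12, Matrix.mulVec_sub, Matrix.mulVec_add, Matrix.mulVec_smul, Matrix.mulVec_smul,
      Matrix.mulVec_smul, Pi.sub_apply, Pi.add_apply, Pi.smul_apply, Pi.smul_apply, Pi.smul_apply,
      m1, m2, m3, smul_eq_mul, smul_eq_mul, smul_eq_mul, hT1, mul_zero, sub_zero, y3,
      if_pos ⟨rfl, rfl⟩] at h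
    exact h
  have hPi : r1 * T p12 p12 = 1 := by
    linear_combination hT3 - hT2
  -- conclusion
  have a1 : N p01 p02 ∈ A := hmem _ _ _
  have a2 : N p12 p12 ∈ A := hmem _ _ _
  have a3 : T p12 p12 ∈ A := hmem _ _ _
  have hr0P : r0 * r1 ∈ A := by
    have e : r0 * r1 = (1 - r0 + r0 * r1) - 1 + r0 := by ring
    rw [e]
    exact A.add_mem (A.sub_mem hpA A.one_mem) hqA
  have hPA : r1 ∈ A := by
    have e : r1 = N p01 p02 * (r0 * r1) := by
      linear_combination -r1 * hqi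
    rw [e]
    exact A.mul_mem a1 hr0P
  have hLA : Ln n ∈ A := by
    have e : Ln n = N p01 p02 ^ 2 * (r0 ^ 2 * Ln n) := by
      linear_combination -(Ln n * (r0 * N p01 p02 + 1)) * hqi
    rw [e]
    exact A.mul_mem (A.pow_mem a1 2) hlA
  refine h3 A fun i => ?_
  fin_cases i
  · exact ⟨hqA, N p01 p02, a1, hqi⟩
  · exact ⟨hPA, T p12 p12, a3, hPi⟩
  · refine ⟨?_, N p01 p02 ^ n * T p12 p12 * (r0 ^ 2 * N p12 p12), ?_, ?_⟩
    · change r2 ∈ A
      rw [hr2]
      exact A.mul_mem (A.mul_mem (A.pow_mem hqA n) hPA) hLA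
    · exact A.mul_mem (A.mul_mem (A.pow_mem a1 n) a3) (A.mul_mem (A.pow_mem hqA 2) a2)
    · change r2 * _ = 1
      have e1 : r0 ^ n * N p01 p02 ^ n = 1 := by rw [← mul_pow, hqi, one_pow]
      rw [hr2]
      calc r0 ^ n * r1 * Ln n * (N p01 p02 ^ n * T p12 p12 * (r0 ^ 2 * N p12 p12)) =
          (r0 ^ n * N p01 p02 ^ n) * (r1 * T p12 p12) * ((r0 ^ 2 * Ln n) * N p12 p12) := by ring
        _ = 1 := by rw [e1, hPi, hli, one_mul, one_mul]

end Pool.Agent.Lib.MP_97567f_al.U.TB
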