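import Pool.Agent.Lib.MP_97567f_al.U.SpecB

/-!
# MP_97567f_al, type `B`: the invariant vector
-/

set_option autoImplicit false
set_option linter.unusedSimpArgs false

namespace Pool.Agent.Lib.MP_97567f_al.U.TB

open Matrix

theorem Bo_sum {M : Type} [AddCommMonoid M] (n : ℕ) (f : ℕ → ℕ → M) :
    ∑ b : Pr n, f b.1.1 b.1.2 = ∑ k ∈ Finset.range (n + 1), ∑ j ∈ Finset.range k, f j k := by
  rw [Finset.sum_sigma']
  refine Finset.sum_bij (fun b _ => ⟨(b.1.2 : ℕ), (b.1.1 : ℕ)⟩) ?_ ?_ ?_ ?_
  · intro b _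
    simp only [Finset.mem_sigma, Finset.mem_range]
    exact ⟨b.1.2.2, b.2⟩
  · intro a _ b _ h
    simp only [Sigma.mk.injEq, heq_eq_eq] at h
    exact Subtype.ext (Prod.ext (Fin.ext h.2) (Fin.ext h.1))
  · rintro ⟨k, j⟩ h
    simp only [Finset.mem_sigma, Finset.mem_range] at h
    exact ⟨⟨(⟨j, by omega⟩, ⟨k, h.1⟩), h.2⟩, Finset.mem_univ _, rfl⟩
  · intro b _
    rfl

section

variable {R : Type} [CommRing R] (n : ℕ) (q P L : R)

/-- The coefficients of the invariant vector. -/
def Bo_c (j k : ℕ) : R := if j = 0 then q ^ k else (1 - q) * q ^ (k - j)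

theorem Bo_g (k a : ℕ) (ha : 1 ≤ a) (hk : a ≤ k) :
    ∑ j ∈ Finset.range a, wj P j * Bo_c q j k = q ^ (k - a + 1) - P * q ^ k := by
  induction a, ha using Nat.le_induction with
  | base =>
    rw [Finset.sum_range_one, wj, if_pos rfl, Bo_c, if_pos rfl, Nat.sub_add_cancel hk]
    ring
  | succ a ha ih =>
    rw [Finset.sum_range_succ, ih (by omega), wj, if_neg (by omega), Bo_c, if_neg (by omega)]
    obtain ⟨e, rfl⟩ : ∃ e, k = a + 1 + e := ⟨k - (a + 1), by omega⟩
    have h1 : a + 1 + e - a + 1 = e + 2 := by omega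
    have h2 : a + 1 + e - a = e + 1 := by omega
    have h3 : a + 1 + e - (a + 1) + 1 = e + 1 := by omega
    rw [h1, h2, h3]
    ring

/-- The contribution of a pair. -/
def Bo_D (i j k : ℕ) : Pr n → R := Bo_c q j k • (simg n q P L i j k - yv n j k)

theorem Bo_col (i k : ℕ) (hi : 1 ≤ i) (hk : i + 2 ≤ k) :
    ∑ j ∈ Finset.range k, Bo_D n q P L i j k = (-((1 - q) ^ 2 * L * P * q ^ k)) • yv n i (i + 1) := by
  obtain ⟨e, rfl⟩ : ∃ e, k = i + 2 + e := ⟨k - (i + 2), by omega⟩
  rw [← Finset.sum_subset (Finset.range_subset_range.2 hk : Finset.range (i + 2) ⊆ _)]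
  · rw [Finset.sum_range_succ, Finset.sum_range_succ]
    have h1 : ∀ j ∈ Finset.range i, Bo_D n q P L i j (i + 2 + e) =
        ((1 - q) ^ 2 * L * (wj P j * Bo_c q j (i + 2 + e))) • yv n i (i + 1) := by
      intro j hj
      rw [Finset.mem_range] at hj
      simp (disch := omega) only [Bo_D, simg, if_pos, if_neg]
      module
    rw [Finset.sum_congr rfl h1, ← Finset.sum_smul, ← Finset.mul_sum,
      Bo_g q P (i + 2 + e) i hi (by omega)]
    simp (disch := omega) only [Bo_D, Bo_c, simg, if_pos, if_neg, if_true]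
    have h2 : i + 2 + e - i = e + 2 := by omega
    have h3 : i + 2 + e - (i + 1) = e + 1 := by omega
    rw [h2, h3]
    module
  · intro j hj hj'
    rw [Finset.mem_range] at hj
    rw [Finset.mem_range] at hj'
    simp (disch := omega) only [Bo_D, simg, if_pos, if_neg, sub_self, smul_zero]

theorem Bo_base (i : ℕ) (hi : 1 ≤ i) :
    ∑ k ∈ Finset.range (i + 2), ∑ j ∈ Finset.range k, Bo_D n q P L i j k =
      ((1 - q) * q * (L * P * q ^ (i + 1) - 1)) • yv n i (i + 1) := by
  rw [Finset.sum_range_succ, Finset.sum_range_succ]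
  have h0 : ∑ k ∈ Finset.range i, ∑ j ∈ Finset.range k, Bo_D n q P L i j k = 0 := by
    refine Finset.sum_eq_zero fun k hk => Finset.sum_eq_zero fun j hj => ?_
    rw [Finset.mem_range] at hk hj
    simp (disch := omega) only [Bo_D, simg, if_pos, if_neg, sub_self, smul_zero]
  rw [h0, zero_add, Finset.sum_range_succ, ← add_assoc, ← Finset.sum_add_distrib]
  have h1 : ∀ j ∈ Finset.range i, Bo_D n q P L i j i + Bo_D n q P L i j (i + 1) =
      (-(q * (1 - q) * L) * (wj P j * Bo_c q j (i + 1))) • yv n i (i + 1) := by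
    intro j hj
    rw [Finset.mem_range] at hj
    have h2 : Bo_c q j (i + 1) = q * Bo_c q j i := by
      unfold Bo_c
      split_ifs with h
      · ring
      · have h3 : i + 1 - j = i - j + 1 := by omega
        rw [h3]
        ring
    simp (disch := omega) only [Bo_D, simg, if_pos, if_neg, if_true, h2]
    module
  rw [Finset.sum_congr rfl h1, ← Finset.sum_smul, ← Finset.mul_sum,
    Bo_g q P (i + 1) i hi (by omega)]
  simp (disch := omega) only [Bo_D, Bo_c, simg, if_pos, if_neg, if_true, and_self]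
  have h2 : i + 1 - i = 1 := by omega
  rw [h2]
  module

theorem Bo_s (i m : ℕ) (hi : 1 ≤ i) (hm : i + 1 ≤ m) :
    ∑ k ∈ Finset.range (m + 1), ∑ j ∈ Finset.range k, Bo_D n q P L i j k =
      ((1 - q) * q * (L * P * q ^ m - 1)) • yv n i (i + 1) := by
  induction m, hm using Nat.le_induction with
  | base => exact Bo_base n q P L i hi
  | succ m hm ih =>
    rw [Finset.sum_range_succ, ih, Bo_col n q P L i (m + 1) hi (by omega)]
    module

/-- The contribution of a pair. -/
def Bo_E (j k : ℕ) : Pr n → R := Bo_c q j k • (timg n q P L j k - yv n j k)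

theorem Bo_ecol (k : ℕ) (hk : 2 ≤ k) :
    ∑ j ∈ Finset.range k, Bo_E n q P L j k =
      (-((1 - q) * q ^ k * P * L * (q * P * L + 1))) • yv n 0 1 := by
  obtain ⟨e, rfl⟩ : ∃ e, k = 2 + e := ⟨k - 2, by omega⟩
  rw [← Finset.sum_subset (Finset.range_subset_range.2 hk : Finset.range 2 ⊆ _)]
  · rw [Finset.sum_range_succ, Finset.sum_range_one]
    simp (disch := omega) only [Bo_E, Bo_c, timg, if_pos, if_neg, if_true]
    have h3 : 2 + e - 1 = e + 1 := by omega
    rw [h3]
    module
  · intro j hj hj'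
    rw [Finset.mem_range] at hj
    rw [Finset.mem_range] at hj'
    simp (disch := omega) only [Bo_E, timg, if_pos, if_neg, sub_self, smul_zero]

theorem Bo_t (m : ℕ) (hm : 1 ≤ m) :
    ∑ k ∈ Finset.range (m + 1), ∑ j ∈ Finset.range k, Bo_E n q P L j k =
      ((q * P * L + 1) * q * (q ^ m * P * L - 1)) • yv n 0 1 := by
  induction m, hm using Nat.le_induction with
  | base =>
    rw [Finset.sum_range_succ, Finset.sum_range_one, Finset.sum_range_one, Finset.sum_range_zero]
    simp (disch := omega) only [Bo_E, Bo_c, timg, if_pos, if_neg, if_true, and_self]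
    module
  | succ m hm ih =>
    rw [Finset.sum_range_succ, ih, Bo_ecol n q P L (m + 1) (by omega)]
    module

end

theorem pBo (h1 : SBa) : SBo := by
  intro R _ n q P L hqP i hi
  obtain ⟨hs, ht, -, -, hb⟩ := h1 R n q P L
  have key : ∀ (M : Matrix (Pr n) (Pr n) R) (F : ℕ → ℕ → Pr n → R),
      (∀ j k : ℕ, j < k → k ≤ n → M.mulVec (yv n j k) = F j k) →
      ∑ k ∈ Finset.range (n + 1), ∑ j ∈ Finset.range k,
        Bo_c q j k • (F j k - yv n j k) = 0 →
      M.mulVec (fun b : Pr n => Bo_c q b.1.1 b.1.2) = fun b : Pr n => Bo_c q b.1.1 b.1.2 := by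
    intro M F hM hF
    rw [← Bo_sum n fun j k => Bo_c q j k • (F j k - yv n j k)] at hF
    have h2 := hb fun b : Pr n => Bo_c q b.1.1 b.1.2
    have h3 : M.mulVec (fun b : Pr n => Bo_c q b.1.1 b.1.2) =
        ∑ b : Pr n, Bo_c q b.1.1 b.1.2 • F b.1.1 b.1.2 := by
      conv_lhs => rw [h2]
      rw [Matrix.mulVec_sum]
      refine Finset.sum_congr rfl fun b _ => ?_
      rw [Matrix.mulVec_smul, hM _ _ b.2 (Nat.lt_succ_iff.1 b.1.2.2)]
    rw [← sub_eq_zero, h3]
    conv_lhs => rw [h2]
    rw [← Finset.sum_sub_distrib, ← hF]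
    refine Finset.sum_congr rfl fun b _ => ?_
    rw [smul_sub]
  have hgoal : (bm n q P L i).mulVec (fun b : Pr n => Bo_c q b.1.1 b.1.2) =
      fun b : Pr n => Bo_c q b.1.1 b.1.2 := by
    unfold bm
    by_cases h0 : i = 0
    · rw [if_pos h0]
      refine key _ (timg n q P L) ht ?_
      have h4 := Bo_t n q P L n (by omega)
      rw [hqP, sub_self, mul_zero, zero_smul] at h4
      exact h4
    · rw [if_neg h0]
      refine key _ (simg n q P L i) (hs i) ?_
      have h4 := Bo_s n q P L i n (by omega) (by omega)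
      have h5 : L * P * q ^ n - 1 = 0 := by
        rw [← hqP]
        ring
      rw [h5, mul_zero, zero_smul] at h4
      exact h4
  exact hgoal

end Pool.Agent.Lib.MP_97567f_al.U.TB
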