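import Pool.Agent.Lib.MP_97567f_al.U.SpecB

/-!
# MP_97567f_al, type `B`: the quadratic relations
-/

set_option autoImplicit false
set_option linter.unusedSimpArgs false

namespace Pool.Agent.Lib.MP_97567f_al.U.TB

open Matrix

theorem Bq_exists {n j k : ℕ} (h : j < k) (hk : k ≤ n) :
    ∃ b : Pr n, (b.1.1 : ℕ) = j ∧ (b.1.2 : ℕ) = k :=
  ⟨⟨(⟨j, by omega⟩, ⟨k, by omega⟩), h⟩, rfl, rfl⟩

/-- The image of a basis vector under a matrix of rank one. -/
theorem Bq_vec (h1 : SBa) {R : Type} [CommRing R] (n : ℕ) (w : Pr n → R) (f : ℕ → ℕ → R)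
    (j k : ℕ) (hjk : j < k) (hk : k ≤ n) :
    (Matrix.vecMulVec w fun b : Pr n => f b.1.1 b.1.2).mulVec (yv n j k) = f j k • w := by
  obtain ⟨b, rfl, rfl⟩ := Bq_exists hjk hk
  obtain ⟨-, -, -, hs, -⟩ := h1 R n 0 0 0
  rw [← hs, Matrix.mulVec_single_one]
  funext g
  change Matrix.vecMulVec w (fun b : Pr n => f b.1.1 b.1.2) g b = (f b.1.1 b.1.2 • w) g
  rw [Matrix.vecMulVec_apply, Pi.smul_apply, smul_eq_mul, mul_comm]

theorem pBq (h1 : SBa) : SBq := by
  intro R _ n q P L
  obtain ⟨hs, ht, hext, -, -⟩ := h1 R n q P L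
  refine ⟨?_, ?_⟩
  · intro i hi hiP
    apply hext
    intro j k hjk hk
    rw [Bq_vec h1 n (yv n i (i + 1)) (Fs q P L i) j k hjk hk, ← Matrix.mulVec_mulVec]
    have hw : j = 0 → i = 0 → P = 0 := by
      rintro rfl rfl
      rcases hiP with h | h
      · exact absurd h (by norm_num)
      · exact h
    simp only [Matrix.sub_mulVec, Matrix.add_mulVec, Matrix.one_mulVec, Matrix.smul_mulVec,
      Matrix.mulVec_add, Matrix.mulVec_smul]
    by_cases c1 : j = i ∧ k = i + 1
    · obtain ⟨rfl, rfl⟩ := c1
      simp (disch := omega) only [hs, simg, Fs, if_pos, if_neg, if_true, and_self, Matrix.mulVec_smul]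
      module
    by_cases c2 : j = i + 1
    · subst c2
      simp (disch := omega) only [hs, simg, Fs, if_pos, if_neg, if_true, and_self, Matrix.mulVec_smul,
        Matrix.mulVec_add, Matrix.mulVec_sub]
      module
    by_cases c3 : j = i
    · subst c3
      simp (disch := omega) only [hs, simg, Fs, if_pos, if_neg, if_true, and_self, Matrix.mulVec_smul,
        Matrix.mulVec_add, Matrix.mulVec_sub]
      module
    by_cases c4 : k = i
    · subst c4
      simp (disch := omega) only [hs, simg, Fs, if_pos, if_neg, if_true, and_self, Matrix.mulVec_smul,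
        Matrix.mulVec_add, Matrix.mulVec_sub]
      module
    by_cases c5 : k = i + 1
    · subst c5
      simp (disch := omega) only [hs, simg, Fs, if_pos, if_neg, if_true, and_self, Matrix.mulVec_smul,
        Matrix.mulVec_add, Matrix.mulVec_sub]
      module
    by_cases c6 : j < i ∧ i + 1 < k
    · simp (disch := omega) only [hs, simg, Fs, if_pos, if_neg, if_true, and_self, Matrix.mulVec_smul,
        Matrix.mulVec_add, Matrix.mulVec_sub]
      module
    · simp (disch := omega) only [hs, simg, Fs, if_pos, if_neg, if_true, and_self, Matrix.mulVec_smul,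
        Matrix.mulVec_add, Matrix.mulVec_sub]
      module
  · intro hn
    apply hext
    intro j k hjk hk
    rw [Bq_vec h1 n (yv n 0 1) (Ft q P L) j k hjk hk, ← Matrix.mulVec_mulVec]
    simp only [Matrix.sub_mulVec, Matrix.add_mulVec, Matrix.one_mulVec, Matrix.smul_mulVec,
      Matrix.mulVec_add, Matrix.mulVec_smul, Matrix.mulVec_sub]
    by_cases c1 : j = 0 ∧ k = 1
    · obtain ⟨rfl, rfl⟩ := c1
      simp (disch := omega) only [ht, timg, Ft, if_pos, if_neg, if_true, and_self, Matrix.mulVec_smul]
      module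
    by_cases c2 : j = 0
    · subst c2
      simp (disch := omega) only [ht, timg, Ft, if_pos, if_neg, if_true, and_self, Matrix.mulVec_smul,
        Matrix.mulVec_add, Matrix.mulVec_sub]
      module
    by_cases c3 : j = 1
    · subst c3
      simp (disch := omega) only [ht, timg, Ft, if_pos, if_neg, if_true, and_self, Matrix.mulVec_smul,
        Matrix.mulVec_add, Matrix.mulVec_sub]
      module
    · simp (disch := omega) only [ht, timg, Ft, if_pos, if_neg, if_true, and_self, Matrix.mulVec_smul,
        Matrix.mulVec_add, Matrix.mulVec_sub]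
      module

end Pool.Agent.Lib.MP_97567f_al.U.TB
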