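import Pool.Agent.Lib.MP_97567f_al.U.SpecB

/-!
# MP_97567f_al: type `B`: the representations exist
-/

set_option autoImplicit false

namespace Pool.Agent.Lib.MP_97567f_al.U.TB

private theorem Br_unit {R : Type} [CommRing R] {ι : Type} [Fintype ι] [DecidableEq ι]
    (s : Matrix ι ι R) (a b : R) (v F : ι → R) (hv : s.mulVec v = a • v)
    (h : (s - 1) * (s + b • (1 : Matrix ι ι R)) = Matrix.vecMulVec v F) (ha : IsUnit a)
    (hb : IsUnit b) : IsUnit s := by
  have h1 : (s - a • (1 : Matrix ι ι R)) * ((s - 1) * (s + b • (1 : Matrix ι ι R))) = 0 := by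
    rw [h, Matrix.mul_vecMulVec, Matrix.sub_mulVec, hv, Matrix.smul_mulVec, Matrix.one_mulVec,
      sub_self]
    ext i j
    simp [Matrix.vecMulVec_apply]
  have h2 : s * (s * s + (b - 1 - a) • s - (b + a * (b - 1)) • (1 : Matrix ι ι R)) =
      -((a * b) • (1 : Matrix ι ι R)) := by
    have h3 : (s - a • (1 : Matrix ι ι R)) * ((s - 1) * (s + b • (1 : Matrix ι ι R))) =
        s * (s * s + (b - 1 - a) • s - (b + a * (b - 1)) • (1 : Matrix ι ι R)) +
          (a * b) • (1 : Matrix ι ι R) := by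
      simp only [mul_sub, sub_mul, mul_add, smul_mul_assoc, mul_smul_comm, mul_one,
        one_mul, smul_add, smul_sub]
      module
    rw [h1] at h3
    exact eq_neg_of_add_eq_zero_left h3.symm
  obtain ⟨u, hu⟩ := (ha.mul hb)
  have h4 : s * (-((u⁻¹ : Rˣ) : R) •
      (s * s + (b - 1 - a) • s - (b + a * (b - 1)) • (1 : Matrix ι ι R))) = 1 := by
    rw [mul_smul_comm, h2, ← hu, smul_neg, neg_smul, neg_neg, smul_smul, Units.inv_mul, one_smul]
  exact IsUnit.of_mul_eq_one _ h4

private theorem Br_sm (hBa : SBa) (hBq : SBq) {R : Type} [CommRing R] (n : ℕ) (q P L : R)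
    (hq : IsUnit q) (hL : IsUnit L) (i : ℕ) (hi : i < n) (h1 : 1 ≤ i ∨ P = 0) :
    IsUnit (sm n q P L i) := by
  refine Br_unit _ (q ^ 2 * L) q (yv n i (i + 1)) _ ?_ ((hBq R n q P L).1 i hi h1)
    ((hq.pow 2).mul hL) hq
  rw [(hBa R n q P L).1 i i (i + 1) (Nat.lt_succ_self i) hi]
  simp [simg]

private theorem Br_tm (hBa : SBa) (hBq : SBq) {R : Type} [CommRing R] (n : ℕ) (q P L : R)
    (hq : IsUnit q) (hP : IsUnit P) (hL : IsUnit L) (hn : 1 ≤ n) :
    IsUnit (tm n q P L) := by
  refine Br_unit _ (q ^ 2 * P ^ 2 * L ^ 2) (-(q * P)) (yv n 0 1)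
    (fun b => Ft q P L b.1.1 b.1.2) ?_ ?_
    (((hq.pow 2).mul (hP.pow 2)).mul (hL.pow 2)) (hq.mul hP).neg
  · rw [(hBa R n q P L).2.1 0 1 Nat.one_pos hn]
    simp [timg]
  · rw [neg_smul, ← sub_eq_add_neg]
    exact (hBq R n q P L).2 hn

private theorem Br_exB (hBg : SBg) (hBb : SBb) (hBc : SBc) (hBa : SBa) (hBq : SBq) {R : Type}
    [CommRing R] (n : ℕ) (q P L : R) (hq : IsUnit q) (hP : IsUnit P) (hL : IsUnit L) :
    ∃ ρ : Art (BM n) →* GL (Pr n) R, ∀ i, i < n → (ρ (bg n i)).1 = bm n q P L i := by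
  classical
  have hu : ∀ i, i < n → IsUnit (bm n q P L i) := by
    intro i hi
    unfold bm
    split_ifs with h
    · exact Br_tm hBa hBq n q P L hq hP hL (by omega)
    · exact Br_sm hBa hBq n q P L hq hL i hi (Or.inl (by omega))
  let f : ℕ → GL (Pr n) R := fun i => if h : i < n then (hu i h).unit else 1
  have hf : ∀ i (h : i < n), (f i).1 = bm n q P L i := by
    intro i h
    simp only [f, dif_pos h]
    rfl
  have h0 : bm n q P L 0 = tm n q P L := if_pos rfl
  have hs : ∀ i, 1 ≤ i → bm n q P L i = sm n q P L i := fun i h => if_neg (by omega)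
  obtain ⟨φ, hφ⟩ := (hBg n).2.2.2.1 (GL (Pr n) R) f
    (fun hn => Units.ext (by
      simp only [Units.val_mul]
      rw [hf 0 (by omega), hf 1 (by omega), h0, hs 1 le_rfl]
      exact (hBc R n q P L).1 hn))
    (fun i h1 hi => Units.ext (by
      simp only [Units.val_mul]
      rw [hf i (by omega), hf (i + 1) hi, hs i h1, hs (i + 1) (by omega)]
      exact (hBb R n q P L i (Or.inl h1)).1 hi))
    (fun i j hij hj => Units.ext (by
      simp only [Units.val_mul]
      rw [hf i (by omega), hf j hj, hs j (by omega)]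
      rcases Nat.eq_zero_or_pos i with h | h
      · subst h
        rw [h0]
        exact (hBc R n q P L).2 j (by omega) hj
      · rw [hs i h]
        exact (hBb R n q P L i (Or.inl h)).2 j hij hj))
  exact ⟨φ, fun i hi => by rw [hφ i hi, hf i hi]⟩

private theorem Br_exA (hAg : SAg) (hBb : SBb) (hBa : SBa) (hBq : SBq) {R : Type}
    [CommRing R] (n : ℕ) (q L : R) (hq : IsUnit q) (hL : IsUnit L) :
    ∃ ρ : Art (CoxeterMatrix.A n) →* GL (Pr n) R, ∀ i, i < n → (ρ (ag n i)).1 = sm n q 0 L i := by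
  classical
  have hu : ∀ i, i < n → IsUnit (sm n q 0 L i) := fun i hi =>
    Br_sm hBa hBq n q 0 L hq hL i hi (Or.inr rfl)
  let f : ℕ → GL (Pr n) R := fun i => if h : i < n then (hu i h).unit else 1
  have hf : ∀ i (h : i < n), (f i).1 = sm n q 0 L i := by
    intro i h
    simp only [f, dif_pos h]
    rfl
  obtain ⟨φ, hφ⟩ := (hAg n).2.2.1 (GL (Pr n) R) f
    (fun i hi => Units.ext (by
      simp only [Units.val_mul]
      rw [hf i (by omega), hf (i + 1) hi]
      exact (hBb R n q 0 L i (Or.inr rfl)).1 hi))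
    (fun i j hij hj => Units.ext (by
      simp only [Units.val_mul]
      rw [hf i (by omega), hf j hj]
      exact (hBb R n q 0 L i (Or.inr rfl)).2 j hij hj))
  exact ⟨φ, fun i hi => by rw [hφ i hi, hf i hi]⟩

private theorem Br_map_yv {R S : Type} [CommRing R] [CommRing S] (φ : R →+* S) (n j k : ℕ)
    (g : Pr n) : φ (yv n j k g) = yv n j k g := by
  unfold yv
  split_ifs <;> simp

private theorem Br_map_sm {R S : Type} [CommRing R] [CommRing S] (φ : R →+* S) (n : ℕ)
    (q P L : R) (i : ℕ) : (sm n q P L i).map φ = sm n (φ q) (φ P) (φ L) i := by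
  ext g b
  simp only [Matrix.map_apply, sm, Matrix.of_apply, simg]
  have hw : φ (wj P b.1.1) = wj (φ P) b.1.1 := by
    unfold wj
    split_ifs <;> simp
  split_ifs <;> simp [Br_map_yv, hw]

private theorem Br_map_tm {R S : Type} [CommRing R] [CommRing S] (φ : R →+* S) (n : ℕ)
    (q P L : R) : (tm n q P L).map φ = tm n (φ q) (φ P) (φ L) := by
  ext g b
  simp only [Matrix.map_apply, tm, Matrix.of_apply, timg]
  split_ifs <;> simp [Br_map_yv]

theorem pBr (hBg : SBg) (hAg : SAg) (hBb : SBb) (hBc : SBc) (hBq : SBq) (hBa : SBa) : SBr := by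
  have hB : ∀ (R : Type) [CommRing R] (n : ℕ) (q P L : R), IsUnit q → IsUnit P → IsUnit L →
      ∀ i, i < n → (Brep n q P L (bg n i)).1 = bm n q P L i := by
    intro R _ n q P L hq hP hL
    have h := Br_exB hBg hBb hBc hBa hBq n q P L hq hP hL
    unfold Brep
    rw [dif_pos h]
    exact h.choose_spec
  have hA : ∀ (R : Type) [CommRing R] (n : ℕ) (q L : R), IsUnit q → IsUnit L →
      ∀ i, i < n → (Arep n q L (ag n i)).1 = sm n q 0 L i := by
    intro R _ n q L hq hL
    have h := Br_exA hAg hBb hBa hBq n q L hq hL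
    unfold Arep
    rw [dif_pos h]
    exact h.choose_spec
  refine ⟨fun R _ n q P L hq hP hL => ⟨hB R n q P L hq hP hL, ?_⟩,
    fun R _ n q L hq hL => ⟨hA R n q L hq hL, ?_⟩⟩
  · intro S _ φ x
    have h := (hBg n).2.2.2.2.1 (GL (Pr n) S)
      ((Units.map (RingHom.mapMatrix φ : Matrix (Pr n) (Pr n) R →+* _).toMonoidHom).comp
        (Brep n q P L)) (Brep n (φ q) (φ P) (φ L)) (fun i hi => Units.ext ?_)
    · exact congrArg (fun f : Art (BM n) →* GL (Pr n) S => (f x).1) h
    · change (Brep n q P L (bg n i)).1.map φ = (Brep n (φ q) (φ P) (φ L) (bg n i)).1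
      rw [hB R n q P L hq hP hL i hi, hB S n _ _ _ (hq.map φ) (hP.map φ) (hL.map φ) i hi]
      unfold bm
      split_ifs
      · exact Br_map_tm φ n q P L
      · exact Br_map_sm φ n q P L i
  · intro S _ φ x
    have h := (hAg n).2.2.2.1 (GL (Pr n) S)
      ((Units.map (RingHom.mapMatrix φ : Matrix (Pr n) (Pr n) R →+* _).toMonoidHom).comp
        (Arep n q L)) (Arep n (φ q) (φ L)) (fun i hi => Units.ext ?_)
    · exact congrArg (fun f : Art (CoxeterMatrix.A n) →* GL (Pr n) S => (f x).1) h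
    · change (Arep n q L (ag n i)).1.map φ = (Arep n (φ q) (φ L) (ag n i)).1
      rw [hA R n q L hq hL i hi, hA S n _ _ (hq.map φ) (hL.map φ) i hi, Br_map_sm, map_zero]

end Pool.Agent.Lib.MP_97567f_al.U.TB
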