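import Pool.Agent.Lib.MP_97567f_al.U.SpecB

/-!
# MP_97567f_al: type `B`: rigidity
-/

set_option autoImplicit false

namespace Pool.Agent.Lib.MP_97567f_al.U.TB

private theorem Brig_Lu (n : ℕ) : IsUnit (Ln n) :=
  r2_unit.mul (Units.isUnit _)

private theorem Brig_Ls (n : ℕ) : r0 ^ n * r1 * Ln n = r2 := by
  unfold Ln
  have h : r0 ^ n * r1 = ((r0_unit.unit ^ n * r1_unit.unit : R3ˣ) : R3) := by
    simp
  rw [h, mul_left_comm, Units.mul_inv, mul_one]

private theorem Brig_gen {κ : Type} [Field κ] (n : ℕ) (j : R3 →+* κ)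
    (hj : Function.Injective j) : GenB (j r0) (j r1) (j (Ln n)) := by
  obtain ⟨φ, h0, h1, h2⟩ := R3_lift (S := ℂ) (a := 2) (b := 3) (c := 2 ^ n * 3 * 5)
    (by norm_num) (by norm_num) (by
      rw [isUnit_iff_ne_zero]
      exact mul_ne_zero (mul_ne_zero (pow_ne_zero _ two_ne_zero) three_ne_zero) (by norm_num))
  have hL : φ (Ln n) = 5 := by
    have h := congrArg φ (Brig_Ls n)
    rw [map_mul, map_mul, map_pow, h0, h1, h2] at h
    have h3 : (2 ^ n * 3 : ℂ) ≠ 0 := mul_ne_zero (pow_ne_zero _ two_ne_zero) three_ne_zero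
    exact mul_left_cancel₀ h3 h
  have key : ∀ a b : R3, φ a ≠ φ b → j a ≠ j b := fun a b h h' => h (congrArg φ (hj h'))
  refine ⟨?_, ?_, ?_, ?_, ?_, ?_, ?_, ?_, ?_, ?_, ?_, ?_, ?_, ?_⟩
  · have := key r0 0 (by rw [h0, map_zero]; norm_num)
    rwa [map_zero] at this
  · have := key r1 0 (by rw [h1, map_zero]; norm_num)
    rwa [map_zero] at this
  · have := key (Ln n) 0 (by rw [hL, map_zero]; norm_num)
    rwa [map_zero] at this
  · have := key r0 1 (by rw [h0, map_one]; norm_num)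
    rwa [map_one] at this
  · have := key r1 1 (by rw [h1, map_one]; norm_num)
    rwa [map_one] at this
  · have := key r0 (-1) (by rw [h0, map_neg, map_one]; norm_num)
    rwa [map_neg, map_one] at this
  · have := key (r0 ^ 2 * Ln n) 1 (by simp only [map_mul, map_pow, h0, hL, map_one]; norm_num)
    simpa only [map_mul, map_pow, map_one] using this
  · have := key (r0 ^ 2 * Ln n) (-r0) (by simp only [map_mul, map_pow, h0, hL, map_neg]; norm_num)
    simpa only [map_mul, map_pow, map_neg] using this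
  · have := key (r0 ^ 2 * r1 ^ 2 * Ln n ^ 2) 1
      (by simp only [map_mul, map_pow, h0, h1, hL, map_one]; norm_num)
    simpa only [map_mul, map_pow, map_one] using this
  · have := key (r0 ^ 2 * r1 ^ 2 * Ln n ^ 2) (r0 * r1)
      (by simp only [map_mul, map_pow, h0, h1, hL]; norm_num)
    simpa only [map_mul, map_pow] using this
  · have := key (r0 ^ 4 * r1 ^ 2 * Ln n ^ 2) 1
      (by simp only [map_mul, map_pow, h0, h1, hL, map_one]; norm_num)
    simpa only [map_mul, map_pow, map_one] using this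
  · have := key (r0 ^ 4 * r1 ^ 2 * Ln n ^ 2) (r0 ^ 2 * r1)
      (by simp only [map_mul, map_pow, h0, h1, hL]; norm_num)
    simpa only [map_mul, map_pow] using this
  · have := key (r0 ^ 6 * Ln n ^ 2) 1
      (by simp only [map_mul, map_pow, h0, hL, map_one]; norm_num)
    simpa only [map_mul, map_pow, map_one] using this
  · have := key (r0 ^ 6 * Ln n ^ 2) (r0 ^ 3)
      (by simp only [map_mul, map_pow, h0, hL]; norm_num)
    simpa only [map_mul, map_pow] using this

private theorem Brig_res {F : Type} [Field F] [Algebra ℂ F] (O : ValuationSubring F)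
    (j : R3 →+* IsLocalRing.ResidueField O)
    (hc : ∀ c : ℂ, ∃ h : algebraMap ℂ F c ∈ O,
        IsLocalRing.residue O ⟨algebraMap ℂ F c, h⟩ = j (algebraMap ℂ R3 c))
    (a b c : O) (ha : IsLocalRing.residue O a = j r0) (hb : IsLocalRing.residue O b = j r1)
    (hc' : IsLocalRing.residue O c = j r2) (ψ : R3 →ₐ[ℂ] F) (h1 : ψ r0 = (a : F))
    (h2 : ψ r1 = (b : F)) (h3 : ψ r2 = (c : F)) :
    ∀ r, ∃ h : ψ r ∈ O, IsLocalRing.residue O ⟨ψ r, h⟩ = j r := by
  have key : ∀ p : P3, ∃ o : O, (o : F) = ψ (algebraMap P3 R3 p) ∧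
      IsLocalRing.residue O o = j (algebraMap P3 R3 p) := by
    intro p
    induction p using MvPolynomial.induction_on with
    | C c =>
      obtain ⟨h, hh⟩ := hc c
      have e1 : algebraMap P3 R3 (MvPolynomial.C c) = algebraMap ℂ R3 c := by
        rw [← MvPolynomial.algebraMap_eq, ← IsScalarTower.algebraMap_apply]
      refine ⟨⟨algebraMap ℂ F c, h⟩, ?_, ?_⟩
      · rw [e1, AlgHom.commutes]
      · rw [e1, hh]
    | add p r hp hr =>
      obtain ⟨o, ho, ho'⟩ := hp
      obtain ⟨u, hu, hu'⟩ := hr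
      refine ⟨o + u, ?_, ?_⟩
      · rw [map_add, map_add, ← ho, ← hu]
        rfl
      · rw [map_add, map_add, map_add, ho', hu']
    | mul_X p i hp =>
      obtain ⟨o, ho, ho'⟩ := hp
      have hi : ∃ u : O, (u : F) = ψ (algebraMap P3 R3 (MvPolynomial.X i)) ∧
          IsLocalRing.residue O u = j (algebraMap P3 R3 (MvPolynomial.X i)) := by
        fin_cases i
        · exact ⟨a, h1.symm, ha⟩
        · exact ⟨b, h2.symm, hb⟩
        · exact ⟨c, h3.symm, hc'⟩
      obtain ⟨u, hu, hu'⟩ := hi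
      refine ⟨o * u, ?_, ?_⟩
      · rw [map_mul, map_mul, ← ho, ← hu]
        rfl
      · rw [map_mul, map_mul, map_mul, ho', hu']
  intro x
  obtain ⟨⟨p, s⟩, hps⟩ := IsLocalization.surj
    (Submonoid.powers (MvPolynomial.X 0 * MvPolynomial.X 1 * MvPolynomial.X 2 : P3)) x
  simp only at hps
  obtain ⟨o, ho, ho'⟩ := key p
  obtain ⟨u, hu, hu'⟩ := key s
  have h5 : IsUnit (algebraMap P3 R3 s) := IsLocalization.map_units R3 s
  have h6 : j (algebraMap P3 R3 s) ≠ 0 := (h5.map j).ne_zero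
  have h7 : IsUnit u := by
    rw [← IsLocalRing.residue_ne_zero_iff_isUnit, hu']
    exact h6
  obtain ⟨w, hw⟩ := h7
  have h8 : (u : F) ≠ 0 := by
    rw [hu]
    exact (h5.map ψ).ne_zero
  have h9 : ψ x = ((o * (w⁻¹ : Oˣ).1 : O) : F) := by
    have e1 : ψ x * (u : F) = (o : F) := by
      rw [hu, ho, ← hps, map_mul]
    have e2 : ((w⁻¹ : Oˣ).1 : F) * (u : F) = 1 := by
      have : ((w⁻¹ : Oˣ).1 * u : O) = 1 := by rw [← hw, Units.inv_mul]
      exact_mod_cast congrArg (fun y : O => (y : F)) this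
    have e3 : ((o * (w⁻¹ : Oˣ).1 : O) : F) * (u : F) = (o : F) := by
      push_cast
      rw [mul_assoc, e2, mul_one]
    exact mul_right_cancel₀ h8 (e1.trans e3.symm)
  have h10 : ψ x ∈ O := by
    rw [h9]
    exact (o * (w⁻¹ : Oˣ).1 : O).2
  refine ⟨h10, ?_⟩
  have e4 : (⟨ψ x, h10⟩ : O) = o * (w⁻¹ : Oˣ).1 := Subtype.ext h9
  have e5 : (⟨ψ x, h10⟩ : O) * u = o := by
    rw [e4, mul_assoc, ← hw, Units.inv_mul, mul_one]
  have e6 := congrArg (IsLocalRing.residue O) e5
  rw [map_mul, hu', ho', ← hps, map_mul] at e6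
  exact mul_right_cancel₀ h6 e6

theorem pBrig (hRb : SRb) (hBr : SBr) : SBrig := by
  intro n hn F _ _ _ O j ρ' hj hc hρ
  have hG := Brig_gen n j hj
  have hdef : BDef n O (j r0) (j r1) (j (Ln n)) ρ' := by
    intro i hi
    rw [hρ]
    unfold B3
    rw [(hBr.1 R3 n r0 r1 (Ln n) r0_unit r1_unit (Brig_Lu n)).2 _ j,
      (hBr.1 _ n (j r0) (j r1) (j (Ln n)) (r0_unit.map j) (r1_unit.map j)
        ((Brig_Lu n).map j)).1 i hi]
  obtain ⟨q', P', L', χ, g, hq, hP, hL, hx⟩ := hRb n hn F O _ _ _ hG ρ' hdef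
  have unit : ∀ (a : O) (b : IsLocalRing.ResidueField O), IsLocalRing.residue O a = b → b ≠ 0 →
      IsUnit (a : F) := by
    intro a b h hb
    rw [isUnit_iff_ne_zero]
    intro h0
    have h5 : a = 0 := Subtype.ext h0
    rw [h5, map_zero] at h
    exact hb h.symm
  have uq := unit q' _ hq hG.q0
  have uP := unit P' _ hP hG.P0
  have uL := unit L' _ hL hG.L0
  have u2 : IsUnit ((q' ^ n * P' * L' : O) : F) := by
    push_cast
    exact ((uq.pow n).mul uP).mul uL
  obtain ⟨ψ, h0, h1, h2⟩ := R3_lift uq uP u2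
  have hLn : ψ (Ln n) = (L' : F) := by
    have h := congrArg ψ (Brig_Ls n)
    rw [map_mul, map_mul, map_pow, h0, h1, h2] at h
    push_cast at h
    exact mul_left_cancel₀ ((uq.pow n).mul uP).ne_zero h
  refine ⟨ψ, χ, g, Brig_res O j hc q' P' (q' ^ n * P' * L') hq hP ?_ ψ h0 h1 h2, fun x => ?_⟩
  · rw [map_mul, map_mul, map_pow, hq, hP, hL, ← map_pow, ← map_mul, ← map_mul, Brig_Ls]
  · rw [hx x]
    have e1 := (hBr.1 R3 n r0 r1 (Ln n) r0_unit r1_unit (Brig_Lu n)).2 F ψ.toRingHom x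
    have e2 : (B3 n x).1.map ψ = (Brep n (q' : F) (P' : F) (L' : F) x).1 := by
      rw [← h0, ← h1, ← hLn]
      exact e1
    rw [e2]

end Pool.Agent.Lib.MP_97567f_al.U.TB
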