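import Pool.Agent.Lib.MP_97567f_al.U.SpecB

/-!
# MP_97567f_al, type B: cyclic vectors
-/

set_option autoImplicit false

namespace Pool.Agent.Lib.MP_97567f_al.U.TB

/-- The part of a sum. -/
private theorem By_part {K V : Type} [Field K] [AddCommGroup V] [Module K V] (U : Submodule K V)
    {c : K} (hc : c ≠ 0) {x y : V} (h : c • x + y ∈ U) (hy : y ∈ U) : x ∈ U := by
  have h1 : c • x ∈ U := by
    have h2 := U.sub_mem h hy
    rwa [add_sub_cancel_right] at h2
  exact (Submodule.smul_mem_iff U hc).1 h1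

section

variable {K : Type} [Field K] {n : ℕ} {q P L : K}

/-- One row. -/
private theorem By_row (h1 : SBa) (hq : q ≠ 0) (U : Submodule K (Pr n → K))
    (hs : ∀ i, 1 ≤ i → i < n → ∀ y ∈ U, (sm n q P L i).mulVec y ∈ U) (j : ℕ)
    (hj : j + 1 ≤ n → yv n j (j + 1) ∈ U) : ∀ k, j < k → k ≤ n → yv n j k ∈ U := by
  intro k hjk
  induction k, hjk using Nat.le_induction with
  | base => exact hj
  | succ k hk ih =>
    intro hkn
    have h2 := hs k (by omega) (by omega) _ (ih (by omega))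
    rw [(h1 K n q P L).1 k j k (by omega) (by omega)] at h2
    unfold simg at h2
    rw [if_neg (by omega), if_neg (by omega), if_neg (by omega), if_pos rfl] at h2
    exact By_part U hq h2 (U.smul_mem _ (ih (by omega)))

/-- The first cyclic vector. -/
private theorem By_top (h1 : SBa) (hn : 2 ≤ n) (hq : q ≠ 0) (hq1 : q ≠ 1) (hP1 : P ≠ 1)
    (U : Submodule K (Pr n → K))
    (hs : ∀ i, 1 ≤ i → i < n → ∀ y ∈ U, (sm n q P L i).mulVec y ∈ U)
    (ht : ∀ y ∈ U, (tm n q P L).mulVec y ∈ U) (h01 : yv n 0 1 ∈ U) : U = ⊤ := by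
  have hr0 : ∀ k, 0 < k → k ≤ n → yv n 0 k ∈ U := By_row h1 hq U hs 0 fun _ => h01
  have h12 : yv n 1 2 ∈ U := by
    have h2 := ht _ (hr0 2 (by omega) hn)
    rw [(h1 K n q P L).2.1 0 2 (by omega) hn] at h2
    unfold timg at h2
    rw [if_neg (by omega), if_pos rfl] at h2
    have h3 : ((1 - q) * (1 - P)) • yv n 1 2 + (q • yv n 0 2 -
        ((1 - q) * q * P ^ 2 * L ^ 2) • yv n 0 1) ∈ U := by
      have h4 : ((1 - q) * (1 - P)) • (yv n 1 2 : Pr n → K) + (q • yv n 0 2 -
        ((1 - q) * q * P ^ 2 * L ^ 2) • yv n 0 1) = q • yv n 0 2 +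
        ((1 - q) * (1 - P)) • yv n 1 2 - ((1 - q) * q * P ^ 2 * L ^ 2) • yv n 0 1 := by
        abel
      rw [h4]
      exact h2
    exact By_part U (mul_ne_zero (sub_ne_zero.2 (Ne.symm hq1)) (sub_ne_zero.2 (Ne.symm hP1))) h3
      (U.sub_mem (U.smul_mem _ (hr0 2 (by omega) hn)) (U.smul_mem _ h01))
  have hrow : ∀ j, 1 ≤ j → ∀ k, j < k → k ≤ n → yv n j k ∈ U := by
    intro j hj
    induction j, hj using Nat.le_induction with
    | base => exact By_row h1 hq U hs 1 fun _ => h12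
    | succ j hj ih =>
      apply By_row h1 hq U hs (j + 1)
      intro hjn
      have h2 := hs j hj (by omega) _ (ih (j + 2) (by omega) hjn)
      rw [(h1 K n q P L).1 j j (j + 2) (by omega) hjn] at h2
      unfold simg at h2
      rw [if_neg (by omega), if_neg (by omega), if_pos rfl] at h2
      have h3 := U.add_mem h2 (U.smul_mem (q * (1 - q) * L) (ih (j + 1) (by omega) (by omega)))
      rwa [sub_add_cancel] at h3
  rw [eq_top_iff]
  intro x _
  rw [(h1 K n q P L).2.2.2.2 x]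
  apply U.sum_mem
  intro b _
  apply U.smul_mem
  have hb : (b.1.1 : ℕ) < b.1.2 := b.2
  have hb2 : (b.1.2 : ℕ) ≤ n := Nat.lt_succ_iff.1 b.1.2.2
  rcases Nat.eq_zero_or_pos (b.1.1 : ℕ) with h0 | h0
  · rw [h0]
    exact hr0 _ (by omega) hb2
  · exact hrow _ h0 _ hb hb2

/-- The second cyclic vector. -/
private theorem By_two (h1 : SBa) (hn : 2 ≤ n) (hq : q ≠ 0) (hPL : P * L ≠ 1)
    (hqPL : q * P * L ≠ -1) (U : Submodule K (Pr n → K))
    (hs : ∀ i, 1 ≤ i → i < n → ∀ y ∈ U, (sm n q P L i).mulVec y ∈ U)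
    (ht : ∀ y ∈ U, (tm n q P L).mulVec y ∈ U) (h12 : yv n 1 2 ∈ U) : yv n 0 1 ∈ U := by
  have h2 := ht _ h12
  rw [(h1 K n q P L).2.1 1 2 (by omega) hn] at h2
  unfold timg at h2
  rw [if_neg (by omega), if_neg (by omega), if_pos rfl] at h2
  set Z : Pr n → K := q • yv n 0 2 - (q * P * L) • yv n 0 1 with hZ
  have hZU : Z ∈ U := by
    have h3 := U.sub_mem h2 (U.smul_mem (1 - q + q * P) h12)
    have h4 : (1 - q + q * P) • (yv n 1 2 : Pr n → K) + q • yv n 0 2 - (q * P * L) • yv n 0 1 -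
        (1 - q + q * P) • yv n 1 2 = Z := by
      rw [hZ]
      abel
    rwa [h4] at h3
  have h3 := hs 1 le_rfl (by omega) _ hZU
  have e1 : (sm n q P L 1).mulVec (yv n 0 2) = yv n 0 1 - (q * (1 - q) * L * wj P 0) • yv n 1 2 := by
    rw [(h1 K n q P L).1 1 0 2 (by omega) hn]
    unfold simg
    rw [if_neg (by omega), if_neg (by omega), if_neg (by omega), if_neg (by omega), if_pos rfl]
  have e2 : (sm n q P L 1).mulVec (yv n 0 1) = q • yv n 0 2 + (1 - q) • yv n 0 1 := by
    rw [(h1 K n q P L).1 1 0 1 (by omega) (by omega)]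
    unfold simg
    rw [if_neg (by omega), if_neg (by omega), if_neg (by omega), if_pos rfl]
  rw [hZ, Matrix.mulVec_sub, Matrix.mulVec_smul, Matrix.mulVec_smul, e1, e2] at h3
  have h4 := U.add_mem (U.add_mem h3 (U.smul_mem (q * (q * (1 - q) * L * wj P 0)) h12))
    (U.smul_mem (q * P * L) hZU)
  have h5 : q • ((yv n 0 1 : Pr n → K) - (q * (1 - q) * L * wj P 0) • yv n 1 2) -
      (q * P * L) • (q • yv n 0 2 + (1 - q) • yv n 0 1) +
      (q * (q * (1 - q) * L * wj P 0)) • yv n 1 2 + (q * P * L) • Z =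
      (q * (1 - P * L) * (1 + q * P * L)) • yv n 0 1 := by
    rw [hZ]
    module
  rw [h5] at h4
  refine (Submodule.smul_mem_iff U ?_).1 h4
  refine mul_ne_zero (mul_ne_zero hq (sub_ne_zero.2 (Ne.symm hPL))) ?_
  intro h6
  exact hqPL (by linear_combination h6)

end

theorem pBy (h1 : SBa) (h2 : SBr) : SBy := by
  intro n hn K _ q P L hq hP hL hq1 hP1
  have h3 := (h2.1 K n q P L (isUnit_iff_ne_zero.2 hq) (isUnit_iff_ne_zero.2 hP)
    (isUnit_iff_ne_zero.2 hL)).1
  have hst : ∀ (w : Pr n → K) (g : Art (BM n)),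
      ∀ y ∈ Submodule.span K {y | ∃ x, y = (Brep n q P L x).1.mulVec w},
      (Brep n q P L g).1.mulVec y ∈ Submodule.span K {y | ∃ x, y = (Brep n q P L x).1.mulVec w} := by
    intro w g y hy
    induction hy using Submodule.span_induction with
    | mem x hx =>
      obtain ⟨x', rfl⟩ := hx
      apply Submodule.subset_span
      refine ⟨g * x', ?_⟩
      rw [map_mul, Units.val_mul, Matrix.mulVec_mulVec]
    | zero =>
      rw [Matrix.mulVec_zero]
      exact Submodule.zero_mem _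
    | add x y _ _ hx hy =>
      rw [Matrix.mulVec_add]
      exact Submodule.add_mem _ hx hy
    | smul a x _ hx =>
      rw [Matrix.mulVec_smul]
      exact Submodule.smul_mem _ _ hx
  have hs : ∀ (w : Pr n → K) (i : ℕ), 1 ≤ i → i < n →
      ∀ y ∈ Submodule.span K {y | ∃ x, y = (Brep n q P L x).1.mulVec w},
      (sm n q P L i).mulVec y ∈ Submodule.span K {y | ∃ x, y = (Brep n q P L x).1.mulVec w} := by
    intro w i hi hin y hy
    have h4 := hst w (bg n i) y hy
    rw [h3 i hin] at h4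
    unfold bm at h4
    rwa [if_neg (by omega)] at h4
  have ht : ∀ (w : Pr n → K),
      ∀ y ∈ Submodule.span K {y | ∃ x, y = (Brep n q P L x).1.mulVec w},
      (tm n q P L).mulVec y ∈ Submodule.span K {y | ∃ x, y = (Brep n q P L x).1.mulVec w} := by
    intro w y hy
    have h4 := hst w (bg n 0) y hy
    rw [h3 0 (by omega)] at h4
    unfold bm at h4
    rwa [if_pos rfl] at h4
  have hw : ∀ w : Pr n → K, w ∈ Submodule.span K {y | ∃ x, y = (Brep n q P L x).1.mulVec w} := by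
    intro w
    apply Submodule.subset_span
    refine ⟨1, ?_⟩
    rw [map_one, Units.val_one, Matrix.one_mulVec]
  refine ⟨By_top h1 hn hq hq1 hP1 _ (hs _) (ht _) (hw _), ?_⟩
  intro hPL hqPL
  exact By_top h1 hn hq hq1 hP1 _ (hs _) (ht _)
    (By_two h1 hn hq hPL hqPL _ (hs _) (ht _) (hw _))

end Pool.Agent.Lib.MP_97567f_al.U.TB
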