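import Pool.Agent.Lib.MP_97567f_al.U.SpecB

/-!
# MP_97567f_al: type `B`: generation over `F`
-/

set_option autoImplicit false

namespace Pool.Agent.Lib.MP_97567f_al.U.TB

private theorem Bz_res (h3 : SBr) (h4 : SBg) {n : ℕ} {F : Type} [Field F]
    (O : ValuationSubring F) (q P L : IsLocalRing.ResidueField O) (hG : GenB q P L)
    {ρ : Art (BM n) →* GL (Pr n) O} (hρ : BDef n O q P L ρ) (x : Art (BM n)) :
    (ρ x).1.map (IsLocalRing.residue O) = (Brep n q P L x).1 := by
  have h5 : (Matrix.GeneralLinearGroup.map (IsLocalRing.residue O)).comp ρ = Brep n q P L := by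
    refine (h4 n).2.2.2.2.1 _ _ _ fun i hi => ?_
    apply Units.ext
    rw [(h3.1 _ n q P L hG.q0.isUnit hG.P0.isUnit hG.L0.isUnit).1 i hi, ← hρ i hi]
    rfl
  rw [← h5]
  rfl

theorem pBz (h1 : SBy) (h2 : SVLI) (h3 : SBr) (h4 : SBg) : SBz := by
  classical
  intro n hn F _ O q P L hG ρ hρ u hu
  have h5 := (h1 n (by omega) (IsLocalRing.ResidueField O) q P L hG.q0 hG.P0 hG.L0 hG.q1
    hG.P1).1
  obtain ⟨B, hB1, hB2, hB3⟩ := exists_linearIndependent (IsLocalRing.ResidueField O)
    {y | ∃ x, y = (Brep n q P L x).1.mulVec (yv n 0 1)}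
  have hfin : B.Finite := hB3.setFinite
  have := hfin.fintype
  have hx : ∀ y : B, ∃ x : Art (BM n),
      (y : Pr n → IsLocalRing.ResidueField O) = (Brep n q P L x).1.mulVec (yv n 0 1) :=
    fun y => hB1 y.2
  choose x hx using hx
  have hcard : Fintype.card B = Fintype.card (Pr n) := by
    have h6 := finrank_span_eq_card hB3
    rw [Subtype.range_coe, hB2, h5, finrank_top, Module.finrank_fintype_fun_eq_card] at h6
    exact h6.symm
  have hli : LinearIndependent (IsLocalRing.ResidueField O) (fun (k : B) i =>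
      IsLocalRing.residue O ((ρ (x k)).1.mulVec u i)) := by
    have h6 : (fun (k : B) i => IsLocalRing.residue O ((ρ (x k)).1.mulVec u i)) =
        fun k : B => (k : Pr n → IsLocalRing.ResidueField O) := by
      funext k i
      rw [hx k, RingHom.map_mulVec, Bz_res h3 h4 O q P L hG hρ]
      have h7 : (⇑(IsLocalRing.residue O) ∘ u) = yv n 0 1 := funext hu
      rw [h7]
    rw [h6]
    exact hB3
  have h6 := (h2 F O (Pr n) B _ hli).1
  have h7 := h6.span_eq_top_of_card_eq_finrank' (by
    rw [hcard, Module.finrank_fintype_fun_eq_card])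
  rw [eq_top_iff, ← h7, Submodule.span_le]
  rintro _ ⟨k, rfl⟩
  refine Submodule.subset_span ⟨x k, ?_⟩
  funext i
  exact RingHom.map_mulVec (algebraMap O F) (ρ (x k)).1 u i

end Pool.Agent.Lib.MP_97567f_al.U.TB
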