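import Pool.Agent.Lib.MP_97567f_al.U.SpecB

/-!
# MP_97567f_al, module U/TB/Ch: three eigenvalues
-/

set_option autoImplicit false

namespace Pool.Agent.Lib.MP_97567f_al.U.TB

open Polynomial

private theorem Ch_multiset {F : Type} [Field F] (x y z : F) (S : Multiset F)
    (hS : ∀ μ ∈ S, μ = x ∨ μ = y ∨ μ = z) :
    ∃ m a b : ℕ, (S.map fun μ => (X - C μ : Polynomial F)).prod =
      (X - C x) ^ m * (X - C y) ^ a * (X - C z) ^ b ∧
      S.sum = m * x + a * y + b * z := by
  induction S using Multiset.induction_on with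
  | empty => exact ⟨0, 0, 0, by simp, by simp⟩
  | cons μ S ih =>
    obtain ⟨m, a, b, h1, h2⟩ := ih fun ν hν => hS ν (Multiset.mem_cons_of_mem hν)
    rcases hS μ (Multiset.mem_cons_self μ S) with h | h | h
    · refine ⟨m + 1, a, b, ?_, ?_⟩
      · rw [Multiset.map_cons, Multiset.prod_cons, h1, h]
        ring
      · rw [Multiset.sum_cons, h2, h]
        push_cast
        ring
    · refine ⟨m, a + 1, b, ?_, ?_⟩
      · rw [Multiset.map_cons, Multiset.prod_cons, h1, h]
        ring
      · rw [Multiset.sum_cons, h2, h]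
        push_cast
        ring
    · refine ⟨m, a, b + 1, ?_, ?_⟩
      · rw [Multiset.map_cons, Multiset.prod_cons, h1, h]
        ring
      · rw [Multiset.sum_cons, h2, h]
        push_cast
        ring

private theorem Ch_split {ι Ω : Type} [Fintype ι] [DecidableEq ι] [Field Ω] [IsAlgClosed Ω]
    (G : Matrix ι ι Ω) (x y z : Ω)
    (hG : ∀ v, (G - x • (1 : Matrix ι ι Ω)).mulVec ((G - y • (1 : Matrix ι ι Ω)).mulVec
      ((G - z • (1 : Matrix ι ι Ω)).mulVec v)) = 0) :
    ∃ m a b : ℕ, G.charpoly = (X - C x) ^ m * (X - C y) ^ a * (X - C z) ^ b ∧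
      G.trace = m * x + a * y + b * z := by
  have hs : G.charpoly.Splits := IsAlgClosed.splits _
  have h3 : ∀ μ ∈ G.charpoly.roots, μ = x ∨ μ = y ∨ μ = z := by
    intro μ hμ
    have h4 : G.charpoly.eval μ = 0 := (mem_roots'.1 hμ).2
    rw [Matrix.eval_charpoly] at h4
    obtain ⟨v, hv, h5⟩ := Matrix.exists_mulVec_eq_zero_iff.2 h4
    have h6 : G.mulVec v = μ • v := by
      rw [Matrix.sub_mulVec, sub_eq_zero] at h5
      rw [← h5]
      ext i
      simp [Matrix.scalar_apply, Matrix.mulVec_diagonal]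
    have h7 : ∀ c : Ω, (G - c • (1 : Matrix ι ι Ω)).mulVec v = (μ - c) • v := by
      intro c
      rw [Matrix.sub_mulVec, Matrix.smul_mulVec, Matrix.one_mulVec, h6, sub_smul]
    have h8 := hG v
    rw [h7, Matrix.mulVec_smul, h7, Matrix.mulVec_smul, Matrix.mulVec_smul, h7, smul_smul,
      smul_smul, smul_eq_zero_iff_left hv] at h8
    rcases mul_eq_zero.1 h8 with h9 | h9
    · rcases mul_eq_zero.1 h9 with h9 | h9
      · exact Or.inr (Or.inr (sub_eq_zero.1 h9))
      · exact Or.inr (Or.inl (sub_eq_zero.1 h9))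
    · exact Or.inl (sub_eq_zero.1 h9)
  obtain ⟨m, a, b, h1, h2⟩ := Ch_multiset x y z _ h3
  refine ⟨m, a, b, ?_, ?_⟩
  · rw [← h1]
    exact hs.eq_prod_roots_of_monic (Matrix.charpoly_monic G)
  · rw [← h2]
    exact Matrix.trace_eq_sum_roots_charpoly_of_splits hs


/-- The characteristic polynomial of a matrix annihilated by a product of three linear factors. -/
theorem pCh : SCh := by
  intro R _ _ ι _ _ G x y z _ _ _ h
  let Ω : Type := AlgebraicClosure (FractionRing R)
  let ρ : R →+* Ω := (algebraMap (FractionRing R) Ω).comp (algebraMap R (FractionRing R))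
  have hρ : Function.Injective ρ :=
    (RingHom.injective (algebraMap (FractionRing R) Ω)).comp
      (IsFractionRing.injective R (FractionRing R))
  have hsub : ∀ c : R, (G - c • (1 : Matrix ι ι R)).map ρ =
      G.map ρ - ρ c • (1 : Matrix ι ι Ω) := by
    intro c
    ext i j
    simp only [Matrix.map_apply, Matrix.sub_apply, Matrix.smul_apply, smul_eq_mul, map_sub,
      map_mul, Matrix.one_apply]
    split_ifs <;> simp
  have h1 : (G.map ρ - ρ x • (1 : Matrix ι ι Ω)) * (G.map ρ - ρ y • (1 : Matrix ι ι Ω)) *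
      (G.map ρ - ρ z • (1 : Matrix ι ι Ω)) = 0 := by
    rw [← hsub, ← hsub, ← hsub, ← Matrix.map_mul, ← Matrix.map_mul, h]
    ext i j
    simp
  obtain ⟨a, b, c, h2, h3⟩ := Ch_split (G.map ρ) (ρ x) (ρ y) (ρ z) (by
    intro v
    rw [Matrix.mulVec_mulVec, Matrix.mulVec_mulVec, h1, Matrix.zero_mulVec])
  have h4 : G.charpoly = (X - C x) ^ a * (X - C y) ^ b * (X - C z) ^ c := by
    apply Polynomial.map_injective ρ hρ
    rw [← Matrix.charpoly_map, h2]
    simp only [Polynomial.map_mul, Polynomial.map_pow, Polynomial.map_sub, Polynomial.map_X,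
      Polynomial.map_C]
  refine ⟨a, b, c, ?_, h4, ?_⟩
  · have h5 := Matrix.charpoly_natDegree_eq_dim G
    rw [h4] at h5
    have ex : (X - C x : R[X]).Monic := monic_X_sub_C x
    have ey : (X - C y : R[X]).Monic := monic_X_sub_C y
    have ez : (X - C z : R[X]).Monic := monic_X_sub_C z
    rw [((ex.pow a).mul (ey.pow b)).natDegree_mul (ez.pow c),
      (ex.pow a).natDegree_mul (ey.pow b), ex.natDegree_pow, ey.natDegree_pow,
      ez.natDegree_pow, natDegree_X_sub_C, natDegree_X_sub_C, natDegree_X_sub_C] at h5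
    omega
  · apply hρ
    have h6 : ρ G.trace = (G.map ρ).trace := by
      unfold Matrix.trace
      rw [map_sum]
      rfl
    rw [h6, h3]
    simp only [map_add, map_mul, map_natCast]

end Pool.Agent.Lib.MP_97567f_al.U.TB
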