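import Pool.Agent.Lib.MP_97567f_al.U.SpecB

set_option autoImplicit false

namespace Pool.Agent.Lib.MP_97567f_al.U.TB

theorem pCo : SCo := by
  intro F W _ _ _ s1 s2 u v l mu a b c a' b' f hbr h1 h2 h3 h4 h5 h6 hLI ha' hf hmu
  obtain ⟨φ, rfl⟩ : ∃ φ, f = φ * mu := ⟨f / mu, by field_simp⟩
  have hφ : φ * mu / mu = φ := by field_simp
  have hφ0 : φ ≠ 0 := fun h => hf (by rw [h, zero_mul])
  rw [hφ]
  -- the vector p
  have hp : s1 (s2 (s1 u)) = mu • s2 (s1 u) := by
    rw [hbr, h1, map_smul, map_smul]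
  -- the relation conjugated
  have hA : s2 (s2 (s1 u)) = a' • s2 (s1 u) - b' • s1 u + φ • s1 (s2 v) := by
    have e1 : s1 (s2 (s1 (s1 u))) = s2 (s2 (s1 (s2 u))) := by
      rw [hbr, hbr]
    rw [h3, h1] at e1
    simp only [map_add, map_sub, map_smul] at e1
    rw [hp, h1, map_smul] at e1
    have e2 : mu • (s2 (s2 (s1 u))) =
        mu • (a' • s2 (s1 u) - b' • s1 u + φ • s1 (s2 v)) := by
      rw [← e1]
      module
    exact smul_right_injective W hmu e2
  have e3 : s1 (s2 (s1 (s2 (s1 u)))) = s2 (s1 (s2 (s2 (s1 u)))) := hbr _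
  rw [hp, hA] at e3
  simp only [map_add, map_sub, map_smul] at e3
  rw [hA] at e3
  simp only [map_add, map_sub, map_smul] at e3
  rw [hp, h3, h6, h5] at e3
  simp only [map_add, map_sub, map_smul] at e3
  rw [hA, h1] at e3
  have key : (0 : F) • u + (0 : F) • s1 u + (a' * (mu ^ 2 - a' * mu + b')) • s2 (s1 u) +
      (- mu * (φ * mu) * b' + mu * φ * (a * b) - φ * b ^ 2) • v +
      (- mu * φ * b + b' * (φ * mu)) • s2 v + (mu * φ * a - a' * mu * φ) • s1 (s2 v) = 0 := by
    rw [← sub_eq_zero] at e3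
    rw [← e3]
    module
  have hli := Fintype.linearIndependent_iff.mp hLI ![0, 0, a' * (mu ^ 2 - a' * mu + b'),
    - mu * (φ * mu) * b' + mu * φ * (a * b) - φ * b ^ 2, - mu * φ * b + b' * (φ * mu),
    mu * φ * a - a' * mu * φ] (by
      simp only [Fin.sum_univ_succ, Fin.sum_univ_zero]
      simp only [Matrix.cons_val_zero, Matrix.cons_val_succ]
      refine Eq.trans ?_ key
      module)
  have c2 := hli 2
  have c4 := hli 4
  have c5 := hli 5
  simp only [Matrix.cons_val] at c2 c4 c5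
  have haa : a' = a := by
    have : (mu * φ) * (a - a') = 0 := by linear_combination c5
    rcases mul_eq_zero.mp this with h | h
    · exact absurd h (mul_ne_zero hmu hφ0)
    · exact (sub_eq_zero.mp h).symm
  have hbb : b' = b := by
    have : (mu * φ) * (b' - b) = 0 := by linear_combination c4
    rcases mul_eq_zero.mp this with h | h
    · exact absurd h (mul_ne_zero hmu hφ0)
    · exact sub_eq_zero.mp h
  refine ⟨haa, hbb, ?_, ?_⟩
  · rcases mul_eq_zero.mp c2 with h | h
    · exact absurd h ha'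
    · rw [haa, hbb] at h
      exact h
  · rw [hA, haa, hbb]

end Pool.Agent.Lib.MP_97567f_al.U.TB
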