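import Pool.Agent.Lib.MP_97567f_al.U.SpecB

set_option autoImplicit false

namespace Pool.Agent.Lib.MP_97567f_al.U.TB

theorem pCp : SCp := by
  intro F W _ _ _ t s1 s2 u v q l lam f al be ga ze hinj hbr hts hb4 hq hl hlam hf htu hs2u hs1v
    htw h11 htv h22v h22p h1 h2 hLI
  -- step 1
  have hka : t (s1 u) = (ze / (lam * q)) • (s1 u - (1 - q) • u - (f / l) • v) := by
    apply hinj
    have e1 : lam • s1 (t (s1 u)) = ze • u := by
      rw [← h1, hb4, htu]
      simp only [map_smul]
    have e2 : s1 (s1 u - (1 - q) • u - (f / l) • v) = q • u := by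
      simp only [map_sub, map_smul]
      rw [h11, hs1v, smul_smul, div_mul_cancel₀ f hl]
      module
    have e3 : s1 (t (s1 u)) = (ze / lam) • u := by
      have : lam • s1 (t (s1 u)) = lam • ((ze / lam) • u) := by
        rw [e1, smul_smul, mul_div_cancel₀ ze hlam]
      exact smul_right_injective W hlam this
    rw [map_smul, e2, e3, smul_smul]
    congr 1
    field_simp
  obtain ⟨ka, hka'⟩ : ∃ ka, ka = ze / (lam * q) := ⟨_, rfl⟩
  have hze : ze = ka * (lam * q) := by
    rw [hka']
    field_simp
  rw [← hka'] at hka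
  obtain ⟨φ, hφ⟩ : ∃ φ, f / l = φ := ⟨_, rfl⟩
  have hfφ : f = φ * l := by rw [← hφ]; field_simp
  rw [hφ] at hka
  obtain ⟨μ, hμ⟩ : ∃ μ, (1 - q) * l / q = μ := ⟨_, rfl⟩
  have hμq : (1 - q) * l = μ * q := by rw [← hμ]; field_simp
  rw [hμ] at h22v
  -- step 2
  have htp : t (s2 (s1 u)) = ka • (s2 (s1 u) - (1 - q) • u - φ • s2 v) := by
    rw [hts, hka]
    simp only [map_smul, map_sub]
    rw [hs2u]
  -- step 3
  have e3 : t (s2 (s2 (s1 u))) = s2 (t (s2 (s1 u))) := hts _
  rw [h22p, htp] at e3
  simp only [map_smul, map_sub, map_add] at e3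
  rw [htp, hka, htw, h22p, hs2u, h22v] at e3
  have hw0 : s1 (s2 v) ≠ 0 := hLI.ne_zero 5
  have k3 : f - ka * f - ka * φ * μ = 0 := by
    have : (f - ka * f - ka * φ * μ) • s1 (s2 v) = 0 := by
      rw [← sub_eq_zero] at e3
      refine Eq.trans ?_ e3
      module
    exact (smul_eq_zero.mp this).resolve_right hw0
  have hkaq : ka = q := by
    have e : f * (q - ka) = 0 := by
      have h3 : f * q - ka * f * q - ka * φ * (μ * q) = 0 := by linear_combination q * k3
      rw [← hμq] at h3
      have h4 : f * q - ka * f * q - ka * (φ * l) * (1 - q) = 0 := by linear_combination h3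
      rw [← hfφ] at h4
      linear_combination h4
    exact (sub_eq_zero.mp ((mul_eq_zero.mp e).resolve_left hf)).symm
  subst hkaq
  -- step 4
  have htsv : t (s2 v) = al • s2 v + be • s2 (s1 u) + ga • u := by
    rw [hts, htv]
    simp only [map_smul, map_add]
    rw [hs2u]
  have e4 : t (s2 (s2 v)) = s2 (t (s2 v)) := hts _
  rw [h22v, htsv] at e4
  simp only [map_smul, map_sub, map_add] at e4
  rw [htsv, htv, htw, h22v, h22p, hs2u] at e4
  have k4 : -μ + al * μ - be * f = 0 := by
    have : (-μ + al * μ - be * f) • s1 (s2 v) = 0 := by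
      rw [← sub_eq_zero] at e4
      refine Eq.trans ?_ e4
      module
    exact (smul_eq_zero.mp this).resolve_right hw0
  -- step 5
  have e5 := h2
  rw [hs1v] at e5
  simp only [map_smul] at e5
  rw [htv] at e5
  simp only [map_smul, map_add] at e5
  rw [h11, hs1v] at e5
  simp only [map_smul, map_add] at e5
  rw [hka, htu, htv] at e5
  obtain ⟨e, he⟩ : ∃ e, e = al * l + be * f := ⟨_, rfl⟩
  have key : (l * (e * ga - (be * (1 - ka) + ga) * ka * (1 - ka) + be * ka * lam)) • u +
      (l * (e * be + ka * (be * (1 - ka) + ga))) • s1 u + (0 : F) • s2 (s1 u) +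
      (l * (al * e) - l * (be * (1 - ka) + ga) * ka * φ - ze) • v + (0 : F) • s2 v +
      (0 : F) • s1 (s2 v) = 0 := by
    rw [← sub_eq_zero] at e5
    refine Eq.trans ?_ e5
    rw [he]
    module
  have hli := Fintype.linearIndependent_iff.mp hLI
    ![l * (e * ga - (be * (1 - ka) + ga) * ka * (1 - ka) + be * ka * lam),
      l * (e * be + ka * (be * (1 - ka) + ga)), 0,
      l * (al * e) - l * (be * (1 - ka) + ga) * ka * φ - ze, 0, 0] (by
      simp only [Fin.sum_univ_succ, Fin.sum_univ_zero]
      simp only [Matrix.cons_val_zero, Matrix.cons_val_succ]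
      refine Eq.trans ?_ key
      module)
  have c1 := hli 1
  have c3 := hli 3
  simp only [Matrix.cons_val] at c1 c3
  have c1' : e * be + ka * (be * (1 - ka) + ga) = 0 := (mul_eq_zero.mp c1).resolve_left hl
  have hze2 : ze = e ^ 2 := by
    rw [he] at c1' c3 ⊢
    rw [hfφ] at c1' c3 ⊢
    linear_combination -c3 - l * φ * c1'
  have hP : e / l * l = e := div_mul_cancel₀ e hl
  have k4' : be * f * ka = (1 - ka) * l * (al - 1) := by
    rw [hμq]
    linear_combination - ka * k4
  have hal : al = 1 - ka + ka * (e / l) := by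
    have h5 : l * al = l * (1 - ka + ka * (e / l)) := by
      have : l * (1 - ka + ka * (e / l)) = l * (1 - ka) + ka * (e / l * l) := by ring
      rw [this, hP, he]
      linear_combination - k4'
    exact mul_left_cancel₀ hl h5
  refine ⟨e / l, ?_, ?_, hal, ?_, ?_, ?_⟩
  · rw [hP, he]
  · have : (e / l) ^ 2 * l ^ 2 = e ^ 2 := by
      rw [← mul_pow, hP]
    rw [this, ← hze2, hze]
    ring
  · have h6 : ka * (be * f) = ka * ((1 - ka) * l * (e / l - 1)) := by
      have e6 : ka * ((1 - ka) * l * (e / l - 1)) = (1 - ka) * l * ((1 - ka + ka * (e / l)) - 1) := by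
        ring
      rw [e6, ← hal]
      linear_combination k4'
    exact mul_left_cancel₀ hq h6
  · rw [hP]
    have h7 : ka * ga = ka * (-(be * (e / ka + 1 - ka))) := by
      have e7 : ka * (-(be * (e / ka + 1 - ka))) = -(be * (ka * (e / ka) + ka * (1 - ka))) := by
        ring
      rw [e7, mul_div_cancel₀ e hq]
      linear_combination c1'
    exact mul_left_cancel₀ hq h7
  · rw [hka]
    have : ka * f / l = ka * φ := by rw [← hφ]; ring
    rw [this]
    module

end Pool.Agent.Lib.MP_97567f_al.U.TB
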