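import Pool.Agent.Lib.MP_97567f_al.U.SpecB

/-!
# MP_97567f_al: type `B`: the first three generators
-/

set_option autoImplicit false

namespace Pool.Agent.Lib.MP_97567f_al.U.TB

section model

set_option linter.unusedSectionVars false

variable {K : Type} [Field K] {n : ℕ} {q P L : K}

private theorem Dat_ind {j1 k1 j2 k2 j3 k3 : ℕ} (h1 : j1 < k1) (h1' : k1 ≤ n) (h2 : j2 < k2)
    (h2' : k2 ≤ n) (h3 : j3 < k3) (h3' : k3 ≤ n) (h12 : ¬ (j1 = j2 ∧ k1 = k2))
    (h13 : ¬ (j1 = j3 ∧ k1 = k3)) (h23 : ¬ (j2 = j3 ∧ k2 = k3)) {a b c : K}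
    (h : a • yv n j1 k1 + b • yv n j2 k2 + c • yv n j3 k3 = (0 : Pr n → K)) :
    a = 0 ∧ b = 0 ∧ c = 0 := by
  have e1 := congrFun h ⟨(⟨j1, by omega⟩, ⟨k1, by omega⟩), h1⟩
  have e2 := congrFun h ⟨(⟨j2, by omega⟩, ⟨k2, by omega⟩), h2⟩
  have e3 := congrFun h ⟨(⟨j3, by omega⟩, ⟨k3, by omega⟩), h3⟩
  simp only [Pi.add_apply, Pi.smul_apply, smul_eq_mul, yv, Pi.zero_apply] at e1 e2 e3
  rw [if_pos (by exact ⟨trivial, trivial⟩), if_neg h12, if_neg h13] at e1
  rw [if_neg (by rintro ⟨x, y⟩; exact h12 ⟨x.symm, y.symm⟩), if_pos (by exact ⟨trivial, trivial⟩),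
    if_neg h23] at e2
  rw [if_neg (by rintro ⟨x, y⟩; exact h13 ⟨x.symm, y.symm⟩),
    if_neg (by rintro ⟨x, y⟩; exact h23 ⟨x.symm, y.symm⟩),
    if_pos (by exact ⟨trivial, trivial⟩)] at e3
  refine ⟨by linear_combination e1, by linear_combination e2, by linear_combination e3⟩

private theorem Dat_vmv {ι : Type} [Fintype ι] (u w x : ι → K) :
    (Matrix.vecMulVec u w).mulVec x = (w ⬝ᵥ x) • u := by
  funext i
  simp only [Matrix.mulVec, dotProduct, Matrix.vecMulVec_apply, Pi.smul_apply, smul_eq_mul,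
    Finset.sum_mul]
  exact Finset.sum_congr rfl fun _ _ => by ring

variable (hA : SBa) (hn : 3 ≤ n)

include hA hn

private theorem Dat_s01 : (sm n q P L 1).mulVec (yv n 0 1) =
    q • yv n 0 2 + (1 - q) • yv n 0 1 := by
  rw [(hA K n q P L).1 1 0 1 (by omega) (by omega)]
  simp [simg]

private theorem Dat_s02 : (sm n q P L 1).mulVec (yv n 0 2) =
    yv n 0 1 - (q * (1 - q) * L * (1 - P)) • yv n 1 2 := by
  rw [(hA K n q P L).1 1 0 2 (by omega) (by omega)]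
  simp [simg, wj]

private theorem Dat_s12 : (sm n q P L 1).mulVec (yv n 1 2) = (q ^ 2 * L) • yv n 1 2 := by
  rw [(hA K n q P L).1 1 1 2 (by omega) (by omega)]
  simp [simg]

private theorem Dat_s13 : (sm n q P L 1).mulVec (yv n 1 3) =
    yv n 2 3 - (q * (1 - q) * L) • yv n 1 2 := by
  rw [(hA K n q P L).1 1 1 3 (by omega) (by omega)]
  simp [simg]

private theorem Dat_s23 : (sm n q P L 1).mulVec (yv n 2 3) =
    q • yv n 1 3 + (1 - q) • yv n 2 3 := by
  rw [(hA K n q P L).1 1 2 3 (by omega) (by omega)]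
  simp [simg]

private theorem Dat_r12 : (sm n q P L 2).mulVec (yv n 1 2) =
    q • yv n 1 3 + (1 - q) • yv n 1 2 := by
  rw [(hA K n q P L).1 2 1 2 (by omega) (by omega)]
  simp [simg]

private theorem Dat_r13 : (sm n q P L 2).mulVec (yv n 1 3) =
    yv n 1 2 - (q * (1 - q) * L) • yv n 2 3 := by
  rw [(hA K n q P L).1 2 1 3 (by omega) (by omega)]
  simp [simg, wj]

private theorem Dat_r23 : (sm n q P L 2).mulVec (yv n 2 3) = (q ^ 2 * L) • yv n 2 3 := by
  rw [(hA K n q P L).1 2 2 3 (by omega) (by omega)]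
  simp [simg]

private theorem Dat_t01 : (tm n q P L).mulVec (yv n 0 1) =
    (q ^ 2 * P ^ 2 * L ^ 2) • yv n 0 1 := by
  rw [(hA K n q P L).2.1 0 1 (by omega) (by omega)]
  simp [timg]

private theorem Dat_t02 : (tm n q P L).mulVec (yv n 0 2) =
    q • yv n 0 2 + ((1 - q) * (1 - P)) • yv n 1 2 - ((1 - q) * q * P ^ 2 * L ^ 2) • yv n 0 1 := by
  rw [(hA K n q P L).2.1 0 2 (by omega) (by omega)]
  simp [timg]

private theorem Dat_t12 : (tm n q P L).mulVec (yv n 1 2) =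
    (1 - q + q * P) • yv n 1 2 + q • yv n 0 2 - (q * P * L) • yv n 0 1 := by
  rw [(hA K n q P L).2.1 1 2 (by omega) (by omega)]
  simp [timg]

private theorem Dat_t23 : (tm n q P L).mulVec (yv n 2 3) = yv n 2 3 := by
  rw [(hA K n q P L).2.1 2 3 (by omega) (by omega)]
  simp [timg]

private theorem Dat_ts : (tm n q P L).mulVec ((sm n q P L 1).mulVec (yv n 0 1)) =
    (q ^ 2) • yv n 0 2 + (q * (1 - q) * (1 - P)) • yv n 1 2 := by
  rw [Dat_s01 hA hn, Matrix.mulVec_add, Matrix.mulVec_smul, Matrix.mulVec_smul, Dat_t01 hA hn,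
    Dat_t02 hA hn]
  module

private theorem Dat_sr : (sm n q P L 1).mulVec ((sm n q P L 2).mulVec (yv n 1 2)) =
    q • yv n 2 3 := by
  rw [Dat_r12 hA hn, Matrix.mulVec_add, Matrix.mulVec_smul, Matrix.mulVec_smul, Dat_s12 hA hn,
    Dat_s13 hA hn]
  module

private theorem Dat_z : ((tm n q P L * sm n q P L 1) ^ 2).mulVec (yv n 0 1) =
    (q ^ 4 * P ^ 2 * L ^ 2) • yv n 0 1 := by
  have h1 : ((tm n q P L * sm n q P L 1) ^ 2).mulVec (yv n 0 1) = (tm n q P L).mulVec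
      ((sm n q P L 1).mulVec ((tm n q P L).mulVec ((sm n q P L 1).mulVec (yv n 0 1)))) := by
    simp only [pow_succ, pow_zero, one_mul, Matrix.mulVec_mulVec, mul_assoc]
  rw [h1, Dat_ts hA hn, Matrix.mulVec_add, Matrix.mulVec_smul, Matrix.mulVec_smul,
    Dat_s02 hA hn, Dat_s12 hA hn]
  have h2 : (q ^ 2) • (yv n 0 1 - (q * (1 - q) * L * (1 - P)) • yv n 1 2) +
      (q * (1 - q) * (1 - P)) • (q ^ 2 * L) • yv n 1 2 = ((q ^ 2) • yv n 0 1 : Pr n → K) := by
    module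
  rw [h2, Matrix.mulVec_smul, Dat_t01 hA hn]
  module

private theorem Dat_z' : ((sm n q P L 1 * sm n q P L 2) ^ 3).mulVec (yv n 1 2) =
    (q ^ 6 * L ^ 2) • yv n 1 2 := by
  have h1 : ((sm n q P L 1 * sm n q P L 2) ^ 3).mulVec (yv n 1 2) = (sm n q P L 1).mulVec
      ((sm n q P L 2).mulVec ((sm n q P L 1).mulVec ((sm n q P L 2).mulVec
      ((sm n q P L 1).mulVec ((sm n q P L 2).mulVec (yv n 1 2)))))) := by
    simp only [pow_succ, pow_zero, one_mul, Matrix.mulVec_mulVec, mul_assoc]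
  rw [h1, Dat_sr hA hn, Matrix.mulVec_smul, Dat_r23 hA hn]
  simp only [Matrix.mulVec_smul]
  rw [Dat_s23 hA hn, Matrix.mulVec_add, Matrix.mulVec_smul, Matrix.mulVec_smul, Dat_r13 hA hn,
    Dat_r23 hA hn]
  have h2 : q • (yv n 1 2 - (q * (1 - q) * L) • yv n 2 3) + (1 - q) • (q ^ 2 * L) • yv n 2 3 =
      (q • yv n 1 2 : Pr n → K) := by
    module
  rw [h2, Matrix.mulVec_smul, Dat_s12 hA hn]
  module

private theorem Dat_u (hq : SBq) (hG : GenB q P L) (x : Pr n → K)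
    (hx : (sm n q P L 1).mulVec x = (q ^ 2 * L) • x) : ∃ c : K, x = c • yv n 1 2 := by
  have h1 := (hq K n q P L).1 1 (by omega) (Or.inl le_rfl)
  have h2 := congrArg (fun A => A.mulVec x) h1
  beta_reduce at h2
  rw [Dat_vmv, ← Matrix.mulVec_mulVec, Matrix.add_mulVec, Matrix.smul_mulVec,
    Matrix.one_mulVec, hx, Matrix.sub_mulVec, Matrix.one_mulVec, Matrix.mulVec_add,
    Matrix.mulVec_smul, Matrix.mulVec_smul, hx] at h2
  have h3 : (q ^ 2 * L - 1) * (q ^ 2 * L + q) ≠ 0 := by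
    refine mul_ne_zero (sub_ne_zero.2 hG.l1) ?_
    intro h
    exact hG.lq (by linear_combination h)
  refine ⟨((q ^ 2 * L - 1) * (q ^ 2 * L + q))⁻¹ *
    ((fun b : Pr n => Fs q P L 1 b.1.1 b.1.2) ⬝ᵥ x), ?_⟩
  rw [mul_smul, ← h2, eq_inv_smul_iff₀ h3]
  module

omit hA in
private theorem Dat_li1 (hG : GenB q P L) : LinearIndependent K ![(yv n 0 1 : Pr n → K),
    q • yv n 0 2 + (1 - q) • yv n 0 1, (q ^ 2) • yv n 0 2 + (q * (1 - q) * (1 - P)) • yv n 1 2] := by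
  rw [Fintype.linearIndependent_iff]
  intro g hg
  rw [Fin.sum_univ_three] at hg
  change g 0 • yv n 0 1 + g 1 • (q • yv n 0 2 + (1 - q) • yv n 0 1) +
    g 2 • ((q ^ 2) • yv n 0 2 + (q * (1 - q) * (1 - P)) • yv n 1 2) = 0 at hg
  obtain ⟨e0, e1, e2⟩ := Dat_ind (n := n) (j1 := 0) (k1 := 1) (j2 := 0) (k2 := 2) (j3 := 1)
    (k3 := 2) (by omega) (by omega) (by omega) (by omega) (by omega) (by omega) (by omega)
    (by omega) (by omega) (a := g 0 + g 1 * (1 - q)) (b := g 1 * q + g 2 * q ^ 2)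
    (c := g 2 * (q * (1 - q) * (1 - P))) (by rw [← hg]; module)
  have h1 : 1 - q ≠ 0 := sub_ne_zero.2 hG.q1.symm
  have h2 : 1 - P ≠ 0 := sub_ne_zero.2 hG.P1.symm
  have g2 : g 2 = 0 := by
    rcases mul_eq_zero.1 e2 with h | h
    · exact h
    · exact absurd h (mul_ne_zero (mul_ne_zero hG.q0 h1) h2)
  have g1 : g 1 = 0 := by
    rw [g2, zero_mul, add_zero] at e1
    exact (mul_eq_zero.1 e1).resolve_right hG.q0
  have g0 : g 0 = 0 := by
    rw [g1, zero_mul, add_zero] at e0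
    exact e0
  intro i
  fin_cases i
  · exact g0
  · exact g1
  · exact g2

omit hA in
private theorem Dat_li2 (hG : GenB q P L) : LinearIndependent K ![(yv n 0 1 : Pr n → K),
    q • yv n 0 2 + (1 - q) • yv n 0 1, yv n 1 2] := by
  rw [Fintype.linearIndependent_iff]
  intro g hg
  rw [Fin.sum_univ_three] at hg
  change g 0 • yv n 0 1 + g 1 • (q • yv n 0 2 + (1 - q) • yv n 0 1) + g 2 • yv n 1 2 = 0 at hg
  obtain ⟨e0, e1, e2⟩ := Dat_ind (n := n) (j1 := 0) (k1 := 1) (j2 := 0) (k2 := 2) (j3 := 1)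
    (k3 := 2) (by omega) (by omega) (by omega) (by omega) (by omega) (by omega) (by omega)
    (by omega) (by omega) (a := g 0 + g 1 * (1 - q)) (b := g 1 * q)
    (c := g 2) (by rw [← hg]; module)
  have g1 : g 1 = 0 := (mul_eq_zero.1 e1).resolve_right hG.q0
  have g0 : g 0 = 0 := by
    rw [g1, zero_mul, add_zero] at e0
    exact e0
  intro i
  fin_cases i
  · exact g0
  · exact g1
  · exact e2

omit hA in
private theorem Dat_li3 (hG : GenB q P L) : LinearIndependent K ![(yv n 1 2 : Pr n → K),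
    q • yv n 1 3 + (1 - q) • yv n 1 2, q • yv n 2 3] := by
  rw [Fintype.linearIndependent_iff]
  intro g hg
  rw [Fin.sum_univ_three] at hg
  change g 0 • yv n 1 2 + g 1 • (q • yv n 1 3 + (1 - q) • yv n 1 2) + g 2 • q • yv n 2 3 = 0 at hg
  obtain ⟨e0, e1, e2⟩ := Dat_ind (n := n) (j1 := 1) (k1 := 2) (j2 := 1) (k2 := 3) (j3 := 2)
    (k3 := 3) (by omega) (by omega) (by omega) (by omega) (by omega) (by omega) (by omega)
    (by omega) (by omega) (a := g 0 + g 1 * (1 - q)) (b := g 1 * q)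
    (c := g 2 * q) (by rw [← hg]; module)
  have g1 : g 1 = 0 := (mul_eq_zero.1 e1).resolve_right hG.q0
  have g2 : g 2 = 0 := (mul_eq_zero.1 e2).resolve_right hG.q0
  have g0 : g 0 = 0 := by
    rw [g1, zero_mul, add_zero] at e0
    exact e0
  intro i
  fin_cases i
  · exact g0
  · exact g1
  · exact g2

end model

section val

variable {F : Type} [Field F] {O : ValuationSubring F} {ι : Type} [Fintype ι]

private theorem Dat_red (A : Matrix ι ι O) (x : ι → O) :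
    (fun i => IsLocalRing.residue O (A.mulVec x i)) =
      (A.map (IsLocalRing.residue O)).mulVec (fun i => IsLocalRing.residue O (x i)) :=
  funext fun i => RingHom.map_mulVec _ _ _ i

private theorem Dat_up (A : Matrix ι ι O) (x : ι → O) :
    (fun i => ((A.mulVec x i : O) : F)) =
      (A.map (algebraMap O F)).mulVec (fun i => (x i : F)) :=
  funext fun i => RingHom.map_mulVec (algebraMap O F) _ _ i

omit [Fintype ι] in
private theorem Dat_mult {x v : ι → O} (hv : (fun i => IsLocalRing.residue O (v i)) ≠ 0)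
    (hx : ∃ c : F, (fun i => (x i : F)) = fun i => c * (v i : F)) : ∃ k : O, x = k • v := by
  obtain ⟨c, hcx⟩ := hx
  obtain ⟨i0, hi0⟩ : ∃ i, IsLocalRing.residue O (v i) ≠ 0 := by
    by_contra hne
    push Not at hne
    exact hv (funext hne)
  have hun : IsUnit (v i0) := by
    by_contra h1
    exact hi0 ((IsLocalRing.residue_eq_zero_iff _).2 ((IsLocalRing.mem_maximalIdeal _).2 h1))
  obtain ⟨u, hu⟩ := hun
  have h3 : c = ((x i0 * (u⁻¹ : Oˣ) : O) : F) := by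
    have h4 := congrFun hcx i0
    have h5 : (((u : O) : F)) * (((u⁻¹ : Oˣ) : O) : F) = 1 := by
      have h6 : (u : O) * ((u⁻¹ : Oˣ) : O) = 1 := Units.mul_inv u
      exact_mod_cast congrArg (fun z : O => (z : F)) h6
    have h7 : ((x i0 * (u⁻¹ : Oˣ) : O) : F) = (x i0 : F) * (((u⁻¹ : Oˣ) : O) : F) := rfl
    rw [h7]
    beta_reduce at h4
    rw [h4, ← hu, mul_assoc, h5, mul_one]
  refine ⟨x i0 * (u⁻¹ : Oˣ), funext fun i => Subtype.val_injective ?_⟩
  have h8 := congrFun hcx i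
  rw [h3] at h8
  exact h8

end val

theorem pDat (h1 : SR1) (h2 : SVa) (h3 : SVb) (h4 : SKa) (h5 : SKb) (h6 : SBa) (h7 : SBq)
    (h8 : SBg) : SDat := by
  intro n hn F _ _ O q P L hG ρ hρ
  obtain ⟨lam, mu, u, rlam, rmu, ru, tu, tuniq, su⟩ := h1 n hn F O q P L hG ρ hρ
  obtain ⟨hb4, hb3, hb2, -, -, -⟩ := h8 n
  have hmT : (ρ (bg n 0)).1.map (IsLocalRing.residue O) = tm n q P L := by
    rw [hρ 0 (by omega)]
    rfl
  have hmS : (ρ (bg n 1)).1.map (IsLocalRing.residue O) = sm n q P L 1 := by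
    rw [hρ 1 (by omega)]
    rfl
  have hmR : (ρ (bg n 2)).1.map (IsLocalRing.residue O) = sm n q P L 2 := by
    rw [hρ 2 (by omega)]
    rfl
  have h1q : 1 - q ≠ 0 := sub_ne_zero.2 hG.q1.symm
  have h1P : 1 - P ≠ 0 := sub_ne_zero.2 hG.P1.symm
  have hbr4 : ρ (bg n 0) * ρ (bg n 1) * ρ (bg n 0) * ρ (bg n 1) =
      ρ (bg n 1) * ρ (bg n 0) * ρ (bg n 1) * ρ (bg n 0) := by
    simp only [← map_mul]
    rw [hb4 (by omega)]
  have hbr3 : ρ (bg n 1) * ρ (bg n 2) * ρ (bg n 1) = ρ (bg n 2) * ρ (bg n 1) * ρ (bg n 2) := by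
    simp only [← map_mul]
    rw [hb3 1 le_rfl (by omega)]
  have hcomm : ∀ i j, i + 2 ≤ j → ∀ x : Pr n → O, (ρ (bg n i)).1.mulVec
      ((ρ (bg n j)).1.mulVec x) = (ρ (bg n j)).1.mulVec ((ρ (bg n i)).1.mulVec x) := by
    intro i j hij x
    rw [Matrix.mulVec_mulVec, Matrix.mulVec_mulVec, ← Units.val_mul, ← Units.val_mul, ← map_mul,
      ← map_mul, hb2 i j hij]
  obtain ⟨l, v, rl, rv, sv, suniq, ⟨y1, y2, y3, hy⟩, ⟨a', b0, f, ra', rb0, rf, q0⟩,
    ⟨al, be, ga, ral, rbe, rga, tv⟩, ze, rze, zu, zv⟩ := h3 F O (Pr n) (ρ (bg n 1))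
    (ρ (bg n 0)) lam u hbr4 tu tuniq (sm n q P L 1) (tm n q P L) (yv n 0 1) (yv n 1 2)
    (q ^ 2 * L) (q ^ 4 * P ^ 2 * L ^ 2) (1 - q) q (-(q ^ 2 * (1 - q) * L * (1 - P)))
    (1 - q + q * P) 1 (-(q * P * L + (1 - q))) ((1 - q) * q * (q * (1 - q) * (1 - P))⁻¹)
    (-(q * (q * (1 - q) * (1 - P))⁻¹)) ((q * (1 - q) * (1 - P))⁻¹) hmS.symm hmT.symm
    (funext fun i => (ru i).symm) (by
      rw [Dat_ts h6 hn, Dat_s01 h6 hn]
      exact Dat_li1 hn hG) (by
      rw [Dat_s01 h6 hn]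
      exact Dat_li2 hn hG) (by
      rw [Dat_ts h6 hn, Dat_s01 h6 hn]
      have h9 : (q * (1 - q) * (1 - P))⁻¹ * (q * (1 - q) * (1 - P)) = 1 :=
        inv_mul_cancel₀ (mul_ne_zero (mul_ne_zero hG.q0 h1q) h1P)
      funext i
      simp only [Pi.add_apply, Pi.smul_apply, smul_eq_mul]
      linear_combination (-(yv n 1 2 i : IsLocalRing.ResidueField O)) * h9)
    (Dat_s12 h6 hn) (Dat_u h6 hn h7 hG) (by
      rw [Dat_s01 h6 hn, Matrix.mulVec_add, Matrix.mulVec_smul, Matrix.mulVec_smul,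
        Dat_s01 h6 hn, Dat_s02 h6 hn]
      funext i
      simp only [Pi.add_apply, Pi.sub_apply, Pi.smul_apply, smul_eq_mul]
      ring) (by
      rw [Dat_t12 h6 hn, Dat_s01 h6 hn]
      funext i
      simp only [Pi.add_apply, Pi.sub_apply, Pi.smul_apply, smul_eq_mul]
      ring) (Dat_z h6 hn) (h5 n (by omega) _ q P L hG)
  obtain ⟨a, b, c, ra, rb, hbc, hq1, htw, hc1, hc2, runiq⟩ := h2 F O (Pr n) (ρ (bg n 1))
    (ρ (bg n 2)) l v q (q ^ 2 * L) (q ^ 6 * L ^ 2) hbr3 sv rl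
    (mul_ne_zero (pow_ne_zero 2 hG.q0) hG.L0) hG.q0 suniq (sm n q P L 1) (sm n q P L 2)
    (yv n 1 2) hmS.symm hmR.symm (funext fun i => (rv i).symm) (by
      rw [Dat_sr h6 hn, Dat_r12 h6 hn]
      exact Dat_li3 hn hG) (by
      rw [Dat_sr h6 hn, Dat_r12 h6 hn, Matrix.mulVec_add, Matrix.mulVec_smul,
        Matrix.mulVec_smul, Dat_r12 h6 hn, Dat_r13 h6 hn]
      have h9 : q⁻¹ * q = 1 := inv_mul_cancel₀ hG.q0
      funext i
      simp only [Pi.add_apply, Pi.sub_apply, Pi.smul_apply, smul_eq_mul]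
      linear_combination ((1 - q) * (q ^ 2 * L) * (yv n 2 3 i : IsLocalRing.ResidueField O)) * h9)
    (Dat_z' h6 hn) (h4 n hn _ q P L hG)
  -- the vector `w`
  have hrw : (fun i => IsLocalRing.residue O
      ((ρ (bg n 1)).1.mulVec ((ρ (bg n 2)).1.mulVec v) i)) = q • yv n 2 3 := by
    rw [Dat_red, Dat_red, hmS, hmR, funext rv]
    exact Dat_sr h6 hn
  have hw0 : (q • yv n 2 3 : Pr n → IsLocalRing.ResidueField O) ≠ 0 :=
    (Dat_li3 (L := L) (P := P) hn hG).ne_zero 2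
  obtain ⟨tau, htau⟩ := Dat_mult (x := (ρ (bg n 0)).1.mulVec
      ((ρ (bg n 1)).1.mulVec ((ρ (bg n 2)).1.mulVec v)))
    (v := (ρ (bg n 1)).1.mulVec ((ρ (bg n 2)).1.mulVec v)) (by
      rw [hrw]
      exact hw0) (runiq _ (by
      rw [← Dat_up, ← hcomm 0 2 (by omega), htw, Matrix.mulVec_smul]
      rfl))
  have rtau : IsLocalRing.residue O tau = 1 := by
    have e1 : (fun i => IsLocalRing.residue O ((ρ (bg n 0)).1.mulVec
        ((ρ (bg n 1)).1.mulVec ((ρ (bg n 2)).1.mulVec v)) i)) = q • yv n 2 3 := by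
      rw [Dat_red, hrw, hmT, Matrix.mulVec_smul, Dat_t23 h6 hn]
    rw [htau] at e1
    have e2 := congrFun e1 ⟨(⟨2, by omega⟩, ⟨3, by omega⟩), by
      show (2 : ℕ) < 3
      norm_num⟩
    have e3 := congrFun hrw ⟨(⟨2, by omega⟩, ⟨3, by omega⟩), by
      show (2 : ℕ) < 3
      norm_num⟩
    simp only [Pi.smul_apply, smul_eq_mul, map_mul] at e2 e3
    rw [e3, yv, if_pos ⟨rfl, rfl⟩, mul_one] at e2
    exact mul_right_cancel₀ hG.q0 (e2.trans (one_mul q).symm)
  have hsiv : ∀ i, 3 ≤ i → i < n → (ρ (bg n i)).1.mulVec v = mu • v := by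
    intro i hi hin
    rw [hy]
    simp only [Matrix.mulVec_add, Matrix.mulVec_smul]
    rw [← hcomm 0 i (by omega), ← hcomm 1 i (by omega), su i (by omega) hin]
    simp only [Matrix.mulVec_smul]
    module
  exact ⟨lam, mu, tau, l, a, b, c, a', -b0, f, al, be, ga, ze, u, v,
    { ru := ru
      rv := rv
      rlam := rlam
      rmu := rmu
      rtau := rtau
      rl := rl
      ra := ra
      rb := rb
      ra' := ra'
      rb' := by rw [map_neg, rb0]
      rf := rf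
      ral := ral
      rbe := rbe
      tu := tu
      su := su
      sv := sv
      siv := hsiv
      q0 := by
        rw [q0]
        module
      tv := tv
      zu := zu
      zv := zv
      bc := hbc
      q1 := hq1
      c1 := hc1
      c2 := hc2
      tw := htau }⟩

end Pool.Agent.Lib.MP_97567f_al.U.TB
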