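import Pool.Agent.Lib.MP_97567f_al.U.SpecB

/-!
# MP_97567f_al: type `B`: the relations after a twist
-/

set_option autoImplicit false

namespace Pool.Agent.Lib.MP_97567f_al.U.TB

private theorem Hb_core (hCo : SCo) (hCp : SCp) {F W : Type} [Field F] [AddCommGroup W]
    [Module F W] (n : ℕ) (hn : 3 ≤ n) (A S : ℕ → W →ₗ[F] W) (u v : W)
    (lam mu tau l a b c a' b' f al be ga ze : F)
    (hS0 : ∀ x, S 0 x = tau⁻¹ • A 0 x) (hSi : ∀ i, 1 ≤ i → i < n → ∀ x, S i x = mu⁻¹ • A i x)
    (hinj : Function.Injective (S 1))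
    (hbr : ∀ x, A 1 (A 2 (A 1 x)) = A 2 (A 1 (A 2 x))) (hco : ∀ x, A 0 (A 2 x) = A 2 (A 0 x))
    (hb4 : ∀ x, A 0 (A 1 (A 0 (A 1 x))) = A 1 (A 0 (A 1 (A 0 x))))
    (lam0 : lam ≠ 0) (mu0 : mu ≠ 0) (tau0 : tau ≠ 0) (l0 : l ≠ 0) (b0 : b ≠ 0) (a'0 : a' ≠ 0)
    (f0 : f ≠ 0) (be0 : be ≠ 0)
    (tu : A 0 u = lam • u) (su : ∀ i, 2 ≤ i → i < n → A i u = mu • u) (sv : A 1 v = l • v)
    (siv : ∀ i, 3 ≤ i → i < n → A i v = mu • v)
    (q0 : A 1 (A 1 u) = a' • A 1 u - b' • u + f • v)
    (tv : A 0 v = al • v + be • A 1 u + ga • u)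
    (zu : A 0 (A 1 (A 0 (A 1 u))) = ze • u) (zv : A 0 (A 1 (A 0 (A 1 v))) = ze • v)
    (bc : b * c = a * l) (q1 : A 2 (A 2 v) = a • A 2 v - b • v + c • A 1 (A 2 v))
    (c1 : A 1 (A 1 (A 2 v)) = a • A 1 (A 2 v) - b • A 2 v + (a * b) • v)
    (c2 : A 2 (A 1 (A 1 (A 2 v))) = (b ^ 2) • v) (tw : A 0 (A 1 (A 2 v)) = tau • A 1 (A 2 v))
    (hli : LinearIndependent F ![u, A 1 u, A 2 (A 1 u), v, A 2 v, A 1 (A 2 v)]) :
    ∃ q P L : F, q * mu = mu - a ∧ P * (l * tau) = al * l + be * f ∧ q ^ 2 * L * mu = l ∧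
      HB n S q P L u ((be * mu * tau⁻¹)⁻¹ • v) := by
  obtain ⟨e1, e2, e3, e4⟩ := hCo F W (A 1) (A 2) u v l mu a b c a' b' f hbr
    (su 2 le_rfl (by omega)) sv q0 q1 c1 c2 hli a'0 f0 mu0
  subst e1
  subst e2
  -- the new parameter
  obtain ⟨q, hq⟩ : ∃ q : F, q = (mu - a') / mu := ⟨_, rfl⟩
  have hqm : q * mu = mu - a' := by
    rw [hq]
    field_simp
  have hb : b' = -(q * mu ^ 2) := by
    have : b' = mu * (a' - mu) := by linear_combination e3
    rw [this]
    linear_combination mu * hqm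
  have ha : a' = (1 - q) * mu := by linear_combination hqm
  have q00 : q ≠ 0 := by
    rintro rfl
    apply b0
    rw [hb]
    ring
  have hc : c = -((1 - q) * (l / mu) / q) := by
    have h1 : -(q * mu ^ 2) * c = (1 - q) * mu * l := by rw [← hb, ← ha, bc]
    have h2 : c * q * mu = -((1 - q) * l) := by
      have h3 : mu * (c * q * mu + (1 - q) * l) = 0 := by linear_combination -h1
      rcases mul_eq_zero.1 h3 with h | h
      · exact absurd h mu0
      · linear_combination h
    field_simp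
    linear_combination h2
  have s1 : ∀ x, S 1 x = mu⁻¹ • A 1 x := hSi 1 le_rfl (by omega)
  have s2 : ∀ x, S 2 x = mu⁻¹ • A 2 x := hSi 2 (by omega) (by omega)
  have g12 : S 1 (S 2 v) = (mu⁻¹ * mu⁻¹) • A 1 (A 2 v) := by
    rw [s1, s2, map_smul, smul_smul]
  -- independence
  have hli' : LinearIndependent F ![u, S 1 u, S 2 (S 1 u), v, S 2 v, S 1 (S 2 v)] := by
    have hu := hli.units_smul
      ![(1 : Fˣ), (Units.mk0 mu mu0)⁻¹, (Units.mk0 mu mu0)⁻¹ * (Units.mk0 mu mu0)⁻¹, 1,
        (Units.mk0 mu mu0)⁻¹, (Units.mk0 mu mu0)⁻¹ * (Units.mk0 mu mu0)⁻¹]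
    convert hu using 1
    ext i
    fin_cases i
    · simp
    · simp [s1, Units.smul_def]
    · simp [s1, s2, Units.smul_def, smul_smul]
    · simp
    · simp [s2, Units.smul_def]
    · simp [s1, s2, Units.smul_def, smul_smul]
  obtain ⟨P, p1, p2, p3, p4, p5, p6⟩ := hCp F W (S 0) (S 1) (S 2) u v q (l / mu) (lam / tau)
    (f / mu ^ 2) (al / tau) (be * mu / tau) (ga / tau) (ze / (tau ^ 2 * mu ^ 2)) hinj
    (fun x => by
      simp only [s1, s2, map_smul, smul_smul, hbr])
    (fun x => by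
      simp only [hS0, s2, map_smul, smul_smul, hco, mul_comm])
    (fun x => by
      simp only [hS0, s1, map_smul, smul_smul, hb4]
      congr 1
      ring)
    q00 (div_ne_zero l0 mu0) (div_ne_zero lam0 tau0) (div_ne_zero f0 (pow_ne_zero 2 mu0))
    (by rw [hS0, tu, smul_smul]; congr 1; field_simp)
    (by rw [s2, su 2 le_rfl (by omega), smul_smul, inv_mul_cancel₀ mu0, one_smul])
    (by rw [s1, sv, smul_smul]; congr 1; field_simp)
    (by rw [g12, map_smul, hS0, tw, smul_smul, smul_smul]; congr 1; field_simp)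
    (by
      rw [s1, s1, map_smul, q0, smul_smul, hb, ha, smul_add, smul_sub, smul_smul, smul_smul,
        smul_smul, smul_smul]
      rw [show mu⁻¹ * mu⁻¹ * ((1 - q) * mu) = (1 - q) * mu⁻¹ by field_simp,
        show mu⁻¹ * mu⁻¹ * -(q * mu ^ 2) = -q by field_simp,
        show mu⁻¹ * mu⁻¹ * f = f / mu ^ 2 by field_simp, neg_smul, sub_neg_eq_add])
    (by
      rw [hS0, tv, s1, smul_add, smul_add, smul_smul, smul_smul, smul_smul, smul_smul]
      congr 1
      · congr 1
        · congr 1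
          field_simp
        · congr 1
          field_simp
      · congr 1
        field_simp)
    (by
      rw [g12, s2, s2, map_smul, q1, smul_smul, hb, ha, hc]
      match_scalars <;> field_simp)
    (by
      rw [g12, s2, s2, s1, map_smul, map_smul, map_smul, e4, hb, ha]
      match_scalars <;> field_simp)
    (by
      simp only [hS0, s1, map_smul, smul_smul, zu]
      congr 1
      field_simp)
    (by
      simp only [hS0, s1, map_smul, smul_smul, zv]
      congr 1
      field_simp)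
    hli'
  obtain ⟨L, hL⟩ : ∃ L : F, L = l / mu / q ^ 2 := ⟨_, rfl⟩
  have hL2 : q ^ 2 * L = l / mu := by
    rw [hL]
    field_simp
  have hbe : be * mu * tau⁻¹ ≠ 0 := mul_ne_zero (mul_ne_zero be0 mu0) (inv_ne_zero tau0)
  have hbe' : be * mu / tau = be * mu * tau⁻¹ := div_eq_mul_inv _ _
  set B := be * mu * tau⁻¹ with hB
  rw [hbe'] at p4 p5
  have hv : v = B • (B⁻¹ • v) := by rw [smul_smul, mul_inv_cancel₀ hbe, one_smul]
  refine ⟨q, P, L, hqm, ?_, ?_, ?_⟩
  · have h1 := p1
    field_simp at h1 ⊢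
    linear_combination h1
  · rw [hL2]
    field_simp
  · refine ⟨?_, ?_, ?_, ?_, ?_, ?_, ?_, ?_, ?_, ?_⟩
    · rw [hS0, tu, smul_smul]
      congr 1
      have h1 : q ^ 2 * (lam / tau) = q ^ 2 * (q ^ 2 * P ^ 2 * L ^ 2) := by
        rw [p2, ← hL2]
        ring
      have h2 := mul_left_cancel₀ (pow_ne_zero 2 q00) h1
      rw [← h2]
      field_simp
    · intro i h2 hi
      rw [hSi i (by omega) hi, su i h2 hi, smul_smul, inv_mul_cancel₀ mu0, one_smul]
    · rw [map_smul, s1, sv, smul_smul, smul_smul, smul_smul, hL2]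
      congr 1
      field_simp
    · intro i h3 hi
      rw [map_smul, hSi i (by omega) hi, siv i h3 hi, smul_smul mu⁻¹, inv_mul_cancel₀ mu0,
        one_smul]
    · rw [map_smul (S 2), map_smul (S 1), map_smul (S 0), g12, map_smul, hS0, tw]
      simp only [smul_smul]
      congr 1
      field_simp
    · have h3 : B * (f / mu ^ 2) = (1 - q) * (q ^ 2 * L) * (P - 1) := by
        rw [hL2]
        exact p4
      rw [s1, s1, map_smul, q0, smul_smul, hb, ha]
      match_scalars
      · field_simp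
      · field_simp
      · field_simp at h3 ⊢
        linear_combination h3
    · have h5 : (1 - q) * (l / mu) / q = q * (1 - q) * L := by
        rw [← hL2]
        field_simp
      simp only [map_smul]
      rw [g12, s2, s2, map_smul, q1, smul_smul, hb, ha, hc, h5]
      match_scalars <;> field_simp
    · simp only [map_smul]
      rw [s1 (S 1 (S 2 v)), g12, map_smul, c1, s2, smul_smul, hb, ha]
      match_scalars <;> field_simp <;> ring
    · have h4 : ga / tau = -(B * (P * (l / mu) / q + 1 - q)) := p5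
      have h6 : al / tau = 1 - q + q * P := p3
      rw [map_smul, hS0, tv, s1]
      have h7 : ga = -(B * (P * (l / mu) / q + 1 - q)) * tau := by
        rw [← h4]
        field_simp
      have h8 : al = (1 - q + q * P) * tau := by
        rw [← h6]
        field_simp
      have h9 : be = B * tau / mu := by
        rw [hB]
        field_simp
      rw [h7, h8, ← hL2, h9]
      match_scalars
      · field_simp
      · field_simp
      · field_simp
        ring
    · have h3 : B * (f / mu ^ 2) = (1 - q) * (q ^ 2 * L) * (P - 1) := by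
        rw [hL2]
        exact p4
      have h1 : q ^ 2 * (lam / tau) = q ^ 2 * (q ^ 2 * P ^ 2 * L ^ 2) := by
        rw [p2, ← hL2]
        ring
      have h2 := mul_left_cancel₀ (pow_ne_zero 2 q00) h1
      rw [map_sub, map_smul, p6, hS0 u, tu]
      have h10 : lam = q ^ 2 * P ^ 2 * L ^ 2 * tau := by
        rw [← h2]
        field_simp
      have h11 : f = (1 - q) * (q ^ 2 * L) * (P - 1) * mu ^ 2 / B := by
        rw [← h3]
        field_simp
      have h12 : l = q ^ 2 * L * mu := by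
        rw [hL2]
        field_simp
      rw [h10, h11, h12]
      have hL0 : L ≠ 0 := by
        rintro rfl
        apply l0
        rw [h12]
        ring
      match_scalars
      · field_simp
      · field_simp
      · field_simp
        ring

section cast

variable {F ι : Type} [Field F] [Fintype ι] {O : ValuationSubring F}

private def cF (x : ι → O) : ι → F := fun k => (x k : F)

private theorem cF_mulVec (M : Matrix ι ι O) (x : ι → O) :
    cF (M.mulVec x) = (M.map (algebraMap O F)).mulVecLin (cF x) := by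
  funext i
  exact RingHom.map_mulVec (algebraMap O F) M x i

private theorem cF_smul (r : O) (x : ι → O) : cF (r • x) = (r : F) • cF x := by
  funext i
  simp [cF]

private theorem cF_add (x y : ι → O) : cF (x + y) = cF x + cF y := by
  funext i
  simp [cF]

private theorem cF_sub (x y : ι → O) : cF (x - y) = cF x - cF y := by
  funext i
  simp [cF]

private noncomputable def rs (x : ι → O) : ι → IsLocalRing.ResidueField O := fun k => IsLocalRing.residue O (x k)

private theorem rs_mulVec (M : Matrix ι ι O) (x : ι → O) :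
    rs (M.mulVec x) = (M.map (IsLocalRing.residue O)).mulVec (rs x) := by
  funext i
  exact RingHom.map_mulVec (IsLocalRing.residue O) M x i

end cast

private def pb (n j k : ℕ) (h : j < k) (hk : k ≤ n) : Pr n :=
  ⟨(⟨j, by omega⟩, ⟨k, by omega⟩), Fin.mk_lt_mk.2 h⟩

private theorem yv_pb {R : Type} [CommRing R] (n j k j' k' : ℕ) (h : j < k) (hk : k ≤ n) :
    (yv n j' k' (pb n j k h hk) : R) = if j = j' ∧ k = k' then 1 else 0 := rfl

private theorem Hb_li {K : Type} [Field K] (n : ℕ) (hn : 3 ≤ n) (q : K) (hq : q ≠ 0) :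
    LinearIndependent K ![(yv n 0 1 : Pr n → K), q • yv n 0 2 + (1 - q) • yv n 0 1,
      q • (q • yv n 0 3 + (1 - q) • yv n 0 2) + (1 - q) • yv n 0 1, yv n 1 2,
      q • yv n 1 3 + (1 - q) • yv n 1 2, q • yv n 2 3] := by
  rw [Fintype.linearIndependent_iff]
  intro g hg
  have ev : ∀ b : Pr n, (∑ i, g i • ![(yv n 0 1 : Pr n → K), q • yv n 0 2 + (1 - q) • yv n 0 1,
      q • (q • yv n 0 3 + (1 - q) • yv n 0 2) + (1 - q) • yv n 0 1, yv n 1 2,
      q • yv n 1 3 + (1 - q) • yv n 1 2, q • yv n 2 3] i) b = 0 := fun b => congrFun hg b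
  simp only [Fin.sum_univ_succ, Fin.sum_univ_zero] at ev
  have e03 := ev (pb n 0 3 (by omega) (by omega))
  have e02 := ev (pb n 0 2 (by omega) (by omega))
  have e01 := ev (pb n 0 1 (by omega) (by omega))
  have e23 := ev (pb n 2 3 (by omega) (by omega))
  have e13 := ev (pb n 1 3 (by omega) (by omega))
  have e12 := ev (pb n 1 2 (by omega) (by omega))
  simp [yv_pb, hq] at e03 e23 e13
  simp [yv_pb, hq, e03] at e02
  simp [yv_pb, hq, e03, e02] at e01
  simp [yv_pb, hq, e03, e02, e01, e23, e13] at e12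
  intro i
  fin_cases i
  · exact e01
  · exact e02
  · exact e03
  · exact e12
  · exact e13
  · exact e23

private theorem Hb_e {K W : Type} [Field K] [AddCommGroup W] [Module K W] (q L : K) (x y : W) :
    q • (x - (q * (1 - q) * L) • y) + (1 - q) • ((q ^ 2 * L) • y) = q • x := by
  module

private theorem Hb_gop_apply {F : Type} [Field F] {n : ℕ} (O : ValuationSubring F)
    (ρ : Art (BM n) →* GL (Pr n) O) (χ : Art (BM n) →* Fˣ) (x : Art (BM n)) (v : Pr n → F) :
    gop n O ρ χ x v = ((χ x)⁻¹ : Fˣ).1 • ((ρ x).1.map (algebraMap O F)).mulVec v := rfl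

private theorem Hb_map_mul {F : Type} [Field F] {n : ℕ} (O : ValuationSubring F)
    (ρ : Art (BM n) →* GL (Pr n) O) (x y : Art (BM n)) :
    (ρ (x * y)).1.map (algebraMap O F) =
      (ρ x).1.map (algebraMap O F) * (ρ y).1.map (algebraMap O F) := by
  rw [map_mul, Units.val_mul, Matrix.map_mul]

private theorem Hb_gop_mul {F : Type} [Field F] {n : ℕ} (O : ValuationSubring F)
    (ρ : Art (BM n) →* GL (Pr n) O) (χ : Art (BM n) →* Fˣ) (x y : Art (BM n)) (v : Pr n → F) :
    gop n O ρ χ (x * y) v = gop n O ρ χ x (gop n O ρ χ y v) := by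
  rw [Hb_gop_apply, Hb_gop_apply, Hb_gop_apply, Hb_map_mul, Matrix.mulVec_smul, smul_smul,
    Matrix.mulVec_mulVec, map_mul, mul_inv, Units.val_mul]

private theorem Hb_gop_one {F : Type} [Field F] {n : ℕ} (O : ValuationSubring F)
    (ρ : Art (BM n) →* GL (Pr n) O) (χ : Art (BM n) →* Fˣ) (v : Pr n → F) :
    gop n O ρ χ 1 v = v := by
  rw [Hb_gop_apply]
  simp

theorem pHb (hCo : SCo) (hCp : SCp) (hVLI : SVLI) (hBa : SBa) (hBg : SBg) : SHb := by
  intro n hn F _ _ O q P L hG ρ hρ lam mu tau l a b c a' b' f al be ga ze u v hD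
  classical
  obtain ⟨hb4, hbr, hco, hex, -, -⟩ := hBg n
  -- units
  have un : ∀ (x : O) (y : IsLocalRing.ResidueField O), IsLocalRing.residue O x = y → y ≠ 0 →
      IsUnit x := by
    intro x y h hy
    rw [← IsLocalRing.residue_ne_zero_iff_isUnit, h]
    exact hy
  have nz : ∀ x : O, IsUnit x → (x : F) ≠ 0 := by
    intro x hx h0
    have h5 : x = 0 := Subtype.ext h0
    rw [h5] at hx
    exact not_isUnit_zero hx
  have umu := un mu _ hD.rmu one_ne_zero
  have utau := un tau _ hD.rtau one_ne_zero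
  have ube := un be _ hD.rbe one_ne_zero
  have q1' : 1 - q ≠ 0 := sub_ne_zero.2 hG.q1.symm
  have P1' : 1 - P ≠ 0 := sub_ne_zero.2 hG.P1.symm
  have ul := un l _ hD.rl (mul_ne_zero (pow_ne_zero 2 hG.q0) hG.L0)
  have ulam := un lam _ hD.rlam (mul_ne_zero (mul_ne_zero (pow_ne_zero 2 hG.q0)
    (pow_ne_zero 2 hG.P0)) (pow_ne_zero 2 hG.L0))
  have ub := un b _ hD.rb (neg_ne_zero.2 hG.q0)
  have ua' := un a' _ hD.ra' q1'
  have uf := un f _ hD.rf (neg_ne_zero.2 (mul_ne_zero (mul_ne_zero (mul_ne_zero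
    (pow_ne_zero 2 hG.q0) q1') hG.L0) P1'))
  obtain ⟨χ, hχ⟩ := hex Fˣ (fun i => if i = 0 then Units.mk0 (tau : F) (nz tau utau) else
    Units.mk0 (mu : F) (nz mu umu)) (fun _ => by
      simp only [mul_assoc]
      simp [mul_comm, mul_left_comm]) (fun i h1 h2 => by
      rw [if_neg (by omega), if_neg (by omega)]) (fun i j _ _ => mul_comm _ _)
  -- operators
  set A : ℕ → (Pr n → F) →ₗ[F] (Pr n → F) := fun i =>
    ((ρ (bg n i)).1.map (algebraMap O F)).mulVecLin with hA
  have cA : ∀ i (x : Pr n → O), A i (cF x) = cF ((ρ (bg n i)).1.mulVec x) := fun i x =>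
    (cF_mulVec _ _).symm
  have hA' : ∀ i (w : Pr n → F), A i w = ((ρ (bg n i)).1.map (algebraMap O F)).mulVec w :=
    fun _ _ => rfl
  have hinj : Function.Injective (gop n O ρ χ (bg n 1)) := by
    have e1 : ∀ w, gop n O ρ χ (bg n 1)⁻¹ (gop n O ρ χ (bg n 1) w) = w := by
      intro w
      rw [← Hb_gop_mul, inv_mul_cancel, Hb_gop_one]
    exact Function.LeftInverse.injective e1
  have hli : LinearIndependent F ![cF u, A 1 (cF u), A 2 (A 1 (cF u)), cF v, A 2 (cF v),
      A 1 (A 2 (cF v))] := by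
    have h := (hVLI F O (Pr n) (Fin 6) ![u, (ρ (bg n 1)).1.mulVec u,
      (ρ (bg n 2)).1.mulVec ((ρ (bg n 1)).1.mulVec u), v, (ρ (bg n 2)).1.mulVec v,
      (ρ (bg n 1)).1.mulVec ((ρ (bg n 2)).1.mulVec v)] ?_).1
    · convert h using 1
      ext k i
      fin_cases k
      · rfl
      · exact congrFun (cA 1 u) i
      · have := congrFun (cA 2 ((ρ (bg n 1)).1.mulVec u)) i
        rw [← cA 1 u] at this
        exact this
      · rfl
      · exact congrFun (cA 2 v) i
      · have := congrFun (cA 1 ((ρ (bg n 2)).1.mulVec v)) i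
        rw [← cA 2 v] at this
        exact this
    · have ru : rs u = yv n 0 1 := funext hD.ru
      have rv : rs v = yv n 1 2 := funext hD.rv
      have r1 : ∀ x : Pr n → O, rs ((ρ (bg n 1)).1.mulVec x) = (sm n q P L 1).mulVec (rs x) := by
        intro x
        rw [rs_mulVec, hρ 1 (by omega)]
        rfl
      have r2 : ∀ x : Pr n → O, rs ((ρ (bg n 2)).1.mulVec x) = (sm n q P L 2).mulVec (rs x) := by
        intro x
        rw [rs_mulVec, hρ 2 (by omega)]
        rfl
      have hs := (hBa (IsLocalRing.ResidueField O) n q P L).1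
      have s101 : (sm n q P L 1).mulVec (yv n 0 1) = q • yv n 0 2 + (1 - q) • yv n 0 1 := by
        rw [hs 1 0 1 (by omega) (by omega)]
        simp [simg]
      have s202 : (sm n q P L 2).mulVec (yv n 0 2) = q • yv n 0 3 + (1 - q) • yv n 0 2 := by
        rw [hs 2 0 2 (by omega) (by omega)]
        simp [simg]
      have s201 : (sm n q P L 2).mulVec (yv n 0 1) = yv n 0 1 := by
        rw [hs 2 0 1 (by omega) (by omega)]
        simp [simg]
      have s212 : (sm n q P L 2).mulVec (yv n 1 2) = q • yv n 1 3 + (1 - q) • yv n 1 2 := by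
        rw [hs 2 1 2 (by omega) (by omega)]
        simp [simg]
      have s113 : (sm n q P L 1).mulVec (yv n 1 3) = yv n 2 3 -
          (q * (1 - q) * L) • yv n 1 2 := by
        rw [hs 1 1 3 (by omega) (by omega)]
        simp [simg]
      have s112 : (sm n q P L 1).mulVec (yv n 1 2) = (q ^ 2 * L) • yv n 1 2 := by
        rw [hs 1 1 2 (by omega) (by omega)]
        simp [simg]
      have hl := Hb_li n hn q hG.q0
      convert hl using 1
      ext k i
      fin_cases k
      · exact hD.ru i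
      · have h1 : rs ((ρ (bg n 1)).1.mulVec u) = q • yv n 0 2 + (1 - q) • yv n 0 1 := by
          rw [r1, ru, s101]
        exact congrFun h1 i
      · have h1 : rs ((ρ (bg n 2)).1.mulVec ((ρ (bg n 1)).1.mulVec u)) =
            q • (q • yv n 0 3 + (1 - q) • yv n 0 2) + (1 - q) • yv n 0 1 := by
          rw [r2, r1, ru, s101, Matrix.mulVec_add, Matrix.mulVec_smul, Matrix.mulVec_smul, s202,
            s201]
        exact congrFun h1 i
      · exact hD.rv i
      · have h1 : rs ((ρ (bg n 2)).1.mulVec v) = q • yv n 1 3 + (1 - q) • yv n 1 2 := by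
          rw [r2, rv, s212]
        exact congrFun h1 i
      · have h1 : rs ((ρ (bg n 1)).1.mulVec ((ρ (bg n 2)).1.mulVec v)) = q • yv n 2 3 := by
          rw [r1, r2, rv, s212, Matrix.mulVec_add, Matrix.mulVec_smul, Matrix.mulVec_smul, s113,
            s112, Hb_e]
        exact congrFun h1 i
  obtain ⟨q', P', L', h1, h2, h3, hB⟩ := Hb_core hCo hCp n hn A
    (fun i => gop n O ρ χ (bg n i)) (cF u) (cF v) lam mu tau l a b c a' b' f al be ga ze
    (fun x => by
      rw [Hb_gop_apply, hχ 0 (by omega), if_pos rfl, hA', Units.val_inv_eq_inv_val,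
        Units.val_mk0])
    (fun i hi1 hi2 x => by
      rw [Hb_gop_apply, hχ i hi2, if_neg (by omega), hA', Units.val_inv_eq_inv_val,
        Units.val_mk0])
    hinj
    (fun x => by
      simp only [hA', Matrix.mulVec_mulVec, ← Hb_map_mul, ← mul_assoc]
      rw [hbr 1 le_rfl (by omega)])
    (fun x => by
      simp only [hA', Matrix.mulVec_mulVec, ← Hb_map_mul]
      rw [hco 0 2 (by omega)])
    (fun x => by
      simp only [hA', Matrix.mulVec_mulVec, ← Hb_map_mul, ← mul_assoc]
      rw [hb4 (by omega)])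
    (nz _ ulam) (nz _ umu) (nz _ utau) (nz _ ul) (nz _ ub) (nz _ ua') (nz _ uf) (nz _ ube)
    (by rw [cA, hD.tu, cF_smul])
    (fun i h2 hi => by rw [cA, hD.su i h2 hi, cF_smul])
    (by rw [cA, hD.sv, cF_smul])
    (fun i h3 hi => by rw [cA, hD.siv i h3 hi, cF_smul])
    (by simp only [cA, hD.q0, cF_smul, cF_add, cF_sub])
    (by simp only [cA, hD.tv, cF_smul, cF_add])
    (by simp only [cA, hD.zu, cF_smul])
    (by simp only [cA, hD.zv, cF_smul])
    (by exact_mod_cast congrArg (fun x : O => (x : F)) hD.bc)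
    (by simp only [cA, hD.q1, cF_smul, cF_add, cF_sub])
    (by simp only [cA, hD.c1, cF_smul, cF_add, cF_sub]; push_cast; rfl)
    (by simp only [cA, hD.c2, cF_smul]; push_cast; rfl)
    (by simp only [cA, hD.tw, cF_smul])
    hli
  obtain ⟨mu', hmu'⟩ := umu
  obtain ⟨lt, hlt⟩ := ul.mul utau
  -- the elements of `O`
  obtain ⟨qO, hqO⟩ : ∃ x : O, x = (mu - a) * (mu'⁻¹ : Oˣ).1 := ⟨_, rfl⟩
  have eq1 : qO * mu = mu - a := by
    rw [hqO, mul_assoc, ← hmu', Units.inv_mul, mul_one]
  have eq1F : (qO : F) * mu = mu - a := by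
    have := congrArg (fun x : O => (x : F)) eq1
    push_cast at this
    exact this
  have hq' : (qO : F) = q' := by
    have h4 : (mu : F) ≠ 0 := nz mu ⟨mu', hmu'⟩
    exact mul_right_cancel₀ h4 (eq1F.trans h1.symm)
  obtain ⟨PO, hPO⟩ : ∃ x : O, x = (al * l + be * f) * (lt⁻¹ : Oˣ).1 := ⟨_, rfl⟩
  have eq2 : PO * (l * tau) = al * l + be * f := by
    rw [hPO, mul_assoc, ← hlt, Units.inv_mul, mul_one]
  have hP' : (PO : F) = P' := by
    have := congrArg (fun x : O => (x : F)) eq2
    push_cast at this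
    have h4 : (l : F) * tau ≠ 0 := mul_ne_zero (nz l ul) (nz tau utau)
    exact mul_right_cancel₀ h4 (this.trans h2.symm)
  have rq : IsLocalRing.residue O qO = q := by
    have h4 := congrArg (IsLocalRing.residue O) eq1
    rw [map_mul, map_sub, hD.rmu, hD.ra, mul_one] at h4
    rw [h4]
    ring
  have uqm : IsUnit (qO ^ 2 * mu) := ((un qO _ rq hG.q0).pow 2).mul ⟨mu', hmu'⟩
  obtain ⟨qm, hqm⟩ := uqm
  obtain ⟨LO, hLO⟩ : ∃ x : O, x = l * (qm⁻¹ : Oˣ).1 := ⟨_, rfl⟩
  have eq3 : LO * (qO ^ 2 * mu) = l := by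
    rw [hLO, mul_assoc, ← hqm, Units.inv_mul, mul_one]
  have hL' : (LO : F) = L' := by
    have := congrArg (fun x : O => (x : F)) eq3
    push_cast at this
    have h4 : (qO : F) ^ 2 * mu ≠ 0 :=
      mul_ne_zero (pow_ne_zero 2 (nz qO (un qO _ rq hG.q0))) (nz mu ⟨mu', hmu'⟩)
    refine mul_right_cancel₀ h4 (this.trans ?_)
    rw [← h3, hq']
    ring
  have rP : IsLocalRing.residue O PO = P := by
    have h4 := congrArg (IsLocalRing.residue O) eq2
    rw [map_mul, map_mul, map_add, map_mul, map_mul, hD.rl, hD.rtau, hD.ral, hD.rbe, hD.rf] at h4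
    have h5 : q ^ 2 * L ≠ 0 := mul_ne_zero (pow_ne_zero 2 hG.q0) hG.L0
    refine mul_right_cancel₀ h5 ?_
    linear_combination h4
  have rL : IsLocalRing.residue O LO = L := by
    have h4 := congrArg (IsLocalRing.residue O) eq3
    rw [map_mul, map_mul, map_pow, rq, hD.rmu, hD.rl] at h4
    have h5 : q ^ 2 ≠ 0 := pow_ne_zero 2 hG.q0
    refine mul_right_cancel₀ h5 ?_
    linear_combination h4
  refine ⟨qO, PO, LO, χ, ((be : F) * mu * (tau : F)⁻¹)⁻¹ • cF v, rq, rP, rL, ?_⟩
  rw [hq', hP', hL']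
  exact hB

end Pool.Agent.Lib.MP_97567f_al.U.TB
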