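import Pool.Agent.Lib.MP_97567f_al.U.SpecB

/-!
# MP_97567f_al: type `B`, module `Hc` (propagation)
-/

set_option autoImplicit false

namespace Pool.Agent.Lib.MP_97567f_al.U.TB

section

variable {F W : Type} [Field F] [AddCommGroup W] [Module F W]

private def vs (g : ℕ → W →ₗ[F] W) (q : F) (v0 v1 : W) : ℕ → W
  | 0 => v0
  | 1 => v1
  | (j + 2) => q⁻¹ • g (j + 1) (g (j + 2) (vs g q v0 v1 (j + 1)))

variable {n : ℕ} {g : ℕ → W →ₗ[F] W} {q P L : F} {v0 v1 : W}

private theorem cancel {q : F} (hq : q ≠ 0) {x y : W} (h : q • x = q • y) : x = y := by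
  have := congrArg (fun z => q⁻¹ • z) h
  simpa [smul_smul, inv_mul_cancel₀ hq] using this

private theorem h4 (hq : q ≠ 0) (j : ℕ) :
    g (j + 1) (g (j + 2) (vs g q v0 v1 (j + 1))) = q • vs g q v0 v1 (j + 2) := by
  rw [vs, smul_smul, mul_inv_cancel₀ hq, one_smul]

private theorem h1 (hq : q ≠ 0) (hg : RelB n g) (h : HB n g q P L v0 v1) :
    ∀ j, j + 1 < n → g (j + 1) (vs g q v0 v1 (j + 1)) = (q ^ 2 * L) • vs g q v0 v1 (j + 1) := by
  intro j
  induction j with
  | zero => intro _; exact h.s11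
  | succ j ih =>
    intro hj
    have e := ih (by omega)
    have b := hg.br (j + 1) (by omega) (by omega) (vs g q v0 v1 (j + 1))
    apply cancel hq
    rw [← map_smul, ← h4 hq j, ← b, e, map_smul, map_smul, h4 hq j, smul_comm]

private theorem h2 (hq : q ≠ 0) (hg : RelB n g) (h : HB n g q P L v0 v1) :
    ∀ j, j < n → ∀ i, 1 ≤ i → i < n → (i + 2 ≤ j ∨ j + 2 ≤ i) →
      g i (vs g q v0 v1 j) = vs g q v0 v1 j := by
  intro j
  induction j using Nat.strong_induction_on with
  | _ j ih =>
    intro hj i hi hin hij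
    match j, ih, hj, hij with
    | 0, _, _, hij => exact h.s0 i (by omega) hin
    | 1, _, _, hij => exact h.s1 i (by omega) hin
    | (k + 2), ih, hj, hij =>
      rcases hij with hij | hij
      · rcases Nat.lt_or_ge i k with hik | hik
        · -- i + 2 ≤ k + 1
          have e := ih (k + 1) (by omega) (by omega) i hi hin (Or.inl (by omega))
          apply cancel hq
          rw [← map_smul, ← h4 hq k, hg.co i (k + 1) (by omega) (by omega),
            hg.co i (k + 2) (by omega) (by omega), e]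
        · obtain rfl : i = k := by omega
          obtain ⟨m, rfl⟩ : ∃ m, i = m + 1 := ⟨i - 1, by omega⟩
          have e := ih (m + 1) (by omega) (by omega) (m + 3) (by omega) (by omega)
            (Or.inr (by omega))
          apply cancel hq
          apply cancel hq
          rw [← map_smul, ← map_smul, ← h4 hq (m + 1), ← map_smul, ← map_smul, ← h4 hq m]
          generalize vs g q v0 v1 (m + 1) = x at e
          have c1 := fun y => hg.co (m + 1) (m + 3) (by omega) (by omega) y
          have b1 := fun y => hg.br (m + 1) (by omega) (by omega) y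
          have b2 := fun y => hg.br (m + 2) (by omega) (by omega) y
          simp only [Nat.add_assoc, Nat.reduceAdd] at c1 b1 b2 e ⊢
          rw [← c1, b1, b2, e]
      · have e := ih (k + 1) (by omega) (by omega) i hi hin (Or.inr (by omega))
        apply cancel hq
        rw [← map_smul, ← h4 hq k, ← hg.co (k + 1) i (by omega) (by omega),
          ← hg.co (k + 2) i (by omega) (by omega), e]

private theorem ht (hq : q ≠ 0) (hg : RelB n g) (h : HB n g q P L v0 v1) :
    ∀ j, j + 2 < n → g 0 (vs g q v0 v1 (j + 2)) = vs g q v0 v1 (j + 2) := by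
  intro j
  induction j with
  | zero =>
    intro _
    apply cancel hq
    rw [← map_smul, ← h4 hq 0]
    exact h.t2
  | succ j ih =>
    intro hj
    have e := ih (by omega)
    apply cancel hq
    rw [← map_smul, ← h4 hq (j + 1), hg.co 0 (j + 1 + 1) (by omega) (by omega),
      hg.co 0 (j + 1 + 2) (by omega) (by omega)]
    rw [show j + 1 + 1 = j + 2 from rfl, e]

/-- The operator `y`. -/
private def yo (g : ℕ → W →ₗ[F] W) (j : ℕ) (x : W) : W := g (j + 1) (g (j + 2) (g (j + 3) x))

private theorem ya (hg : RelB n g) (j : ℕ) (hj : j + 3 < n) (x : W) :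
    yo g j (g (j + 1) x) = g (j + 2) (yo g j x) := by
  unfold yo
  rw [← hg.co (j + 1) (j + 3) (by omega) hj]
  have b1 := hg.br (j + 1) (by omega) (by omega)
  simp only [Nat.add_assoc, Nat.reduceAdd] at b1 ⊢
  rw [b1]

private theorem yb (hg : RelB n g) (j : ℕ) (hj : j + 3 < n) (x : W) :
    yo g j (g (j + 2) x) = g (j + 3) (yo g j x) := by
  unfold yo
  have b1 := hg.br (j + 2) (by omega) (by omega)
  simp only [Nat.add_assoc, Nat.reduceAdd] at b1 ⊢
  rw [b1, hg.co (j + 1) (j + 3) (by omega) hj]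

private theorem yc (hq : q ≠ 0) (hg : RelB n g) (h : HB n g q P L v0 v1) (j : ℕ)
    (hj : j + 3 < n) : yo g j (vs g q v0 v1 (j + 1)) = q • vs g q v0 v1 (j + 2) := by
  unfold yo
  rw [h2 hq hg h (j + 1) (by omega) (j + 3) (by omega) hj (Or.inr (by omega)), h4 hq j]

private theorem yd (hq : q ≠ 0) (hg : RelB n g) (h : HB n g q P L v0 v1) (j : ℕ)
    (hj : j + 3 < n) : yo g j (vs g q v0 v1 (j + 2)) = q • vs g q v0 v1 (j + 3) := by
  unfold yo
  rw [show j + 2 = (j + 1) + 1 from rfl, show j + 3 = (j + 1) + 2 from rfl, h4 hq (j + 1),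
    map_smul]
  rw [h2 hq hg h (j + 1 + 2) (by omega) (j + 1) (by omega) (by omega) (Or.inl (by omega))]

private theorem yo_add (j : ℕ) (x y : W) : yo g j (x + y) = yo g j x + yo g j y := by
  simp only [yo, map_add]

private theorem yo_sub (j : ℕ) (x y : W) : yo g j (x - y) = yo g j x - yo g j y := by
  simp only [yo, map_sub]

private theorem yo_smul (j : ℕ) (c : F) (x : W) : yo g j (c • x) = c • yo g j x := by
  simp only [yo, map_smul]

private theorem h3 (hq : q ≠ 0) (hg : RelB n g) (h : HB n g q P L v0 v1) :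
    ∀ j, j + 2 < n → g (j + 2) (g (j + 2) (vs g q v0 v1 (j + 1))) =
      (1 - q) • g (j + 2) (vs g q v0 v1 (j + 1)) + q • vs g q v0 v1 (j + 1) -
      (q ^ 2 * (1 - q) * L) • vs g q v0 v1 (j + 2) := by
  intro j
  induction j with
  | zero =>
    intro _
    have e := h.q1
    have e4 := h4 (g := g) (v0 := v0) (v1 := v1) hq 0
    simp only [Nat.zero_add] at e4 ⊢
    rw [show vs g q v0 v1 1 = v1 from rfl] at e4 ⊢
    rw [e, e4, smul_smul]
    congr 2
    ring
  | succ j ih =>
    intro hj
    have e := congrArg (yo g j) (ih (by omega))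
    rw [yo_sub, yo_add, yo_smul, yo_smul, yo_smul, yb hg j (by omega), yb hg j (by omega),
      yc hq hg h j (by omega), yd hq hg h j (by omega)] at e
    apply cancel hq
    simp only [Nat.add_assoc, Nat.reduceAdd, map_smul] at e ⊢
    rw [e]
    module

private theorem h5 (hq : q ≠ 0) (hg : RelB n g) (h : HB n g q P L v0 v1) :
    ∀ j, j + 2 < n → g (j + 1) (vs g q v0 v1 (j + 2)) - (1 - q) • vs g q v0 v1 (j + 2) =
      g (j + 2) (vs g q v0 v1 (j + 1)) - (1 - q) • vs g q v0 v1 (j + 1) := by
  intro j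
  induction j with
  | zero =>
    intro _
    have e := h.c1
    have e4 := h4 (g := g) (v0 := v0) (v1 := v1) hq 0
    simp only [Nat.zero_add] at e4 ⊢
    rw [show vs g q v0 v1 1 = v1 from rfl] at e4 ⊢
    rw [e4, map_smul] at e
    apply cancel hq
    rw [smul_sub, e]
    module
  | succ j ih =>
    intro hj
    have e := congrArg (yo g j) (ih (by omega))
    rw [yo_sub, yo_sub, yo_smul, yo_smul, yb hg j (by omega), ya hg j (by omega),
      yc hq hg h j (by omega), yd hq hg h j (by omega)] at e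
    apply cancel hq
    simp only [Nat.add_assoc, Nat.reduceAdd, map_smul] at e ⊢
    rw [smul_sub, smul_comm q (1 - q), e, smul_sub, smul_comm q (1 - q)]

end

theorem pHc : SHc := by
  intro F W _ _ _ n hn g q P L v0 v1 hq hg h
  refine ⟨vs g q v0 v1, rfl, rfl, ?_⟩
  constructor
  · exact h.t0
  · intro j hj hjn
    obtain ⟨k, rfl⟩ : ∃ k, j = k + 1 := ⟨j - 1, by omega⟩
    exact h1 hq hg h k hjn
  · intro i j hi hin hjn hij
    exact h2 hq hg h j hjn i hi hin hij
  · intro j hj hjn
    obtain ⟨k, rfl⟩ : ∃ k, j = k + 2 := ⟨j - 2, by omega⟩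
    exact ht hq hg h k hjn
  · intro j hjn
    rcases Nat.eq_zero_or_pos j with rfl | hj
    · simpa [wj, vs] using h.q0
    · obtain ⟨k, rfl⟩ : ∃ k, j = k + 1 := ⟨j - 1, by omega⟩
      rw [wj, if_neg (Nat.succ_ne_zero k), mul_one]
      exact h3 hq hg h k hjn
  · intro j hj hjn
    obtain ⟨k, rfl⟩ : ∃ k, j = k + 1 := ⟨j - 1, by omega⟩
    exact h4 hq k
  · intro j hj hjn
    obtain ⟨k, rfl⟩ : ∃ k, j = k + 1 := ⟨j - 1, by omega⟩
    exact h5 hq hg h k hjn
  · exact h.t1
  · exact h.t02

end Pool.Agent.Lib.MP_97567f_al.U.TB
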