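import Pool.Agent.Lib.MP_97567f_al.U.SpecB

/-!
# MP_97567f_al: type `B`: the universal property
-/

set_option autoImplicit false

namespace Pool.Agent.Lib.MP_97567f_al.U.TB

section vectors

variable {F W : Type} [Field F] [AddCommGroup W] [Module F W]

/-- `Y j (j + 1 + d)` -/
private noncomputable def Yd (g : ℕ → W →ₗ[F] W) (q : F) (v : ℕ → W) (j : ℕ) : ℕ → W
  | 0 => v j
  | d + 1 => q⁻¹ • (g (j + 1 + d) (Yd g q v j d) - (1 - q) • Yd g q v j d)

private noncomputable def Yy (g : ℕ → W →ₗ[F] W) (q : F) (v : ℕ → W) (j k : ℕ) : W :=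
  Yd g q v j (k - (j + 1))

variable {g : ℕ → W →ₗ[F] W} {q P L : F} {v : ℕ → W} {n : ℕ}

private theorem Hu_base (j : ℕ) : Yy g q v j (j + 1) = v j := by
  unfold Yy
  rw [Nat.sub_self]
  rfl

private theorem Hu_succ (hq : q ≠ 0) {j k : ℕ} (h : j + 1 ≤ k) :
    q • Yy g q v j (k + 1) = g k (Yy g q v j k) - (1 - q) • Yy g q v j k := by
  unfold Yy
  have h1 : k + 1 - (j + 1) = (k - (j + 1)) + 1 := by omega
  rw [h1]
  have h2 : j + 1 + (k - (j + 1)) = k := by omega
  show q • q⁻¹ • (g (j + 1 + (k - (j + 1))) (Yd g q v j (k - (j + 1))) -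
    (1 - q) • Yd g q v j (k - (j + 1))) = _
  rw [h2, smul_smul, mul_inv_cancel₀ hq, one_smul]

private theorem Hu_can {q : F} (hq : q ≠ 0) {x y : W} (h : q • x = q • y) : x = y :=
  smul_right_injective W hq h

/-- (b) -/
private theorem Hu_b (hq : q ≠ 0) {j k : ℕ} (h : j + 1 ≤ k) :
    g k (Yy g q v j k) = q • Yy g q v j (k + 1) + (1 - q) • Yy g q v j k := by
  rw [Hu_succ hq h]
  module

private theorem Hu_step (hq : q ≠ 0) (A : W →ₗ[F] W) {j j' k : ℕ} (m : ℕ) {α β γ : F}
    (hA : ∀ x, A (g k x) = g k (A x)) (hj : j + 1 ≤ k) (hj' : j' + 1 ≤ k)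
    (hm : γ • g k (v m) = γ • v m)
    (h : A (Yy g q v j k) = α • Yy g q v j k + β • Yy g q v j' k + γ • v m) :
    A (Yy g q v j (k + 1)) = α • Yy g q v j (k + 1) + β • Yy g q v j' (k + 1) + γ • v m := by
  refine Hu_can hq ?_
  have e1 : q • (α • Yy g q v j (k + 1) + β • Yy g q v j' (k + 1) + γ • v m) =
      α • (q • Yy g q v j (k + 1)) + β • (q • Yy g q v j' (k + 1)) + (q * γ) • v m := by
    module
  rw [← map_smul, Hu_succ hq hj, map_sub, map_smul, hA, h, e1, Hu_succ hq hj, Hu_succ hq hj']
  simp only [map_add, map_smul]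
  rw [hm]
  module

/-- (a) -/
private theorem Hu_a (hq : q ≠ 0) (hR : RelB n g) (hC : HC n g q P L v) {j k : ℕ}
    (h : j + 1 ≤ k) : ∀ i, k < i → i < n → g i (Yy g q v j k) = Yy g q v j k := by
  induction k, h using Nat.le_induction with
  | base =>
    intro i h1 h2
    rw [Hu_base]
    exact hC.h2 i j (by omega) h2 (by omega) (Or.inr (by omega))
  | succ k hk ih =>
    intro i h1 h2
    have h3 := Hu_step hq (g i) (j' := j) (α := 1) (β := 0) (γ := 0) 0
      (fun x => (hR.co k i (by omega) h2 x).symm) hk hk (by rw [zero_smul, zero_smul])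
      (by rw [ih i (by omega) h2]; module)
    rw [h3]
    module

/-- (c), quadratic relation -/
private theorem Hu_c (hq : q ≠ 0) (hR : RelB n g) (hC : HC n g q P L v) {j k : ℕ}
    (h : j + 1 ≤ k) : k < n → g k (g k (Yy g q v j k)) = (1 - q) • g k (Yy g q v j k) +
      q • Yy g q v j k - (q ^ 2 * (1 - q) * L * wj P j) • v k := by
  induction k, h using Nat.le_induction with
  | base =>
    intro h1
    rw [Hu_base]
    exact hC.h3 j h1
  | succ k hk ih =>
    intro h1
    have h2 := ih (by omega)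
    have h3 := congrArg (fun x => g k (g (k + 1) x)) h2
    simp only [map_sub, map_add, map_smul] at h3
    have hbr := hR.br k (by omega) h1
    have ha := Hu_a hq hR hC hk (k + 1) (by omega) h1
    rw [hbr, hbr, ha, Hu_b hq hk, hC.h4 k (by omega) h1] at h3
    simp only [map_add, map_smul] at h3
    rw [ha, ha] at h3
    refine Hu_can hq ?_
    rw [← sub_eq_zero] at h3 ⊢
    rw [← h3]
    module

/-- (c) -/
private theorem Hu_c' (hq : q ≠ 0) (hR : RelB n g) (hC : HC n g q P L v) {j k : ℕ}
    (h : j + 1 ≤ k) (h1 : k < n) : g k (Yy g q v j (k + 1)) = Yy g q v j k -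
      (q * (1 - q) * L * wj P j) • v k := by
  refine Hu_can hq ?_
  rw [← map_smul, Hu_succ hq h, map_sub, map_smul, Hu_c hq hR hC h h1]
  module

/-- (d) -/
private theorem Hu_d (hq : q ≠ 0) (hR : RelB n g) (hC : HC n g q P L v) {j i k : ℕ}
    (h : j < i) (hk : i + 2 ≤ k) : k ≤ n → g i (Yy g q v j k) = Yy g q v j k +
      ((1 - q) ^ 2 * L * wj P j) • v i := by
  induction k, hk using Nat.le_induction with
  | base =>
    intro h1
    have hbr := hR.br i (by omega) (by omega)
    have ha := Hu_a hq hR hC (j := j) (k := i) (by omega) (i + 1) (by omega) (by omega)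
    have hb := Hu_b (g := g) (v := v) hq (j := j) (k := i) (by omega)
    have hb' := Hu_b (g := g) (v := v) hq (j := j) (k := i + 1) (by omega)
    have h2 : g i (g (i + 1) (Yy g q v j (i + 1))) =
        q • Yy g q v j (i + 2) + (1 - q) • Yy g q v j i := by
      refine Hu_can hq ?_
      rw [← map_smul, ← map_smul, Hu_succ hq (by omega : j + 1 ≤ i)]
      simp only [map_sub, map_smul]
      rw [hbr, ha, hb]
      simp only [map_add, map_smul]
      rw [ha, hb']
      module
    refine Hu_can hq ?_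
    rw [← map_smul, Hu_succ hq (by omega : j + 1 ≤ i + 1), map_sub, map_smul, h2,
      Hu_c' hq hR hC (by omega) (by omega)]
    module
  | succ k hk ih =>
    intro h1
    have h3 := Hu_step hq (g i) (j := j) (k := k) (j' := j) (α := 1) (β := 0)
      (γ := (1 - q) ^ 2 * L * wj P j) i
      (fun x => (hR.co i k hk (by omega) x)) (by omega) (by omega)
      (by rw [hC.h2 k i (by omega) (by omega) (by omega) (Or.inr hk)])
      (by rw [ih (by omega)]; module)
    rw [h3]
    module

/-- (e) -/
private theorem Hu_e (hq : q ≠ 0) (hR : RelB n g) (hC : HC n g q P L v) {j k : ℕ}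
    (h : 1 ≤ j) (hk : j + 2 ≤ k) : k ≤ n → g j (Yy g q v j k) = Yy g q v (j + 1) k -
      (q * (1 - q) * L) • v j := by
  induction k, hk using Nat.le_induction with
  | base =>
    intro h1
    refine Hu_can hq ?_
    rw [← map_smul, Hu_succ hq (by omega : j + 1 ≤ j + 1), map_sub, map_smul, Hu_base, Hu_base,
      hC.h4 j h (by omega), hC.h1 j h (by omega)]
    module
  | succ k hk ih =>
    intro h1
    have h3 := Hu_step hq (g j) (j := j) (k := k) (j' := j + 1) (α := 0) (β := 1)
      (γ := -(q * (1 - q) * L)) j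
      (fun x => (hR.co j k hk (by omega) x)) (by omega) (by omega)
      (by rw [hC.h2 k j (by omega) (by omega) (by omega) (Or.inr hk)])
      (by rw [ih (by omega)]; module)
    rw [h3]
    module

/-- (f) -/
private theorem Hu_f (hq : q ≠ 0) (hR : RelB n g) (hC : HC n g q P L v) {i k : ℕ}
    (h : 1 ≤ i) (hk : i + 2 ≤ k) : k ≤ n → g i (Yy g q v (i + 1) k) = q • Yy g q v i k +
      (1 - q) • Yy g q v (i + 1) k := by
  induction k, hk using Nat.le_induction with
  | base =>
    intro h1
    rw [Hu_base, Hu_succ hq (by omega : i + 1 ≤ i + 1), Hu_base, ← hC.h5 i h (by omega)]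
    module
  | succ k hk ih =>
    intro h1
    have h3 := Hu_step hq (g i) (j := i + 1) (k := k) (j' := i) (α := 1 - q) (β := q)
      (γ := 0) i
      (fun x => (hR.co i k hk (by omega) x)) (by omega) (by omega)
      (by rw [zero_smul, zero_smul])
      (by rw [ih (by omega)]; module)
    rw [h3]
    module

/-- (g) -/
private theorem Hu_g (hq : q ≠ 0) (hR : RelB n g) (hC : HC n g q P L v) {i j k : ℕ}
    (h : 1 ≤ i) (hij : i + 2 ≤ j) (hk : j + 1 ≤ k) : k ≤ n → g i (Yy g q v j k) =
      Yy g q v j k := by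
  induction k, hk using Nat.le_induction with
  | base =>
    intro h1
    rw [Hu_base]
    exact hC.h2 i j h (by omega) (by omega) (Or.inl hij)
  | succ k hk ih =>
    intro h1
    have h3 := Hu_step hq (g i) (j := j) (k := k) (j' := j) (α := 1) (β := 0)
      (γ := 0) i
      (fun x => (hR.co i k (by omega) (by omega) x)) (by omega) (by omega)
      (by rw [zero_smul, zero_smul])
      (by rw [ih (by omega)]; module)
    rw [h3]
    module

/-- (h), `j ≥ 2` -/
private theorem Hu_h2 (hq : q ≠ 0) (hR : RelB n g) (hC : HC n g q P L v) {j k : ℕ}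
    (h : 2 ≤ j) (hk : j + 1 ≤ k) : k ≤ n → g 0 (Yy g q v j k) = Yy g q v j k := by
  induction k, hk using Nat.le_induction with
  | base =>
    intro h1
    rw [Hu_base]
    exact hC.ht j h (by omega)
  | succ k hk ih =>
    intro h1
    have h3 := Hu_step hq (g 0) (j := j) (k := k) (j' := j) (α := 1) (β := 0)
      (γ := 0) 0
      (fun x => (hR.co 0 k (by omega) (by omega) x)) (by omega) (by omega)
      (by rw [zero_smul, zero_smul])
      (by rw [ih (by omega)]; module)
    rw [h3]
    module

/-- (h), `j = 1` -/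
private theorem Hu_h1 (hq : q ≠ 0) (hR : RelB n g) (hC : HC n g q P L v) {k : ℕ}
    (hk : 2 ≤ k) : k ≤ n → g 0 (Yy g q v 1 k) = (1 - q + q * P) • Yy g q v 1 k +
      q • Yy g q v 0 k - (q * P * L) • v 0 := by
  induction k, hk using Nat.le_induction with
  | base =>
    intro h1
    have e1 : Yy g q v 1 2 = v 1 := Hu_base 1
    have e2 : q • Yy g q v 0 2 = g 1 (v 0) - (1 - q) • v 0 := by
      have e3 := Hu_succ (g := g) (v := v) hq (j := 0) (k := 1) (by omega)
      have e4 : Yy g q v 0 1 = v 0 := Hu_base 0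
      rw [e4] at e3
      exact e3
    rw [e1, e2]
    exact hC.h6
  | succ k hk ih =>
    intro h1
    have h3 := Hu_step hq (g 0) (j := 1) (k := k) (j' := 0) (α := 1 - q + q * P)
      (β := q) (γ := -(q * P * L)) 0
      (fun x => (hR.co 0 k (by omega) (by omega) x)) (by omega) (by omega)
      (by rw [hC.h2 k 0 (by omega) (by omega) (by omega) (Or.inr (by omega))])
      (by rw [ih (by omega)]; module)
    rw [h3]
    module

/-- (h), `j = 0` -/
private theorem Hu_h0 (hq : q ≠ 0) (hR : RelB n g) (hC : HC n g q P L v) {k : ℕ}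
    (hk : 2 ≤ k) : k ≤ n → g 0 (Yy g q v 0 k) = q • Yy g q v 0 k +
      ((1 - q) * (1 - P)) • Yy g q v 1 k - ((1 - q) * q * P ^ 2 * L ^ 2) • v 0 := by
  induction k, hk using Nat.le_induction with
  | base =>
    intro h1
    have e1 : Yy g q v 1 2 = v 1 := Hu_base 1
    have e2 : q • Yy g q v 0 2 = g 1 (v 0) - (1 - q) • v 0 := by
      have e3 := Hu_succ (g := g) (v := v) hq (j := 0) (k := 1) (by omega)
      have e4 : Yy g q v 0 1 = v 0 := Hu_base 0
      rw [e4] at e3
      exact e3
    refine Hu_can hq ?_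
    rw [← map_smul, e2, hC.h7, ← e2, e1]
    module
  | succ k hk ih =>
    intro h1
    have h3 := Hu_step hq (g 0) (j := 0) (k := k) (j' := 1) (α := q)
      (β := (1 - q) * (1 - P)) (γ := -((1 - q) * q * P ^ 2 * L ^ 2)) 0
      (fun x => (hR.co 0 k (by omega) (by omega) x)) (by omega) (by omega)
      (by rw [hC.h2 k 0 (by omega) (by omega) (by omega) (Or.inr (by omega))])
      (by rw [ih (by omega)]; module)
    rw [h3]
    module

end vectors

theorem pHu (h1 : SBa) : SHu := by
  intro F W _ _ _ n hn g q P L v hq hR hC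
  obtain ⟨hs, ht, -, -, hsum⟩ := h1 F n q P L
  let Θ : (Pr n → F) →ₗ[F] W :=
    ∑ b : Pr n, (LinearMap.proj b).smulRight (Yy g q v b.1.1 b.1.2)
  have hΘ : ∀ y, Θ y = ∑ b : Pr n, y b • Yy g q v b.1.1 b.1.2 := by
    intro y
    simp only [Θ, LinearMap.sum_apply, LinearMap.smulRight_apply, LinearMap.proj_apply]
  have hΘy : ∀ j k, j < k → k ≤ n → Θ (yv n j k) = Yy g q v j k := by
    intro j k hjk hk
    rw [hΘ, Finset.sum_eq_single (⟨(⟨j, by omega⟩, ⟨k, by omega⟩), hjk⟩ : Pr n)]
    · rw [yv, if_pos ⟨rfl, rfl⟩, one_smul]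
    · intro b _ hb
      rw [yv, if_neg, zero_smul]
      rintro ⟨h2, h3⟩
      exact hb (Subtype.ext (Prod.ext (Fin.ext h2) (Fin.ext h3)))
    · intro h2
      exact absurd (Finset.mem_univ _) h2
  refine ⟨Θ, ?_, ?_⟩
  · rw [hΘy 0 1 (by omega) (by omega)]
    exact Hu_base 0
  intro i hi y
  have hkey : ∀ j k, j < k → k ≤ n →
      Θ ((bm n q P L i).mulVec (yv n j k)) = g i (Θ (yv n j k)) := by
    intro j k hjk hk
    rw [hΘy j k hjk hk]
    unfold bm
    by_cases hi0 : i = 0
    · subst hi0
      rw [if_pos rfl, ht j k hjk hk]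
      unfold timg
      by_cases c1 : j = 0 ∧ k = 1
      · obtain ⟨rfl, rfl⟩ := c1
        rw [if_pos ⟨rfl, rfl⟩, map_smul, hΘy 0 1 (by omega) (by omega)]
        have e4 : Yy g q v 0 1 = v 0 := Hu_base 0
        rw [e4]
        exact hC.h0.symm
      · rw [if_neg c1]
        by_cases c2 : j = 0
        · subst c2
          have hk2 : 2 ≤ k := by
            by_contra h2
            exact c1 ⟨rfl, by omega⟩
          rw [if_pos rfl]
          simp only [map_sub, map_add, map_smul]
          rw [hΘy 0 k (by omega) hk, hΘy 1 k (by omega) hk, hΘy 0 1 (by omega) (by omega),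
            Hu_h0 hq hR hC hk2 hk]
          have e4 : Yy g q v 0 1 = v 0 := Hu_base 0
          rw [e4]
        · rw [if_neg c2]
          by_cases c3 : j = 1
          · subst c3
            rw [if_pos rfl]
            simp only [map_sub, map_add, map_smul]
            rw [hΘy 0 k (by omega) hk, hΘy 1 k (by omega) hk, hΘy 0 1 (by omega) (by omega),
              Hu_h1 hq hR hC (by omega) hk]
            have e4 : Yy g q v 0 1 = v 0 := Hu_base 0
            rw [e4]
          · rw [if_neg c3, hΘy j k hjk hk, Hu_h2 hq hR hC (by omega) (by omega) hk]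
    · rw [if_neg hi0, hs i j k hjk hk]
      have hvi : Θ (yv n i (i + 1)) = v i := by
        rw [hΘy i (i + 1) (by omega) (by omega)]
        exact Hu_base i
      unfold simg
      by_cases c1 : j = i ∧ k = i + 1
      · obtain ⟨rfl, rfl⟩ := c1
        rw [if_pos ⟨rfl, rfl⟩, map_smul, hvi, Hu_base]
        exact (hC.h1 j (by omega) hi).symm
      rw [if_neg c1]
      by_cases c2 : j = i + 1
      · subst c2
        rw [if_pos rfl]
        simp only [map_add, map_smul]
        rw [hΘy i k (by omega) hk, hΘy (i + 1) k hjk hk,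
          Hu_f hq hR hC (by omega) (by omega) hk]
      rw [if_neg c2]
      by_cases c3 : j = i
      · subst c3
        rw [if_pos rfl]
        have hk2 : j + 2 ≤ k := by
          by_contra h2
          exact c1 ⟨rfl, by omega⟩
        simp only [map_sub, map_smul]
        rw [hvi, hΘy (j + 1) k (by omega) hk, Hu_e hq hR hC (by omega) hk2 hk]
      rw [if_neg c3]
      by_cases c4 : k = i
      · subst c4
        rw [if_pos rfl]
        simp only [map_add, map_smul]
        rw [hΘy j (k + 1) (by omega) (by omega), hΘy j k hjk hk, Hu_b hq (by omega)]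
      rw [if_neg c4]
      by_cases c5 : k = i + 1
      · subst c5
        rw [if_pos rfl]
        simp only [map_sub, map_smul]
        rw [hvi, hΘy j i (by omega) (by omega), Hu_c' hq hR hC (by omega) hi]
      rw [if_neg c5]
      by_cases c6 : j < i ∧ i + 1 < k
      · rw [if_pos c6]
        simp only [map_add, map_smul]
        rw [hvi, hΘy j k hjk hk, Hu_d hq hR hC c6.1 (by omega) hk]
      rw [if_neg c6, hΘy j k hjk hk]
      by_cases c7 : k < i
      · rw [Hu_a hq hR hC (by omega) i c7 hi]
      · rw [Hu_g hq hR hC (by omega) (by omega) (by omega) hk]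
  have h2 := hsum y
  rw [h2, Matrix.mulVec_sum]
  simp only [Matrix.mulVec_smul, map_sum, map_smul]
  refine Finset.sum_congr rfl fun b _ => ?_
  rw [hkey b.1.1 b.1.2 b.2 (by have := b.1.2.2; omega)]

end Pool.Agent.Lib.MP_97567f_al.U.TB
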