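import Pool.Agent.Lib.MP_97567f_al.U.SpecB

/-!
# MP_97567f_al: module U/TB/Ka (the rank three part of type `A 2`)
-/

set_option autoImplicit false

namespace Pool.Agent.Lib.MP_97567f_al.U.TB

open Polynomial

section abs

variable {K W : Type} [Field K] [AddCommGroup W] [Module K W]

/-- the cubic relation -/
private def Ka_Cub (A B : W →ₗ[K] W) (q : K) (u : W) : Prop :=
  A (B (A (B (A (B u))))) = (1 - q) • A (B (A (B u))) + (q * (1 - q)) • A (B u) + q ^ 2 • u

private theorem Ka_tri1 {A B : W →ₗ[K] W} {q : K} {u1 u2 u3 : W}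
    (a1 : A u1 = q • u2 + (1 - q) • u1) (a2 : A u2 = u1) (a3 : A u3 = u3)
    (b1 : B u1 = u1) (b2 : B u2 = q • u3 + (1 - q) • u2) (b3 : B u3 = u2) :
    Ka_Cub A B q u1 ∧ Ka_Cub A B q u2 ∧ Ka_Cub A B q u3 := by
  refine ⟨?_, ?_, ?_⟩ <;> unfold Ka_Cub
  · simp only [a1, a2, a3, b1, b2, b3, map_add, map_smul]
    module
  · simp only [a1, a2, a3, b1, b2, b3, map_add, map_smul]
    module
  · simp only [a1, a2, a3, b1, b2, b3, map_add, map_smul]
    module

private theorem Ka_tri2 {A B : W →ₗ[K] W} {q : K} {u1 u2 u3 : W}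
    (a1 : A u1 = u2) (a2 : A u2 = q • u1 + (1 - q) • u2) (a3 : A u3 = u3)
    (b1 : B u1 = u1) (b2 : B u2 = u3) (b3 : B u3 = q • u2 + (1 - q) • u3) :
    Ka_Cub A B q u1 ∧ Ka_Cub A B q u2 ∧ Ka_Cub A B q u3 := by
  refine ⟨?_, ?_, ?_⟩ <;> unfold Ka_Cub
  · simp only [a1, a2, a3, b1, b2, b3, map_add, map_smul]
    module
  · simp only [a1, a2, a3, b1, b2, b3, map_add, map_smul]
    module
  · simp only [a1, a2, a3, b1, b2, b3, map_add, map_smul]
    module

private theorem Ka_fix {A B : W →ₗ[K] W} {q : K} {u : W} (a : A u = u) (b : B u = u) :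
    Ka_Cub A B q u := by
  unfold Ka_Cub
  simp only [a, b]
  module

private theorem Ka_final {A B : W →ₗ[K] W} {q z : K} (h : ∀ u, Ka_Cub A B q u)
    (h1 : z ≠ 1) (h3 : z ≠ q ^ 3) {w : W} (hw : A (B (A (B (A (B w))))) = z • w) : w = 0 := by
  have k0 := h w
  have k1 := h (A (B w))
  have k2 := h (A (B (A (B w))))
  have k3 := h (A (B (A (B (A (B w))))))
  unfold Ka_Cub at k0 k1 k2 k3
  have e6 : A (B (A (B (A (B (A (B (A (B (A (B w))))))))))) = (z * z) • w := by
    rw [hw]
    simp only [map_smul]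
    rw [hw, smul_smul]
  have e : ((z - 1) * (z - q ^ 3)) • w = 0 := by
    have e1 : A (B (A (B (A (B (A (B (A (B (A (B w))))))))))) -
        (1 + q ^ 3) • A (B (A (B (A (B w))))) + q ^ 3 • w = 0 := by
      linear_combination (norm := module) k3 + (1 - q) • k2 + (1 - q) • k1 - q • k0
    rw [e6, hw] at e1
    rw [← e1]
    module
  rcases smul_eq_zero.1 e with h4 | h4
  · exfalso
    rcases mul_eq_zero.1 h4 with h5 | h5
    · exact h1 (sub_eq_zero.1 h5)
    · exact h3 (sub_eq_zero.1 h5)
  · exact h4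

end abs

/-- **The rank three part of type `A 2`.** -/
theorem pKa (h1 : SBa) : SKa := by
  intro n hn K _ q P L hG
  classical
  obtain ⟨ha, -, -, -, hexp⟩ := h1 K n q P L
  set A := (sm n q P L 1).mulVecLin with hA
  set B := (sm n q P L 2).mulVecLin with hB
  set T : Submodule K (Pr n → K) :=
    Submodule.span K (Set.range ![yv n (R := K) 1 2, yv n 1 3, yv n 2 3]) with hT
  have t12 : yv n (R := K) 1 2 ∈ T := Submodule.subset_span ⟨0, rfl⟩
  have t13 : yv n (R := K) 1 3 ∈ T := Submodule.subset_span ⟨1, rfl⟩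
  have t23 : yv n (R := K) 2 3 ∈ T := Submodule.subset_span ⟨2, rfl⟩
  have hspan : ∀ L : (Pr n → K) →ₗ[K] (Pr n → K), L (yv n 1 2) ∈ T →
      L (yv n 1 3) ∈ T → L (yv n 2 3) ∈ T → T ≤ T.comap L := by
    intro L a b c
    rw [hT, Submodule.span_le]
    rintro _ ⟨i, rfl⟩
    fin_cases i
    · exact a
    · exact b
    · exact c
  have hAT : T ≤ T.comap A := by
    refine hspan A ?_ ?_ ?_
    · rw [hA, Matrix.mulVecLin_apply, ha 1 1 2 (by omega) (by omega), simg,
        if_pos (by omega)]
      exact T.smul_mem _ t12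
    · rw [hA, Matrix.mulVecLin_apply, ha 1 1 3 (by omega) (by omega), simg,
        if_neg (by omega), if_neg (by omega), if_pos (by omega)]
      exact sub_mem t23 (T.smul_mem _ t12)
    · rw [hA, Matrix.mulVecLin_apply, ha 1 2 3 (by omega) (by omega), simg,
        if_neg (by omega), if_pos (by omega)]
      exact add_mem (T.smul_mem _ t13) (T.smul_mem _ t23)
  have hBT : T ≤ T.comap B := by
    refine hspan B ?_ ?_ ?_
    · rw [hB, Matrix.mulVecLin_apply, ha 2 1 2 (by omega) (by omega), simg,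
        if_neg (by omega), if_neg (by omega), if_neg (by omega), if_pos (by omega)]
      exact add_mem (T.smul_mem _ t13) (T.smul_mem _ t12)
    · rw [hB, Matrix.mulVecLin_apply, ha 2 1 3 (by omega) (by omega), simg,
        if_neg (by omega), if_neg (by omega), if_neg (by omega), if_neg (by omega),
        if_pos (by omega)]
      exact sub_mem t12 (T.smul_mem _ t23)
    · rw [hB, Matrix.mulVecLin_apply, ha 2 2 3 (by omega) (by omega), simg,
        if_pos (by omega)]
      exact T.smul_mem _ t23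
  set A' : ((Pr n → K) ⧸ T) →ₗ[K] ((Pr n → K) ⧸ T) := T.mapQ T A hAT with hA'
  set B' : ((Pr n → K) ⧸ T) →ₗ[K] ((Pr n → K) ⧸ T) := T.mapQ T B hBT with hB'
  have aA : ∀ x, A' (T.mkQ x) = T.mkQ ((sm n q P L 1).mulVec x) := fun x => rfl
  have aB : ∀ x, B' (T.mkQ x) = T.mkQ ((sm n q P L 2).mulVec x) := fun x => rfl
  have z12 : T.mkQ (yv n (R := K) 1 2) = 0 := by
    rw [Submodule.mkQ_apply, Submodule.Quotient.mk_eq_zero]
    exact t12
  have z13 : T.mkQ (yv n (R := K) 1 3) = 0 := by
    rw [Submodule.mkQ_apply, Submodule.Quotient.mk_eq_zero]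
    exact t13
  have z23 : T.mkQ (yv n (R := K) 2 3) = 0 := by
    rw [Submodule.mkQ_apply, Submodule.Quotient.mk_eq_zero]
    exact t23
  have hzero : Ka_Cub A' B' q 0 := by
    unfold Ka_Cub
    simp
  -- the triple `y 0 1, y 0 2, y 0 3`
  have c0 : Ka_Cub A' B' q (T.mkQ (yv n 0 1)) ∧ Ka_Cub A' B' q (T.mkQ (yv n 0 2)) ∧
      Ka_Cub A' B' q (T.mkQ (yv n 0 3)) := by
    refine Ka_tri1 ?_ ?_ ?_ ?_ ?_ ?_
    · rw [aA, ha 1 0 1 (by omega) (by omega), simg, if_neg (by omega), if_neg (by omega),
        if_neg (by omega), if_pos (by omega), map_add, map_smul, map_smul]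
    · rw [aA, ha 1 0 2 (by omega) (by omega), simg, if_neg (by omega), if_neg (by omega),
        if_neg (by omega), if_neg (by omega), if_pos (by omega), map_sub, map_smul, z12, smul_zero,
        sub_zero]
    · rw [aA, ha 1 0 3 (by omega) (by omega), simg, if_neg (by omega), if_neg (by omega),
        if_neg (by omega), if_neg (by omega), if_neg (by omega), if_pos (by omega), map_add,
        map_smul, z12, smul_zero, add_zero]
    · rw [aB, ha 2 0 1 (by omega) (by omega), simg, if_neg (by omega), if_neg (by omega),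
        if_neg (by omega), if_neg (by omega), if_neg (by omega), if_neg (by omega)]
    · rw [aB, ha 2 0 2 (by omega) (by omega), simg, if_neg (by omega), if_neg (by omega),
        if_neg (by omega), if_pos (by omega), map_add, map_smul, map_smul]
    · rw [aB, ha 2 0 3 (by omega) (by omega), simg, if_neg (by omega), if_neg (by omega),
        if_neg (by omega), if_neg (by omega), if_pos (by omega), map_sub, map_smul, z23, smul_zero,
        sub_zero]
  -- the triples `y 1 k, y 2 k, y 3 k`
  have c1 : ∀ k, 4 ≤ k → k ≤ n → Ka_Cub A' B' q (T.mkQ (yv n 1 k)) ∧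
      Ka_Cub A' B' q (T.mkQ (yv n 2 k)) ∧ Ka_Cub A' B' q (T.mkQ (yv n 3 k)) := by
    intro k hk hkn
    refine Ka_tri2 ?_ ?_ ?_ ?_ ?_ ?_
    · rw [aA, ha 1 1 k (by omega) (by omega), simg, if_neg (by omega), if_neg (by omega),
        if_pos (by omega), map_sub, map_smul, z12, smul_zero, sub_zero]
    · rw [aA, ha 1 2 k (by omega) (by omega), simg, if_neg (by omega), if_pos (by omega),
        map_add, map_smul, map_smul]
    · rw [aA, ha 1 3 k (by omega) (by omega), simg, if_neg (by omega), if_neg (by omega),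
        if_neg (by omega), if_neg (by omega), if_neg (by omega), if_neg (by omega)]
    · rw [aB, ha 2 1 k (by omega) (by omega), simg, if_neg (by omega), if_neg (by omega),
        if_neg (by omega), if_neg (by omega), if_neg (by omega), if_pos (by omega), map_add,
        map_smul, z23, smul_zero, add_zero]
    · rw [aB, ha 2 2 k (by omega) (by omega), simg, if_neg (by omega), if_neg (by omega),
        if_pos (by omega), map_sub, map_smul, z23, smul_zero, sub_zero]
    · rw [aB, ha 2 3 k (by omega) (by omega), simg, if_neg (by omega), if_pos (by omega),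
        map_add, map_smul, map_smul]
  have hall : ∀ j k, j < k → k ≤ n → Ka_Cub A' B' q (T.mkQ (yv n j k)) := by
    intro j k hjk hkn
    rcases (by omega : (j = 0 ∧ k = 1) ∨ (j = 0 ∧ k = 2) ∨ (j = 0 ∧ k = 3) ∨ (j = 0 ∧ 4 ≤ k) ∨
      (j = 1 ∧ k = 2) ∨ (j = 1 ∧ k = 3) ∨ (j = 2 ∧ k = 3) ∨ (j = 1 ∧ 4 ≤ k) ∨ (j = 2 ∧ 4 ≤ k) ∨
      (j = 3 ∧ 4 ≤ k) ∨ 4 ≤ j) with h | h | h | h | h | h | h | h | h | h | h
    · rw [h.1, h.2]
      exact c0.1
    · rw [h.1, h.2]
      exact c0.2.1
    · rw [h.1, h.2]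
      exact c0.2.2
    · rw [h.1]
      refine Ka_fix ?_ ?_
      · rw [aA, ha 1 0 k (by omega) (by omega), simg, if_neg (by omega), if_neg (by omega),
          if_neg (by omega), if_neg (by omega), if_neg (by omega), if_pos (by omega), map_add,
          map_smul, z12, smul_zero, add_zero]
      · rw [aB, ha 2 0 k (by omega) (by omega), simg, if_neg (by omega), if_neg (by omega),
          if_neg (by omega), if_neg (by omega), if_neg (by omega), if_pos (by omega), map_add,
          map_smul, z23, smul_zero, add_zero]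
    · rw [h.1, h.2, z12]
      exact hzero
    · rw [h.1, h.2, z13]
      exact hzero
    · rw [h.1, h.2, z23]
      exact hzero
    · rw [h.1]
      exact (c1 k h.2 hkn).1
    · rw [h.1]
      exact (c1 k h.2 hkn).2.1
    · rw [h.1]
      exact (c1 k h.2 hkn).2.2
    · refine Ka_fix ?_ ?_
      · rw [aA, ha 1 j k (by omega) (by omega), simg, if_neg (by omega), if_neg (by omega),
          if_neg (by omega), if_neg (by omega), if_neg (by omega), if_neg (by omega)]
      · rw [aB, ha 2 j k (by omega) (by omega), simg, if_neg (by omega), if_neg (by omega),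
          if_neg (by omega), if_neg (by omega), if_neg (by omega), if_neg (by omega)]
  have hcub : ∀ u, Ka_Cub A' B' q u := by
    intro u
    obtain ⟨v, rfl⟩ := T.mkQ_surjective u
    rw [hexp v, map_sum]
    unfold Ka_Cub
    simp only [map_sum, map_smul, Finset.smul_sum]
    rw [← Finset.sum_add_distrib, ← Finset.sum_add_distrib]
    refine Finset.sum_congr rfl fun b _ => ?_
    have k := hall b.1.1 b.1.2 b.2 (by have := b.1.2.2; omega)
    unfold Ka_Cub at k
    rw [k]
    module
  have hker : LinearMap.ker (((sm n q P L 1 * sm n q P L 2) ^ 3 -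
        (q ^ 6 * L ^ 2) • (1 : Matrix (Pr n) (Pr n) K)).mulVecLin) ≤ T := by
    intro v hv
    rw [LinearMap.mem_ker, Matrix.mulVecLin_apply, Matrix.sub_mulVec, Matrix.smul_mulVec,
      Matrix.one_mulVec, sub_eq_zero] at hv
    have k1 : A' (B' (A' (B' (A' (B' (T.mkQ v)))))) = (q ^ 6 * L ^ 2) • T.mkQ v := by
      simp only [aA, aB]
      rw [← map_smul, ← hv]
      simp only [pow_succ, pow_zero, one_mul, ← Matrix.mulVec_mulVec]
    have k2 := Ka_final hcub hG.a1 hG.aq k1
    rwa [Submodule.mkQ_apply, Submodule.Quotient.mk_eq_zero] at k2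
  refine (Submodule.finrank_mono hker).trans ?_
  have k := finrank_range_le_card (R := K) ![yv n (R := K) 1 2, yv n 1 3, yv n 2 3]
  rw [Fintype.card_fin] at k
  exact k

end Pool.Agent.Lib.MP_97567f_al.U.TB
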