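import Pool.Agent.Lib.MP_97567f_al.U.SpecB

/-!
# MP_97567f_al: module U/TB/Kb (the rank three part of type `B 2`)
-/

set_option autoImplicit false

namespace Pool.Agent.Lib.MP_97567f_al.U.TB

open Polynomial

section abs

variable {K W : Type} [Field K] [AddCommGroup W] [Module K W]

/-- the cubic relation -/
private def Kb_Cub (A B : W →ₗ[K] W) (c : K) (u : W) : Prop :=
  A (B (A (B (A (B u))))) = A (B (A (B u))) + c • A (B u) - c • u

private theorem Kb_tri {A B : W →ₗ[K] W} {q P : K} {u0 u1 u2 : W}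
    (a0 : A u0 = q • u0 + ((1 - q) * (1 - P)) • u1)
    (a1 : A u1 = (1 - q + q * P) • u1 + q • u0) (a2 : A u2 = u2)
    (b0 : B u0 = u0) (b1 : B u1 = u2) (b2 : B u2 = q • u1 + (1 - q) • u2) :
    Kb_Cub A B (q ^ 2 * P) u0 ∧ Kb_Cub A B (q ^ 2 * P) u1 ∧ Kb_Cub A B (q ^ 2 * P) u2 := by
  refine ⟨?_, ?_, ?_⟩ <;> unfold Kb_Cub
  · simp only [a0, a1, a2, b0, b1, b2, map_add, map_smul]
    module
  · simp only [a0, a1, a2, b0, b1, b2, map_add, map_smul]
    module
  · simp only [a0, a1, a2, b0, b1, b2, map_add, map_smul]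
    module

private theorem Kb_fix {A B : W →ₗ[K] W} {c : K} {u : W} (a : A u = u) (b : B u = u) :
    Kb_Cub A B c u := by
  unfold Kb_Cub
  simp only [a, b]
  module

private theorem Kb_final {A B : W →ₗ[K] W} {c z : K} (h : ∀ u, Kb_Cub A B c u)
    (h1 : z ≠ 1) (h3 : z ≠ c) {w : W} (hw : A (B (A (B w))) = z • w) : w = 0 := by
  have k0 := h w
  have k1 := h (A (B w))
  unfold Kb_Cub at k0 k1
  have e4 : A (B (A (B (A (B (A (B w))))))) = (z * z) • w := by
    rw [hw]
    simp only [map_smul]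
    rw [hw, smul_smul]
  have e : ((z - 1) * (z - c)) • w = 0 := by
    have e1 : A (B (A (B (A (B (A (B w))))))) - (1 + c) • A (B (A (B w))) + c • w = 0 := by
      linear_combination (norm := module) k1 + k0
    rw [e4, hw] at e1
    rw [← e1]
    module
  rcases smul_eq_zero.1 e with h4 | h4
  · exfalso
    rcases mul_eq_zero.1 h4 with h5 | h5
    · exact h1 (sub_eq_zero.1 h5)
    · exact h3 (sub_eq_zero.1 h5)
  · exact h4

end abs

/-- **The rank three part of type `B 2`.** -/
theorem pKb (h1 : SBa) : SKb := by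
  intro n hn K _ q P L hG
  classical
  obtain ⟨ha, hb, -, -, hexp⟩ := h1 K n q P L
  set A := (tm n q P L).mulVecLin with hA
  set B := (sm n q P L 1).mulVecLin with hB
  set T : Submodule K (Pr n → K) :=
    Submodule.span K (Set.range ![yv n (R := K) 0 1, yv n 0 2, yv n 1 2]) with hT
  have t01 : yv n (R := K) 0 1 ∈ T := Submodule.subset_span ⟨0, rfl⟩
  have t02 : yv n (R := K) 0 2 ∈ T := Submodule.subset_span ⟨1, rfl⟩
  have t12 : yv n (R := K) 1 2 ∈ T := Submodule.subset_span ⟨2, rfl⟩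
  have hspan : ∀ L : (Pr n → K) →ₗ[K] (Pr n → K), L (yv n 0 1) ∈ T →
      L (yv n 0 2) ∈ T → L (yv n 1 2) ∈ T → T ≤ T.comap L := by
    intro L a b c
    rw [hT, Submodule.span_le]
    rintro _ ⟨i, rfl⟩
    fin_cases i
    · exact a
    · exact b
    · exact c
  have hAT : T ≤ T.comap A := by
    refine hspan A ?_ ?_ ?_
    · rw [hA, Matrix.mulVecLin_apply, hb 0 1 (by omega) (by omega), timg,
        if_pos (by omega)]
      exact T.smul_mem _ t01
    · rw [hA, Matrix.mulVecLin_apply, hb 0 2 (by omega) (by omega), timg,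
        if_neg (by omega), if_pos (by omega)]
      exact sub_mem (add_mem (T.smul_mem _ t02) (T.smul_mem _ t12)) (T.smul_mem _ t01)
    · rw [hA, Matrix.mulVecLin_apply, hb 1 2 (by omega) (by omega), timg,
        if_neg (by omega), if_neg (by omega), if_pos (by omega)]
      exact sub_mem (add_mem (T.smul_mem _ t12) (T.smul_mem _ t02)) (T.smul_mem _ t01)
  have hBT : T ≤ T.comap B := by
    refine hspan B ?_ ?_ ?_
    · rw [hB, Matrix.mulVecLin_apply, ha 1 0 1 (by omega) (by omega), simg,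
        if_neg (by omega), if_neg (by omega), if_neg (by omega), if_pos (by omega)]
      exact add_mem (T.smul_mem _ t02) (T.smul_mem _ t01)
    · rw [hB, Matrix.mulVecLin_apply, ha 1 0 2 (by omega) (by omega), simg,
        if_neg (by omega), if_neg (by omega), if_neg (by omega), if_neg (by omega),
        if_pos (by omega)]
      exact sub_mem t01 (T.smul_mem _ t12)
    · rw [hB, Matrix.mulVecLin_apply, ha 1 1 2 (by omega) (by omega), simg,
        if_pos (by omega)]
      exact T.smul_mem _ t12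
  set A' : ((Pr n → K) ⧸ T) →ₗ[K] ((Pr n → K) ⧸ T) := T.mapQ T A hAT with hA'
  set B' : ((Pr n → K) ⧸ T) →ₗ[K] ((Pr n → K) ⧸ T) := T.mapQ T B hBT with hB'
  have aA : ∀ x, A' (T.mkQ x) = T.mkQ ((tm n q P L).mulVec x) := fun x => rfl
  have aB : ∀ x, B' (T.mkQ x) = T.mkQ ((sm n q P L 1).mulVec x) := fun x => rfl
  have z01 : T.mkQ (yv n (R := K) 0 1) = 0 := by
    rw [Submodule.mkQ_apply, Submodule.Quotient.mk_eq_zero]
    exact t01
  have z02 : T.mkQ (yv n (R := K) 0 2) = 0 := by
    rw [Submodule.mkQ_apply, Submodule.Quotient.mk_eq_zero]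
    exact t02
  have z12 : T.mkQ (yv n (R := K) 1 2) = 0 := by
    rw [Submodule.mkQ_apply, Submodule.Quotient.mk_eq_zero]
    exact t12
  have hzero : Kb_Cub A' B' (q ^ 2 * P) 0 := by
    unfold Kb_Cub
    simp
  -- the triples `y 0 k, y 1 k, y 2 k`
  have c0 : ∀ k, 3 ≤ k → k ≤ n → Kb_Cub A' B' (q ^ 2 * P) (T.mkQ (yv n 0 k)) ∧
      Kb_Cub A' B' (q ^ 2 * P) (T.mkQ (yv n 1 k)) ∧
        Kb_Cub A' B' (q ^ 2 * P) (T.mkQ (yv n 2 k)) := by
    intro k hk hkn
    refine Kb_tri ?_ ?_ ?_ ?_ ?_ ?_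
    · rw [aA, hb 0 k (by omega) (by omega), timg, if_neg (by omega), if_pos (by omega),
        map_sub, map_add, map_smul, map_smul, map_smul, z01, smul_zero, sub_zero]
    · rw [aA, hb 1 k (by omega) (by omega), timg, if_neg (by omega), if_neg (by omega),
        if_pos (by omega), map_sub, map_add, map_smul, map_smul, map_smul, z01, smul_zero,
        sub_zero]
    · rw [aA, hb 2 k (by omega) (by omega), timg, if_neg (by omega), if_neg (by omega),
        if_neg (by omega)]
    · rw [aB, ha 1 0 k (by omega) (by omega), simg, if_neg (by omega), if_neg (by omega),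
        if_neg (by omega), if_neg (by omega), if_neg (by omega), if_pos (by omega), map_add,
        map_smul, z12, smul_zero, add_zero]
    · rw [aB, ha 1 1 k (by omega) (by omega), simg, if_neg (by omega), if_neg (by omega),
        if_pos (by omega), map_sub, map_smul, z12, smul_zero, sub_zero]
    · rw [aB, ha 1 2 k (by omega) (by omega), simg, if_neg (by omega), if_pos (by omega),
        map_add, map_smul, map_smul]
  have hall : ∀ j k, j < k → k ≤ n → Kb_Cub A' B' (q ^ 2 * P) (T.mkQ (yv n j k)) := by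
    intro j k hjk hkn
    rcases (by omega : (j = 0 ∧ k = 1) ∨ (j = 0 ∧ k = 2) ∨ (j = 1 ∧ k = 2) ∨ (j = 0 ∧ 3 ≤ k) ∨
      (j = 1 ∧ 3 ≤ k) ∨ (j = 2 ∧ 3 ≤ k) ∨ 3 ≤ j) with h | h | h | h | h | h | h
    · rw [h.1, h.2, z01]
      exact hzero
    · rw [h.1, h.2, z02]
      exact hzero
    · rw [h.1, h.2, z12]
      exact hzero
    · rw [h.1]
      exact (c0 k h.2 hkn).1
    · rw [h.1]
      exact (c0 k h.2 hkn).2.1
    · rw [h.1]
      exact (c0 k h.2 hkn).2.2
    · refine Kb_fix ?_ ?_
      · rw [aA, hb j k (by omega) (by omega), timg, if_neg (by omega), if_neg (by omega),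
          if_neg (by omega)]
      · rw [aB, ha 1 j k (by omega) (by omega), simg, if_neg (by omega), if_neg (by omega),
          if_neg (by omega), if_neg (by omega), if_neg (by omega), if_neg (by omega)]
  have hcub : ∀ u, Kb_Cub A' B' (q ^ 2 * P) u := by
    intro u
    obtain ⟨v, rfl⟩ := T.mkQ_surjective u
    rw [hexp v, map_sum]
    unfold Kb_Cub
    simp only [map_sum, map_smul, Finset.smul_sum]
    rw [← Finset.sum_add_distrib, ← Finset.sum_sub_distrib]
    refine Finset.sum_congr rfl fun b _ => ?_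
    have k := hall b.1.1 b.1.2 b.2 (by have := b.1.2.2; omega)
    unfold Kb_Cub at k
    rw [k]
    module
  have hker : LinearMap.ker (((tm n q P L * sm n q P L 1) ^ 2 -
        (q ^ 4 * P ^ 2 * L ^ 2) • (1 : Matrix (Pr n) (Pr n) K)).mulVecLin) ≤ T := by
    intro v hv
    rw [LinearMap.mem_ker, Matrix.mulVecLin_apply, Matrix.sub_mulVec, Matrix.smul_mulVec,
      Matrix.one_mulVec, sub_eq_zero] at hv
    have k1 : A' (B' (A' (B' (T.mkQ v)))) = (q ^ 4 * P ^ 2 * L ^ 2) • T.mkQ v := by
      simp only [aA, aB]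
      rw [← map_smul, ← hv]
      simp only [pow_succ, pow_zero, one_mul, ← Matrix.mulVec_mulVec]
    have k2 := Kb_final hcub hG.b1 hG.bq k1
    rwa [Submodule.mkQ_apply, Submodule.Quotient.mk_eq_zero] at k2
  refine (Submodule.finrank_mono hker).trans ?_
  have k := finrank_range_le_card (R := K) ![yv n (R := K) 0 1, yv n 0 2, yv n 1 2]
  rw [Fintype.card_fin] at k
  exact k

end Pool.Agent.Lib.MP_97567f_al.U.TB
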