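import Pool.Agent.Lib.MP_97567f_al.U.SpecB

/-!
# MP_97567f_al, module U/TB/Phi: type `B` in type `A`
-/

set_option autoImplicit false

namespace Pool.Agent.Lib.MP_97567f_al.U.TB

/-- The element `T (k + 1)`. -/
private def Phi_U (n : ℕ) : ℕ → Art (BM n)
  | 0 => bg n 0
  | k + 1 => bg n (k + 1) * Phi_U n k * (bg n (k + 1))⁻¹

/-- The label of the generator `i` at the position `k`. -/
private def Phi_c (n i k : ℕ) : Art (BM n) :=
  if n < k then 1 else if k < i then bg n i else if k = i then 1 else
    if k = i + 1 then Phi_U n i else bg n (i + 1)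

private def Phi_p (i k : ℕ) : ℕ := if k = i then i + 1 else if k = i + 1 then i else k

private theorem Phi_pp (i k : ℕ) : Phi_p i (Phi_p i k) = k := by
  unfold Phi_p
  split_ifs <;> omega

/-- The permutation of the generator `i`. -/
private def Phi_s (n i : ℕ) : Equiv.Perm (Art (BM n) × ℕ) where
  toFun x := (Phi_c n i x.2 * x.1, Phi_p i x.2)
  invFun x := ((Phi_c n i (Phi_p i x.2))⁻¹ * x.1, Phi_p i x.2)
  left_inv := by
    rintro ⟨g, k⟩
    simp only [Phi_pp, inv_mul_cancel_left]
  right_inv := by
    rintro ⟨g, k⟩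
    simp only [Phi_pp, mul_inv_cancel_left]

private theorem Phi_s_apply (n i : ℕ) (g : Art (BM n)) (k : ℕ) :
    Phi_s n i (g, k) = (Phi_c n i k * g, Phi_p i k) := rfl

private theorem Phi_1 (h1 : SBg) (n k : ℕ) : ∀ i, k + 2 ≤ i → Commute (bg n i) (Phi_U n k) := by
  induction k with
  | zero => intro i hi; exact ((h1 n).2.2.1 0 i hi).symm
  | succ k ih =>
    intro i hi
    have hc : Commute (bg n i) (bg n (k + 1)) := ((h1 n).2.2.1 (k + 1) i hi).symm
    exact (hc.mul_right (ih i (by omega))).mul_right hc.inv_right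

private theorem Phi_2 (h1 : SBg) (n i : ℕ) (hi : 1 ≤ i) :
    ∀ k, i < k → k < n → Commute (bg n i) (Phi_U n k) := by
  intro k hk
  induction k, hk using Nat.le_induction with
  | base =>
    intro hn
    obtain ⟨m, rfl⟩ : ∃ m, i = m + 1 := ⟨i - 1, by omega⟩
    have hb := (h1 n).2.1 (m + 1) hi hn
    have hc := (Phi_1 h1 n m (m + 1 + 1) (by omega)).eq
    set a := bg n (m + 1) with ha
    set b := bg n (m + 1 + 1) with hb'
    set u := Phi_U n m with hu
    have e : Phi_U n (m + 1 + 1) = (b * a) * u * (b * a)⁻¹ := by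
      change b * (a * u * a⁻¹) * b⁻¹ = _
      group
    have e2 : a * (b * a) = (b * a) * b := by rw [← mul_assoc, hb]
    change a * Phi_U n (m + 1 + 1) = Phi_U n (m + 1 + 1) * a
    rw [e]
    have e3 : (b * a)⁻¹ * a = b * (b * a)⁻¹ := by
      rw [inv_mul_eq_iff_eq_mul, ← mul_assoc, ← e2, mul_assoc, mul_inv_cancel, mul_one]
    calc a * (b * a * u * (b * a)⁻¹) = (a * (b * a)) * u * (b * a)⁻¹ := by
          simp only [mul_assoc]
      _ = (b * a) * (b * u) * (b * a)⁻¹ := by rw [e2]; simp only [mul_assoc]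
      _ = (b * a) * (u * b) * (b * a)⁻¹ := by rw [hc]
      _ = (b * a) * u * (b * (b * a)⁻¹) := by simp only [mul_assoc]
      _ = (b * a) * u * ((b * a)⁻¹ * a) := by rw [e3]
      _ = b * a * u * (b * a)⁻¹ * a := by simp only [mul_assoc]
  | succ k hk ih =>
    intro hn
    have hc : Commute (bg n i) (bg n (k + 1)) := (h1 n).2.2.1 i (k + 1) (by omega)
    exact (hc.mul_right (ih (by omega))).mul_right hc.inv_right

private theorem Phi_4 (h1 : SBg) (n k : ℕ) (hk : k + 1 < n) :
    Phi_U n k * bg n (k + 1) * Phi_U n k * bg n (k + 1) =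
      bg n (k + 1) * Phi_U n k * bg n (k + 1) * Phi_U n k := by
  induction k with
  | zero => exact (h1 n).1 hk
  | succ k ih =>
    have ih' := ih (by omega)
    have hb := (h1 n).2.1 (k + 1) (by omega) hk
    have hc := (Phi_1 h1 n k (k + 1 + 1) (by omega)).eq
    have hU : Phi_U n (k + 1) = bg n (k + 1) * Phi_U n k * (bg n (k + 1))⁻¹ := rfl
    rw [hU]
    generalize Phi_U n k = u at *
    generalize bg n (k + 1) = a at *
    generalize bg n (k + 1 + 1) = b at *
    have e1 : a * b * u * (a * b)⁻¹ = a * u * a⁻¹ := by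
      calc a * b * u * (a * b)⁻¹ = a * (b * u) * b⁻¹ * a⁻¹ := by group
        _ = a * (u * b) * b⁻¹ * a⁻¹ := by rw [hc]
        _ = a * u * a⁻¹ := by group
    have e2 : a * b * a * (a * b)⁻¹ = b := by
      rw [hb]; group
    have key := congrArg (fun z => a * b * z * (a * b)⁻¹) ih'
    calc a * u * a⁻¹ * b * (a * u * a⁻¹) * b
        = (a * b * u * (a * b)⁻¹) * (a * b * a * (a * b)⁻¹) * (a * b * u * (a * b)⁻¹) *
          (a * b * a * (a * b)⁻¹) := by rw [e1, e2]
      _ = a * b * (u * a * u * a) * (a * b)⁻¹ := by group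
      _ = a * b * (a * u * a * u) * (a * b)⁻¹ := key
      _ = (a * b * a * (a * b)⁻¹) * (a * b * u * (a * b)⁻¹) * (a * b * a * (a * b)⁻¹) *
          (a * b * u * (a * b)⁻¹) := by group
      _ = b * (a * u * a⁻¹) * b * (a * u * a⁻¹) := by rw [e1, e2]

private theorem Phi_braid (h1 : SBg) (n i : ℕ) (hi : i + 1 < n) :
    Phi_s n i * Phi_s n (i + 1) * Phi_s n i = Phi_s n (i + 1) * Phi_s n i * Phi_s n (i + 1) := by
  ext1 ⟨g, k⟩
  simp only [Equiv.Perm.mul_apply, Phi_s_apply]
  rcases lt_or_ge n k with hk | hk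
  · have p1 : Phi_p i k = k := by unfold Phi_p; split_ifs <;> omega
    have p2 : Phi_p (i + 1) k = k := by unfold Phi_p; split_ifs <;> omega
    have c1 : ∀ j, Phi_c n j k = 1 := fun j => by unfold Phi_c; rw [if_pos hk]
    simp only [p1, p2, c1]
  have hc : ∀ j l, l ≤ n → Phi_c n j l = if l < j then bg n j else if l = j then 1 else
    if l = j + 1 then Phi_U n j else bg n (j + 1) := fun j l hl => by
    unfold Phi_c; rw [if_neg (by omega)]
  rcases lt_trichotomy k i with h | h | h
  · have p1 : Phi_p i k = k := by unfold Phi_p; split_ifs <;> omega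
    have p2 : Phi_p (i + 1) k = k := by unfold Phi_p; split_ifs <;> omega
    have c1 : Phi_c n i k = bg n i := by rw [hc _ _ hk, if_pos h]
    have c2 : Phi_c n (i + 1) k = bg n (i + 1) := by rw [hc _ _ hk, if_pos (by omega)]
    simp only [p1, p2, c1, c2]
    have := (h1 n).2.1 i (by omega) hi
    rw [← mul_assoc, ← mul_assoc, ← mul_assoc, ← mul_assoc, this]
  · subst h
    have p1 : Phi_p k k = k + 1 := by unfold Phi_p; rw [if_pos rfl]
    have p2 : Phi_p (k + 1) k = k := by unfold Phi_p; split_ifs <;> omega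
    have p3 : Phi_p (k + 1) (k + 1) = k + 2 := by unfold Phi_p; rw [if_pos rfl]
    have p4 : Phi_p k (k + 2) = k + 2 := by unfold Phi_p; split_ifs <;> omega
    have c1 : Phi_c n k k = 1 := by
      rw [hc _ _ hk, if_neg (by omega), if_pos rfl]
    have c2 : Phi_c n (k + 1) k = bg n (k + 1) := by rw [hc _ _ hk, if_pos (by omega)]
    have c3 : Phi_c n (k + 1) (k + 1) = 1 := by
      rw [hc _ _ (by omega), if_neg (by omega), if_pos rfl]
    have c4 : Phi_c n k (k + 2) = bg n (k + 1) := by
      rw [hc _ _ (by omega), if_neg (by omega), if_neg (by omega), if_neg (by omega)]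
    simp only [p1, p2, p3, p4, c1, c2, c3, c4, one_mul]
  · rcases lt_trichotomy k (i + 2) with h' | h' | h'
    · obtain rfl : k = i + 1 := by omega
      have p1 : Phi_p i (i + 1) = i := by unfold Phi_p; split_ifs <;> omega
      have p2 : Phi_p (i + 1) i = i := by unfold Phi_p; split_ifs <;> omega
      have p3 : Phi_p i i = i + 1 := by unfold Phi_p; split_ifs <;> omega
      have p4 : Phi_p (i + 1) (i + 1) = i + 2 := by unfold Phi_p; split_ifs <;> omega
      have p5 : Phi_p i (i + 2) = i + 2 := by unfold Phi_p; split_ifs <;> omega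
      have p6 : Phi_p (i + 1) (i + 2) = i + 1 := by unfold Phi_p; split_ifs <;> omega
      have c1 : Phi_c n i (i + 1) = Phi_U n i := by
        rw [hc _ _ hk, if_neg (by omega), if_neg (by omega), if_pos rfl]
      have c2 : Phi_c n (i + 1) i = bg n (i + 1) := by
        rw [hc _ _ (by omega), if_pos (by omega)]
      have c3 : Phi_c n i i = 1 := by
        rw [hc _ _ (by omega), if_neg (by omega), if_pos rfl]
      have c4 : Phi_c n (i + 1) (i + 1) = 1 := by
        rw [hc _ _ (by omega), if_neg (by omega), if_pos rfl]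
      have c5 : Phi_c n i (i + 2) = bg n (i + 1) := by
        rw [hc _ _ (by omega), if_neg (by omega), if_neg (by omega), if_neg (by omega)]
      have c6 : Phi_c n (i + 1) (i + 2) = Phi_U n (i + 1) := by
        rw [hc _ _ (by omega), if_neg (by omega), if_neg (by omega), if_pos rfl]
      have hU : Phi_U n (i + 1) = bg n (i + 1) * Phi_U n i * (bg n (i + 1))⁻¹ := rfl
      simp only [p1, p2, p3, p4, p5, p6, c1, c2, c3, c4, c5, c6, one_mul, hU, mul_assoc,
        inv_mul_cancel_left]
    · subst h'
      have p1 : Phi_p i (i + 2) = i + 2 := by unfold Phi_p; split_ifs <;> omega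
      have p2 : Phi_p (i + 1) (i + 2) = i + 1 := by unfold Phi_p; split_ifs <;> omega
      have p3 : Phi_p i (i + 1) = i := by unfold Phi_p; split_ifs <;> omega
      have p4 : Phi_p (i + 1) i = i := by unfold Phi_p; split_ifs <;> omega
      have c1 : Phi_c n i (i + 2) = bg n (i + 1) := by
        rw [hc _ _ (by omega), if_neg (by omega), if_neg (by omega), if_neg (by omega)]
      have c2 : Phi_c n (i + 1) (i + 2) = Phi_U n (i + 1) := by
        rw [hc _ _ (by omega), if_neg (by omega), if_neg (by omega), if_pos rfl]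
      have c3 : Phi_c n i (i + 1) = Phi_U n i := by
        rw [hc _ _ (by omega), if_neg (by omega), if_neg (by omega), if_pos rfl]
      have c4 : Phi_c n (i + 1) i = bg n (i + 1) := by
        rw [hc _ _ (by omega), if_pos (by omega)]
      have hU : Phi_U n (i + 1) = bg n (i + 1) * Phi_U n i * (bg n (i + 1))⁻¹ := rfl
      have h4 := Phi_4 h1 n i hi
      simp only [p1, p2, p3, p4, c1, c2, c3, c4, hU]
      refine Prod.ext ?_ rfl
      change Phi_U n i * (bg n (i + 1) * Phi_U n i * (bg n (i + 1))⁻¹ * (bg n (i + 1) * g)) =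
        bg n (i + 1) * (Phi_U n i * (bg n (i + 1) * Phi_U n i * (bg n (i + 1))⁻¹ * g))
      generalize Phi_U n i = u at *
      generalize bg n (i + 1) = a at *
      have h5 : u * a * u = a * u * a * u * a⁻¹ := by rw [← h4]; group
      calc u * (a * u * a⁻¹ * (a * g)) = (u * a * u) * g := by group
        _ = (a * u * a * u * a⁻¹) * g := by rw [h5]
        _ = _ := by group
    · have p1 : Phi_p i k = k := by unfold Phi_p; split_ifs <;> omega
      have p2 : Phi_p (i + 1) k = k := by unfold Phi_p; split_ifs <;> omega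
      have c1 : Phi_c n i k = bg n (i + 1) := by
        rw [hc _ _ (by omega), if_neg (by omega), if_neg (by omega), if_neg (by omega)]
      have c2 : Phi_c n (i + 1) k = bg n (i + 2) := by
        rw [hc _ _ (by omega), if_neg (by omega), if_neg (by omega), if_neg (by omega)]
      simp only [p1, p2, c1, c2]
      have := (h1 n).2.1 (i + 1) (by omega) (by omega)
      rw [← mul_assoc, ← mul_assoc, ← mul_assoc, ← mul_assoc, this]

private theorem Phi_comm (h1 : SBg) (n i j : ℕ) (hij : i + 2 ≤ j) (hj : j < n) :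
    Phi_s n i * Phi_s n j = Phi_s n j * Phi_s n i := by
  ext1 ⟨g, k⟩
  simp only [Equiv.Perm.mul_apply, Phi_s_apply]
  rcases lt_or_ge n k with hk | hk
  · have p1 : Phi_p i k = k := by unfold Phi_p; split_ifs <;> omega
    have p2 : Phi_p j k = k := by unfold Phi_p; split_ifs <;> omega
    have c1 : ∀ j, Phi_c n j k = 1 := fun j => by unfold Phi_c; rw [if_pos hk]
    simp only [p1, p2, c1]
  have hc : ∀ j l, l ≤ n → Phi_c n j l = if l < j then bg n j else if l = j then 1 else
    if l = j + 1 then Phi_U n j else bg n (j + 1) := fun j l hl => by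
    unfold Phi_c; rw [if_neg (by omega)]
  have hpp : Phi_p i (Phi_p j k) = Phi_p j (Phi_p i k) := by
    unfold Phi_p
    split_ifs <;> omega
  refine Prod.ext ?_ hpp
  change Phi_c n i (Phi_p j k) * (Phi_c n j k * g) = Phi_c n j (Phi_p i k) * (Phi_c n i k * g)
  have hpj : Phi_p j k ≤ n := by unfold Phi_p; split_ifs <;> omega
  have hpi : Phi_p i k ≤ n := by unfold Phi_p; split_ifs <;> omega
  have hco : ∀ a b, a + 2 ≤ b → Commute (bg n a) (bg n b) := (h1 n).2.2.1
  -- the label of `i` does not change under `j` and conversely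
  have e1 : Phi_c n i (Phi_p j k) = Phi_c n i k := by
    rw [hc _ _ hpj, hc _ _ hk]
    unfold Phi_p
    split_ifs <;> first | rfl | omega
  have e2 : Phi_c n j (Phi_p i k) = Phi_c n j k := by
    rw [hc _ _ hpi, hc _ _ hk]
    unfold Phi_p
    split_ifs <;> first | rfl | omega
  rw [e1, e2, ← mul_assoc, ← mul_assoc]
  congr 1
  change Commute (Phi_c n i k) (Phi_c n j k)
  rw [hc _ _ hk, hc _ _ hk]
  rcases lt_trichotomy k i with h | h | h
  · rw [if_pos h, if_pos (by omega)]
    exact hco _ _ hij
  · rw [if_neg (by omega), if_pos h]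
    exact Commute.one_left _
  rw [if_neg (by omega), if_neg (by omega)]
  rcases lt_trichotomy k (i + 1) with h' | h' | h'
  · omega
  · rw [if_pos h', if_pos (by omega)]
    exact (Phi_1 h1 n i j hij).symm
  rw [if_neg (by omega)]
  rcases lt_trichotomy k j with g' | g' | g'
  · rw [if_pos g']
    exact hco _ _ (by omega)
  · rw [if_neg (by omega), if_pos g']
    exact Commute.one_right _
  rw [if_neg (by omega), if_neg (by omega)]
  rcases lt_trichotomy k (j + 1) with f' | f' | f'
  · omega
  · rw [if_pos f']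
    exact Phi_2 h1 n (i + 1) (by omega) j (by omega) hj
  · rw [if_neg (by omega)]
    exact hco _ _ (by omega)

theorem pPhi (h1 : SBg) (h2 : SAg) : SPhi := by
  intro n
  have hB := h1 n
  have hA := h2 n
  obtain ⟨φ, hφ⟩ := hB.2.2.2.1 (Art (CoxeterMatrix.A n))
    (fun i => if i = 0 then ag n 0 ^ 2 else ag n i)
    (by
      intro hn
      have h := hA.1 0 (by omega)
      simp only [if_true, one_ne_zero, if_false]
      generalize ag n 0 = a at *
      generalize ag n (0 + 1) = b at *
      calc a ^ 2 * b * a ^ 2 * b = a * (a * b * a) * (a * b) := by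
            simp only [pow_two, mul_assoc]
        _ = a * (b * a * b) * (a * b) := by rw [h]
        _ = (a * b * a) * (b * a * b) := by simp only [mul_assoc]
        _ = (b * a * b) * (a * b * a) := by rw [h]
        _ = b * a * (b * a * b) * a := by simp only [mul_assoc]
        _ = b * a * (a * b * a) * a := by rw [h]
        _ = b * a ^ 2 * b * a ^ 2 := by simp only [pow_two, mul_assoc])
    (by
      intro i hi hn
      simp only [if_neg (show ¬ i = 0 by omega), if_neg (show ¬ i + 1 = 0 by omega)]
      exact hA.1 i hn)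
    (by
      intro i j hij hj
      simp only [if_neg (show ¬ j = 0 by omega)]
      split_ifs with h0
      · subst h0
        exact (Commute.pow_left (hA.2.1 0 j hij : Commute (ag n 0) (ag n j)) 2)
      · exact hA.2.1 i j hij)
  have hφ0 : φ (bg n 0) = ag n 0 ^ 2 := by
    rcases Nat.eq_zero_or_pos n with h0 | h0
    · subst h0
      have e1 : bg 0 0 = 1 := by unfold bg; rw [dif_neg (by omega)]
      have e2 : ag 0 0 = 1 := by unfold ag; rw [dif_neg (by omega)]
      rw [e1, e2, map_one, one_pow]
    · rw [hφ 0 h0, if_pos rfl]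
  have hφ1 : ∀ i, 1 ≤ i → φ (bg n i) = ag n i := by
    intro i hi
    by_cases hn : i < n
    · rw [hφ i hn, if_neg (by omega)]
    · have e1 : bg n i = 1 := by unfold bg; rw [dif_neg hn]
      have e2 : ag n i = 1 := by unfold ag; rw [dif_neg hn]
      rw [e1, e2, map_one]
  refine ⟨φ, ?_, hφ0, hφ1⟩
  obtain ⟨ψ, hψ⟩ := hA.2.2.1 (Equiv.Perm (Art (BM n) × ℕ)) (Phi_s n)
    (fun i hi => Phi_braid h1 n i hi) (fun i j hij hj => Phi_comm h1 n i j hij hj)
  have key : ∀ x : Art (BM n), ∀ g, ψ (φ x) (g, 0) = (x * g, 0) := by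
    intro x
    have hx : x ∈ Subgroup.closure {x | ∃ i, i < n ∧ x = bg n i} := by
      rw [hB.2.2.2.2.2]; trivial
    induction hx using Subgroup.closure_induction with
    | mem x hx =>
      obtain ⟨i, hi, rfl⟩ := hx
      intro g
      rcases Nat.eq_zero_or_pos i with h0 | h0
      · subst h0
        rw [hφ0, map_pow, hψ 0 hi, pow_two, Equiv.Perm.mul_apply, Phi_s_apply, Phi_s_apply]
        have p1 : Phi_p 0 0 = 1 := rfl
        have p2 : Phi_p 0 1 = 0 := rfl
        have c1 : Phi_c n 0 0 = 1 := by
          unfold Phi_c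
          rw [if_neg (by omega), if_neg (by omega), if_pos rfl]
        have c2 : Phi_c n 0 1 = bg n 0 := by
          unfold Phi_c
          rw [if_neg (by omega), if_neg (by omega), if_neg (by omega), if_pos rfl]
          rfl
        rw [p1, p2, c1, c2, one_mul]
      · rw [hφ1 i h0, hψ i hi, Phi_s_apply]
        have p1 : Phi_p i 0 = 0 := by
          unfold Phi_p
          rw [if_neg (by omega), if_neg (by omega)]
        have c1 : Phi_c n i 0 = bg n i := by
          unfold Phi_c
          rw [if_neg (by omega), if_pos h0]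
        rw [p1, c1]
    | one => intro g; rw [map_one, map_one, one_mul]; rfl
    | mul x y _ _ hx hy =>
      intro g
      rw [map_mul, map_mul, Equiv.Perm.mul_apply, hy, hx, mul_assoc]
    | inv x _ hx =>
      intro g
      rw [map_inv, map_inv, Equiv.Perm.inv_eq_iff_eq, hx, mul_inv_cancel_left]
  rw [injective_iff_map_eq_one]
  intro x hx
  have := key x 1
  rw [hx, map_one, mul_one] at this
  exact (congrArg Prod.fst this).symm

end Pool.Agent.Lib.MP_97567f_al.U.TB
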