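import Pool.Agent.Lib.MP_97567f_al.U.SpecB

/-!
# MP_97567f_al: type `B`, module `R1` (the eigenvector of the first generator)
-/

set_option autoImplicit false

namespace Pool.Agent.Lib.MP_97567f_al.U.TB

section mat

variable {ι R S A : Type} [Fintype ι] [CommRing R] [CommRing S] [Group A]

private theorem R1_map (G : Matrix ι ι R) (f : R →+* S) (v : ι → R) :
    (G.map f).mulVec (fun i => f (v i)) = fun i => f (G.mulVec v i) := by
  funext i
  exact (RingHom.map_mulVec f G v i).symm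

private theorem R1_mv [DecidableEq ι] (ρ : A →* GL ι R) (x y : A) (v : ι → R) :
    (ρ x).1.mulVec ((ρ y).1.mulVec v) = (ρ (x * y)).1.mulVec v := by
  rw [Matrix.mulVec_mulVec, map_mul, Units.val_mul]

private theorem R1_vec (a b x : ι → R) :
    (Matrix.vecMulVec a b).mulVec x = (b ⬝ᵥ x) • a := by
  funext i
  simp only [Matrix.mulVec, dotProduct, Matrix.vecMulVec_apply, Pi.smul_apply, smul_eq_mul]
  rw [Finset.sum_mul]
  refine Finset.sum_congr rfl fun j _ => ?_
  ring

end mat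

private theorem R1_red (h3 : SBq) {K : Type} [Field K] (n : ℕ) (hn : 1 ≤ n) (q P L : K)
    (hG : GenB q P L) (x : Pr n → K) (hx : (tm n q P L).mulVec x = (q ^ 2 * P ^ 2 * L ^ 2) • x) :
    ∃ c : K, x = c • yv n 0 1 := by
  have h := (h3 K n q P L).2 hn
  have hne : (q ^ 2 * P ^ 2 * L ^ 2 - 1) * (q ^ 2 * P ^ 2 * L ^ 2 - q * P) ≠ 0 :=
    mul_ne_zero (sub_ne_zero.2 hG.t1) (sub_ne_zero.2 hG.tq)
  have e1 : (tm n q P L - (q * P) • 1).mulVec x = (q ^ 2 * P ^ 2 * L ^ 2 - q * P) • x := by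
    rw [Matrix.sub_mulVec, Matrix.smul_mulVec, Matrix.one_mulVec, hx, ← sub_smul]
  have e2 : (tm n q P L - 1).mulVec x = (q ^ 2 * P ^ 2 * L ^ 2 - 1) • x := by
    rw [Matrix.sub_mulVec, Matrix.one_mulVec, hx, sub_smul, one_smul]
  have h5 : (Matrix.vecMulVec (yv n 0 1) fun b : Pr n => Ft q P L b.1.1 b.1.2).mulVec x =
      ((q ^ 2 * P ^ 2 * L ^ 2 - 1) * (q ^ 2 * P ^ 2 * L ^ 2 - q * P)) • x := by
    rw [← h, ← Matrix.mulVec_mulVec, e1, Matrix.mulVec_smul, e2, smul_smul, mul_comm]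
  rw [R1_vec] at h5
  refine ⟨((q ^ 2 * P ^ 2 * L ^ 2 - 1) * (q ^ 2 * P ^ 2 * L ^ 2 - q * P))⁻¹ *
    ((fun b : Pr n => Ft q P L b.1.1 b.1.2) ⬝ᵥ x), ?_⟩
  rw [mul_smul, h5, smul_smul, inv_mul_cancel₀ hne, one_smul]

private theorem R1_bg (h4 : SBg) (n i : ℕ) (hi : 2 ≤ i) :
    bg n 0 * bg n i = bg n i * bg n 0 := (h4 n).2.2.1 0 i (by omega)

/-- The pair `(0, 1)`. -/
private def b0 (n : ℕ) (hn : 1 ≤ n) : Pr n := ⟨(⟨0, by omega⟩, ⟨1, by omega⟩), Fin.mk_lt_mk.2 (by omega)⟩

private theorem R1_b0 {K : Type} [CommRing K] (n : ℕ) (hn : 1 ≤ n) :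
    (yv n 0 1 : Pr n → K) (b0 n hn) = 1 := by
  simp [yv, b0]

theorem pR1 (h1 : SVEig) (h2 : SBa) (h3 : SBq) (h4 : SBg) : SR1 := by
  intro n hn F _ _ O q P L hG ρ hρ
  have hn1 : 1 ≤ n := by omega
  have ht : (ρ (bg n 0)).1.map (IsLocalRing.residue O) = tm n q P L := by
    rw [hρ 0 (by omega)]; rfl
  have hs : ∀ i, 2 ≤ i → i < n →
      (ρ (bg n i)).1.map (IsLocalRing.residue O) = sm n q P L i := by
    intro i hi hin
    rw [hρ i hin, bm, if_neg (by omega)]
  have hb0 := R1_b0 (K := IsLocalRing.ResidueField O) n hn1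
  have hw : (yv n 0 1 : Pr n → IsLocalRing.ResidueField O) ≠ 0 := by
    intro h
    rw [h] at hb0
    exact zero_ne_one hb0
  obtain ⟨hS, hT, -⟩ := h2 (IsLocalRing.ResidueField O) n q P L
  obtain ⟨lam, u, hlam, hu, hE, hSg⟩ := h1 F O (Pr n) (ρ (bg n 0)).1 (q ^ 2 * P ^ 2 * L ^ 2)
    (yv n 0 1) hw (by
      rw [ht, hT 0 1 (by omega) hn1]
      simp [timg]) (by
      intro x hx
      rw [ht] at hx
      exact R1_red h3 n hn1 q P L hG x hx)
  -- the unit coordinate
  have hub : IsUnit (u (b0 n hn1)) := by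
    rw [← IsLocalRing.residue_ne_zero_iff_isUnit, hu, hb0]
    exact one_ne_zero
  obtain ⟨ub, hub⟩ := hub
  have key : ∀ i, ∃ m : O, 2 ≤ i → i < n → IsLocalRing.residue O m = 1 ∧
      (ρ (bg n i)).1.mulVec u = m • u := by
    intro i
    by_cases hi : 2 ≤ i ∧ i < n
    swap
    · exact ⟨0, fun h h' => absurd ⟨h, h'⟩ hi⟩
    obtain ⟨hi, hin⟩ := hi
    set w : Pr n → O := (ρ (bg n i)).1.mulVec u with hw'
    have e1 : (ρ (bg n 0)).1.mulVec w = lam • w := by
      rw [hw', R1_mv, R1_bg h4 n i hi, ← R1_mv, hE, Matrix.mulVec_smul]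
    obtain ⟨c, hc⟩ := hSg (fun b => algebraMap O F (w b)) (by
      rw [R1_map, e1]
      funext b
      simp [Pi.smul_apply])
    have hcb := congrFun hc (b0 n hn1)
    refine ⟨w (b0 n hn1) * (↑ub⁻¹ : O), fun _ _ => ⟨?_, ?_⟩⟩
    · have e2 : IsLocalRing.residue O (w (b0 n hn1)) = 1 := by
        have e3 := congrFun (R1_map (ρ (bg n i)).1 (IsLocalRing.residue O) u) (b0 n hn1)
        rw [← hw'] at e3
        rw [← e3, hs i hi hin, show (fun b => IsLocalRing.residue O (u b)) = yv n 0 1 from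
          funext hu, hS i 0 1 (by omega) hn1, simg, if_neg (by omega), if_neg (by omega),
          if_neg (by omega), if_neg (by omega), if_neg (by omega), if_neg (by omega)]
        exact hb0
      have e4 : IsLocalRing.residue O (↑ub⁻¹ : O) = 1 := by
        have e5 : IsLocalRing.residue O ((ub : O) * (↑ub⁻¹ : O)) = 1 := by
          rw [Units.mul_inv, map_one]
        rw [map_mul, hub, hu, hb0, one_mul] at e5
        exact e5
      rw [map_mul, e2, e4, one_mul]
    · funext b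
      apply FaithfulSMul.algebraMap_injective O F
      have e6 := congrFun hc b
      rw [Pi.smul_apply, smul_eq_mul, map_mul, map_mul, e6, hcb, ← hub]
      have e7 : ((ub : O) : F) * algebraMap O F (↑ub⁻¹ : O) = 1 := by
        have := congrArg (algebraMap O F) (Units.mul_inv ub)
        rw [map_mul, map_one] at this
        exact this
      calc c * (u b : F) = c * (((ub : O) : F) * algebraMap O F (↑ub⁻¹ : O)) * (u b : F) := by
            rw [e7, mul_one]
        _ = _ := by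
            rw [← mul_assoc c]
            rfl
  choose m hm using key
  have hcan : ∀ x y : O, x • u = y • u → x = y := by
    intro x y hxy
    have e := congrFun hxy (b0 n hn1)
    rw [Pi.smul_apply, Pi.smul_apply, smul_eq_mul, smul_eq_mul, ← hub] at e
    exact ub.isUnit.mul_right_cancel e
  have hmu : ∀ i, 2 ≤ i → i < n → IsUnit (m i) := by
    intro i hi hin
    rw [← IsLocalRing.residue_ne_zero_iff_isUnit, (hm i hi hin).1]
    exact one_ne_zero
  have hstep : ∀ i, 2 ≤ i → i + 1 < n → m i = m (i + 1) := by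
    intro i hi hin
    have hb := (h4 n).2.1 i (by omega) hin
    obtain ⟨-, ei⟩ := hm i hi (by omega)
    obtain ⟨-, ej⟩ := hm (i + 1) (by omega) hin
    have hl : (ρ (bg n i * bg n (i + 1) * bg n i)).1.mulVec u = (m i * m (i + 1) * m i) • u := by
      rw [← R1_mv, ← R1_mv, ei, Matrix.mulVec_smul, ej, Matrix.mulVec_smul, Matrix.mulVec_smul, ei,
        smul_smul, smul_smul]
    have hr : (ρ (bg n (i + 1) * bg n i * bg n (i + 1))).1.mulVec u =
        (m (i + 1) * m i * m (i + 1)) • u := by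
      rw [← R1_mv, ← R1_mv, ej, Matrix.mulVec_smul, ei, Matrix.mulVec_smul, Matrix.mulVec_smul, ej,
        smul_smul, smul_smul]
    rw [hb, hr] at hl
    have e := hcan _ _ hl
    have e' : m (i + 1) * (m i * m (i + 1)) = m i * (m i * m (i + 1)) := by
      rw [← mul_assoc, e]
      ring
    exact (((hmu i hi (by omega)).mul (hmu (i + 1) (by omega) hin)).mul_right_cancel e').symm
  have hall : ∀ i, 2 ≤ i → i < n → m i = m 2 := by
    intro i hi
    induction i, hi using Nat.le_induction with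
    | base => intro _; rfl
    | succ i hi ih =>
      intro hin
      rw [← hstep i hi hin, ih (by omega)]
  refine ⟨lam, m 2, u, hlam, (hm 2 le_rfl (by omega)).1, hu, hE, hSg, fun i hi hin => ?_⟩
  rw [← hall i hi hin]
  exact (hm i hi hin).2

end Pool.Agent.Lib.MP_97567f_al.U.TB
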