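import Pool.Agent.Lib.MP_97567f_al.U.SpecB

/-!
# MP_97567f_al: type `B`: rigidity for given parameters
-/

set_option autoImplicit false

namespace Pool.Agent.Lib.MP_97567f_al.U.TB

private theorem Rb_gop_apply {F : Type} [Field F] {n : ℕ} (O : ValuationSubring F)
    (ρ : Art (BM n) →* GL (Pr n) O) (χ : Art (BM n) →* Fˣ) (x : Art (BM n)) (v : Pr n → F) :
    gop n O ρ χ x v = ((χ x)⁻¹ : Fˣ).1 • ((ρ x).1.map (algebraMap O F)).mulVec v := rfl

private theorem Rb_map_mul {F : Type} [Field F] {n : ℕ} (O : ValuationSubring F)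
    (ρ : Art (BM n) →* GL (Pr n) O) (x y : Art (BM n)) :
    (ρ (x * y)).1.map (algebraMap O F) =
      (ρ x).1.map (algebraMap O F) * (ρ y).1.map (algebraMap O F) := by
  rw [map_mul, Units.val_mul, Matrix.map_mul]

private theorem Rb_gop_mul {F : Type} [Field F] {n : ℕ} (O : ValuationSubring F)
    (ρ : Art (BM n) →* GL (Pr n) O) (χ : Art (BM n) →* Fˣ) (x y : Art (BM n)) (v : Pr n → F) :
    gop n O ρ χ (x * y) v = gop n O ρ χ x (gop n O ρ χ y v) := by
  rw [Rb_gop_apply, Rb_gop_apply, Rb_gop_apply, Rb_map_mul, Matrix.mulVec_smul, smul_smul,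
    Matrix.mulVec_mulVec, map_mul, mul_inv, Units.val_mul]

private theorem Rb_gop_one {F : Type} [Field F] {n : ℕ} (O : ValuationSubring F)
    (ρ : Art (BM n) →* GL (Pr n) O) (χ : Art (BM n) →* Fˣ) (v : Pr n → F) :
    gop n O ρ χ 1 v = v := by
  rw [Rb_gop_apply]
  simp

private theorem Rb_ne {F : Type} [Field F] {O : ValuationSubring F} {a : O}
    {q : IsLocalRing.ResidueField O} (h : IsLocalRing.residue O a = q) (hq : q ≠ 0) :
    IsUnit (a : F) := by
  rw [isUnit_iff_ne_zero]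
  intro h0
  have h1 : a = 0 := Subtype.ext h0
  rw [h1, map_zero] at h
  exact hq h.symm

theorem pRb (hDat : SDat) (hHb : SHb) (hHc : SHc) (hHu : SHu) (hBz : SBz) (hBr : SBr)
    (hBg : SBg) : SRb := by
  intro n hn F _ _ O q P L hG ρ hρ
  obtain ⟨lam, mu, tau, l, a, b, c, a', b', f, al, be, ga, ze, u, v, hD⟩ :=
    hDat n hn F O q P L hG ρ hρ
  obtain ⟨q', P', L', χ, v1, rq, rP, rL, hB⟩ := hHb n hn F O q P L hG ρ hρ lam mu tau l a b c
    a' b' f al be ga ze u v hD
  obtain ⟨hb4, hbr, hco, -, -, hcl⟩ := hBg n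
  have hRel : RelB n (fun i => gop n O ρ χ (bg n i)) := by
    refine ⟨fun i h1 hi x => ?_, fun i j hij hj x => ?_, fun x => ?_⟩
    · simp only [← Rb_gop_mul, ← mul_assoc]
      rw [hbr i h1 hi]
    · simp only [← Rb_gop_mul]
      rw [hco i j hij]
    · simp only [← Rb_gop_mul, ← mul_assoc]
      rw [hb4 (by omega)]
  have uq := Rb_ne rq hG.q0
  have uP := Rb_ne rP hG.P0
  have uL := Rb_ne rL hG.L0
  obtain ⟨w, hw0, -, hC⟩ := hHc F (Pr n → F) n hn _ (q' : F) P' L' _ v1 uq.ne_zero hRel hB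
  obtain ⟨Θ, hΘ0, hΘ⟩ := hHu F (Pr n → F) n (by omega) _ (q' : F) P' L' w uq.ne_zero hRel hC
  have hrep := (hBr.1 F n (q' : F) P' L' uq uP uL).1
  have key : ∀ x y, Θ ((Brep n (q' : F) (P' : F) (L' : F) x).1.mulVec y) =
      gop n O ρ χ x (Θ y) := by
    intro x
    have hx : x ∈ Subgroup.closure {x | ∃ i, i < n ∧ x = bg n i} := by
      rw [hcl]
      trivial
    induction hx using Subgroup.closure_induction with
    | mem x hx =>
      obtain ⟨i, hi, rfl⟩ := hx
      intro y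
      rw [hrep i hi]
      exact hΘ i hi y
    | one =>
      intro y
      rw [map_one, Rb_gop_one]
      simp
    | mul x y _ _ hx hy =>
      intro z
      rw [map_mul, Units.val_mul, ← Matrix.mulVec_mulVec, hx, hy, Rb_gop_mul]
    | inv x _ hx =>
      intro y
      have h := hx ((Brep n (q' : F) (P' : F) (L' : F) x⁻¹).1.mulVec y)
      rw [Matrix.mulVec_mulVec, ← Units.val_mul, ← map_mul, mul_inv_cancel, map_one,
        Units.val_one, Matrix.one_mulVec] at h
      rw [h, ← Rb_gop_mul, inv_mul_cancel, Rb_gop_one]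
  have hsurj : Function.Surjective Θ := by
    rw [← LinearMap.range_eq_top, eq_top_iff,
      ← hBz n hn F O q P L hG ρ hρ u hD.ru]
    refine Submodule.span_le.mpr ?_
    rintro _ ⟨x, rfl⟩
    have h := key x (yv n 0 1)
    rw [hΘ0, hw0, Rb_gop_apply] at h
    have h2 : ((ρ x).1.map (algebraMap O F)).mulVec (fun i => (u i : F)) =
        Θ ((χ x : F) • (Brep n (q' : F) (P' : F) (L' : F) x).1.mulVec (yv n 0 1)) := by
      rw [map_smul, h, smul_smul, Units.mul_inv, one_smul]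
    rw [h2]
    exact LinearMap.mem_range_self Θ _
  have hinj : Function.Injective Θ := LinearMap.injective_iff_surjective.mpr hsurj
  have hU : IsUnit Θ := (LinearMap.isUnit_iff_ker_eq_bot Θ).mpr (LinearMap.ker_eq_bot.mpr hinj)
  have hM : IsUnit (LinearMap.toMatrix' Θ) := by
    obtain ⟨v, hv⟩ := hU
    refine ⟨⟨LinearMap.toMatrix' Θ, LinearMap.toMatrix' (v⁻¹ : _).1, ?_, ?_⟩, rfl⟩
    · rw [← hv, ← LinearMap.toMatrix'_mul, Units.mul_inv, LinearMap.toMatrix'_one]
    · rw [← hv, ← LinearMap.toMatrix'_mul, Units.inv_mul, LinearMap.toMatrix'_one]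
  obtain ⟨g, hg⟩ := hM
  refine ⟨q', P', L', χ, g, rq, rP, rL, fun x => ?_⟩
  have h1 : g.1 * (Brep n (q' : F) (P' : F) (L' : F) x).1 =
      ((χ x)⁻¹ : Fˣ).1 • ((ρ x).1.map (algebraMap O F) * g.1) := by
    refine Matrix.ext_of_mulVec_single fun b => ?_
    have h2 := key x (Pi.single b 1)
    rw [Rb_gop_apply] at h2
    rw [← Matrix.mulVec_mulVec, Matrix.smul_mulVec, ← Matrix.mulVec_mulVec, hg,
      LinearMap.toMatrix'_mulVec, LinearMap.toMatrix'_mulVec]
    exact h2
  rw [h1, smul_mul_assoc, mul_assoc, ← Units.val_mul, mul_inv_cancel, Units.val_one, mul_one,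
    smul_smul, Units.mul_inv, one_smul]

end Pool.Agent.Lib.MP_97567f_al.U.TB
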