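import Pool.Agent.Lib.MP_97567f_al.U.SpecB

/-!
# MP_97567f_al, module U/TB/Rg: generators of `R3`
-/

set_option autoImplicit false

namespace Pool.Agent.Lib.MP_97567f_al.U.TB

open MvPolynomial

private theorem Rg_poly (A : Subalgebra ℂ R3) (h : ∀ i : Fin 3, rr i ∈ A) (f : P3) :
    algebraMap P3 R3 f ∈ A := by
  induction f using MvPolynomial.induction_on with
  | C c =>
    have e : algebraMap P3 R3 (C c) = algebraMap ℂ R3 c := by
      rw [← MvPolynomial.algebraMap_eq, ← IsScalarTower.algebraMap_apply]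
    rw [e]
    exact A.algebraMap_mem c
  | add p q hp hq =>
    rw [map_add]
    exact A.add_mem hp hq
  | mul_X p i hp =>
    rw [map_mul]
    refine A.mul_mem hp ?_
    have hi := h i
    fin_cases i
    · exact hi
    · exact hi
    · exact hi

theorem pRg : SRg := by
  intro A hA
  rw [eq_top_iff]
  rintro x -
  obtain ⟨w0, hw0, e0⟩ := (hA 0).2
  obtain ⟨w1, hw1, e1⟩ := (hA 1).2
  obtain ⟨w2, hw2, e2⟩ := (hA 2).2
  have e0' : r0 * w0 = 1 := e0
  have e1' : r1 * w1 = 1 := e1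
  have e2' : r2 * w2 = 1 := e2
  obtain ⟨n, f, hf⟩ := IsLocalization.Away.surj (X 0 * X 1 * X 2 : P3) x
  have hX : algebraMap P3 R3 (X 0 * X 1 * X 2) = r0 * r1 * r2 := by
    rw [map_mul, map_mul]; rfl
  have hone : (r0 * r1 * r2) * (w0 * w1 * w2) = 1 := by
    calc (r0 * r1 * r2) * (w0 * w1 * w2) = (r0 * w0) * (r1 * w1) * (r2 * w2) := by ring
      _ = 1 := by rw [e0', e1', e2', mul_one, mul_one]
  have hx : x = algebraMap P3 R3 f * (w0 * w1 * w2) ^ n := by
    rw [← hf, hX, mul_assoc, ← mul_pow, hone, one_pow, mul_one]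
  rw [hx]
  exact A.mul_mem (Rg_poly A (fun i => (hA i).1) f)
    (A.pow_mem (A.mul_mem (A.mul_mem hw0 hw1) hw2) n)

end Pool.Agent.Lib.MP_97567f_al.U.TB
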