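import Pool.Agent.Lib.MP_97567f_al.U.SpecB

/-!
# MP_97567f_al: type `B`: two generators of type `A 2`
-/

set_option autoImplicit false

namespace Pool.Agent.Lib.MP_97567f_al.U.TB

section gen

set_option linter.unusedSectionVars false

variable {F : Type} [Field F] {O : ValuationSubring F} {ι : Type} [Fintype ι] [DecidableEq ι]

private theorem Va_red (A : Matrix ι ι O) (x : ι → O) :
    (fun i => IsLocalRing.residue O (A.mulVec x i)) =
      (A.map (IsLocalRing.residue O)).mulVec (fun i => IsLocalRing.residue O (x i)) :=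
  funext fun i => RingHom.map_mulVec _ _ _ i

private theorem Va_up (A : Matrix ι ι O) (x : ι → O) :
    (fun i => ((A.mulVec x i : O) : F)) =
      (A.map (algebraMap O F)).mulVec (fun i => (x i : F)) :=
  funext fun i => RingHom.map_mulVec (algebraMap O F) _ _ i

private theorem Va_unit {a : O} (h : IsLocalRing.residue O a ≠ 0) : IsUnit a := by
  by_contra h1
  exact h ((IsLocalRing.residue_eq_zero_iff _).2 ((IsLocalRing.mem_maximalIdeal _).2 h1))

/-- multiples over `F` are multiples over `O` -/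
private theorem Va_mult {x v : ι → O} (hv : (fun i => IsLocalRing.residue O (v i)) ≠ 0)
    (hx : ∃ c : F, (fun i => (x i : F)) = fun i => c * (v i : F)) : ∃ k : O, x = k • v := by
  obtain ⟨c, hcx⟩ := hx
  obtain ⟨i0, hi0⟩ : ∃ i, IsLocalRing.residue O (v i) ≠ 0 := by
    by_contra hne
    push Not at hne
    exact hv (funext hne)
  obtain ⟨u, hu⟩ := Va_unit hi0
  have h3 : c = ((x i0 * (u⁻¹ : Oˣ) : O) : F) := by
    have h4 := congrFun hcx i0
    have h5 : (((u : O) : F)) * (((u⁻¹ : Oˣ) : O) : F) = 1 := by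
      have h6 : (u : O) * ((u⁻¹ : Oˣ) : O) = 1 := Units.mul_inv u
      exact_mod_cast congrArg (fun z : O => (z : F)) h6
    have h7 : ((x i0 * (u⁻¹ : Oˣ) : O) : F) = (x i0 : F) * (((u⁻¹ : Oˣ) : O) : F) := rfl
    rw [h7]
    beta_reduce at h4
    rw [h4, ← hu, mul_assoc, h5, mul_one]
  refine ⟨x i0 * (u⁻¹ : Oˣ), funext fun i => Subtype.val_injective ?_⟩
  have h8 := congrFun hcx i
  rw [h3] at h8
  exact h8

/-- independence over `O` -/
private theorem Va_ind {w : Fin 3 → ι → O}
    (hli : LinearIndependent (IsLocalRing.ResidueField O)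
      (fun k i => IsLocalRing.residue O (w k i))) (h3 : SVLI) (a b c : O)
    (h : a • w 0 + b • w 1 + c • w 2 = 0) : a = 0 ∧ b = 0 ∧ c = 0 := by
  have hliF := (h3 F O ι (Fin 3) w hli).1
  rw [Fintype.linearIndependent_iff] at hliF
  have h4 := hliF ![(a : F), (b : F), (c : F)] (by
    rw [Fin.sum_univ_three]
    funext i
    have h5 := congrArg (fun z : O => (z : F)) (congrFun h i)
    exact h5)
  exact ⟨Subtype.val_injective (h4 0), Subtype.val_injective (h4 1), Subtype.val_injective (h4 2)⟩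

/-- the kernel is spanned by three vectors -/
private theorem Va_ker {w : Fin 3 → ι → O}
    (hli : LinearIndependent (IsLocalRing.ResidueField O)
      (fun k i => IsLocalRing.residue O (w k i))) (h3 : SVLI) (h4 : SVKer) (G : Matrix ι ι O)
    (hdim : Module.finrank (IsLocalRing.ResidueField O)
        (LinearMap.ker (G.map (IsLocalRing.residue O)).mulVecLin) ≤ 3)
    (hw : ∀ k, G.mulVec (w k) = 0) (x : ι → O) (hx : G.mulVec x = 0) :
    ∃ c0 c1 c2 : O, x = c0 • w 0 + c1 • w 1 + c2 • w 2 := by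
  have hker : ∀ y : ι → O, G.mulVec y = 0 →
      (fun i => (y i : F)) ∈ LinearMap.ker ((G.map (algebraMap O F)).mulVecLin) := by
    intro y hy
    rw [LinearMap.mem_ker, Matrix.mulVecLin_apply, ← Va_up, hy]
    rfl
  obtain ⟨hliF, hint⟩ := h3 F O ι (Fin 3) w hli
  have hle : Submodule.span F (Set.range (fun (m : Fin 3) i => (((w m) i : O) : F))) ≤
      LinearMap.ker ((G.map (algebraMap O F)).mulVecLin) := by
    rw [Submodule.span_le]
    rintro _ ⟨m, rfl⟩
    exact hker _ (hw m)
  have heq := Submodule.eq_of_le_of_finrank_le hle (by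
    rw [finrank_span_eq_card hliF, Fintype.card_fin]
    exact (h4 F O ι G).trans hdim)
  have hmem := hker _ hx
  rw [← heq, Submodule.mem_span_range_iff_exists_fun] at hmem
  obtain ⟨c, hc3⟩ := hmem
  have hcO := hint x c (fun i => by
    have h6 := congrFun hc3 i
    rw [Finset.sum_apply] at h6
    exact h6.symm)
  refine ⟨⟨c 0, hcO 0⟩, ⟨c 1, hcO 1⟩, ⟨c 2, hcO 2⟩, ?_⟩
  funext i
  apply Subtype.val_injective
  have h6 := congrFun hc3 i
  rw [Finset.sum_apply, Fin.sum_univ_three] at h6
  exact h6.symm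

end gen

theorem pVa (h1 : SVLI) (h2 : SVKer) : SVa := by
  intro F _ O ι _ _ S T l' v q l z0 hbr hSv hl' hl0 hq0 hsgl S0 T0 v0 hS0 hT0 hv0 hli hTT hz0 hfin
  have hbr' : S.1 * T.1 * S.1 = T.1 * S.1 * T.1 := by
    have h6 := congrArg (fun x : GL ι O => x.1) hbr
    simpa only [Units.val_mul] using h6
  -- braid relation on vectors
  have hbv : ∀ x, S.1.mulVec (T.1.mulVec (S.1.mulVec x)) =
      T.1.mulVec (S.1.mulVec (T.1.mulVec x)) := by
    intro x
    have h6 := congrArg (fun A => A.mulVec x) hbr'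
    beta_reduce at h6
    rwa [← Matrix.mulVec_mulVec, ← Matrix.mulVec_mulVec, ← Matrix.mulVec_mulVec,
        ← Matrix.mulVec_mulVec] at h6
  have hz : ∀ x, ((S.1 * T.1) ^ 3).mulVec x =
      S.1.mulVec (T.1.mulVec (S.1.mulVec (T.1.mulVec (S.1.mulVec (T.1.mulVec x))))) := by
    intro x
    simp only [pow_succ, pow_zero, one_mul, Matrix.mulVec_mulVec, mul_assoc]
  have hz' : ∀ x, S.1.mulVec (T.1.mulVec (S.1.mulVec (T.1.mulVec (S.1.mulVec (T.1.mulVec x))))) =
      T.1.mulVec (S.1.mulVec (T.1.mulVec (S.1.mulVec (T.1.mulVec (S.1.mulVec x))))) := by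
    intro x
    rw [hbv (T.1.mulVec (S.1.mulVec (T.1.mulVec x))), ← hbv x]
  have hv0ne : (fun i => IsLocalRing.residue O (v i)) ≠ 0 := by
    rw [← hv0]
    exact hli.ne_zero 0
  -- multiples of `v`
  have hsing : ∀ x : ι → O, S.1.mulVec x = l' • x → ∃ k : O, x = k • v := by
    intro x hx
    refine Va_mult hv0ne (hsgl _ ?_)
    rw [← Va_up, hx]
    rfl
  -- `S` and `T` are injective
  have hSinj : ∀ x : ι → O, S.1.mulVec x = 0 → x = 0 := by
    intro x hx
    have h6 : (S⁻¹).1.mulVec (S.1.mulVec x) = x := by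
      rw [Matrix.mulVec_mulVec, ← Units.val_mul, inv_mul_cancel, Units.val_one, Matrix.one_mulVec]
    rw [← h6, hx, Matrix.mulVec_zero]
  -- `z` commutes with `S` and `T`
  have hzS : ∀ (ze : O) x, ((S.1 * T.1) ^ 3).mulVec x = ze • x →
      ((S.1 * T.1) ^ 3).mulVec (S.1.mulVec x) = ze • S.1.mulVec x := by
    intro ze x hx
    rw [hz] at hx ⊢
    rw [← hz', hx, Matrix.mulVec_smul]
  have hzT : ∀ (ze : O) x, ((S.1 * T.1) ^ 3).mulVec x = ze • x →
      ((S.1 * T.1) ^ 3).mulVec (T.1.mulVec x) = ze • T.1.mulVec x := by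
    intro ze x hx
    rw [hz] at hx ⊢
    rw [hz', ← Matrix.mulVec_smul, ← hx]
  obtain ⟨ze, hze⟩ := hsing (((S.1 * T.1) ^ 3).mulVec v) (by
    rw [hz]
    have h7 : S.1.mulVec (S.1.mulVec (T.1.mulVec (S.1.mulVec (T.1.mulVec (S.1.mulVec (T.1.mulVec
        v)))))) = S.1.mulVec (T.1.mulVec (S.1.mulVec (T.1.mulVec (S.1.mulVec (T.1.mulVec
        (S.1.mulVec v)))))) := by
      rw [hz' v]
    rw [h7, hSv]
    simp only [Matrix.mulVec_smul])
  have hv0r : (fun i => IsLocalRing.residue O (((S.1 * T.1) ^ 3).mulVec v i)) =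
      ((S0 * T0) ^ 3).mulVec v0 := by
    rw [Va_red, hv0, hS0, hT0]
    congr 1
    rw [← RingHom.mapMatrix_apply, ← RingHom.mapMatrix_apply, ← RingHom.mapMatrix_apply, map_pow,
      map_mul]
  have hzer : IsLocalRing.residue O ze = z0 := by
    rw [hz0, hze, hv0] at hv0r
    obtain ⟨i0, hi0⟩ : ∃ i, IsLocalRing.residue O (v i) ≠ 0 := by
      by_contra hne
      push Not at hne
      exact hv0ne (funext hne)
    have h6 := congrFun hv0r i0
    simp only [Pi.smul_apply, smul_eq_mul, map_mul] at h6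
    exact mul_right_cancel₀ hi0 h6
  -- the three vectors
  set w : Fin 3 → ι → O := ![v, T.1.mulVec v, S.1.mulVec (T.1.mulVec v)] with hw
  have hrT : (fun i => IsLocalRing.residue O (T.1.mulVec v i)) = T0.mulVec v0 := by
    rw [Va_red, hv0, hT0]
  have hrST : (fun i => IsLocalRing.residue O (S.1.mulVec (T.1.mulVec v) i)) =
      S0.mulVec (T0.mulVec v0) := by
    rw [Va_red, hrT, hS0]
  have hrTT : (fun i => IsLocalRing.residue O (T.1.mulVec (T.1.mulVec v) i)) =
      T0.mulVec (T0.mulVec v0) := by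
    rw [Va_red, hrT, hT0]
  have hliw : LinearIndependent (IsLocalRing.ResidueField O)
      (fun k i => IsLocalRing.residue O (w k i)) := by
    have e1 : (fun (m : Fin 3) i => IsLocalRing.residue O (w m i)) =
        ![v0, T0.mulVec v0, S0.mulVec (T0.mulVec v0)] := by
      funext m
      fin_cases m
      · exact hv0.symm
      · exact hrT
      · exact hrST
    rw [e1]
    exact hli
  have hmap : ((S.1 * T.1) ^ 3 - ze • (1 : Matrix ι ι O)).map (IsLocalRing.residue O) =
      (S0 * T0) ^ 3 - z0 • (1 : Matrix ι ι (IsLocalRing.ResidueField O)) := by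
    have e1 : ((S.1 * T.1) ^ 3).map (IsLocalRing.residue O) = (S0 * T0) ^ 3 := by
      rw [hS0, hT0, ← RingHom.mapMatrix_apply, ← RingHom.mapMatrix_apply,
        ← RingHom.mapMatrix_apply, map_pow, map_mul]
    rw [← e1]
    ext i j
    simp only [Matrix.map_apply, Matrix.sub_apply, Matrix.smul_apply, smul_eq_mul, map_sub,
      map_mul, hzer, Matrix.one_apply]
    split_ifs
    · rw [map_one]
    · rw [map_zero]
  have hG : ∀ x, ((S.1 * T.1) ^ 3).mulVec x = ze • x →
      ((S.1 * T.1) ^ 3 - ze • (1 : Matrix ι ι O)).mulVec x = 0 := by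
    intro x hx
    rw [Matrix.sub_mulVec, Matrix.smul_mulVec, Matrix.one_mulVec, hx, sub_self]
  have hzv := hze
  have hzTv := hzT ze _ hzv
  have hzw := hzS ze _ hzTv
  have hzTTv := hzT ze _ hzTv
  obtain ⟨c0, c1, c2, hrel⟩ := Va_ker hliw h1 h2 ((S.1 * T.1) ^ 3 - ze • (1 : Matrix ι ι O))
    (by rw [hmap]; exact hfin) (by
      intro k
      fin_cases k
      · exact hG _ hzv
      · exact hG _ hzTv
      · exact hG _ hzw) (T.1.mulVec (T.1.mulVec v)) (hG _ hzTTv)
  have hind := fun a b c h => Va_ind hliw h1 a b c h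
  have hw0 : w 0 = v := rfl
  have hw1 : w 1 = T.1.mulVec v := rfl
  have hw2 : w 2 = S.1.mulVec (T.1.mulVec v) := rfl
  rw [hw0, hw1, hw2] at hrel
  rw [hw0, hw1, hw2] at hind
  -- the residues
  have hres : (IsLocalRing.residue O c0 - q) • v0 + (IsLocalRing.residue O c1 - (1 - q)) •
      T0.mulVec v0 + (IsLocalRing.residue O c2 + ((1 - q) * l * q⁻¹)) •
      S0.mulVec (T0.mulVec v0) = 0 := by
    have h6 : T0.mulVec (T0.mulVec v0) = IsLocalRing.residue O c0 • v0 +
        IsLocalRing.residue O c1 • T0.mulVec v0 +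
        IsLocalRing.residue O c2 • S0.mulVec (T0.mulVec v0) := by
      rw [← hrTT, hrel, ← hrST, ← hrT, hv0]
      funext i
      simp only [Pi.add_apply, Pi.smul_apply, smul_eq_mul, map_add, map_mul]
    rw [hTT] at h6
    funext i
    have h7 := congrFun h6 i
    simp only [Pi.add_apply, Pi.sub_apply, Pi.smul_apply, smul_eq_mul, Pi.zero_apply] at h7 ⊢
    linear_combination -h7
  rw [Fintype.linearIndependent_iff] at hli
  have hres' := hli ![IsLocalRing.residue O c0 - q, IsLocalRing.residue O c1 - (1 - q),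
    IsLocalRing.residue O c2 + ((1 - q) * l * q⁻¹)] (by
      rw [Fin.sum_univ_three]
      exact hres)
  have r0 : IsLocalRing.residue O c0 = q := sub_eq_zero.1 (hres' 0)
  have r1 : IsLocalRing.residue O c1 = 1 - q := sub_eq_zero.1 (hres' 1)
  have ul' : IsUnit l' := Va_unit (by rw [hl']; exact hl0)
  -- the second relation
  set w3 := S.1.mulVec (T.1.mulVec v) with hw3
  have htw : T.1.mulVec w3 = l' • w3 := by
    rw [hw3, ← hbv, hSv]
    simp only [Matrix.mulVec_smul]
  obtain ⟨ka, hka⟩ := hsing (T.1.mulVec (S.1.mulVec w3)) (by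
    rw [hbv, htw]
    simp only [Matrix.mulVec_smul])
  have hSSw : S.1.mulVec (S.1.mulVec w3) = c1 • S.1.mulVec w3 + c0 • w3 + (c2 * ka) • v := by
    have e1 : S.1.mulVec (T.1.mulVec (S.1.mulVec (T.1.mulVec (T.1.mulVec v)))) =
        l' • S.1.mulVec (S.1.mulVec w3) := by
      rw [← hbv, ← hbv, hSv]
      simp only [Matrix.mulVec_smul]
      rfl
    have e2 : S.1.mulVec (T.1.mulVec (S.1.mulVec (T.1.mulVec (T.1.mulVec v)))) =
        l' • (c1 • S.1.mulVec w3 + c0 • w3 + (c2 * ka) • v) := by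
      rw [hrel]
      simp only [Matrix.mulVec_add, Matrix.mulVec_smul]
      rw [← hbv v, hSv, hka]
      simp only [Matrix.mulVec_smul]
      rw [hSv]
      change c0 • l' • w3 + c1 • l' • S.1.mulVec w3 + c2 • ka • l' • v = _
      module
    rw [e1] at e2
    exact ul'.smul_left_cancel.1 e2
  have hSw : l' • (S.1.mulVec w3 - c1 • w3 - c0 • T.1.mulVec v) = (c2 * ka) • v := by
    rw [← sub_eq_zero]
    apply hSinj
    simp only [Matrix.mulVec_sub, Matrix.mulVec_smul]
    rw [hSSw, hSv, ← hw3]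
    module
  have hfinal := congrArg (fun x => T.1.mulVec x) hSw
  simp only [Matrix.mulVec_sub, Matrix.mulVec_smul] at hfinal
  rw [hka, htw, hrel] at hfinal
  obtain ⟨e0, e1, e2⟩ := hind (l' * (ka - c0 * c0)) (-(l' * (c0 * c1)) - c2 * ka)
    (l' * (-(c1 * l') - c0 * c2)) (by
      rw [← sub_eq_zero] at hfinal
      rw [← hfinal]
      module)
  have f0 : ka = c0 * c0 := by
    have h6 : l' * ka = l' * (c0 * c0) := by linear_combination e0
    exact ul'.mul_left_cancel h6
  have f2 : -(c0 * c2) = c1 * l' := by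
    have h6 : l' * (-(c0 * c2)) = l' * (c1 * l') := by linear_combination e2
    exact ul'.mul_left_cancel h6
  have hSw' : S.1.mulVec w3 = c1 • w3 - (-c0) • T.1.mulVec v + (c1 * (-c0)) • v := by
    refine ul'.smul_left_cancel.1 ?_
    have h6 : l' • S.1.mulVec w3 = l' • (c1 • w3 + c0 • T.1.mulVec v) + (c2 * ka) • v := by
      rw [← hSw]
      module
    rw [h6]
    have h7 : c2 * ka = l' * (c1 * (-c0)) := by linear_combination -e1
    rw [h7]
    module
  refine ⟨c1, -c0, c2, r1, by rw [map_neg, r0], by linear_combination f2, ?_, htw, hSw', ?_, ?_⟩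
  · rw [hrel]
    module
  · rw [hka, f0]
    congr 1
    ring
  · -- eigenvectors of `T`
    intro x hx
    set SF := S.1.map (algebraMap O F) with hSF
    set TF := T.1.map (algebraMap O F) with hTF
    have hbF : TF * (SF * TF) = (SF * TF) * SF := by
      rw [hSF, hTF, ← RingHom.mapMatrix_apply, ← RingHom.mapMatrix_apply, ← map_mul, ← map_mul,
        ← map_mul, ← mul_assoc, ← hbr']
    set VF := (S⁻¹).1.map (algebraMap O F) with hVF
    set WF := (T⁻¹).1.map (algebraMap O F) with hWF
    have hVS : VF * SF = 1 := by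
      rw [hSF, hVF, ← RingHom.mapMatrix_apply, ← RingHom.mapMatrix_apply, ← map_mul,
        ← Units.val_mul, inv_mul_cancel, Units.val_one, map_one]
    have hSV : SF * VF = 1 := by
      rw [hSF, hVF, ← RingHom.mapMatrix_apply, ← RingHom.mapMatrix_apply, ← map_mul,
        ← Units.val_mul, mul_inv_cancel, Units.val_one, map_one]
    have hWT : WF * TF = 1 := by
      rw [hTF, hWF, ← RingHom.mapMatrix_apply, ← RingHom.mapMatrix_apply, ← map_mul,
        ← Units.val_mul, inv_mul_cancel, Units.val_one, map_one]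
    have hTW : TF * WF = 1 := by
      rw [hTF, hWF, ← RingHom.mapMatrix_apply, ← RingHom.mapMatrix_apply, ← map_mul,
        ← Units.val_mul, mul_inv_cancel, Units.val_one, map_one]
    have hcan : SF.mulVec (TF.mulVec (WF.mulVec (VF.mulVec x))) = x := by
      simp only [Matrix.mulVec_mulVec]
      rw [← mul_assoc TF, hTW, one_mul, hSV, Matrix.one_mulVec]
    obtain ⟨c, hc⟩ := hsgl (WF.mulVec (VF.mulVec x)) (by
      have h6 : SF.mulVec (TF.mulVec (SF.mulVec (WF.mulVec (VF.mulVec x)))) =
          (l' : F) • SF.mulVec (TF.mulVec (WF.mulVec (VF.mulVec x))) := by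
        have h7 := congrArg (fun A => A.mulVec (WF.mulVec (VF.mulVec x))) hbF
        beta_reduce at h7
        simp only [← Matrix.mulVec_mulVec] at h7
        rw [← h7, hcan, hx]
      have h8 := congrArg (fun y => WF.mulVec (VF.mulVec y)) h6
      beta_reduce at h8
      simp only [Matrix.mulVec_smul, Matrix.mulVec_mulVec] at h8
      have h9 : WF * VF * SF * TF = 1 := by
        rw [mul_assoc WF, hVS, mul_one, hWT]
      have h10 : ∀ y, (WF * VF * (SF * (TF * (SF * (WF * VF))))).mulVec y =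
          (SF * (WF * VF)).mulVec y := by
        intro y
        congr 1
        calc WF * VF * (SF * (TF * (SF * (WF * VF)))) = (WF * VF * SF * TF) * (SF * (WF * VF)) := by
              simp only [mul_assoc]
          _ = _ := by rw [h9, one_mul]
      have h11 : ∀ y, (WF * VF * (SF * (TF * (WF * VF)))).mulVec y = (WF * VF).mulVec y := by
        intro y
        congr 1
        calc WF * VF * (SF * (TF * (WF * VF))) = (WF * VF * SF * TF) * (WF * VF) := by
              simp only [mul_assoc]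
          _ = _ := by rw [h9, one_mul]
      simp only [Matrix.mulVec_mulVec]
      simp only [mul_assoc] at h8 h10 h11 ⊢
      rw [h10, h11] at h8
      exact h8)
    refine ⟨c, ?_⟩
    rw [← hcan, hc]
    have h6 : (fun i => c * (v i : F)) = c • fun i => (v i : F) := rfl
    rw [h6]
    simp only [Matrix.mulVec_smul]
    rw [hSF, hTF, ← Va_up, ← Va_up]
    rfl

end Pool.Agent.Lib.MP_97567f_al.U.TB
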