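import Pool.Agent.Lib.MP_97567f_al.U.Red
import Pool.Agent.Lib.MP_97567f_al.U.TB.Bg
import Pool.Agent.Lib.MP_97567f_al.U.TB.Ag
import Pool.Agent.Lib.MP_97567f_al.U.TB.Phi
import Pool.Agent.Lib.MP_97567f_al.U.TB.Asl
import Pool.Agent.Lib.MP_97567f_al.U.TB.Ba
import Pool.Agent.Lib.MP_97567f_al.U.TB.Bb
import Pool.Agent.Lib.MP_97567f_al.U.TB.Bc
import Pool.Agent.Lib.MP_97567f_al.U.TB.Bq
import Pool.Agent.Lib.MP_97567f_al.U.TB.Br
import Pool.Agent.Lib.MP_97567f_al.U.TB.Bd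
import Pool.Agent.Lib.MP_97567f_al.U.TB.Af
import Pool.Agent.Lib.MP_97567f_al.U.TB.Bf
import Pool.Agent.Lib.MP_97567f_al.U.TB.By
import Pool.Agent.Lib.MP_97567f_al.U.TB.Bm
import Pool.Agent.Lib.MP_97567f_al.U.TB.Bi
import Pool.Agent.Lib.MP_97567f_al.U.TB.Bo
import Pool.Agent.Lib.MP_97567f_al.U.TB.Be
import Pool.Agent.Lib.MP_97567f_al.U.TB.Ru
import Pool.Agent.Lib.MP_97567f_al.U.TB.Rs
import Pool.Agent.Lib.MP_97567f_al.U.TB.Rf
import Pool.Agent.Lib.MP_97567f_al.U.TB.Rk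
import Pool.Agent.Lib.MP_97567f_al.U.TB.Rg
import Pool.Agent.Lib.MP_97567f_al.U.TB.Bn
import Pool.Agent.Lib.MP_97567f_al.U.TB.Ch
import Pool.Agent.Lib.MP_97567f_al.U.TB.Bh
import Pool.Agent.Lib.MP_97567f_al.U.TB.Beig
import Pool.Agent.Lib.MP_97567f_al.U.TB.Bj
import Pool.Agent.Lib.MP_97567f_al.U.TB.Bfin
import Pool.Agent.Lib.MP_97567f_al.U.TB.Kb
import Pool.Agent.Lib.MP_97567f_al.U.TB.Ka
import Pool.Agent.Lib.MP_97567f_al.U.TB.Va
import Pool.Agent.Lib.MP_97567f_al.U.TB.Vb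
import Pool.Agent.Lib.MP_97567f_al.U.TB.Co
import Pool.Agent.Lib.MP_97567f_al.U.TB.Cp
import Pool.Agent.Lib.MP_97567f_al.U.TB.Hc
import Pool.Agent.Lib.MP_97567f_al.U.TB.Hu
import Pool.Agent.Lib.MP_97567f_al.U.TB.R1
import Pool.Agent.Lib.MP_97567f_al.U.TB.Hb
import Pool.Agent.Lib.MP_97567f_al.U.TB.Dat
import Pool.Agent.Lib.MP_97567f_al.U.TB.Bz
import Pool.Agent.Lib.MP_97567f_al.U.TB.Rb
import Pool.Agent.Lib.MP_97567f_al.U.TB.Brig
import Pool.Agent.Lib.MP_97567f_al.U.TB.Bgood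

/-!
# MP_97567f_al: type `B`, assembled
-/

set_option autoImplicit false

namespace Pool.Agent.Lib.MP_97567f_al.U.TB

theorem bBg : SBg := pBg pArt
theorem bAg : SAg := pAg pArt
theorem bPhi : SPhi := pPhi bBg bAg
theorem bBb : SBb := pBb pBa
theorem bBc : SBc := pBc pBa
theorem bBq : SBq := pBq pBa
theorem bBr : SBr := pBr bBg bAg bBb bBc bBq pBa
theorem bBd : SBd := pBd pBa bBr bBg
theorem bAf : SAf := pAf pAsl pRF1 pRF2 pRF3 pFHex aUniv aIrr aFai pBa bBr aLKr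
theorem bBf : SBf := pBf bPhi bAf bBd bBr
theorem bBy : SBy := pBy pBa bBr
theorem bBm : SBm := pBm pBa bBr
theorem bBi : SBi := pBi bBq bBr bBy bBm
theorem bBo : SBo := pBo pBa
theorem bBn : SBn := pBn bBr pBa pRg
theorem bBh : SBh := pBh pCh bBq pBa
theorem bBeig : SBeig := pBeig bBh bBr bBg pRg
theorem bBj : SBj := pBj pJle bBr bBo pBe pRs bBg
theorem bRf : SRf := pRf pRu pRs
theorem bBfin : SBfin := pBfin bBj bBi pJst pJnz pRs bRf
theorem bKb : SKb := pKb pBa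
theorem bKa : SKa := pKa pBa
theorem bVa : SVa := pVa pVLI aVKer
theorem bVb : SVb := pVb pVLI aVKer aVEig
theorem bHu : SHu := pHu pBa
theorem bR1 : SR1 := pR1 aVEig pBa bBq bBg
theorem bDat : SDat := pDat bR1 bVa bVb bKa bKb pBa bBq bBg
theorem bHb : SHb := pHb pCo pCp pVLI pBa bBg
theorem bBz : SBz := pBz bBy pVLI bBr bBg
theorem bRb : SRb := pRb bDat bHb pHc bHu bBz bBr bBg
theorem bBrig : SBrig := pBrig bRb bBr

/-- **Type `B`.** -/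
theorem bBgood : SBgood :=
  pBgood uRen uMach uRT pAbO uAbI bBrig bBn bBi bBeig bBfin bBf bBo bBr bBg pRk

end Pool.Agent.Lib.MP_97567f_al.U.TB
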