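import Pool.Agent.Lib.MP_97567f_al.U.SpecB

/-!
# MP_97567f_al: type `B`: two generators of type `B 2`
-/

set_option autoImplicit false

namespace Pool.Agent.Lib.MP_97567f_al.U.TB

section gen

set_option linter.unusedSectionVars false

variable {F : Type} [Field F] {O : ValuationSubring F} {ι : Type} [Fintype ι] [DecidableEq ι]

private theorem Vb_red (A : Matrix ι ι O) (x : ι → O) :
    (fun i => IsLocalRing.residue O (A.mulVec x i)) =
      (A.map (IsLocalRing.residue O)).mulVec (fun i => IsLocalRing.residue O (x i)) :=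
  funext fun i => RingHom.map_mulVec _ _ _ i

private theorem Vb_up (A : Matrix ι ι O) (x : ι → O) :
    (fun i => ((A.mulVec x i : O) : F)) =
      (A.map (algebraMap O F)).mulVec (fun i => (x i : F)) :=
  funext fun i => RingHom.map_mulVec (algebraMap O F) _ _ i

private theorem Vb_unit {a : O} (h : IsLocalRing.residue O a ≠ 0) : IsUnit a := by
  by_contra h1
  exact h ((IsLocalRing.residue_eq_zero_iff _).2 ((IsLocalRing.mem_maximalIdeal _).2 h1))

/-- multiples over `F` are multiples over `O` -/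
private theorem Vb_mult {x v : ι → O} (hv : (fun i => IsLocalRing.residue O (v i)) ≠ 0)
    (hx : ∃ c : F, (fun i => (x i : F)) = fun i => c * (v i : F)) : ∃ k : O, x = k • v := by
  obtain ⟨c, hcx⟩ := hx
  obtain ⟨i0, hi0⟩ : ∃ i, IsLocalRing.residue O (v i) ≠ 0 := by
    by_contra hne
    push Not at hne
    exact hv (funext hne)
  obtain ⟨u, hu⟩ := Vb_unit hi0
  have h3 : c = ((x i0 * (u⁻¹ : Oˣ) : O) : F) := by
    have h4 := congrFun hcx i0
    have h5 : (((u : O) : F)) * (((u⁻¹ : Oˣ) : O) : F) = 1 := by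
      have h6 : (u : O) * ((u⁻¹ : Oˣ) : O) = 1 := Units.mul_inv u
      exact_mod_cast congrArg (fun z : O => (z : F)) h6
    have h7 : ((x i0 * (u⁻¹ : Oˣ) : O) : F) = (x i0 : F) * (((u⁻¹ : Oˣ) : O) : F) := rfl
    rw [h7]
    beta_reduce at h4
    rw [h4, ← hu, mul_assoc, h5, mul_one]
  refine ⟨x i0 * (u⁻¹ : Oˣ), funext fun i => Subtype.val_injective ?_⟩
  have h8 := congrFun hcx i
  rw [h3] at h8
  exact h8

/-- independence over `O` -/
private theorem Vb_ind {w : Fin 3 → ι → O}
    (hli : LinearIndependent (IsLocalRing.ResidueField O)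
      (fun k i => IsLocalRing.residue O (w k i))) (h3 : SVLI) (a b c : O)
    (h : a • w 0 + b • w 1 + c • w 2 = 0) : a = 0 ∧ b = 0 ∧ c = 0 := by
  have hliF := (h3 F O ι (Fin 3) w hli).1
  rw [Fintype.linearIndependent_iff] at hliF
  have h4 := hliF ![(a : F), (b : F), (c : F)] (by
    rw [Fin.sum_univ_three]
    funext i
    have h5 := congrArg (fun z : O => (z : F)) (congrFun h i)
    exact h5)
  exact ⟨Subtype.val_injective (h4 0), Subtype.val_injective (h4 1), Subtype.val_injective (h4 2)⟩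

/-- independence over the residue field -/
private theorem Vb_ind0 {K : Type} [Field K] {w0 w1 w2 : ι → K}
    (hli : LinearIndependent K ![w0, w1, w2]) (a b c : K)
    (h : a • w0 + b • w1 + c • w2 = 0) : a = 0 ∧ b = 0 ∧ c = 0 := by
  rw [Fintype.linearIndependent_iff] at hli
  have h4 := hli ![a, b, c] (by
    rw [Fin.sum_univ_three]
    exact h)
  exact ⟨h4 0, h4 1, h4 2⟩

/-- residues of coefficients -/
private theorem Vb_res {w0 w1 w2 x : ι → O} {y0 y1 y2 y : ι → IsLocalRing.ResidueField O}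
    (h0 : y0 = fun i => IsLocalRing.residue O (w0 i))
    (h1 : y1 = fun i => IsLocalRing.residue O (w1 i))
    (h2 : y2 = fun i => IsLocalRing.residue O (w2 i))
    (h : y = fun i => IsLocalRing.residue O (x i))
    (hli : LinearIndependent (IsLocalRing.ResidueField O) ![y0, y1, y2]) {c0 c1 c2 : O}
    {d0 d1 d2 : IsLocalRing.ResidueField O} (hx : x = c0 • w0 + c1 • w1 + c2 • w2)
    (hy : y = d0 • y0 + d1 • y1 + d2 • y2) : IsLocalRing.residue O c0 = d0 ∧
      IsLocalRing.residue O c1 = d1 ∧ IsLocalRing.residue O c2 = d2 := by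
  obtain ⟨e0, e1, e2⟩ := Vb_ind0 hli (IsLocalRing.residue O c0 - d0)
    (IsLocalRing.residue O c1 - d1) (IsLocalRing.residue O c2 - d2) (by
      funext i
      have h6 := congrArg (IsLocalRing.residue O) (congrFun hx i)
      have h7 := congrFun hy i
      have h8 := congrFun h i
      rw [h8] at h7
      simp only [Pi.add_apply, Pi.smul_apply, smul_eq_mul, Pi.zero_apply, map_add, map_mul]
        at h6 h7 ⊢
      rw [h0, h1, h2] at h7 ⊢
      beta_reduce at h7 ⊢
      linear_combination h7 - h6)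
  exact ⟨sub_eq_zero.1 e0, sub_eq_zero.1 e1, sub_eq_zero.1 e2⟩

/-- the kernel is spanned by three vectors -/
private theorem Vb_ker {w : Fin 3 → ι → O}
    (hli : LinearIndependent (IsLocalRing.ResidueField O)
      (fun k i => IsLocalRing.residue O (w k i))) (h3 : SVLI) (h4 : SVKer) (G : Matrix ι ι O)
    (hdim : Module.finrank (IsLocalRing.ResidueField O)
        (LinearMap.ker (G.map (IsLocalRing.residue O)).mulVecLin) ≤ 3)
    (hw : ∀ k, G.mulVec (w k) = 0) (x : ι → O) (hx : G.mulVec x = 0) :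
    ∃ c0 c1 c2 : O, x = c0 • w 0 + c1 • w 1 + c2 • w 2 := by
  have hker : ∀ y : ι → O, G.mulVec y = 0 →
      (fun i => (y i : F)) ∈ LinearMap.ker ((G.map (algebraMap O F)).mulVecLin) := by
    intro y hy
    rw [LinearMap.mem_ker, Matrix.mulVecLin_apply, ← Vb_up, hy]
    rfl
  obtain ⟨hliF, hint⟩ := h3 F O ι (Fin 3) w hli
  have hle : Submodule.span F (Set.range (fun (m : Fin 3) i => (((w m) i : O) : F))) ≤
      LinearMap.ker ((G.map (algebraMap O F)).mulVecLin) := by
    rw [Submodule.span_le]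
    rintro _ ⟨m, rfl⟩
    exact hker _ (hw m)
  have heq := Submodule.eq_of_le_of_finrank_le hle (by
    rw [finrank_span_eq_card hliF, Fintype.card_fin]
    exact (h4 F O ι G).trans hdim)
  have hmem := hker _ hx
  rw [← heq, Submodule.mem_span_range_iff_exists_fun] at hmem
  obtain ⟨c, hc3⟩ := hmem
  have hcO := hint x c (fun i => by
    have h6 := congrFun hc3 i
    rw [Finset.sum_apply] at h6
    exact h6.symm)
  refine ⟨⟨c 0, hcO 0⟩, ⟨c 1, hcO 1⟩, ⟨c 2, hcO 2⟩, ?_⟩
  funext i
  apply Subtype.val_injective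
  have h6 := congrFun hc3 i
  rw [Finset.sum_apply, Fin.sum_univ_three] at h6
  exact h6.symm

/-- uniqueness of a lifted eigenvector -/
private theorem Vb_uniq (h4 : SVKer) (G : Matrix ι ι O) (l' : O) (v : ι → O)
    (l : IsLocalRing.ResidueField O) (v0 : ι → IsLocalRing.ResidueField O)
    (hl : IsLocalRing.residue O l' = l) (hv : v0 = fun i => IsLocalRing.residue O (v i))
    (hv0 : v0 ≠ 0) (hG : G.mulVec v = l' • v)
    (hG0 : (G.map (IsLocalRing.residue O)).mulVec v0 = l • v0)
    (huniq : ∀ x, (G.map (IsLocalRing.residue O)).mulVec x = l • x →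
      ∃ c : IsLocalRing.ResidueField O, x = c • v0) (y : ι → F)
    (hy : (G.map (algebraMap O F)).mulVec y = (l' : F) • y) :
    ∃ c : F, y = fun i => c * (v i : F) := by
  have hker := h4 F O ι (G - l' • (1 : Matrix ι ι O))
  have hk2 : Module.finrank (IsLocalRing.ResidueField O) (LinearMap.ker
      ((G - l' • (1 : Matrix ι ι O)).map (IsLocalRing.residue O)).mulVecLin) ≤ 1 := by
    have hmem : ∀ z : ι → IsLocalRing.ResidueField O,
        z ∈ LinearMap.ker ((G - l' • (1 : Matrix ι ι O)).map (IsLocalRing.residue O)).mulVecLin ↔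
          (G.map (IsLocalRing.residue O)).mulVec z = l • z := by
      intro z
      rw [LinearMap.mem_ker, Matrix.mulVecLin_apply]
      have h3 : (G - l' • (1 : Matrix ι ι O)).map (IsLocalRing.residue O) =
          G.map (IsLocalRing.residue O) - l • (1 : Matrix ι ι (IsLocalRing.ResidueField O)) := by
        ext i j
        simp only [Matrix.map_apply, Matrix.sub_apply, Matrix.smul_apply, smul_eq_mul, map_sub,
          map_mul, hl]
        congr 2
        rw [Matrix.one_apply, Matrix.one_apply]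
        split_ifs <;> simp
      rw [h3, Matrix.sub_mulVec, sub_eq_zero, Matrix.smul_mulVec, Matrix.one_mulVec]
    refine finrank_le_one ⟨v0, (hmem v0).2 hG0⟩ ?_
    rintro ⟨z, hz⟩
    obtain ⟨a, ha⟩ := huniq z ((hmem z).1 hz)
    exact ⟨a, Subtype.ext ha.symm⟩
  have hk1 := hker.trans hk2
  have hmem : ∀ z : ι → F,
      (G.map (algebraMap O F)).mulVec z = (l' : F) • z →
      z ∈ LinearMap.ker ((G - l' • (1 : Matrix ι ι O)).map (algebraMap O F)).mulVecLin := by
    intro z hz
    rw [LinearMap.mem_ker, Matrix.mulVecLin_apply]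
    have h3 : (G - l' • (1 : Matrix ι ι O)).map (algebraMap O F) =
        G.map (algebraMap O F) - (l' : F) • (1 : Matrix ι ι F) := by
      ext i j
      simp only [Matrix.map_apply, Matrix.sub_apply, Matrix.smul_apply, smul_eq_mul, map_sub,
        map_mul]
      congr 2
      rw [Matrix.one_apply, Matrix.one_apply]
      split_ifs <;> simp
    rw [h3, Matrix.sub_mulVec, sub_eq_zero, Matrix.smul_mulVec, Matrix.one_mulVec]
    exact hz
  obtain ⟨⟨g, hg⟩, hgen⟩ := finrank_le_one_iff.1 hk1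
  have hvF : (G.map (algebraMap O F)).mulVec (fun i => (v i : F)) =
      (l' : F) • fun i => (v i : F) := by
    rw [← Vb_up, hG]
    rfl
  obtain ⟨a, ha⟩ := hgen ⟨_, hmem _ hvF⟩
  obtain ⟨b, hb⟩ := hgen ⟨_, hmem _ hy⟩
  have ha' : ∀ i, a * g i = (v i : F) := fun i => congrFun (congrArg Subtype.val ha) i
  have hb' : ∀ i, b * g i = y i := fun i => congrFun (congrArg Subtype.val hb) i
  have ha0 : a ≠ 0 := by
    rintro rfl
    apply hv0
    rw [hv]
    funext i
    have h3 := ha' i
    rw [zero_mul] at h3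
    have h4 : v i = 0 := Subtype.ext h3.symm
    rw [h4, map_zero]
    rfl
  refine ⟨b / a, funext fun i => ?_⟩
  rw [← hb' i, ← ha' i]
  field_simp

end gen

theorem pVb (h1 : SVLI) (h2 : SVKer) (h3 : SVEig) : SVb := by
  intro F _ _ O ι _ _ S T lam u hbr hTu hsgl S0 T0 u0 v0 l z0 a0 b0 f0 al be ga x1 x2 x3 hS0 hT0
    hu0 hli hli2 hv0 hSv0 hSu0 hSSu hTv0 hz0 hfin
  have hbr' : T.1 * S.1 * T.1 * S.1 = S.1 * T.1 * S.1 * T.1 := by
    have h6 := congrArg (fun x : GL ι O => x.1) hbr
    simpa only [Units.val_mul] using h6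
  have hbv : ∀ x, T.1.mulVec (S.1.mulVec (T.1.mulVec (S.1.mulVec x))) =
      S.1.mulVec (T.1.mulVec (S.1.mulVec (T.1.mulVec x))) := by
    intro x
    have h6 := congrArg (fun A => A.mulVec x) hbr'
    beta_reduce at h6
    simpa only [← Matrix.mulVec_mulVec] using h6
  have hz : ∀ x, ((T.1 * S.1) ^ 2).mulVec x =
      T.1.mulVec (S.1.mulVec (T.1.mulVec (S.1.mulVec x))) := by
    intro x
    simp only [pow_succ, pow_zero, one_mul, Matrix.mulVec_mulVec, mul_assoc]
  have hu0ne : (fun i => IsLocalRing.residue O (u i)) ≠ 0 := by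
    rw [← hu0]
    exact hli.ne_zero 0
  have hv0ne : v0 ≠ 0 := hli2.ne_zero 2
  have hzS : ∀ (ze : O) x, ((T.1 * S.1) ^ 2).mulVec x = ze • x →
      ((T.1 * S.1) ^ 2).mulVec (S.1.mulVec x) = ze • S.1.mulVec x := by
    intro ze x hx
    rw [hz] at hx ⊢
    rw [hbv (S.1.mulVec x), hx, Matrix.mulVec_smul]
  have hzT : ∀ (ze : O) x, ((T.1 * S.1) ^ 2).mulVec x = ze • x →
      ((T.1 * S.1) ^ 2).mulVec (T.1.mulVec x) = ze • T.1.mulVec x := by
    intro ze x hx
    rw [hz] at hx ⊢
    rw [← hbv x, hx, Matrix.mulVec_smul]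
  obtain ⟨ze, hze⟩ : ∃ ze : O, ((T.1 * S.1) ^ 2).mulVec u = ze • u := by
    refine Vb_mult hu0ne (hsgl _ ?_)
    have h6 : T.1.mulVec (((T.1 * S.1) ^ 2).mulVec u) = lam • ((T.1 * S.1) ^ 2).mulVec u := by
      rw [hz, hbv, hTu]
      simp only [Matrix.mulVec_smul]
      rw [hbv, hTu]
      simp only [Matrix.mulVec_smul]
    rw [← Vb_up, h6]
    rfl
  have hmap1 : ((T.1 * S.1) ^ 2).map (IsLocalRing.residue O) = (T0 * S0) ^ 2 := by
    rw [hS0, hT0, ← RingHom.mapMatrix_apply, ← RingHom.mapMatrix_apply,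
      ← RingHom.mapMatrix_apply, map_pow, map_mul]
  have hzer : IsLocalRing.residue O ze = z0 := by
    have hv0r : (fun i => IsLocalRing.residue O (((T.1 * S.1) ^ 2).mulVec u i)) =
        ((T0 * S0) ^ 2).mulVec u0 := by
      rw [Vb_red, hu0, hmap1]
    rw [hz0, hze, hu0] at hv0r
    obtain ⟨i0, hi0⟩ : ∃ i, IsLocalRing.residue O (u i) ≠ 0 := by
      by_contra hne
      push Not at hne
      exact hu0ne (funext hne)
    have h6 := congrFun hv0r i0
    simp only [Pi.smul_apply, smul_eq_mul, map_mul] at h6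
    exact mul_right_cancel₀ hi0 h6
  have hmap : ((T.1 * S.1) ^ 2 - ze • (1 : Matrix ι ι O)).map (IsLocalRing.residue O) =
      (T0 * S0) ^ 2 - z0 • (1 : Matrix ι ι (IsLocalRing.ResidueField O)) := by
    rw [← hmap1]
    ext i j
    simp only [Matrix.map_apply, Matrix.sub_apply, Matrix.smul_apply, smul_eq_mul, map_sub,
      map_mul, hzer, Matrix.one_apply]
    split_ifs
    · rw [map_one]
    · rw [map_zero]
  have hG : ∀ x, ((T.1 * S.1) ^ 2).mulVec x = ze • x →
      ((T.1 * S.1) ^ 2 - ze • (1 : Matrix ι ι O)).mulVec x = 0 := by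
    intro x hx
    rw [Matrix.sub_mulVec, Matrix.smul_mulVec, Matrix.one_mulVec, hx, sub_self]
  have hrS : S0.mulVec u0 = (fun i => IsLocalRing.residue O (S.1.mulVec u i)) := by
    rw [Vb_red, hu0, hS0]
  have hrTS : T0.mulVec (S0.mulVec u0) =
      (fun i => IsLocalRing.residue O (T.1.mulVec (S.1.mulVec u) i)) := by
    rw [Vb_red, ← hrS, hT0]
  have hliw : LinearIndependent (IsLocalRing.ResidueField O) (fun k i =>
      IsLocalRing.residue O ((![u, S.1.mulVec u, T.1.mulVec (S.1.mulVec u)] : Fin 3 → ι → O) k i)) := by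
    have e1 : (fun (m : Fin 3) i => IsLocalRing.residue O
        ((![u, S.1.mulVec u, T.1.mulVec (S.1.mulVec u)] : Fin 3 → ι → O) m i)) =
        ![u0, S0.mulVec u0, T0.mulVec (S0.mulVec u0)] := by
      funext m
      fin_cases m
      · exact hu0.symm
      · exact hrS.symm
      · exact hrTS.symm
    rw [e1]
    exact hli
  have hze1 := hzS ze _ hze
  have hze2 := hzT ze _ hze1
  have hbas : ∀ x, ((T.1 * S.1) ^ 2).mulVec x = ze • x → ∃ c0 c1 c2 : O,
      x = c0 • u + c1 • S.1.mulVec u + c2 • T.1.mulVec (S.1.mulVec u) := by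
    intro x hx
    refine Vb_ker hliw h1 h2 ((T.1 * S.1) ^ 2 - ze • (1 : Matrix ι ι O))
      (by rw [hmap]; exact hfin) ?_ x (hG x hx)
    intro k
    fin_cases k
    · exact hG _ hze
    · exact hG _ hze1
    · exact hG _ hze2
  obtain ⟨p0, p1, p2, hp⟩ := hbas _ (hzS ze _ hze1)
  obtain ⟨r0, r1, r2, hr⟩ := hbas _ (hzS ze _ hze2)
  -- the matrix of `S`
  let G : Matrix (Fin 3) (Fin 3) O := !![0, p0, r0; 1, p1, r1; 0, p2, r2]
  have hGv : ∀ y : Fin 3 → O, S.1.mulVec (y 0 • u + y 1 • S.1.mulVec u +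
      y 2 • T.1.mulVec (S.1.mulVec u)) = (G.mulVec y) 0 • u + (G.mulVec y) 1 • S.1.mulVec u +
      (G.mulVec y) 2 • T.1.mulVec (S.1.mulVec u) := by
    intro y
    simp only [Matrix.mulVec_add, Matrix.mulVec_smul]
    rw [hp, hr]
    simp only [G, Matrix.mulVec, dotProduct, Fin.sum_univ_three, Matrix.of_apply,
      Matrix.cons_val', Matrix.cons_val_zero, Matrix.cons_val_one, Matrix.cons_val]
    module
  have hG0 : ∀ y : Fin 3 → IsLocalRing.ResidueField O, S0.mulVec (y 0 • u0 + y 1 • S0.mulVec u0 +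
      y 2 • T0.mulVec (S0.mulVec u0)) = ((G.map (IsLocalRing.residue O)).mulVec y) 0 • u0 +
      ((G.map (IsLocalRing.residue O)).mulVec y) 1 • S0.mulVec u0 +
      ((G.map (IsLocalRing.residue O)).mulVec y) 2 • T0.mulVec (S0.mulVec u0) := by
    intro y
    have hp0 : S0.mulVec (S0.mulVec u0) = IsLocalRing.residue O p0 • u0 +
        IsLocalRing.residue O p1 • S0.mulVec u0 +
        IsLocalRing.residue O p2 • T0.mulVec (S0.mulVec u0) := by
      have h6 : S0.mulVec (S0.mulVec u0) =
          (fun i => IsLocalRing.residue O (S.1.mulVec (S.1.mulVec u) i)) := by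
        rw [Vb_red, ← hrS, hS0]
      rw [h6, hp, hrTS, hrS, hu0]
      funext i
      simp only [Pi.add_apply, Pi.smul_apply, smul_eq_mul, map_add, map_mul]
    have hr0 : S0.mulVec (T0.mulVec (S0.mulVec u0)) = IsLocalRing.residue O r0 • u0 +
        IsLocalRing.residue O r1 • S0.mulVec u0 +
        IsLocalRing.residue O r2 • T0.mulVec (S0.mulVec u0) := by
      have h6 : S0.mulVec (T0.mulVec (S0.mulVec u0)) =
          (fun i => IsLocalRing.residue O (S.1.mulVec (T.1.mulVec (S.1.mulVec u)) i)) := by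
        rw [Vb_red, ← hrTS, hS0]
      rw [h6, hr, hrTS, hrS, hu0]
      funext i
      simp only [Pi.add_apply, Pi.smul_apply, smul_eq_mul, map_add, map_mul]
    simp only [Matrix.mulVec_add, Matrix.mulVec_smul]
    rw [hp0, hr0]
    simp only [G, Matrix.mulVec, dotProduct, Fin.sum_univ_three, Matrix.of_apply,
      Matrix.cons_val', Matrix.cons_val_zero, Matrix.cons_val_one, Matrix.cons_val,
      Matrix.map_apply, map_zero, map_one]
    funext i
    simp only [Pi.add_apply, Pi.smul_apply, smul_eq_mul]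
    ring
  have hind0 := fun a b c h => Vb_ind0 hli a b c h
  -- the eigenvector
  obtain ⟨l', y, hl', hy, hGy, -⟩ := h3 F O (Fin 3) G l ![x1, x2, x3] (by
      intro h6
      apply hv0ne
      have e1 : x1 = 0 := congrFun h6 0
      have e2 : x2 = 0 := congrFun h6 1
      have e3 : x3 = 0 := congrFun h6 2
      rw [hv0, e1, e2, e3]
      simp only [zero_smul, add_zero]) (by
      have h6 := hG0 ![x1, x2, x3]
      have h7 : (![x1, x2, x3] 0 • u0 + ![x1, x2, x3] 1 • S0.mulVec u0 +
        ![x1, x2, x3] 2 • T0.mulVec (S0.mulVec u0) : ι → IsLocalRing.ResidueField O) = v0 :=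
        hv0.symm
      rw [h7, hSv0] at h6
      obtain ⟨e0, e1, e2⟩ := hind0 (((G.map (IsLocalRing.residue O)).mulVec ![x1, x2, x3]) 0 -
        l * x1) (((G.map (IsLocalRing.residue O)).mulVec ![x1, x2, x3]) 1 - l * x2)
        (((G.map (IsLocalRing.residue O)).mulVec ![x1, x2, x3]) 2 - l * x3) (by
          funext i
          have h8 := congrFun h6 i
          have h9 := congrFun hv0 i
          simp only [Pi.add_apply, Pi.smul_apply, smul_eq_mul, Pi.zero_apply] at h8 h9 ⊢
          rw [h9] at h8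
          linear_combination -h8)
      funext k
      fin_cases k
      · exact sub_eq_zero.1 e0
      · exact sub_eq_zero.1 e1
      · exact sub_eq_zero.1 e2) (by
      intro x hx
      have h6 := hG0 x
      rw [hx] at h6
      obtain ⟨c, hc⟩ := hSu0 (x 0 • u0 + x 1 • S0.mulVec u0 + x 2 • T0.mulVec (S0.mulVec u0)) (by
        rw [h6]
        funext i
        simp only [Pi.add_apply, Pi.smul_apply, smul_eq_mul]
        ring)
      refine ⟨c, ?_⟩
      obtain ⟨e0, e1, e2⟩ := hind0 (x 0 - c * x1) (x 1 - c * x2) (x 2 - c * x3) (by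
          funext i
          have h8 := congrFun hc i
          have h9 := congrFun hv0 i
          simp only [Pi.add_apply, Pi.smul_apply, smul_eq_mul, Pi.zero_apply] at h8 h9 ⊢
          rw [h9] at h8
          linear_combination h8)
      funext k
      fin_cases k
      · exact sub_eq_zero.1 e0
      · exact sub_eq_zero.1 e1
      · exact sub_eq_zero.1 e2)
  set v : ι → O := y 0 • u + y 1 • S.1.mulVec u + y 2 • T.1.mulVec (S.1.mulVec u) with hv
  have hSv : S.1.mulVec v = l' • v := by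
    rw [hv, hGv, hGy]
    simp only [Pi.smul_apply, smul_eq_mul]
    module
  have hrv : v0 = fun i => IsLocalRing.residue O (v i) := by
    rw [hv0, hv, hrTS, hrS, hu0]
    have e1 : IsLocalRing.residue O (y 0) = x1 := hy 0
    have e2 : IsLocalRing.residue O (y 1) = x2 := hy 1
    have e3 : IsLocalRing.residue O (y 2) = x3 := hy 2
    rw [← e1, ← e2, ← e3]
    funext i
    simp only [Pi.add_apply, Pi.smul_apply, smul_eq_mul, map_add, map_mul]
  have hzv : ((T.1 * S.1) ^ 2).mulVec v = ze • v := by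
    rw [hv]
    simp only [Matrix.mulVec_add, Matrix.mulVec_smul]
    rw [hze, hze1, hze2]
    module
  -- the second basis
  have hliw2 : LinearIndependent (IsLocalRing.ResidueField O) (fun k i =>
      IsLocalRing.residue O ((![u, S.1.mulVec u, v] : Fin 3 → ι → O) k i)) := by
    have e1 : (fun (m : Fin 3) i => IsLocalRing.residue O
        ((![u, S.1.mulVec u, v] : Fin 3 → ι → O) m i)) = ![u0, S0.mulVec u0, v0] := by
      funext m
      fin_cases m
      · exact hu0.symm
      · exact hrS.symm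
      · exact hrv.symm
    rw [e1]
    exact hli2
  have hbas2 : ∀ x, ((T.1 * S.1) ^ 2).mulVec x = ze • x → ∃ c0 c1 c2 : O,
      x = c0 • u + c1 • S.1.mulVec u + c2 • v := by
    intro x hx
    refine Vb_ker hliw2 h1 h2 ((T.1 * S.1) ^ 2 - ze • (1 : Matrix ι ι O))
      (by rw [hmap]; exact hfin) ?_ x (hG x hx)
    intro k
    fin_cases k
    · exact hG _ hze
    · exact hG _ hze1
    · exact hG _ hzv
  obtain ⟨b, a, f, hrel1⟩ := hbas2 _ (hzS ze _ hze1)
  obtain ⟨ga', be', al', hrel2⟩ := hbas2 _ (hzT ze _ hzv)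
  obtain ⟨rb, ra, rf⟩ := Vb_res hu0 hrS hrv (y := S0.mulVec (S0.mulVec u0))
    (by rw [Vb_red, ← hrS, hS0]) hli2 hrel1 (d0 := b0) (d1 := a0) (d2 := f0) (by
      rw [hSSu, add_comm (a0 • S0.mulVec u0)])
  obtain ⟨rga, rbe, ral⟩ := Vb_res hu0 hrS hrv (y := T0.mulVec v0)
    (by rw [Vb_red, ← hrv, hT0]) hli2 hrel2 (d0 := ga) (d1 := be) (d2 := al) (by
      rw [hTv0]
      funext i
      simp only [Pi.add_apply, Pi.smul_apply, smul_eq_mul]
      ring)
  refine ⟨l', v, hl', fun i => (congrFun hrv i).symm, hSv, ?_, ⟨y 0, y 1, y 2, rfl⟩,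
    ⟨a, b, f, ra, rb, rf, ?_⟩, ⟨al', be', ga', ral, rbe, rga, ?_⟩, ze, hzer, ?_, ?_⟩
  · intro x hx
    refine Vb_uniq h2 S.1 l' v l v0 hl' hrv hv0ne hSv ?_ ?_ x hx
    · rw [← hS0]
      exact hSv0
    · rw [← hS0]
      exact hSu0
  · rw [hrel1]
    module
  · rw [hrel2]
    module
  · rw [← hz, hze]
  · rw [← hz, hzv]

end Pool.Agent.Lib.MP_97567f_al.U.TB
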